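import Mathlib

/-!
# Models of ZF, and the statement (S), every subgroup of an amenable group is amenable, in a model
-/

namespace Pool.Agent.Helper79.ZF

open FirstOrder

/-- The relation symbols of the language of set theory: a single binary one. -/
inductive memRel : ℕ → Type
  | mem : memRel 2

/-- The language of set theory. -/
def LSet : Language := ⟨fun _ => Empty, memRel⟩

/-- A type with a membership relation is a structure for the language of set theory. -/
instance instStr (M : Type) [Membership M M] : LSet.Structure M where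
  funMap := fun f => f.elim
  RelMap := fun {_} r => memRel.rec (motive := fun n _ => (Fin n → M) → Prop) (fun x => x 0 ∈ x 1) r

/-- `M`, with its membership relation, is a model of Zermelo-Fraenkel set theory (without choice).
Separation and replacement are the first-order schemes, for classes definable with parameters. -/
class ZFModel (M : Type) [Membership M M] : Prop where
  ext : ∀ x y : M, (∀ z : M, z ∈ x ↔ z ∈ y) → x = y
  found : ∀ x : M, (∃ y : M, y ∈ x) → ∃ y : M, y ∈ x ∧ ∀ z : M, z ∈ y → ¬ z ∈ x
  pair : ∀ x y : M, ∃ z : M, ∀ w : M, w ∈ z ↔ (w = x ∨ w = y)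
  union : ∀ x : M, ∃ y : M, ∀ z : M, z ∈ y ↔ ∃ w : M, w ∈ x ∧ z ∈ w
  power : ∀ x : M, ∃ y : M, ∀ z : M, z ∈ y ↔ ∀ w : M, w ∈ z → w ∈ x
  infinity : ∃ x : M, (∃ e : M, e ∈ x ∧ ∀ z : M, ¬ z ∈ e) ∧
    ∀ y : M, y ∈ x → ∃ z : M, z ∈ x ∧ ∀ w : M, w ∈ z ↔ (w ∈ y ∨ w = y)
  separation : ∀ S : Set M, (Set.univ : Set M).Definable₁ LSet S →
    ∀ x : M, ∃ y : M, ∀ z : M, z ∈ y ↔ (z ∈ x ∧ z ∈ S)
  replacement : ∀ R : Set (M × M), (Set.univ : Set M).Definable₂ LSet R → ∀ x : M,
    (∀ y : M, y ∈ x → ∃! z : M, (y, z) ∈ R) → ∃ w : M, ∀ z : M, z ∈ w ↔ ∃ y : M, y ∈ x ∧ (y, z) ∈ R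

section
variable {M : Type} [Membership M M]

/-- The type of elements of the set `A` of the model. -/
def El (A : M) : Type := {x : M // x ∈ A}

/-- underlying element of the model -/
def El.v {A : M} (x : El A) : M := x.1

/-- `p` is the Kuratowski ordered pair `{{x}, {x, y}}` of `x` and `y` in the model. -/
def IsPair (p x y : M) : Prop :=
  ∀ z : M, z ∈ p ↔ ((∀ w : M, w ∈ z ↔ w = x) ∨ ∀ w : M, w ∈ z ↔ (w = x ∨ w = y))

/-- The set `T` of the model is the graph `{((x, y), z) | z = op x y}` of the operation `op`. -/
def IsGraph {A : M} (op : El A → El A → El A) (T : M) : Prop :=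
  ∀ (x y z : El A) (p q : M), IsPair p x.v y.v → IsPair q p z.v → (q ∈ T ↔ op x y = z)

end

/-- A group in the sense of the model `M`: a set `car` of the model with a group structure on its
elements whose multiplication table is a set of the model. -/
structure ModelGroup (M : Type) [Membership M M] where
  car : M
  grp : Group (El car)
  table : ∃ T : M, IsGraph (fun x y : El car => x * y) T

/-- A complete ordered field in the sense of the model `M`, that is, the field of real numbers of the
model: the addition, the multiplication and the order are sets of the model, and every nonempty subset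
that is a set of the model and is bounded above has a least upper bound. -/
structure ModelReals (M : Type) [Membership M M] where
  car : M
  fld : Field (El car)
  ord : LinearOrder (El car)
  strict : IsStrictOrderedRing (El car)
  add_table : ∃ T : M, IsGraph (fun x y : El car => x + y) T
  mul_table : ∃ T : M, IsGraph (fun x y : El car => x * y) T
  le_table : ∃ T : M, ∀ (x y : El car) (p : M), IsPair p x.v y.v → (p ∈ T ↔ x ≤ y)
  complete : ∀ S : M, (∃ x : El car, x.v ∈ S) → (∃ b : El car, ∀ x : El car, x.v ∈ S → x ≤ b) →
    ∃ s : El car, IsLUB {x : El car | x.v ∈ S} s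

attribute [instance] ModelGroup.grp ModelReals.fld ModelReals.ord ModelReals.strict

section
variable {M : Type} [Membership M M]

/-- `A` is a subset of `B` in the model. -/
def MSub (A B : M) : Prop := ∀ x : M, x ∈ A → x ∈ B

/-- `μ`, restricted to the subsets of the group `G` that belong to the model, is a finitely additive,
left-invariant probability measure in the sense of the model, with values in `[0, 1] ⊆ R`. -/
structure IsMeasure (R : ModelReals M) (G : ModelGroup M) (μ : M → El R.car) : Prop where
  graph : ∃ T : M, ∀ A : M, MSub A G.car → ∀ (r : El R.car) (p : M), IsPair p A r.v → (p ∈ T ↔ μ A = r)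
  unit : ∀ A : M, MSub A G.car → 0 ≤ μ A ∧ μ A ≤ 1
  total : μ G.car = 1
  additive : ∀ A B C : M, MSub A G.car → MSub B G.car → (∀ x : M, ¬ (x ∈ A ∧ x ∈ B)) →
    (∀ x : M, x ∈ C ↔ (x ∈ A ∨ x ∈ B)) → μ C = μ A + μ B
  invariant : ∀ (g : El G.car) (A B : M), MSub A G.car → MSub B G.car →
    (∀ x : El G.car, x.v ∈ A ↔ (g * x).v ∈ B) → μ B = μ A

/-- The group `G` is amenable in the sense of the model. -/
def Amenable (R : ModelReals M) (G : ModelGroup M) : Prop := ∃ μ : M → El R.car, IsMeasure R G μ

/-- `H` is a subgroup of `G`: a subset on which the multiplication is the one of `G`. -/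
def IsSubgroup (H G : ModelGroup M) : Prop :=
  ∃ i : El H.car → El G.car, (∀ x, (i x).v = x.v) ∧ ∀ x y, i (x * y) = i x * i y

end

/-- The statement (S) holds in the model `M`: every subgroup of an amenable group is amenable. -/
def StatementS (M : Type) [Membership M M] : Prop :=
  ∀ (R : ModelReals M) (G H : ModelGroup M), IsSubgroup H G → Amenable R G → Amenable R H

end Pool.Agent.Helper79.ZF
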