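import Mathlib

/-!
# Ordinals of a model and end extensions with the same ordinals
-/

namespace Pool.Agent.Helper79.ZF

section
variable {M : Type} [Membership M M]

/-- `x` is a von Neumann ordinal of the model: a transitive set of transitive sets. -/
def IsOrd (x : M) : Prop :=
  (∀ y z : M, y ∈ x → z ∈ y → z ∈ x) ∧ ∀ y : M, y ∈ x → ∀ z w : M, z ∈ y → w ∈ z → w ∈ y

/-- `ι` embeds the model `M` in the model `N` as a transitive part of `N` that contains all the
ordinals of `N`. -/
structure OrdEndExt {N : Type} [Membership N N] (ι : M → N) : Prop where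
  inj : Function.Injective ι
  mem_iff : ∀ x y : M, ι x ∈ ι y ↔ x ∈ y
  trans : ∀ (x : M) (z : N), z ∈ ι x → ∃ y : M, ι y = z
  ords : ∀ z : N, IsOrd z → ∃ y : M, ι y = z

end

end Pool.Agent.Helper79.ZF
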