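import Pool.Agent.Helper79.ZF.Sets

/-!
# Countable models
-/

namespace Pool.Agent.Helper79.ZF

open FirstOrder Set Cardinal

section
variable {S M : Type} [Membership S S] [Membership M M]

/-- a pair of relations given by the same formula -/
def UD {α : Type} (RS : (α → S) → Prop) (RM : (α → M) → Prop) : Prop :=
  ∃ φ : LSet.Formula α, (∀ v, RS v ↔ φ.Realize v) ∧ (∀ v, RM v ↔ φ.Realize v)

variable {α : Type}

theorem UD.mem (i j : α) : UD (fun v : α → S => v i ∈ v j) (fun v : α → M => v i ∈ v j) := by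
  refine ⟨Language.Relations.formula₂ (show LSet.Relations 2 from .mem) (Language.Term.var i) (Language.Term.var j), ?_, ?_⟩ <;>
  · intro v
    rw [Language.Formula.realize_rel₂]
    simp [Language.Structure.RelMap]

theorem UD.eq (i j : α) : UD (fun v : α → S => v i = v j) (fun v : α → M => v i = v j) := by
  refine ⟨(Language.Term.var i).equal (Language.Term.var j), ?_, ?_⟩ <;>
  · intro v
    simp

theorem UD.not {A : (α → S) → Prop} {B : (α → M) → Prop} (h : UD A B) : UD (fun v => ¬ A v) (fun v => ¬ B v) := by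
  obtain ⟨φ, h1, h2⟩ := h
  exact ⟨∼φ, fun v => by beta_reduce; rw [h1, Language.Formula.realize_not], fun v => by beta_reduce; rw [h2, Language.Formula.realize_not]⟩

theorem UD.and {A A' : (α → S) → Prop} {B B' : (α → M) → Prop} (h : UD A B) (h' : UD A' B') :
    UD (fun v => A v ∧ A' v) (fun v => B v ∧ B' v) := by
  obtain ⟨φ, h1, h2⟩ := h
  obtain ⟨ψ, h3, h4⟩ := h'
  exact ⟨φ ⊓ ψ, fun v => by beta_reduce; rw [h1, h3, Language.Formula.realize_inf], fun v => by beta_reduce; rw [h2, h4, Language.Formula.realize_inf]⟩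

theorem UD.or {A A' : (α → S) → Prop} {B B' : (α → M) → Prop} (h : UD A B) (h' : UD A' B') :
    UD (fun v => A v ∨ A' v) (fun v => B v ∨ B' v) := by
  obtain ⟨φ, h1, h2⟩ := h
  obtain ⟨ψ, h3, h4⟩ := h'
  exact ⟨φ ⊔ ψ, fun v => by beta_reduce; rw [h1, h3, Language.Formula.realize_sup], fun v => by beta_reduce; rw [h2, h4, Language.Formula.realize_sup]⟩

theorem UD.imp {A A' : (α → S) → Prop} {B B' : (α → M) → Prop} (h : UD A B) (h' : UD A' B') :
    UD (fun v => A v → A' v) (fun v => B v → B' v) := by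
  obtain ⟨φ, h1, h2⟩ := h
  obtain ⟨ψ, h3, h4⟩ := h'
  exact ⟨φ.imp ψ, fun v => by beta_reduce; rw [h1, h3, Language.Formula.realize_imp], fun v => by beta_reduce; rw [h2, h4, Language.Formula.realize_imp]⟩

theorem UD.iff {A A' : (α → S) → Prop} {B B' : (α → M) → Prop} (h : UD A B) (h' : UD A' B') :
    UD (fun v => A v ↔ A' v) (fun v => B v ↔ B' v) := by
  obtain ⟨φ, h1, h2⟩ := h
  obtain ⟨ψ, h3, h4⟩ := h'
  exact ⟨φ.iff ψ, fun v => by beta_reduce; rw [h1, h3, Language.Formula.realize_iff], fun v => by beta_reduce; rw [h2, h4, Language.Formula.realize_iff]⟩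

theorem UD.all {A : (α → S) → S → Prop} {B : (α → M) → M → Prop}
    (h : UD (fun v : (α ⊕ Unit) → S => A (fun i => v (Sum.inl i)) (v (Sum.inr ())))
      (fun v : (α ⊕ Unit) → M => B (fun i => v (Sum.inl i)) (v (Sum.inr ())))) :
    UD (fun v => ∀ x, A v x) (fun v => ∀ x, B v x) := by
  obtain ⟨φ, h1, h2⟩ := h
  refine ⟨φ.iAlls Unit, fun v => ?_, fun v => ?_⟩
  · rw [Language.Formula.realize_iAlls]
    constructor
    · intro h i
      rw [← h1]
      exact h _
    · intro h x
      have := h (fun _ => x)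
      rw [← h1] at this
      exact this
  · rw [Language.Formula.realize_iAlls]
    constructor
    · intro h i
      rw [← h2]
      exact h _
    · intro h x
      have := h (fun _ => x)
      rw [← h2] at this
      exact this

theorem UD.ex {A : (α → S) → S → Prop} {B : (α → M) → M → Prop}
    (h : UD (fun v : (α ⊕ Unit) → S => A (fun i => v (Sum.inl i)) (v (Sum.inr ())))
      (fun v : (α ⊕ Unit) → M => B (fun i => v (Sum.inl i)) (v (Sum.inr ())))) :
    UD (fun v => ∃ x, A v x) (fun v => ∃ x, B v x) := by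
  have h' := (UD.all (A := fun v x => ¬ A v x) (B := fun v x => ¬ B v x) h.not).not
  simpa only [not_forall, not_not] using h'

theorem UD.comp {β : Type} {A : (β → S) → Prop} {B : (β → M) → Prop} (h : UD A B) (r : β → α) :
    UD (fun v : α → S => A (fun i => v (r i))) (fun v : α → M => B (fun i => v (r i))) := by
  obtain ⟨φ, h1, h2⟩ := h
  exact ⟨φ.relabel r, fun v => by beta_reduce; rw [h1, Language.Formula.realize_relabel]; rfl,
    fun v => by beta_reduce; rw [h2, Language.Formula.realize_relabel]; rfl⟩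

/-- an elementary embedding, for the language of set theory -/
def Elem (j : S → M) : Prop := ∀ (α : Type) (φ : LSet.Formula α) (v : α → S), φ.Realize (fun i => j (v i)) ↔ φ.Realize v

theorem UD.transfer {j : S → M} (hj : Elem j) {A : (α → S) → Prop} {B : (α → M) → Prop} (h : UD A B) (v : α → S) :
    A v ↔ B (fun i => j (v i)) := by
  obtain ⟨φ, h1, h2⟩ := h
  rw [h1, h2, hj]

theorem Elem.inj {j : S → M} (hj : Elem j) {x y : S} (h : j x = j y) : x = y :=
  (UD.transfer hj (UD.eq (α := Bool) true false) (fun b => if b then x else y)).2 (by simpa using h)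

theorem Elem.mem {j : S → M} (hj : Elem j) {x y : S} : x ∈ y ↔ j x ∈ j y := by
  have := UD.transfer hj (UD.mem (α := Bool) true false) (fun b => if b then x else y)
  simpa using this

theorem Elem.zf {j : S → M} (hj : Elem j) [ZFModel M] : ZFModel S where
  ext := by
    have := UD.transfer hj (UD.all (α := Empty) (A := fun _ x => ∀ y : S, (∀ z : S, z ∈ x ↔ z ∈ y) → x = y)
      (B := fun _ x => ∀ y : M, (∀ z : M, z ∈ x ↔ z ∈ y) → x = y)
      (UD.all (A := fun v y => (∀ z : S, z ∈ v (Sum.inr ()) ↔ z ∈ y) → v (Sum.inr ()) = y)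
        (B := fun v y => (∀ z : M, z ∈ v (Sum.inr ()) ↔ z ∈ y) → v (Sum.inr ()) = y)
        (UD.imp (UD.all (UD.iff (UD.mem (Sum.inr ()) (Sum.inl (Sum.inl (Sum.inr ())))) (UD.mem (Sum.inr ()) (Sum.inl (Sum.inr ()))))) (UD.eq _ _)))) Empty.elim
    exact this.2 (fun x y h => ext' h)
  found := by
    have := UD.transfer hj (UD.all (α := Empty) (A := fun _ x => (∃ y : S, y ∈ x) → ∃ y : S, y ∈ x ∧ ∀ z : S, z ∈ y → ¬ z ∈ x)
      (B := fun _ x => (∃ y : M, y ∈ x) → ∃ y : M, y ∈ x ∧ ∀ z : M, z ∈ y → ¬ z ∈ x)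
      (UD.imp (UD.ex (UD.mem _ _)) (UD.ex (UD.and (UD.mem _ _) (UD.all (UD.imp (UD.mem _ _) (UD.not (UD.mem _ _)))))))) Empty.elim
    exact this.2 (fun x h => ZFModel.found x h)
  pair := by
    have := UD.transfer hj (UD.all (α := Empty) (A := fun _ x => ∀ y : S, ∃ z : S, ∀ w : S, w ∈ z ↔ (w = x ∨ w = y))
      (B := fun _ x => ∀ y : M, ∃ z : M, ∀ w : M, w ∈ z ↔ (w = x ∨ w = y))
      (UD.all (A := fun v y => ∃ z : S, ∀ w : S, w ∈ z ↔ (w = v (Sum.inr ()) ∨ w = y))
        (B := fun v y => ∃ z : M, ∀ w : M, w ∈ z ↔ (w = v (Sum.inr ()) ∨ w = y))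
        (UD.ex (UD.all (UD.iff (UD.mem _ _) (UD.or (UD.eq _ _) (UD.eq _ _))))))) Empty.elim
    exact this.2 (fun x y => ZFModel.pair x y)
  union := by
    have := UD.transfer hj (UD.all (α := Empty) (A := fun _ x => ∃ y : S, ∀ z : S, z ∈ y ↔ ∃ w : S, w ∈ x ∧ z ∈ w)
      (B := fun _ x => ∃ y : M, ∀ z : M, z ∈ y ↔ ∃ w : M, w ∈ x ∧ z ∈ w)
      (UD.ex (UD.all (UD.iff (UD.mem _ _) (UD.ex (UD.and (UD.mem _ _) (UD.mem _ _))))))) Empty.elim
    exact this.2 (fun x => ZFModel.union x)
  power := by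
    have := UD.transfer hj (UD.all (α := Empty) (A := fun _ x => ∃ y : S, ∀ z : S, z ∈ y ↔ ∀ w : S, w ∈ z → w ∈ x)
      (B := fun _ x => ∃ y : M, ∀ z : M, z ∈ y ↔ ∀ w : M, w ∈ z → w ∈ x)
      (UD.ex (UD.all (UD.iff (UD.mem _ _) (UD.all (UD.imp (UD.mem _ _) (UD.mem _ _))))))) Empty.elim
    exact this.2 (fun x => ZFModel.power x)
  infinity := by
    have := UD.transfer hj (UD.ex (α := Empty) (A := fun _ x => (∃ e : S, e ∈ x ∧ ∀ z : S, ¬ z ∈ e) ∧
        ∀ y : S, y ∈ x → ∃ z : S, z ∈ x ∧ ∀ w : S, w ∈ z ↔ (w ∈ y ∨ w = y))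
      (B := fun _ x => (∃ e : M, e ∈ x ∧ ∀ z : M, ¬ z ∈ e) ∧
        ∀ y : M, y ∈ x → ∃ z : M, z ∈ x ∧ ∀ w : M, w ∈ z ↔ (w ∈ y ∨ w = y))
      (UD.and (UD.ex (UD.and (UD.mem _ _) (UD.all (UD.not (UD.mem _ _)))))
        (UD.all (UD.imp (UD.mem _ _) (UD.ex (UD.and (UD.mem _ _) (UD.all (UD.iff (UD.mem _ _) (UD.or (UD.mem _ _) (UD.eq _ _)))))))))) Empty.elim
    exact this.2 (ZFModel.infinity)
  separation := by
    intro X hX x
    rw [Set.Definable₁, Set.definable_iff_exists_formula_sum] at hX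
    obtain ⟨φ, hφ⟩ := hX
    -- the set defined by the same formula in the big model
    have h1 : UD (fun v : (((Set.univ : Set S) ⊕ Fin 1) → S) => φ.Realize v) (fun v : (((Set.univ : Set S) ⊕ Fin 1) → M) => φ.Realize v) :=
      ⟨φ, fun _ => Iff.rfl, fun _ => Iff.rfl⟩
    have h2 : UD (fun v : (((Set.univ : Set S) ⊕ Fin 1) → S) => ∃ y : S, ∀ z : S, z ∈ y ↔ (z ∈ v (Sum.inr 0) ∧
        φ.Realize (Sum.elim (fun i => v (Sum.inl i)) (fun _ => z))))
      (fun v : (((Set.univ : Set S) ⊕ Fin 1) → M) => ∃ y : M, ∀ z : M, z ∈ y ↔ (z ∈ v (Sum.inr 0) ∧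
        φ.Realize (Sum.elim (fun i => v (Sum.inl i)) (fun _ => z)))) := by
      refine UD.ex (UD.all (UD.iff (UD.mem _ _) (UD.and (UD.mem _ _) ?_)))
      have h3 := h1.comp (α := ((((Set.univ : Set S) ⊕ Fin 1) ⊕ Unit) ⊕ Unit))
        (Sum.elim (fun i => Sum.inl (Sum.inl (Sum.inl i))) (fun _ => Sum.inr ()))
      convert h3 using 2 with v
      · congr! 1
        funext i; rcases i with i | i <;> rfl
      · congr! 1
        funext i; rcases i with i | i <;> rfl
    obtain ⟨y, hy⟩ := (h2.transfer hj (Sum.elim (fun i => i.1) (fun _ => x))).2 (by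
      apply ZFModel.separation {z : M | φ.Realize (Sum.elim (fun i : (Set.univ : Set S) => j i.1) (fun _ : Fin 1 => z))}
      rw [Set.Definable₁, Set.definable_iff_exists_formula_sum]
      refine ⟨φ.relabel (Sum.elim (fun i => Sum.inl ⟨j i.1, Set.mem_univ _⟩) Sum.inr), ?_⟩
      ext g
      simp only [Set.mem_ofPred_eq, Language.Formula.realize_relabel]
      congr! 1
      funext i
      rcases i with i | i
      · rfl
      · have : i = 0 := Subsingleton.elim _ _
        subst this; rfl)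
    refine ⟨y, fun z => ?_⟩
    rw [hy]
    refine and_congr Iff.rfl ?_
    have : (z ∈ X) ↔ (fun _ : Fin 1 => z) ∈ {x : Fin 1 → S | X (x 0)} := Iff.rfl
    rw [this]
    have h5 := Set.ext_iff.1 hφ (fun _ => z)
    exact h5.symm
  replacement := by
    intro X hX x hx
    rw [Set.Definable₂, Set.definable_iff_exists_formula_sum] at hX
    obtain ⟨φ, hφ⟩ := hX
    have h1 : UD (fun v : (((Set.univ : Set S) ⊕ Fin 2) → S) => φ.Realize v) (fun v : (((Set.univ : Set S) ⊕ Fin 2) → M) => φ.Realize v) :=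
      ⟨φ, fun _ => Iff.rfl, fun _ => Iff.rfl⟩
    let pS : (↥(Set.univ : Set S) → S) → S → S → Prop := fun p a b =>
      φ.Realize (Sum.elim p (fun i : Fin 2 => if i = 0 then a else b))
    let pM : (↥(Set.univ : Set S) → M) → M → M → Prop := fun p a b =>
      φ.Realize (Sum.elim p (fun i : Fin 2 => if i = 0 then a else b))
    have base : ∀ {β : Type} (r : ↥(Set.univ : Set S) → β) (a b : β), UD (fun v : β → S => pS (fun i => v (r i)) (v a) (v b))
        (fun v : β → M => pM (fun i => v (r i)) (v a) (v b)) := by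
      intro β r a b
      have h3 := h1.comp (α := β) (Sum.elim r (fun i : Fin 2 => if i = 0 then a else b))
      convert h3 using 2 with v
      · simp only [pS]
        congr! 1
        funext i; rcases i with i | i
        · rfl
        · by_cases hi : i = 0 <;> simp [hi]
      · simp only [pM]
        congr! 1
        funext i; rcases i with i | i
        · rfl
        · by_cases hi : i = 0 <;> simp [hi]
    have h2 : UD (fun v : (((Set.univ : Set S) ⊕ Unit) → S) =>
        (∀ y : S, y ∈ v (Sum.inr ()) → ∃ z : S, pS (fun i => v (Sum.inl i)) y z ∧ ∀ z' : S, pS (fun i => v (Sum.inl i)) y z' → z' = z) →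
        ∃ w : S, ∀ z : S, z ∈ w ↔ ∃ y : S, y ∈ v (Sum.inr ()) ∧ pS (fun i => v (Sum.inl i)) y z)
      (fun v : (((Set.univ : Set S) ⊕ Unit) → M) =>
        (∀ y : M, y ∈ v (Sum.inr ()) → ∃ z : M, pM (fun i => v (Sum.inl i)) y z ∧ ∀ z' : M, pM (fun i => v (Sum.inl i)) y z' → z' = z) →
        ∃ w : M, ∀ z : M, z ∈ w ↔ ∃ y : M, y ∈ v (Sum.inr ()) ∧ pM (fun i => v (Sum.inl i)) y z) := by
      refine UD.imp (UD.all (UD.imp (UD.mem _ _) (UD.ex (UD.and ?_ (UD.all (UD.imp ?_ (UD.eq _ _)))))))
        (UD.ex (UD.all (UD.iff (UD.mem _ _) (UD.ex (UD.and (UD.mem _ _) ?_)))))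
      · exact base _ _ _
      · exact base _ _ _
      · exact base _ _ _
    have hX' : ∀ a b, pS (fun i => i.1) a b ↔ (a, b) ∈ X := by
      intro a b
      have h5 := Set.ext_iff.1 hφ (fun i : Fin 2 => if i = 0 then a else b)
      exact h5.symm
    obtain ⟨y, hy⟩ := (h2.transfer hj (Sum.elim (fun i => i.1) (fun _ => x))).2 (by
      intro h6
      have h7 := ZFModel.replacement {z : M × M | pM (fun i => j i.1) z.1 z.2} (by
        rw [Set.Definable₂, Set.definable_iff_exists_formula_sum]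
        refine ⟨φ.relabel (Sum.elim (fun i => Sum.inl ⟨j i.1, Set.mem_univ _⟩) Sum.inr), ?_⟩
        ext g
        simp only [Set.mem_ofPred_eq, Language.Formula.realize_relabel, pM]
        congr! 1
        funext i
        rcases i with i | i
        · rfl
        · by_cases hi : i = 0
          · subst hi; rfl
          · have : i = 1 := by omega
            subst this; rfl) (j x) (by
        intro y hy
        obtain ⟨z, hz1, hz2⟩ := h6 y hy
        exact ⟨z, hz1, hz2⟩)
      exact h7) (by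
      intro y hy
      obtain ⟨z, hz1, hz2⟩ := hx y hy
      exact ⟨z, (hX' _ _).2 hz1, fun z' hz' => hz2 z' ((hX' _ _).1 hz')⟩)
    refine ⟨y, fun z => ?_⟩
    rw [hy]
    constructor
    · rintro ⟨y', h5, h6⟩; exact ⟨y', h5, (hX' _ _).1 h6⟩
    · rintro ⟨y', h5, h6⟩; exact ⟨y', h5, (hX' _ _).2 h6⟩

end

/-- every model of ZF has a countable elementary submodel, which is a model of ZF -/
theorem exists_countable_model (M : Type) [Membership M M] [ZFModel M] :
    ∃ (S : Type) (_ : Membership S S), Countable S ∧ ZFModel S := by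
  by_cases hc : Countable M
  · exact ⟨M, inferInstance, hc, inferInstance⟩
  · have hM : ℵ₀ ≤ #M := by
      by_contra h
      exact hc (Cardinal.mk_le_aleph0_iff.1 (not_le.1 h).le)
    have hL : LSet.card ≤ ℵ₀ := by
      rw [Language.card, Cardinal.mk_le_aleph0_iff]
      unfold Language.Symbols LSet
      have : Countable (Σ l, memRel l) := by
        apply Function.Injective.countable (f := fun (_ : Σ l, memRel l) => ())
        rintro ⟨l, a⟩ ⟨l', b⟩ _
        cases a; cases b; rfl
      infer_instance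
    obtain ⟨S, _, hS⟩ := Language.exists_elementarySubstructure_card_eq LSet (∅ : Set M) (ℵ₀ : Cardinal.{0}) le_rfl (by simp)
      (by simpa using hL) (by simpa using hM)
    have helem : ∀ (α : Type) (φ : LSet.Formula α) (v : α → S), φ.Realize (fun i => (v i).1) ↔
        @Language.Formula.Realize LSet S S.inducedStructure α φ v := fun α φ v => S.subtype.map_formula φ v
    let mS : Membership S S := ⟨fun y x => x.1 ∈ y.1⟩
    have hstr : (instStr S : LSet.Structure S) = S.inducedStructure := by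
      ext n f x
      · exact f.elim
      · cases f; rfl
    have hj : Elem (fun x : S => x.1) := by
      intro α φ v
      rw [helem α φ v, hstr]
    refine ⟨S, mS, ?_, hj.zf⟩
    have : #S = ℵ₀ := by simpa using hS
    exact Cardinal.mk_le_aleph0_iff.1 this.le

end Pool.Agent.Helper79.ZF
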