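import Pool.Agent.Helper79.ZF.System

/-!
# Generic permutations and amalgamation
-/

namespace Pool.Agent.Helper79.ZF

open FirstOrder Set

variable {M : Type} [Membership M M] [ZFModel M]
variable {α β γ : Type} [Ctx M α] [Ctx M β] [Ctx M γ]

open Classical in
/-- predecessor of numbers -/
noncomputable def oP (n : El (om M)) : El (om M) := if h : ∃ m, n = oS m then h.choose else n

@[simp] theorem oP_oS (n : El (om M)) : oP (oS n) = n := by
  have h : ∃ m, oS n = oS m := ⟨n, rfl⟩
  unfold oP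
  rw [dif_pos h]
  have := h.choose_spec
  rw [oS_inj] at this
  exact this.symm

@[fun_prop]
theorem oP_def {n : α → El (om M)} (hn : DefF M n) : DefF M (fun a => oP (n a)) := by
  apply DefF_of (R := fun a k => (∃ m, n a = oS m ∧ k = m) ∨ ((∀ m, n a ≠ oS m) ∧ k = n a)) (by fun_prop)
  intro a k
  by_cases h : ∃ m, n a = oS m
  · obtain ⟨m, hm⟩ := h
    rw [hm, oP_oS]
    constructor
    · rintro rfl; exact Or.inl ⟨m, rfl, rfl⟩
    · rintro (⟨m', h1, rfl⟩ | ⟨h1, _⟩)
      · exact oS_inj.1 h1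
      · exact absurd rfl (h1 m)
  · unfold oP
    rw [dif_neg h]
    push Not at h
    constructor
    · rintro rfl; exact Or.inr ⟨h, rfl⟩
    · rintro (⟨m', h1, _⟩ | ⟨_, h1⟩)
      · exact absurd h1 (h m')
      · exact h1.symm

variable (M) in
/-- a copy of the integers -/
abbrev TT : Type := El (om M) × Bool

open Classical in
/-- the shift of the integers -/
noncomputable def sh (t : TT M) : TT M :=
  if t.2 = true then (oS t.1, true) else if t.1 = o0 then (o0, true) else (oP t.1, false)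

@[fun_prop]
theorem sh_def {t : α → TT M} (ht : DefF M t) : DefF M (fun a => sh (t a)) := by
  classical
  unfold sh
  apply DefF.cond (by fun_prop) (by fun_prop)
  apply DefF.cond (by fun_prop) (by fun_prop) (by fun_prop)

theorem sh_true (n : El (om M)) : sh (n, true) = (oS n, true) := by simp [sh]
theorem sh_zero : sh ((o0, false) : TT M) = (o0, true) := by simp [sh]
theorem sh_false (n : El (om M)) : sh (oS n, false) = (n, false) := by simp [sh]

theorem sh_cases (t : TT M) : (∃ n, t = (n, true) ∧ sh t = (oS n, true)) ∨ (t = (o0, false) ∧ sh t = (o0, true)) ∨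
    ∃ n, t = (oS n, false) ∧ sh t = (n, false) := by
  obtain ⟨n, b⟩ := t
  cases b
  · rcases o_cases n with rfl | ⟨m, rfl⟩
    · exact Or.inr (Or.inl ⟨rfl, sh_zero⟩)
    · exact Or.inr (Or.inr ⟨m, rfl, sh_false m⟩)
  · exact Or.inl ⟨n, rfl, sh_true n⟩

theorem sh_inj : Function.Injective (sh (M := M)) := by
  intro t t' h
  rcases sh_cases t with ⟨n, h1, h2⟩ | ⟨h1, h2⟩ | ⟨n, h1, h2⟩ <;>
  rcases sh_cases t' with ⟨n', h3, h4⟩ | ⟨h3, h4⟩ | ⟨n', h3, h4⟩ <;>
  rw [h2, h4] at h <;> simp at h <;> rw [h1, h3] <;> simp [h]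

theorem sh_surj (t : TT M) : ∃ t', sh t' = t := by
  obtain ⟨n, b⟩ := t
  cases b
  · exact ⟨(oS n, false), sh_false n⟩
  · rcases o_cases n with rfl | ⟨m, rfl⟩
    · exact ⟨(o0, false), sh_zero⟩
    · exact ⟨(m, true), sh_true m⟩

variable (M) in
/-- index set for the lines of a generic permutation -/
abbrev WW : Type := (El (ZZ M) × Bool) × TT M

/-- coding of the index set in the base set -/
noncomputable def code (w : WW M) : El (ZZ M) := zp (zp w.1.1 (bz w.1.2)) (zp (oz w.2.1) (bz w.2.2))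

@[fun_prop]
theorem code_def {w : α → WW M} (hw : DefF M w) : DefF M (fun a => code (w a)) := by
  unfold code; fun_prop

theorem code_inj : Function.Injective (code (M := M)) := by
  rintro ⟨⟨z, e⟩, n, b⟩ ⟨⟨z', e'⟩, n', b'⟩ h
  simp [code] at h
  obtain ⟨⟨rfl, rfl⟩, rfl, rfl⟩ := h
  rfl

/-- the base point of the line through `z` -/
noncomputable def bas (z : El (ZZ M)) : WW M := ((z, false), (o0, true))

@[fun_prop]
theorem bas_def {z : α → El (ZZ M)} (hz : DefF M z) : DefF M (fun a => bas (z a)) := by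
  unfold bas; fun_prop

/-- shift of all lines -/
noncomputable def shW (w : WW M) : WW M := (w.1, sh w.2)

@[fun_prop]
theorem shW_def {w : α → WW M} (hw : DefF M w) : DefF M (fun a => shW (w a)) := by
  unfold shW; fun_prop

theorem shW_inj : Function.Injective (shW (M := M)) := by
  rintro ⟨a, b⟩ ⟨a', b'⟩ h
  simp only [shW, Prod.mk.injEq] at h
  rw [h.1, sh_inj h.2]

theorem shW_surj (w : WW M) : ∃ w', shW w' = w := by
  obtain ⟨a, b⟩ := w
  obtain ⟨b', rfl⟩ := sh_surj b
  exact ⟨(a, b'), rfl⟩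

/-- `g` moves the lines given by `θ`, whose base points are given by `u`, and nothing else -/
def GenBy (u : El (IZ M)) (g : El (SZ M)) (θ : WW M → El (ZZ M)) : Prop :=
  (∀ w w', θ w = θ w' → w = w') ∧ (∀ z, θ (bas z) = ia u z) ∧ (∀ w, sa g (θ w) = θ (shW w)) ∧
    ∀ x, (∀ w, θ w ≠ x) → sa g x = x

/-- `g` is generic over `u` -/
def Gen (u : El (IZ M)) (g : El (SZ M)) : Prop := ∃ θ : El (Fn (ZZ M) (ZZ M)), GenBy u g (fun w => fapp θ (code w))

@[fun_prop]
theorem Gen_def {u : α → El (IZ M)} {g : α → El (SZ M)} (hu : DefF M u) (hg : DefF M g) :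
    DefP M (fun a => Gen (u a) (g a)) := by
  unfold Gen GenBy; fun_prop

theorem Gen_iff {u : El (IZ M)} {g : El (SZ M)} : Gen u g ↔ ∃ θ : WW M → El (ZZ M), DefF M θ ∧ GenBy u g θ := by
  classical
  constructor
  · rintro ⟨θ, h⟩
    exact ⟨fun w => fapp θ (code w), by fun_prop, h⟩
  · rintro ⟨θ, h1, h2⟩
    let F : El (ZZ M) → El (ZZ M) := fun x => if h : ∃ w, code w = x then θ h.choose else x
    have hF1 : ∀ w, F (code w) = θ w := by
      intro w
      have h : ∃ w', code w' = code w := ⟨w, rfl⟩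
      simp only [F]
      rw [dif_pos h, code_inj h.choose_spec]
    have hF : DefF M F := by
      apply DefF_of (R := fun x y => (∃ w, code w = x ∧ y = θ w) ∨ ((∀ w, code w ≠ x) ∧ y = x)) (by fun_prop)
      intro x y
      by_cases h : ∃ w, code w = x
      · obtain ⟨w, rfl⟩ := h
        rw [hF1]
        constructor
        · rintro rfl; exact Or.inl ⟨w, rfl, rfl⟩
        · rintro (⟨w', h1, h2⟩ | ⟨h1, _⟩)
          · rw [code_inj h1] at h2; exact h2.symm
          · exact absurd rfl (h1 w)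
      · have e : F x = x := by simp only [F]; rw [dif_neg h]
        push Not at h
        rw [e]
        constructor
        · rintro rfl; exact Or.inr ⟨h, rfl⟩
        · rintro (⟨w', h1, _⟩ | ⟨_, h1⟩)
          · exact absurd h1 (h w')
          · exact h1.symm
    refine ⟨mkFn F hF, ?_⟩
    have : (fun w => fapp (mkFn F hF) (code w)) = θ := by
      funext w; rw [fapp_mkFn, hF1]
    rw [this]
    exact h2

theorem Gen.push {u k : El (IZ M)} {g : El (SZ M)} (h : Gen u g) : Gen (icomp k u) (push k g) := by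
  obtain ⟨θ, h0, h1, h2, h3, h4⟩ := Gen_iff.1 h
  rw [Gen_iff]
  refine ⟨fun w => ia k (θ w), by fun_prop, fun w w' h => h1 w w' (ia_inj k h), fun z => ?_, fun w => ?_, fun x hx => ?_⟩
  · beta_reduce; rw [h2, ia_icomp]
  · beta_reduce; rw [push_im, h3]
  · by_cases h5 : ∃ z, ia k z = x
    · obtain ⟨z, rfl⟩ := h5
      rw [push_im, h4 z (fun w hw => hx w (by beta_reduce; rw [hw]))]
    · push Not at h5
      exact push_off h5

theorem Gen.trans {u : El (IZ M)} {g : El (SZ M)} (h : Gen u g) (a : El (SZ M)) :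
    Gen u (Pool.Agent.Helper79.ZF.push u a * g) := by
  classical
  obtain ⟨θ, h0, h1, h2, h3, h4⟩ := Gen_iff.1 h
  rw [Gen_iff]
  -- relabelling of lines
  let ρ : El (ZZ M) × Bool → El (ZZ M) × Bool := fun j => if j.2 = true then j else (sa a⁻¹ j.1, false)
  have hρ : DefF M ρ := DefF.cond (by fun_prop) (by fun_prop) (by fun_prop)
  have hρi : ∀ j j', ρ j = ρ j' → j = j' := by
    rintro ⟨z, b⟩ ⟨z', b'⟩ h
    cases b <;> cases b' <;> simp [ρ] at h <;> simp [h]
  have hρs : ∀ j, ∃ j', ρ j' = j := by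
    rintro ⟨z, b⟩
    cases b
    · exact ⟨(sa a z, false), by simp [ρ]⟩
    · exact ⟨(z, true), by simp [ρ]⟩
  let θ' : WW M → El (ZZ M) := fun w => if w.2.2 = true then θ w else θ (ρ w.1, w.2)
  have hθ' : DefF M θ' := DefF.cond (by fun_prop) (by fun_prop) (by fun_prop)
  have t1 : ∀ j n, θ' (j, (n, true)) = θ (j, (n, true)) := by intro j n; simp [θ']
  have t2 : ∀ j n, θ' (j, (n, false)) = θ (ρ j, (n, false)) := by intro j n; simp [θ']
  -- action of the pushed forward permutation
  have e1 : ∀ j n, sa (Pool.Agent.Helper79.ZF.push u a) (θ (j, (n, false))) = θ (j, (n, false)) := by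
    intro j n
    apply push_off
    intro z hz
    rw [← h2] at hz
    have := h1 _ _ hz
    simp [bas] at this
  have e2 : ∀ j n, sa (Pool.Agent.Helper79.ZF.push u a) (θ (j, (oS n, true))) = θ (j, (oS n, true)) := by
    intro j n
    apply push_off
    intro z hz
    rw [← h2] at hz
    have := h1 _ _ hz
    simp [bas] at this
  have e3 : ∀ z, sa (Pool.Agent.Helper79.ZF.push u a) (θ ((z, true), (o0, true))) = θ ((z, true), (o0, true)) := by
    intro j
    apply push_off
    intro z hz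
    rw [← h2] at hz
    have := h1 _ _ hz
    simp [bas] at this
  have e4 : ∀ z, sa (Pool.Agent.Helper79.ZF.push u a) (θ ((z, false), (o0, true))) = θ ((sa a z, false), (o0, true)) := by
    intro z
    have f1 := h2 z
    have f2 := h2 (sa a z)
    unfold bas at f1 f2
    rw [f1, f2, push_im]
  refine ⟨θ', hθ', ?_, ?_, ?_, ?_⟩
  · rintro ⟨j, n, b⟩ ⟨j', n', b'⟩ h
    cases b <;> cases b'
    · rw [t2, t2] at h
      have := h1 _ _ h
      simp only [Prod.mk.injEq, and_true] at this
      rw [hρi _ _ this.1, this.2]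
    · rw [t2, t1] at h
      have := h1 _ _ h
      simp at this
    · rw [t1, t2] at h
      have := h1 _ _ h
      simp at this
    · rw [t1, t1] at h
      exact h1 _ _ h
  · intro z
    rw [← h2]
    exact t1 _ _
  · rintro ⟨j, t⟩
    unfold shW
    rcases sh_cases t with ⟨n, rfl, h6⟩ | ⟨rfl, h6⟩ | ⟨n, rfl, h6⟩
    · have := h3 (j, (n, true))
      unfold shW at this
      simp only [h6] at this ⊢
      rw [t1, t1, sa_mul, this, e2]
    · have := h3 (ρ j, (o0, false))
      unfold shW at this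
      simp only [h6] at this ⊢
      rw [t1, t2, sa_mul, this]
      obtain ⟨z, b⟩ := j
      cases b
      · have : ρ (z, false) = (sa a⁻¹ z, false) := by simp [ρ]
        rw [this, e4, sa_inv]
      · have : ρ (z, true) = (z, true) := by simp [ρ]
        rw [this, e3]
    · have := h3 (ρ j, (oS n, false))
      unfold shW at this
      simp only [h6] at this ⊢
      rw [t2, t2, sa_mul, this, e1]
  · intro x hx
    have hx' : ∀ w, θ w ≠ x := by
      rintro ⟨j, n, b⟩ hw
      cases b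
      · obtain ⟨j', rfl⟩ := hρs j
        exact hx (j', (n, false)) (by rw [t2]; exact hw)
      · exact hx (j, (n, true)) (by rw [t1]; exact hw)
    rw [sa_mul, h4 x hx']
    apply push_off
    intro z hz
    exact hx' (bas z) (by rw [h2, hz])

/-- there is a bijection of `Z × 2` which agrees with a given injection on `Z × 0` -/
theorem exists_extend (u : El (IZ M)) : ∃ b : El (ZZ M) × Bool → El (ZZ M) × Bool, DefF M b ∧ Function.Injective b ∧
    (∀ j, ∃ j', b j' = j) ∧ ∀ z, b (z, false) = (ia u z, false) := by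
  classical
  let c : El (ZZ M) × Bool → El (ZZ M) := fun j => zp j.1 (bz j.2)
  have hc : DefF M c := by simp only [c]; fun_prop
  have hci : ∀ j j', c j = c j' → j = j' := by
    rintro ⟨z, b⟩ ⟨z', b'⟩ h
    simp [c] at h
    rw [h.1, h.2]
  -- the complement of the image of `u`
  obtain ⟨h, hd, hi, hr⟩ := cantor_bernstein (A := ZZ M) (f := fun z => c (z, true)) (by fun_prop)
    (fun x y h => by have := hci _ _ h; simpa using this)
    (R := fun x => (∃ z, c (z, true) = x) ∨ ∃ z, (∀ y, ia u y ≠ z) ∧ c (z, false) = x) (by fun_prop)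
    (fun x => Or.inl ⟨x, rfl⟩)
  have hr' : ∀ x, ∃ j, c j = h x ∧ (j.2 = true ∨ ∀ y, ia u y ≠ j.1) := by
    intro x
    rcases (hr (h x)).2 ⟨x, rfl⟩ with ⟨z, hz⟩ | ⟨z, hz1, hz2⟩
    · exact ⟨(z, true), hz, Or.inl rfl⟩
    · exact ⟨(z, false), hz2, Or.inr hz1⟩
  choose k hk1 hk2 using hr'
  have hkd : DefF M k := DefF_of (R := fun x j => c j = h x) (by fun_prop)
    (fun x j => ⟨fun e => by rw [← e]; exact hk1 x, fun e => hci _ _ (by rw [hk1, e])⟩)
  have hki : ∀ x y, k x = k y → x = y := fun x y e => hi (by rw [← hk1, ← hk1, e])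
  refine ⟨fun j => if j.2 = true then k j.1 else (ia u j.1, false), DefF.cond (by fun_prop) (by fun_prop) (by fun_prop),
    ?_, ?_, ?_⟩
  · have key : ∀ z z', k z ≠ (ia u z', false) := by
      intro z z' e
      rcases hk2 z with h5 | h5
      · rw [e] at h5; simp at h5
      · rw [e] at h5; exact h5 z' rfl
    rintro ⟨z, b⟩ ⟨z', b'⟩ e
    cases b <;> cases b' <;> simp at e
    · rw [e]
    · exact absurd e.symm (key _ _)
    · exact absurd e (key _ _)
    · rw [hki _ _ e]
  · rintro ⟨z, b⟩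
    by_cases h5 : ∃ z', (ia u z', false) = (z, b)
    · obtain ⟨z', h5⟩ := h5
      exact ⟨(z', false), by simpa using h5⟩
    · obtain ⟨x, hx⟩ := (hr (c (z, b))).1 (by
        cases b
        · right
          refine ⟨z, fun y hy => h5 ⟨y, by rw [hy]⟩, rfl⟩
        · exact Or.inl ⟨z, rfl⟩)
      refine ⟨(x, true), ?_⟩
      simp only [if_true]
      exact hci _ _ (by rw [hk1, hx])
  · intro z; simp

theorem Gen.mono {u : El (IZ M)} {g : El (SZ M)} (h : Gen u g) (v : El (IZ M)) : Gen (icomp u v) g := by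
  obtain ⟨θ, h0, h1, h2, h3, h4⟩ := Gen_iff.1 h
  obtain ⟨b, hb1, hb2, hb3, hb4⟩ := exists_extend v
  rw [Gen_iff]
  refine ⟨fun w => θ (b w.1, w.2), by fun_prop, ?_, ?_, ?_, ?_⟩
  · rintro ⟨j, t⟩ ⟨j', t'⟩ h
    have := h1 _ _ h
    simp only [Prod.mk.injEq] at this
    rw [hb2 this.1, this.2]
  · intro z
    have := h2 (ia v z)
    unfold bas at this ⊢
    beta_reduce
    rw [hb4, this, ia_icomp]
  · rintro ⟨j, t⟩
    exact h3 (b j, t)
  · intro x hx
    apply h4
    rintro ⟨j, t⟩
    obtain ⟨j', rfl⟩ := hb3 j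
    exact hx (j', t)

theorem exists_Gen : ∃ (u : El (IZ M)) (g : El (SZ M)), Gen u g := by
  classical
  let G : El (ZZ M) → El (ZZ M) := fun x => if h : ∃ w, code w = x then code (shW h.choose) else x
  have hG1 : ∀ w, G (code w) = code (shW w) := by
    intro w
    have h : ∃ w', code w' = code w := ⟨w, rfl⟩
    simp only [G]
    rw [dif_pos h, code_inj h.choose_spec]
  have hG2 : ∀ x, (∀ w, code w ≠ x) → G x = x := by
    intro x hx
    simp only [G]
    rw [dif_neg (by push Not; exact hx)]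
  have hG : DefF M G := by
    apply DefF_of (R := fun x y => (∃ w, code w = x ∧ y = code (shW w)) ∨ ((∀ w, code w ≠ x) ∧ y = x)) (by fun_prop)
    intro x y
    by_cases h : ∃ w, code w = x
    · obtain ⟨w, rfl⟩ := h
      rw [hG1]
      constructor
      · rintro rfl; exact Or.inl ⟨w, rfl, rfl⟩
      · rintro (⟨w', h1, h2⟩ | ⟨h1, _⟩)
        · rw [code_inj h1] at h2; exact h2.symm
        · exact absurd rfl (h1 w)
    · push Not at h
      rw [hG2 x h]
      constructor
      · rintro rfl; exact Or.inr ⟨h, rfl⟩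
      · rintro (⟨w', h1, _⟩ | ⟨_, h1⟩)
        · exact absurd h1 (h w')
        · exact h1.symm
  have hGb : Function.Bijective G := by
    constructor
    · intro x y e
      by_cases hx : ∃ w, code w = x <;> by_cases hy : ∃ w, code w = y
      · obtain ⟨w, rfl⟩ := hx
        obtain ⟨w', rfl⟩ := hy
        rw [hG1, hG1] at e
        rw [shW_inj (code_inj e)]
      · obtain ⟨w, rfl⟩ := hx
        push Not at hy
        rw [hG1, hG2 y hy] at e
        exact absurd e (hy _)
      · obtain ⟨w, rfl⟩ := hy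
        push Not at hx
        rw [hG1, hG2 x hx] at e
        exact absurd e.symm (hx _)
      · push Not at hx hy
        rwa [hG2 x hx, hG2 y hy] at e
    · intro y
      by_cases hy : ∃ w, code w = y
      · obtain ⟨w, rfl⟩ := hy
        obtain ⟨w', rfl⟩ := shW_surj w
        exact ⟨code w', hG1 w'⟩
      · push Not at hy
        exact ⟨y, hG2 y hy⟩
  refine ⟨mkI (fun z => code (bas z)) (by fun_prop) ?_, mkS G hG hGb, ?_⟩
  · intro z z' h
    have := code_inj h
    simpa [bas] using this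
  · rw [Gen_iff]
    refine ⟨code, by fun_prop, fun w w' h => code_inj h, fun z => ?_, fun w => ?_, fun x hx => ?_⟩
    · rw [ia_mkI]
    · rw [sa_mkS, hG1]
    · rw [sa_mkS, hG2 x hx]

/-- amalgamation of sets -/
theorem amalg_sets {W : Type} [Ctx M W] {θ θ' : W → El (ZZ M)} (hθ : DefF M θ) (hθ' : DefF M θ')
    (hi : Function.Injective θ) (hi' : Function.Injective θ') :
    ∃ l l' : El (IZ M), ∀ y y', ia l y = ia l' y' ↔ ∃ w, y = θ w ∧ y' = θ' w := by
  classical
  let F : El (ZZ M) → El (ZZ M) := fun x => if h : ∃ w, θ' w = x then zp (θ h.choose) (bz false) else zp x (bz true)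
  have hF1 : ∀ w, F (θ' w) = zp (θ w) (bz false) := by
    intro w
    have h : ∃ w', θ' w' = θ' w := ⟨w, rfl⟩
    simp only [F]
    rw [dif_pos h, hi' h.choose_spec]
  have hF2 : ∀ x, (∀ w, θ' w ≠ x) → F x = zp x (bz true) := by
    intro x hx
    simp only [F]
    rw [dif_neg (by push Not; exact hx)]
  have hF : DefF M F := by
    apply DefF_of (R := fun x y => (∃ w, θ' w = x ∧ y = zp (θ w) (bz false)) ∨ ((∀ w, θ' w ≠ x) ∧ y = zp x (bz true)))
      (by fun_prop)
    intro x y
    by_cases h : ∃ w, θ' w = x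
    · obtain ⟨w, rfl⟩ := h
      rw [hF1]
      constructor
      · rintro rfl; exact Or.inl ⟨w, rfl, rfl⟩
      · rintro (⟨w', h1, h2⟩ | ⟨h1, _⟩)
        · rw [hi' h1] at h2; exact h2.symm
        · exact absurd rfl (h1 w)
    · push Not at h
      rw [hF2 x h]
      constructor
      · rintro rfl; exact Or.inr ⟨h, rfl⟩
      · rintro (⟨w', h1, _⟩ | ⟨_, h1⟩)
        · exact absurd h1 (h w')
        · exact h1.symm
  have hFi : Function.Injective F := by
    intro x y e
    by_cases hx : ∃ w, θ' w = x <;> by_cases hy : ∃ w, θ' w = y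
    · obtain ⟨w, rfl⟩ := hx
      obtain ⟨w', rfl⟩ := hy
      rw [hF1, hF1, zp_inj] at e
      rw [hi e.1]
    · obtain ⟨w, rfl⟩ := hx
      push Not at hy
      rw [hF1, hF2 y hy, zp_inj] at e
      simp at e
    · obtain ⟨w, rfl⟩ := hy
      push Not at hx
      rw [hF1, hF2 x hx, zp_inj] at e
      simp at e
    · push Not at hx hy
      rw [hF2 x hx, hF2 y hy, zp_inj] at e
      exact e.1
  refine ⟨mkI (fun x => zp x (bz false)) (by fun_prop) (fun x y h => (zp_inj.1 h).1), mkI F hF hFi, fun y y' => ?_⟩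
  rw [ia_mkI, ia_mkI]
  by_cases hy : ∃ w, θ' w = y'
  · obtain ⟨w, rfl⟩ := hy
    rw [hF1, zp_inj]
    constructor
    · rintro ⟨rfl, _⟩; exact ⟨w, rfl, rfl⟩
    · rintro ⟨w', rfl, h⟩
      rw [hi' h]; exact ⟨rfl, rfl⟩
  · push Not at hy
    rw [hF2 y' hy, zp_inj]
    constructor
    · rintro ⟨_, h⟩; simp at h
    · rintro ⟨w', _, h⟩; exact absurd h.symm (hy w')

theorem amalg {q r r' : El (PZ M)} {k k' : El (AZ M)} {g g' : El (SZ M)} (hr : VZ r k q) (hr' : VZ r' k' q)
    (hq : pm q = pm r) (hg : Gen (au k) g) (hg' : Gen (au k') g') :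
    ∃ (t : El (PZ M)) (l l' : El (AZ M)), VZ t l r ∧ VZ t l' r' ∧ k * l = k' * l' ∧ push (au l) g = push (au l') g' := by
  classical
  obtain ⟨θ, h0, h1, h2, h3, h4⟩ := Gen_iff.1 hg
  obtain ⟨θ', h0', h1', h2', h3', h4'⟩ := Gen_iff.1 hg'
  obtain ⟨l1, l1', hl1⟩ := amalg_sets h0 h0' (fun x y h => h1 x y h) (fun x y h => h1' x y h)
  obtain ⟨l2, l2', hl2⟩ := amalg_sets (θ := ia (av k)) (θ' := ia (av k')) (by fun_prop) (by fun_prop)
    (ia_inj _) (ia_inj _)
  have c1 : icomp l1 (au k) = icomp l1' (au k') := by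
    apply I_ext
    intro x
    rw [ia_icomp, ia_icomp, hl1]
    exact ⟨bas x, (h2 x).symm, (h2' x).symm⟩
  have c2 : icomp l2 (av k) = icomp l2' (av k') := by
    apply I_ext
    intro x
    rw [ia_icomp, ia_icomp, hl2]
    exact ⟨x, rfl, rfl⟩
  have c3 : push l1 g = push l1' g' := by
    apply S_ext
    intro x
    by_cases hx : ∃ w, ia l1 (θ w) = x
    · obtain ⟨w, rfl⟩ := hx
      have e1 : ∀ w, ia l1 (θ w) = ia l1' (θ' w) := fun w => (hl1 _ _).2 ⟨w, rfl, rfl⟩
      rw [push_im, h3, e1, e1, push_im, h3']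
    · push Not at hx
      have key1 : sa (push l1 g) x = x := by
        by_cases hx' : ∃ y, ia l1 y = x
        · obtain ⟨y, rfl⟩ := hx'
          rw [push_im, h4 y (fun w hw => hx w (by rw [hw]))]
        · push Not at hx'
          exact push_off hx'
      have key2 : sa (push l1' g') x = x := by
        by_cases hx' : ∃ y, ia l1' y = x
        · obtain ⟨y, rfl⟩ := hx'
          rw [push_im, h4' y (fun w hw => hx w ?_)]
          rw [hl1]
          exact ⟨w, rfl, hw.symm⟩
        · push Not at hx'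
          exact push_off hx'
      rw [key1, key2]
  obtain ⟨r1, r2, r3⟩ := hr
  obtain ⟨r1', r2', r3'⟩ := hr'
  -- group elements
  let A : El (ZZ M) → El (SZ M) := fun x => if h : ∃ i, ia l2 i = x then push l1 (pa r h.choose) else
    if h : ∃ i, ia l2' i = x then push l1' (pa r' h.choose) else 1
  have hA1 : ∀ i, A (ia l2 i) = push l1 (pa r i) := by
    intro i
    have h : ∃ i', ia l2 i' = ia l2 i := ⟨i, rfl⟩
    simp only [A]
    rw [dif_pos h, ia_inj _ h.choose_spec]
  have hA2 : ∀ i, A (ia l2' i) = push l1' (pa r' i) := by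
    intro i
    by_cases h : ∃ i', ia l2 i' = ia l2' i
    · obtain ⟨i', h⟩ := h
      rw [← h, hA1]
      obtain ⟨w, rfl, rfl⟩ := (hl2 _ _).1 h
      rw [r1, r1', ← push_comp, ← push_comp, c1]
    · have h' : ∃ i', ia l2' i' = ia l2' i := ⟨i, rfl⟩
      simp only [A]
      rw [dif_neg h, dif_pos h', ia_inj _ h'.choose_spec]
  have hA3 : ∀ x, (∀ i, ia l2 i ≠ x) → (∀ i, ia l2' i ≠ x) → A x = 1 := by
    intro x h5 h6
    simp only [A]
    rw [dif_neg (by push Not; exact h5), dif_neg (by push Not; exact h6)]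
  have hA : DefF M A := by
    apply DefF_of (R := fun x y => (∃ i, ia l2 i = x ∧ y = push l1 (pa r i)) ∨ (∃ i, ia l2' i = x ∧ y = push l1' (pa r' i)) ∨
      ((∀ i, ia l2 i ≠ x) ∧ (∀ i, ia l2' i ≠ x) ∧ y = 1)) (by fun_prop)
    intro x y
    by_cases h5 : ∃ i, ia l2 i = x
    · obtain ⟨i, rfl⟩ := h5
      constructor
      · rintro rfl; exact Or.inl ⟨i, rfl, hA1 i⟩
      · rintro (⟨i', h6, rfl⟩ | ⟨i', h6, rfl⟩ | ⟨h6, _⟩)
        · rw [hA1, ia_inj _ h6]
        · rw [← h6, hA2]
        · exact absurd rfl (h6 i)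
    by_cases h6 : ∃ i, ia l2' i = x
    · obtain ⟨i, rfl⟩ := h6
      constructor
      · rintro rfl; exact Or.inr (Or.inl ⟨i, rfl, hA2 i⟩)
      · rintro (⟨i', h6, rfl⟩ | ⟨i', h6, rfl⟩ | ⟨_, h6, _⟩)
        · rw [← h6, hA1]
        · rw [hA2, ia_inj _ h6]
        · exact absurd rfl (h6 i)
    · push Not at h5 h6
      rw [hA3 x h5 h6]
      constructor
      · rintro rfl; exact Or.inr (Or.inr ⟨h5, h6, rfl⟩)
      · rintro (⟨i', h7, rfl⟩ | ⟨i', h7, rfl⟩ | ⟨_, _, h7⟩)
        · exact absurd h7 (h5 i')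
        · exact absurd h7 (h6 i')
        · exact h7.symm
  -- reals
  let S : El (ZZ M) → El (pow (om M)) := fun x => if h : ∃ i, ia l2' i = x then ps r' h.choose else
    if h : ∃ i, ia l2 i = x then ps r h.choose else ps r' x
  have hS1 : ∀ i, S (ia l2' i) = ps r' i := by
    intro i
    have h : ∃ i', ia l2' i' = ia l2' i := ⟨i, rfl⟩
    simp only [S]
    rw [dif_pos h, ia_inj _ h.choose_spec]
  have hS2 : ∀ i, (∀ i', ia l2' i' ≠ ia l2 i) → S (ia l2 i) = ps r i := by
    intro i hi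
    have h' : ∃ i', ia l2 i' = ia l2 i := ⟨i, rfl⟩
    simp only [S]
    rw [dif_neg (by push Not; exact hi), dif_pos h', ia_inj _ h'.choose_spec]
  have hS3 : ∀ x, (∀ i, ia l2 i ≠ x) → (∀ i, ia l2' i ≠ x) → S x = ps r' x := by
    intro x h5 h6
    simp only [S]
    rw [dif_neg (by push Not; exact h6), dif_neg (by push Not; exact h5)]
  have hS : DefF M S := by
    apply DefF_of (R := fun x y => (∃ i, ia l2' i = x ∧ y = ps r' i) ∨ (∃ i, ia l2 i = x ∧ (∀ i', ia l2' i' ≠ x) ∧ y = ps r i) ∨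
      ((∀ i, ia l2 i ≠ x) ∧ (∀ i, ia l2' i ≠ x) ∧ y = ps r' x)) (by fun_prop)
    intro x y
    by_cases h6 : ∃ i, ia l2' i = x
    · obtain ⟨i, rfl⟩ := h6
      constructor
      · rintro rfl; exact Or.inl ⟨i, rfl, hS1 i⟩
      · rintro (⟨i', h6, rfl⟩ | ⟨i', h6, h7, rfl⟩ | ⟨_, h6, _⟩)
        · rw [hS1, ia_inj _ h6]
        · exact absurd rfl (h7 i)
        · exact absurd rfl (h6 i)
    push Not at h6
    by_cases h5 : ∃ i, ia l2 i = x
    · obtain ⟨i, rfl⟩ := h5
      constructor
      · rintro rfl; exact Or.inr (Or.inl ⟨i, rfl, h6, hS2 i h6⟩)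
      · rintro (⟨i', h7, rfl⟩ | ⟨i', h7, _, rfl⟩ | ⟨h7, _, _⟩)
        · exact absurd h7 (h6 i')
        · rw [hS2 i h6, ia_inj _ h7]
        · exact absurd rfl (h7 i)
    · push Not at h5
      rw [hS3 x h5 h6]
      constructor
      · rintro rfl; exact Or.inr (Or.inr ⟨h5, h6, rfl⟩)
      · rintro (⟨i', h7, rfl⟩ | ⟨i', h7, _, rfl⟩ | ⟨_, _, h7⟩)
        · exact absurd h7 (h6 i')
        · exact absurd h7 (h5 i')
        · exact h7.symm
  refine ⟨mkP A hA (pm r') S hS, mkA l1 l2, mkA l1' l2', ⟨?_, ?_, ?_⟩, ⟨?_, ?_, ?_⟩, ?_, ?_⟩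
  · intro i
    simp [hA1]
  · intro n hn
    rw [pm_mkP]
    rw [← hq] at hn
    exact r2' n hn
  · intro n hn i
    rw [ps_mkP, av_mkA]
    by_cases h5 : ∃ i', ia l2' i' = ia l2 i
    · obtain ⟨i', h5⟩ := h5
      obtain ⟨w, rfl, rfl⟩ := (hl2 _ _).1 h5.symm
      rw [← h5, hS1]
      rw [← hq] at hn
      rw [r3' n hn, r3 n hn]
    · push Not at h5
      rw [hS2 i h5]
  · intro i
    simp [hA2]
  · intro n hn
    rw [pm_mkP]
    exact hn
  · intro n hn i
    rw [ps_mkP, av_mkA, hS1]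
  · apply A_ext
    · simpa using c1
    · simpa using c2
  · simpa using c3

end Pool.Agent.Helper79.ZF
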