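import Mathlib

/-!
# The Cauchy completion of a linearly ordered field, and filling of cuts
-/

namespace Pool.Agent.Helper79.ZF

open CauSeq CauSeq.Completion

section
variable (K : Type) [Field K] [LinearOrder K] [IsStrictOrderedRing K]

/-- the Cauchy completion -/
abbrev Kh : Type := Cauchy (abs : K → K)

variable {K}

/-- nonnegative elements of the completion -/
def hpos (x : Kh K) : Prop := ∃ f : CauSeq K abs, x = mk f ∧ (CauSeq.Pos f ∨ LimZero f)

theorem hpos_mk {f : CauSeq K abs} : hpos (mk f) ↔ (CauSeq.Pos f ∨ LimZero f) := by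
  constructor
  · rintro ⟨g, h1, h2⟩
    have h3 : LimZero (f - g) := mk_eq.1 h1
    have e : f = g + (f - g) := by ring
    rcases h2 with h2 | h2
    · left; rw [e]; exact CauSeq.pos_add_limZero h2 h3
    · right; rw [e]; exact add_limZero h2 h3
  · intro h; exact ⟨f, rfl, h⟩

theorem hpos_add {x y : Kh K} (hx : hpos x) (hy : hpos y) : hpos (x + y) := by
  obtain ⟨f, rfl, hf⟩ := hx
  obtain ⟨g, rfl, hg⟩ := hy
  rw [mk_add, hpos_mk]
  rcases hf with hf | hf <;> rcases hg with hg | hg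
  · left; exact CauSeq.add_pos hf hg
  · left; exact CauSeq.pos_add_limZero hf hg
  · left; rw [add_comm]; exact CauSeq.pos_add_limZero hg hf
  · right; exact add_limZero hf hg

theorem hpos_mul {x y : Kh K} (hx : hpos x) (hy : hpos y) : hpos (x * y) := by
  obtain ⟨f, rfl, hf⟩ := hx
  obtain ⟨g, rfl, hg⟩ := hy
  rw [mk_mul, hpos_mk]
  rcases hf with hf | hf <;> rcases hg with hg | hg
  · left; exact CauSeq.mul_pos hf hg
  · right; exact mul_limZero_right f hg
  · right; exact mul_limZero_left g hf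
  · right; exact mul_limZero_right f hg

theorem hpos_total (x : Kh K) : hpos x ∨ hpos (-x) := by
  obtain ⟨f, rfl⟩ : ∃ f, x = mk f := by
    obtain ⟨f, rfl⟩ := Quotient.exists_rep x
    exact ⟨f, rfl⟩
  rcases CauSeq.trichotomy f with h | h | h
  · left; exact hpos_mk.2 (Or.inl h)
  · left; exact hpos_mk.2 (Or.inr h)
  · right; rw [mk_neg]; exact hpos_mk.2 (Or.inl h)

theorem hpos_anti {x : Kh K} (h1 : hpos x) (h2 : hpos (-x)) : x = 0 := by
  obtain ⟨f, rfl, hf⟩ := h1
  rw [mk_neg, hpos_mk] at h2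
  rw [mk_eq_zero]
  rcases hf with hf | hf
  · rcases h2 with h2 | h2
    · exfalso
      have h3 := CauSeq.add_pos hf h2
      have e : f + -f = 0 := by ring
      rw [e] at h3
      exact CauSeq.not_limZero_of_pos h3 CauSeq.zero_limZero
    · have := neg_limZero h2
      rwa [neg_neg] at this
  · exact hf

variable (K) in
/-- the cone of nonnegative elements -/
noncomputable def hcone : RingCone (Kh K) where
  carrier := {x | hpos x}
  mul_mem' := hpos_mul
  one_mem' := ⟨1, rfl, Or.inl ⟨1, zero_lt_one, 0, fun j _ => le_refl _⟩⟩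
  add_mem' := hpos_add
  zero_mem' := ⟨0, rfl, Or.inr CauSeq.zero_limZero⟩
  eq_zero_of_mem_of_neg_mem' := fun h1 h2 => hpos_anti h1 h2

instance : HasMemOrNegMem (hcone K) where
  mem_or_neg_mem := hpos_total

open Classical in
noncomputable instance khOrder : LinearOrder (Kh K) := LinearOrder.mkOfAddGroupCone (hcone K)

theorem kh_le {x y : Kh K} : x ≤ y ↔ hpos (y - x) := Iff.rfl

instance khOrdered : IsOrderedRing (Kh K) := IsOrderedRing.mkOfCone (hcone K)

instance khStrict : IsStrictOrderedRing (Kh K) := IsOrderedRing.toIsStrictOrderedRing _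

theorem kh_pos_mk {f : CauSeq K abs} : 0 < (mk f : Kh K) ↔ CauSeq.Pos f := by
  rw [lt_iff_le_and_ne, kh_le, sub_zero, hpos_mk]
  constructor
  · rintro ⟨h | h, h'⟩
    · exact h
    · exact absurd (mk_eq_zero.2 h).symm h'
  · intro h
    refine ⟨Or.inl h, fun h' => ?_⟩
    exact CauSeq.not_limZero_of_pos h (mk_eq_zero.1 h'.symm)

variable (K) in
/-- inclusion in the completion -/
noncomputable def inc : K →+* Kh K := ofRatRingHom

theorem inc_eq (q : K) : inc K q = mk (const abs q) := rfl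

theorem inc_lt {p q : K} : inc K p < inc K q ↔ p < q := by
  rw [← sub_pos, ← map_sub, inc_eq, kh_pos_mk, CauSeq.const_pos, sub_pos]

theorem inc_le {p q : K} : inc K p ≤ inc K q ↔ p ≤ q := by
  rw [← not_lt, inc_lt, not_lt]

theorem exists_small {x : Kh K} (hx : 0 < x) : ∃ e : K, 0 < e ∧ inc K e < x := by
  obtain ⟨f, rfl⟩ : ∃ f, x = mk f := by
    obtain ⟨f, rfl⟩ := Quotient.exists_rep x
    exact ⟨f, rfl⟩
  rw [kh_pos_mk] at hx
  obtain ⟨e, he, i, hi⟩ := hx
  refine ⟨e / 2, by positivity, ?_⟩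
  rw [← sub_pos, inc_eq, mk_sub, kh_pos_mk]
  refine ⟨e / 2, by positivity, i, fun j hj => ?_⟩
  have := hi j hj
  simp only [CauSeq.sub_apply, CauSeq.const_apply]
  linarith

theorem exists_near (x : Kh K) {e : K} (he : 0 < e) : ∃ q : K, inc K (q - e) < x ∧ x < inc K (q + e) := by
  obtain ⟨f, rfl⟩ : ∃ f, x = mk f := by
    obtain ⟨f, rfl⟩ := Quotient.exists_rep x
    exact ⟨f, rfl⟩
  obtain ⟨i, hi⟩ := CauSeq.cauchy f (half_pos he)
  refine ⟨f i, ?_, ?_⟩
  · rw [← sub_pos, inc_eq, mk_sub, kh_pos_mk]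
    refine ⟨e / 2, by positivity, i, fun j hj => ?_⟩
    have := abs_lt.1 (hi j hj)
    simp only [CauSeq.sub_apply, CauSeq.const_apply]
    linarith [this.1]
  · rw [← sub_pos, inc_eq, mk_sub, kh_pos_mk]
    refine ⟨e / 2, by positivity, i, fun j hj => ?_⟩
    have := abs_lt.1 (hi j hj)
    simp only [CauSeq.sub_apply, CauSeq.const_apply]
    linarith [this.2]

theorem exists_btw {x y : Kh K} (h : x < y) : ∃ q : K, x < inc K q ∧ inc K q < y := by
  obtain ⟨e, he, h1⟩ := exists_small (sub_pos.2 h)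
  obtain ⟨q, h2, h3⟩ := exists_near x (half_pos he)
  refine ⟨q + e / 2, h3, ?_⟩
  rw [map_add] at h3 ⊢
  rw [map_sub] at h2
  have e1 : inc K e = inc K (e / 2) + inc K (e / 2) := by rw [← map_add, add_halves]
  linarith

theorem le_of_cuts {x y : Kh K} (h : ∀ q : K, inc K q < x → inc K q < y) : x ≤ y := by
  by_contra h'
  push Not at h'
  obtain ⟨q, h1, h2⟩ := exists_btw h'
  exact absurd (h q h2) (not_lt.2 h1.le)

theorem exists_null [Countable K] : ∃ s : ℕ → K, (∀ n, 0 < s n) ∧ ∀ e : K, 0 < e → ∃ N, ∀ n, N ≤ n → s n ≤ e := by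
  have : Countable {x : K // 0 < x} := inferInstance
  have : Nonempty {x : K // 0 < x} := ⟨⟨1, zero_lt_one⟩⟩
  obtain ⟨f, hf⟩ := exists_surjective_nat {x : K // 0 < x}
  let s : ℕ → K := fun n => Nat.rec (f 0).1 (fun n x => min x (f (n + 1)).1) n
  have hs : ∀ n, s (n + 1) = min (s n) (f (n + 1)).1 := fun n => rfl
  have hle : ∀ n m, n ≤ m → s m ≤ s n := by
    intro n m h
    induction m, h using Nat.le_induction with
    | base => exact le_refl _
    | succ m _ ih => rw [hs]; exact (min_le_left _ _).trans ih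
  refine ⟨s, fun n => ?_, fun e he => ?_⟩
  · induction n with
    | zero => exact (f 0).2
    | succ n ih => rw [hs]; exact lt_min ih (f (n+1)).2
  · obtain ⟨n, hn⟩ := hf ⟨e, he⟩
    refine ⟨n, fun m hm => (hle n m hm).trans ?_⟩
    have e1 : (f n).1 = e := by rw [hn]
    rw [← e1]
    cases n with
    | zero => exact le_refl _
    | succ n => rw [hs]; exact min_le_right _ _

theorem fill_cut [Countable K] {C : K → Prop} (c3 : ∀ p q, p < q → C q → C p) (c4 : ∀ q, C q → ∃ p, q < p ∧ C p)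
    (c5 : ∀ e : K, 0 < e → ∃ q, C q ∧ ¬ C (q + e)) : ∃ x : Kh K, ∀ q, inc K q < x ↔ C q := by
  obtain ⟨s, hs1, hs2⟩ := exists_null (K := K)
  choose f hf1 hf2 using fun n => c5 (s n) (hs1 n)
  have key : ∀ p q, C p → ¬ C q → p < q := by
    intro p q hp hq
    by_contra h
    rcases (not_lt.1 h).lt_or_eq with h | h
    · exact hq (c3 _ _ h hp)
    · exact hq (h ▸ hp)
  have hc : IsCauSeq abs f := by
    intro e he
    obtain ⟨N, hN⟩ := hs2 (e / 2) (half_pos he)
    refine ⟨N, fun j hj => ?_⟩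
    have h1 := key _ _ (hf1 j) (hf2 N)
    have h2 := key _ _ (hf1 N) (hf2 j)
    have h3 := hN j hj
    have h4 := hN N (le_refl _)
    rw [abs_lt]
    constructor <;> linarith
  refine ⟨mk ⟨f, hc⟩, fun q => ?_⟩
  rw [← sub_pos, inc_eq, mk_sub, kh_pos_mk]
  constructor
  · rintro ⟨e, he, i, hi⟩
    have := hi i (le_refl _)
    have h2 : e ≤ f i - q := this
    exact c3 _ _ (by linarith) (hf1 i)
  · intro hq
    obtain ⟨p, hp1, hp2⟩ := c4 q hq
    obtain ⟨N, hN⟩ := hs2 ((p - q) / 2) (by linarith)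
    refine ⟨(p - q) / 2, by linarith, N, fun j hj => ?_⟩
    have h1 := key _ _ hp2 (hf2 j)
    have h2 := hN j hj
    show (p - q) / 2 ≤ f j - q
    linarith

end

end Pool.Agent.Helper79.ZF
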