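import Pool.Agent.Helper79.ZF.Model

/-!
# Definability with parameters in structures for the language of set theory

`M` is a type with a membership relation, viewed as a first-order structure for the language with
one binary relation symbol.  `Ctx M α` says that `α` is coded by finite tuples of elements of `M`.
-/

namespace Pool.Agent.Helper79.ZF

open FirstOrder Set

section
variable (M : Type) [Membership M M]

/-- definability with arbitrary parameters -/
abbrev DS {ι : Type} (S : Set (ι → M)) : Prop := (Set.univ : Set M).Definable LSet S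

variable {M}

lemma DS_mem {ι : Type} (i j : ι) : DS M {v : ι → M | v i ∈ v j} := by
  rw [DS, Set.definable_iff_exists_formula_sum]
  refine ⟨Language.Relations.formula₂ (show LSet.Relations 2 from .mem) (Language.Term.var (Sum.inr i)) (Language.Term.var (Sum.inr j)), ?_⟩
  ext v
  rw [Set.mem_ofPred_eq, Set.mem_ofPred_eq, Language.Formula.realize_rel₂]
  simp [Language.Structure.RelMap]

lemma DS_eq {ι : Type} (i j : ι) : DS M {v : ι → M | v i = v j} := by
  refine ⟨(Language.Term.var i).equal (Language.Term.var j), ?_⟩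
  ext v
  simp

lemma DS_const {ι : Type} (i : ι) (c : M) : DS M {v : ι → M | v i = c} := by
  rw [DS, Set.definable_iff_exists_formula_sum]
  refine ⟨(Language.Term.var (Sum.inr i)).equal (Language.Term.var (Sum.inl ⟨c, Set.mem_univ c⟩)), ?_⟩
  ext v
  simp

lemma DS_memc {ι : Type} (i : ι) (c : M) : DS M {v : ι → M | v i ∈ c} := by
  rw [DS, Set.definable_iff_exists_formula_sum]
  refine ⟨Language.Relations.formula₂ (show LSet.Relations 2 from .mem) (Language.Term.var (Sum.inr i)) (Language.Term.var (Sum.inl ⟨c, Set.mem_univ c⟩)), ?_⟩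
  ext v
  rw [Set.mem_ofPred_eq, Set.mem_ofPred_eq, Language.Formula.realize_rel₂]
  simp [Language.Structure.RelMap]

end

/-- `α` is coded by finite tuples of elements of `M`, with definable range. -/
class Ctx (M : Type) [Membership M M] (α : Type) where
  /-- index set of the coordinates -/
  ι : Type
  fin : Finite ι
  /-- coordinates -/
  co : α → ι → M
  inj : Function.Injective co
  ran : DS M (Set.range co)

attribute [instance] Ctx.fin

section
variable (M : Type) [Membership M M]

instance ctxSelf : Ctx M M where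
  ι := Unit
  fin := inferInstance
  co := fun x _ => x
  inj := fun x y h => congrFun h ()
  ran := by
    have : Set.range (fun (x : M) (_ : Unit) => x) = Set.univ := by
      ext v; simp only [Set.mem_range, Set.mem_univ, iff_true]; exact ⟨v (), by ext; rfl⟩
    rw [this]; exact Set.definable_univ

variable {M}

lemma El.mem {A : M} (x : El A) : x.v ∈ A := x.2

lemma El.ext {A : M} {x y : El A} (h : x.v = y.v) : x = y := Subtype.ext h

/-- make an element -/
def El.mk {A : M} (x : M) (h : x ∈ A) : El A := ⟨x, h⟩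

@[simp] lemma El.mk_v {A : M} (x : M) (h : x ∈ A) : (El.mk x h).v = x := rfl

@[simp] lemma El.mk_eta {A : M} (x : El A) (h : x.v ∈ A) : El.mk x.v h = x := rfl

variable (M)

instance ctxEl (A : M) : Ctx M (El A) where
  ι := Unit
  fin := inferInstance
  co := fun x _ => x.v
  inj := fun x y h => El.ext (congrFun h ())
  ran := by
    have : Set.range (fun (x : El A) (_ : Unit) => x.v) = {v | v () ∈ A} := by
      ext v; simp only [Set.mem_range, Set.mem_ofPred_eq]
      constructor
      · rintro ⟨x, rfl⟩; exact x.mem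
      · intro h; exact ⟨El.mk (v ()) h, by ext; rfl⟩
    rw [this]; exact DS_memc () A

instance ctxProd (α β : Type) [Ctx M α] [Ctx M β] : Ctx M (α × β) where
  ι := Ctx.ι M α ⊕ Ctx.ι M β
  fin := inferInstance
  co := fun p => Sum.elim (Ctx.co p.1) (Ctx.co p.2)
  inj := by
    rintro ⟨a, b⟩ ⟨a', b'⟩ h
    have h1 : Ctx.co (M := M) a = Ctx.co a' := by
      funext i; exact congrFun h (Sum.inl i)
    have h2 : Ctx.co (M := M) b = Ctx.co b' := by
      funext i; exact congrFun h (Sum.inr i)
    exact Prod.ext (Ctx.inj h1) (Ctx.inj h2)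
  ran := by
    have : Set.range (fun p : α × β => (Sum.elim (Ctx.co p.1) (Ctx.co p.2) : Ctx.ι M α ⊕ Ctx.ι M β → M)) =
        {v | v ∘ Sum.inl ∈ Set.range (Ctx.co (M := M) (α := α))} ∩ {v | v ∘ Sum.inr ∈ Set.range (Ctx.co (M := M) (α := β))} := by
      ext v
      simp only [Set.mem_range, Set.mem_inter_iff, Set.mem_ofPred_eq]
      constructor
      · rintro ⟨p, rfl⟩
        exact ⟨⟨p.1, by ext i; rfl⟩, ⟨p.2, by ext i; rfl⟩⟩
      · rintro ⟨⟨a, ha⟩, ⟨b, hb⟩⟩
        refine ⟨(a, b), ?_⟩
        ext i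
        rcases i with i | i
        · simp only [Sum.elim_inl, ha, Function.comp]
        · simp only [Sum.elim_inr, hb, Function.comp]
    rw [this]
    exact (Ctx.ran.preimage_comp Sum.inl).inter (Ctx.ran.preimage_comp Sum.inr)

/-- definable predicates -/
@[fun_prop]
def DefP {α : Type} [Ctx M α] (R : α → Prop) : Prop := DS M {v | ∃ a, Ctx.co a = v ∧ R a}

variable {M} {α β γ : Type} [Ctx M α] [Ctx M β] [Ctx M γ]

lemma DefP_of {R : α → Prop} {S : Set (Ctx.ι M α → M)} (hS : DS M S) (h : ∀ a, R a ↔ Ctx.co a ∈ S) : DefP M R := by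
  unfold DefP
  have : {v | ∃ a, Ctx.co (M := M) a = v ∧ R a} = S ∩ Set.range Ctx.co := by
    ext v
    simp only [Set.mem_ofPred_eq, Set.mem_inter_iff, Set.mem_range]
    constructor
    · rintro ⟨a, rfl, ha⟩; exact ⟨(h a).1 ha, a, rfl⟩
    · rintro ⟨h1, a, rfl⟩; exact ⟨a, rfl, (h a).2 h1⟩
  rw [this]
  exact hS.inter Ctx.ran

lemma DefP.spec {R : α → Prop} (h : DefP M R) (a : α) :
    R a ↔ Ctx.co (M := M) a ∈ {v | ∃ a, Ctx.co a = v ∧ R a} := by
  constructor
  · intro h'; exact ⟨a, rfl, h'⟩
  · rintro ⟨b, hb, h'⟩; rwa [← Ctx.inj hb]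

/-- definable functions -/
@[fun_prop]
def DefF (M : Type) [Membership M M] {α β : Type} [Ctx M α] [Ctx M β] (f : α → β) : Prop :=
  DefP M (fun p : α × β => f p.1 = p.2)

/-- reindexing -/
lemma DefP_reindex {R : β → Prop} (h : DefP M R) (f : α → β) (r : Ctx.ι M β → Ctx.ι M α)
    (hr : ∀ a, Ctx.co (M := M) (f a) = Ctx.co (M := M) a ∘ r) : DefP M (fun a => R (f a)) := by
  refine DefP_of (h.preimage_comp r) (fun a => ?_)
  rw [h.spec, Set.mem_preimage, ← hr]

@[fun_prop]
lemma DefP.and {R S : α → Prop} (h1 : DefP M R) (h2 : DefP M S) : DefP M (fun a => R a ∧ S a) :=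
  DefP_of (h1.inter h2) (fun a => by rw [h1.spec, h2.spec, Set.mem_inter_iff])

@[fun_prop]
lemma DefP.or {R S : α → Prop} (h1 : DefP M R) (h2 : DefP M S) : DefP M (fun a => R a ∨ S a) :=
  DefP_of (h1.union h2) (fun a => by rw [h1.spec, h2.spec, Set.mem_union])

@[fun_prop]
lemma DefP.not {R : α → Prop} (h1 : DefP M R) : DefP M (fun a => ¬ R a) :=
  DefP_of (h1.compl) (fun a => by rw [h1.spec, Set.mem_compl_iff])

lemma DefP.congr {R S : α → Prop} (h1 : DefP M R) (h : ∀ a, R a ↔ S a) : DefP M S := by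
  have : R = S := by ext a; exact h a
  rwa [← this]

@[fun_prop]
lemma DefP.imp {R S : α → Prop} (h1 : DefP M R) (h2 : DefP M S) : DefP M (fun a => R a → S a) :=
  (h1.not.or h2).congr (fun a => by tauto)

@[fun_prop]
lemma DefP.iff {R S : α → Prop} (h1 : DefP M R) (h2 : DefP M S) : DefP M (fun a => R a ↔ S a) :=
  ((h1.imp h2).and (h2.imp h1)).congr (fun a => by tauto)

@[fun_prop]
lemma DefP.const (c : Prop) : DefP M (fun _ : α => c) := by
  by_cases h : c
  · exact DefP_of (definable_univ) (fun a => by simp [h])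
  · exact DefP_of (definable_empty) (fun a => by simp [h])

@[fun_prop]
lemma DefP.ex {R : α → β → Prop} (h : DefP M (fun p : α × β => R p.1 p.2)) : DefP M (fun a => ∃ b, R a b) := by
  refine DefP_of (Set.Definable.exists_of_finite h) (fun a => ?_)
  simp only [Set.mem_ofPred_eq]
  constructor
  · rintro ⟨b, hb⟩
    exact ⟨Ctx.co b, (a, b), rfl, hb⟩
  · rintro ⟨u, ⟨a', b⟩, h1, h2⟩
    have : a' = a := by
      apply Ctx.inj (M := M)
      ext i
      exact congrFun h1 (Sum.inl i)
    subst this
    exact ⟨b, h2⟩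

@[fun_prop]
lemma DefP.all {R : α → β → Prop} (h : DefP M (fun p : α × β => R p.1 p.2)) : DefP M (fun a => ∀ b, R a b) := by
  have h2 : DefP M (fun p : α × β => ¬ R p.1 p.2) := h.not
  have h3 : DefP M (fun a => ∃ b, ¬ R a b) := DefP.ex (R := fun a b => ¬ R a b) h2
  exact h3.not.congr (fun a => by push Not; rfl)

lemma DefP_eq0 : DefP M (fun p : α × α => p.1 = p.2) := by
  have h : DS M (⋂ i : Ctx.ι M α, {v : Ctx.ι M α ⊕ Ctx.ι M α → M | v (Sum.inl i) = v (Sum.inr i)}) :=
    definable_iInter_of_finite (fun i => DS_eq _ _)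
  refine DefP_of h (fun p => ?_)
  simp only [Set.mem_iInter]
  constructor
  · intro h i
    show Ctx.co p.1 i = Ctx.co p.2 i
    rw [h]
  · intro h
    exact Ctx.inj (funext h)

@[fun_prop]
lemma DefF_id : DefF M (fun a : α => a) := DefP_eq0

@[fun_prop]
lemma DefF_fst : DefF M (fun a : α × β => a.1) := by
  exact DefP_reindex (α := (α × β) × α) (DefP_eq0 (α := α)) (fun p => (p.1.1, p.2))
    (Sum.elim (Sum.inl ∘ Sum.inl) Sum.inr) (fun a => by ext i; rcases i with i | i <;> rfl)

@[fun_prop]
lemma DefF_snd : DefF M (fun a : α × β => a.2) := by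
  exact DefP_reindex (α := (α × β) × β) (DefP_eq0 (α := β)) (fun p => (p.1.2, p.2))
    (Sum.elim (Sum.inl ∘ Sum.inr) Sum.inr) (fun a => by ext i; rcases i with i | i <;> rfl)

@[fun_prop]
lemma DefP_comp {R : β → Prop} {f : α → β} (h : DefP M R) (hf : DefF M f) : DefP M (fun a => R (f a)) := by
  have h1 : DefP M (fun p : α × β => f p.1 = p.2 ∧ R p.2) := by
    refine DefP.and hf ?_
    exact DefP_reindex h (fun p : α × β => p.2) Sum.inr (fun a => by ext i; rfl)
  exact (DefP.ex (R := fun a b => f a = b ∧ R b) h1).congr (fun a => by simp)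

@[fun_prop]
lemma DefF_prod {f : α → β} {g : α → γ} (hf : DefF M f) (hg : DefF M g) : DefF M (fun a => (f a, g a)) := by
  have h1 : DefP M (fun p : α × (β × γ) => f p.1 = p.2.1) :=
    DefP_reindex (α := α × (β × γ)) hf (fun p => (p.1, p.2.1)) (Sum.elim Sum.inl (Sum.inr ∘ Sum.inl))
      (fun a => by ext i; rcases i with i | i <;> rfl)
  have h2 : DefP M (fun p : α × (β × γ) => g p.1 = p.2.2) :=
    DefP_reindex (α := α × (β × γ)) hg (fun p => (p.1, p.2.2)) (Sum.elim Sum.inl (Sum.inr ∘ Sum.inr))
      (fun a => by ext i; rcases i with i | i <;> rfl)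
  exact (h1.and h2).congr (fun p => by rw [Prod.ext_iff])

@[fun_prop]
lemma DefF_comp {g : β → γ} {f : α → β} (hg : DefF M g) (hf : DefF M f) : DefF M (fun a => g (f a)) := by
  have h1 : DefF M (fun p : α × γ => (f p.1, p.2)) := by
    have h2 : DefF M (fun p : α × γ => f p.1) := by
      have : DefP M (fun p : (α × γ) × β => f p.1.1 = p.2) :=
        DefP_reindex (α := (α × γ) × β) hf (fun p => (p.1.1, p.2)) (Sum.elim (Sum.inl ∘ Sum.inl) Sum.inr)
          (fun a => by ext i; rcases i with i | i <;> rfl)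
      exact this
    exact DefF_prod h2 DefF_snd
  exact DefP_comp (R := fun q : β × γ => g q.1 = q.2) hg h1

@[fun_prop]
lemma DefF_const (b : β) : DefF M (fun _ : α => b) := by
  have h : DS M (⋂ i : Ctx.ι M β, {v : Ctx.ι M α ⊕ Ctx.ι M β → M | v (Sum.inr i) = Ctx.co b i}) :=
    definable_iInter_of_finite (fun i => DS_const _ _)
  refine DefP_of h (fun p => ?_)
  simp only [Set.mem_iInter]
  constructor
  · intro h i
    show Ctx.co p.2 i = Ctx.co b i
    rw [h]
  · intro h
    exact Ctx.inj (funext (fun i => (h i).symm))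

@[fun_prop]
lemma DefP.eq {f g : α → β} (hf : DefF M f) (hg : DefF M g) : DefP M (fun a => f a = g a) :=
  DefP_comp (R := fun p : β × β => p.1 = p.2) DefP_eq0 (DefF_prod hf hg)

@[fun_prop]
lemma DefP.mem {f g : α → M} (hf : DefF M f) (hg : DefF M g) : DefP M (fun a => f a ∈ g a) := by
  have h : DefP M (fun p : M × M => p.1 ∈ p.2) :=
    DefP_of (DS_mem (Sum.inl ()) (Sum.inr ())) (fun p => by rfl)
  exact DefP_comp (R := fun p : M × M => p.1 ∈ p.2) h (DefF_prod hf hg)

@[fun_prop]
lemma DefF.v {A : M} : DefF M (fun a : El A => a.v) := by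
  exact DefP_of (S := {w : Unit ⊕ Unit → M | w (Sum.inl ()) = w (Sum.inr ())}) (DS_eq _ _) (fun a => Iff.rfl)

lemma DefF_of_v {A : M} {f : α → El A} (h : DefF M (fun a => (f a).v)) : DefF M f := by
  have h1 : DefP M (fun p : α × El A => (f p.1).v = p.2.v) := by
    have h2 : DefF M (fun p : α × El A => (f p.1).v) := DefF_comp (g := fun a : α => (f a).v) h DefF_fst
    have h3 : DefF M (fun p : α × El A => p.2.v) := DefF_comp (DefF.v) DefF_snd
    exact DefP.eq h2 h3
  exact h1.congr (fun p => ⟨fun h => El.ext h, fun h => by rw [h]⟩)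

/-- definability of a specialised predicate -/
theorem DefP.fix {α β : Type} [Ctx M α] [Ctx M β] {R : α → β → Prop} (h : DefP M (fun p : α × β => R p.1 p.2)) (a : α) :
    DefP M (fun b => R a b) :=
  DefP_comp (R := fun p : α × β => R p.1 p.2) h (DefF_prod (DefF_const a) DefF_id)

/-- definability of a specialised function -/
theorem DefF.fix {α β γ : Type} [Ctx M α] [Ctx M β] [Ctx M γ] {F : α → β → γ}
    (h : DefF M (fun p : α × β => F p.1 p.2)) (a : α) : DefF M (fun b => F a b) :=
  DefF_comp (g := fun p : α × β => F p.1 p.2) h (DefF_prod (DefF_const a) DefF_id)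

/-- a function is definable if its values are characterised by a definable relation -/
theorem DefF_of {α β : Type} [Ctx M α] [Ctx M β] {f : α → β} {R : α → β → Prop}
    (h : DefP M (fun p : α × β => R p.1 p.2)) (hR : ∀ a b, f a = b ↔ R a b) : DefF M f :=
  h.congr (fun p => (hR p.1 p.2).symm)


example (c : M) : DefP M (fun x : M => ∃ y : M, y ∈ x ∧ (∀ z : M, z ∈ y → z = c)) := by fun_prop
example (c : M) : DefP M (fun x : M × M => ∃ y : M, y ∈ x.1 ∧ (∀ z : El c, z.v ∈ y → z.v = x.2)) := by fun_prop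

end

end Pool.Agent.Helper79.ZF
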