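import Pool.Agent.Helper79.ZF.Pi

/-!
# The generic extension
-/

namespace Pool.Agent.Helper79.ZF

open FirstOrder Set

variable {M : Type} [Membership M M] [ZFModel M]
variable {α β γ : Type} [Ctx M α] [Ctx M β] [Ctx M γ]

namespace FData

/-- renamed names -/
abbrev VN (D : FData M) : Type := M × D.AA

/-- renaming -/
def ren {D : FData M} (X : D.VN) (f : D.AA) : D.VN := (X.1, X.2 * f)

section
variable {D : FData M}

@[fun_prop]
theorem ren_def {X : α → D.VN} {f : α → D.AA} (hX : DefF M X) (hf : DefF M f) : DefF M (fun a => ren (X a) (f a)) := by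
  unfold ren; fun_prop

@[simp] theorem ren_one (X : D.VN) : ren X 1 = X := by
  unfold ren; rw [mul_one]

theorem ren_ren (X : D.VN) (f g : D.AA) : ren (ren X f) g = ren X (f * g) := by
  unfold ren; rw [mul_assoc]

@[simp] theorem ren_fst (X : D.VN) (f : D.AA) : (ren X f).1 = X.1 := rfl
@[simp] theorem ren_snd (X : D.VN) (f : D.AA) : (ren X f).2 = X.2 * f := rfl

/-- forced equality of renamed names -/
def NEq (p : D.PP) (X Y : D.VN) : Prop := D.FEq p X.1 X.2 Y.1 Y.2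

/-- forced membership of renamed names -/
def NMem (p : D.PP) (X Y : D.VN) : Prop := D.FMem p X.1 X.2 Y.1 Y.2

/-- actual membership of renamed names -/
def NElt (p : D.PP) (X Y : D.VN) : Prop := D.Elt p X.1 X.2 Y.1 Y.2

@[fun_prop]
theorem NEq_def {p : α → D.PP} {X Y : α → D.VN} (hp : DefF M p) (hX : DefF M X) (hY : DefF M Y) :
    DefP M (fun a => NEq (p a) (X a) (Y a)) := by
  unfold NEq; fun_prop

@[fun_prop]
theorem NMem_def {p : α → D.PP} {X Y : α → D.VN} (hp : DefF M p) (hX : DefF M X) (hY : DefF M Y) :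
    DefP M (fun a => NMem (p a) (X a) (Y a)) := by
  unfold NMem; fun_prop

@[fun_prop]
theorem NElt_def {p : α → D.PP} {X Y : α → D.VN} (hp : DefF M p) (hX : DefF M X) (hY : DefF M Y) :
    DefP M (fun a => NElt (p a) (X a) (Y a)) := by
  unfold NElt; fun_prop

theorem NEq.refl (p : D.PP) (X : D.VN) : NEq p X X := FEq.refl _ _ _
theorem NEq.symm {p : D.PP} {X Y : D.VN} (h : NEq p X Y) : NEq p Y X := FEq.symm h
theorem NEq.trans {p : D.PP} {X Y Z : D.VN} (h : NEq p X Y) (h' : NEq p Y Z) : NEq p X Z := FEq.trans h h'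
theorem NEq.mono {p q : D.PP} {X Y : D.VN} {f : D.AA} (h : NEq p X Y) (hq : D.V q f p) : NEq q (ren X f) (ren Y f) :=
  FEq.mono h hq
theorem NMem.mono {p q : D.PP} {X Y : D.VN} {f : D.AA} (h : NMem p X Y) (hq : D.V q f p) : NMem q (ren X f) (ren Y f) :=
  FMem.mono h hq
theorem NElt.mono {p q : D.PP} {X Y : D.VN} {f : D.AA} (h : NElt p X Y) (hq : D.V q f p) : NElt q (ren X f) (ren Y f) :=
  Elt.mono h hq
theorem NElt.nmem {p : D.PP} {X Y : D.VN} (h : NElt p X Y) : NMem p X Y := Elt.fmem h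
theorem NMem.congr_left {p : D.PP} {X X' Y : D.VN} (h : NMem p X Y) (he : NEq p X X') : NMem p X' Y :=
  FMem.congr_left h he
theorem NMem.congr_right {p : D.PP} {X Y Y' : D.VN} (h : NMem p X Y) (he : NEq p Y Y') : NMem p X Y' :=
  FMem.congr_right h he

theorem NMem.spec {p : D.PP} {X Y : D.VN} (h : NMem p X Y) {q : D.PP} {f : D.AA} (hq : D.V q f p) :
    ∃ r : D.PP, ∃ g : D.AA, D.V r g q ∧ ∃ Z : D.VN, NElt r Z (ren (ren Y f) g) ∧ NEq r (ren (ren X f) g) Z := by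
  obtain ⟨s, l, hs, σ, e, h1, h2⟩ := h q f hq
  exact ⟨s, l, hs, (σ, e), h1, h2⟩

theorem NMem.dense {p : D.PP} {X Y : D.VN}
    (h : ∀ q : D.PP, ∀ f : D.AA, D.V q f p → ∃ r : D.PP, ∃ g : D.AA, D.V r g q ∧ NMem r (ren (ren X f) g) (ren (ren Y f) g)) :
    NMem p X Y := FMem.dense h

theorem NEq.dense {p : D.PP} {X Y : D.VN}
    (h : ∀ q : D.PP, ∀ f : D.AA, D.V q f p → ∃ r : D.PP, ∃ g : D.AA, D.V r g q ∧ NEq r (ren (ren X f) g) (ren (ren Y f) g)) :
    NEq p X Y := FEq.dense h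

theorem NEq_iff_mem {p : D.PP} {X Y : D.VN} : NEq p X Y ↔
    ∀ r : D.PP, ∀ k : D.AA, D.V r k p → ∀ Z : D.VN, NMem r Z (ren X k) ↔ NMem r Z (ren Y k) := by
  unfold NEq NMem
  rw [FEq_iff_mem]
  exact ⟨fun h r k hr Z => h r k hr Z.1 Z.2, fun h r k hr z c => h r k hr (z, c)⟩

end

variable {D : FData M} (C : GChain D)

namespace GChain

/-- equality of raw elements of the extension -/
def rel (x y : ℕ × D.VN) : Prop :=
  ∃ k, x.1 ≤ k ∧ y.1 ≤ k ∧ NEq (C.p k) (ren x.2 (C.F x.1 k)) (ren y.2 (C.F y.1 k))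

/-- membership of raw elements of the extension -/
def relm (x y : ℕ × D.VN) : Prop :=
  ∃ k, x.1 ≤ k ∧ y.1 ≤ k ∧ NMem (C.p k) (ren x.2 (C.F x.1 k)) (ren y.2 (C.F y.1 k))

theorem F_comp {n m l : ℕ} (h1 : n ≤ m) (h2 : m ≤ l) (X : D.VN) :
    ren (ren X (C.F n m)) (C.F m l) = ren X (C.F n l) := by
  rw [ren_ren, C.hFm n m l h1 h2]

variable {C}

theorem rel_mono {x y : ℕ × D.VN} {k l : ℕ} (hx : x.1 ≤ k) (hy : y.1 ≤ k) (hk : k ≤ l)
    (h : NEq (C.p k) (ren x.2 (C.F x.1 k)) (ren y.2 (C.F y.1 k))) :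
    NEq (C.p l) (ren x.2 (C.F x.1 l)) (ren y.2 (C.F y.1 l)) := by
  have := h.mono (C.hV k l hk)
  rwa [C.F_comp hx hk, C.F_comp hy hk] at this

theorem relm_mono {x y : ℕ × D.VN} {k l : ℕ} (hx : x.1 ≤ k) (hy : y.1 ≤ k) (hk : k ≤ l)
    (h : NMem (C.p k) (ren x.2 (C.F x.1 k)) (ren y.2 (C.F y.1 k))) :
    NMem (C.p l) (ren x.2 (C.F x.1 l)) (ren y.2 (C.F y.1 l)) := by
  have := h.mono (C.hV k l hk)
  rwa [C.F_comp hx hk, C.F_comp hy hk] at this

variable (C)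

/-- the setoid of raw elements -/
def setoid : Setoid (ℕ × D.VN) where
  r := C.rel
  iseqv := by
    refine ⟨fun x => ⟨x.1, le_refl _, le_refl _, NEq.refl _ _⟩, ?_, ?_⟩
    · rintro x y ⟨k, h1, h2, h3⟩
      exact ⟨k, h2, h1, h3.symm⟩
    · rintro x y z ⟨k, h1, h2, h3⟩ ⟨l, h4, h5, h6⟩
      refine ⟨max k l, h1.trans (le_max_left _ _), h5.trans (le_max_right _ _), ?_⟩
      exact (rel_mono h1 h2 (le_max_left k l) h3).trans (rel_mono h4 h5 (le_max_right k l) h6)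

end GChain

/-- The generic extension. -/
def Ext : Type := Quotient C.setoid

/-- the value of a name -/
def val (n : ℕ) (X : D.VN) : Ext C := Quotient.mk C.setoid (n, X)

variable {C}

theorem val_eq_iff {n m : ℕ} {X Y : D.VN} : val C n X = val C m Y ↔ C.rel (n, X) (m, Y) :=
  ⟨fun h => Quotient.exact (s := C.setoid) h, fun h => Quotient.sound (s := C.setoid) h⟩

instance : Membership (Ext C) (Ext C) where
  mem := fun y x => Quotient.liftOn₂ (s₁ := C.setoid) (s₂ := C.setoid) x y C.relm (by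
    have key : ∀ x y x' y' : ℕ × D.VN, C.rel x x' → C.rel y y' → C.relm x y → C.relm x' y' := by
      rintro x y x' y' ⟨k, h1, h2, h3⟩ ⟨l, h4, h5, h6⟩ ⟨m, h7, h8, h9⟩
      have e1 : k ≤ max k (max l m) := le_max_left _ _
      have e2 : l ≤ max k (max l m) := (le_max_left _ _).trans (le_max_right _ _)
      have e3 : m ≤ max k (max l m) := (le_max_right _ _).trans (le_max_right _ _)
      refine ⟨max k (max l m), h2.trans e1, h5.trans e2, ?_⟩
      exact ((GChain.relm_mono h7 h8 e3 h9).congr_left (GChain.rel_mono h1 h2 e1 h3)).congr_right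
        (GChain.rel_mono h4 h5 e2 h6)
    intro x y x' y' h h'
    exact propext ⟨key _ _ _ _ h h', key _ _ _ _ (C.setoid.symm h) (C.setoid.symm h')⟩)

theorem val_mem_iff' {n m : ℕ} {X Y : D.VN} : val C n X ∈ val C m Y ↔ C.relm (n, X) (m, Y) := Iff.rfl

theorem val_ren {n m : ℕ} (h : n ≤ m) (X : D.VN) : val C m (ren X (C.F n m)) = val C n X := by
  rw [val_eq_iff]
  refine ⟨m, le_refl _, h, ?_⟩
  simp only [C.hF0, ren_one]
  exact NEq.refl _ _

theorem exists_val (z : Ext C) : ∃ n X, z = val C n X := by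
  obtain ⟨⟨n, X⟩, rfl⟩ := Quotient.exists_rep (s := C.setoid) z
  exact ⟨n, X, rfl⟩

theorem exists_val_ge (z : Ext C) (k : ℕ) : ∃ n X, k ≤ n ∧ z = val C n X := by
  obtain ⟨n, X, rfl⟩ := exists_val z
  exact ⟨max k n, ren X (C.F n (max k n)), le_max_left _ _, (val_ren (le_max_right _ _) X).symm⟩

theorem val_eq {n : ℕ} {X Y : D.VN} :
    val C n X = val C n Y ↔ ∃ m, n ≤ m ∧ NEq (C.p m) (ren X (C.F n m)) (ren Y (C.F n m)) := by
  rw [val_eq_iff]
  constructor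
  · rintro ⟨k, h1, _, h3⟩; exact ⟨k, h1, h3⟩
  · rintro ⟨k, h1, h3⟩; exact ⟨k, h1, h1, h3⟩

theorem val_mem {n : ℕ} {X Y : D.VN} :
    val C n X ∈ val C n Y ↔ ∃ m, n ≤ m ∧ NMem (C.p m) (ren X (C.F n m)) (ren Y (C.F n m)) := by
  rw [val_mem_iff']
  constructor
  · rintro ⟨k, h1, _, h3⟩; exact ⟨k, h1, h3⟩
  · rintro ⟨k, h1, h3⟩; exact ⟨k, h1, h1, h3⟩

theorem val_eq_of_NEq {n : ℕ} {X Y : D.VN} (h : NEq (C.p n) X Y) : val C n X = val C n Y :=
  val_eq.2 ⟨n, le_refl _, by simpa [C.hF0] using h⟩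

theorem val_mem_of_NMem {n : ℕ} {X Y : D.VN} (h : NMem (C.p n) X Y) : val C n X ∈ val C n Y :=
  val_mem.2 ⟨n, le_refl _, by simpa [C.hF0] using h⟩

theorem mem_val {z : Ext C} {n : ℕ} {Y : D.VN} :
    z ∈ val C n Y ↔ ∃ m, n ≤ m ∧ ∃ Z : D.VN, NElt (C.p m) Z (ren Y (C.F n m)) ∧ z = val C m Z := by
  constructor
  · intro h
    obtain ⟨k, X, hk, rfl⟩ := exists_val_ge z n
    rw [← val_ren hk Y, val_mem] at h
    obtain ⟨m, hm, h⟩ := h
    rw [C.F_comp hk hm] at h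
    obtain ⟨l, hl, Z, h1, h2⟩ := C.gen m (fun q f => ∃ Z : D.VN, NElt q Z (ren (ren Y (C.F n m)) f) ∧
      NEq q (ren (ren X (C.F k m)) f) Z) (by fun_prop) (by
        intro q g hq
        obtain ⟨r, l, hr, Z, h1, h2⟩ := h.spec hq
        rw [ren_ren _ g] at h1 h2
        exact ⟨r, l, hr, Z, h1, h2⟩)
    rw [C.F_comp (hk.trans hm) hl] at h1
    rw [C.F_comp hm hl] at h2
    exact ⟨l, (hk.trans hm).trans hl, Z, h1, (val_ren (hm.trans hl) X).symm.trans (val_eq_of_NEq h2)⟩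
  · rintro ⟨m, hm, Z, h1, rfl⟩
    rw [← val_ren hm Y]
    exact val_mem_of_NMem h1.nmem

end FData

end Pool.Agent.Helper79.ZF
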