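import Pool.Agent.Helper79.ZF.Truth

/-!
# The generic extension is a model of ZF
-/

namespace Pool.Agent.Helper79.ZF

open FirstOrder Set

variable {M : Type} [Membership M M] [ZFModel M]
variable {α β γ : Type} [Ctx M α] [Ctx M β] [Ctx M γ]

namespace FData

variable (D : FData M)

/-- the name consisting of all tuples satisfying a given condition -/
noncomputable def mkName (D0 : M) (S : D.PP → D.AA → M → D.AA → Prop) : M :=
  sepS (prodS (prodS D.P D.A) (prodS D0 D.A)) (fun t => ∃ p : D.PP, ∃ f : D.AA, ∃ τ : M, ∃ c : D.AA,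
    t = D.tup p f τ c ∧ S p f τ c)

@[fun_prop]
theorem mkName_def {D0 : α → M} {S : α → D.PP → D.AA → M → D.AA → Prop} (h0 : DefF M D0)
    (hS : DefP M (fun t : α × (D.PP × (D.AA × (M × D.AA))) => S t.1 t.2.1 t.2.2.1 t.2.2.2.1 t.2.2.2.2)) :
    DefF M (fun a => D.mkName (D0 a) (S a)) := by
  unfold mkName
  fun_prop

theorem tup_mem_mkName {D0 : M} {S : D.PP → D.AA → M → D.AA → Prop}
    (hS : DefP M (fun t : D.PP × (D.AA × (M × D.AA)) => S t.1 t.2.1 t.2.2.1 t.2.2.2)) {p : D.PP} {f : D.AA} {τ : M}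
    {c : D.AA} : D.tup p f τ c ∈ D.mkName D0 S ↔ (τ ∈ D0 ∧ S p f τ c) := by
  unfold mkName
  rw [mem_sepS (by fun_prop)]
  constructor
  · rintro ⟨h1, p', f', τ', c', h2, h3⟩
    rw [tup_inj] at h2
    obtain ⟨rfl, rfl, rfl, rfl⟩ := h2
    refine ⟨?_, h3⟩
    unfold tup at h1
    simp only [opair_mem_prodS] at h1
    exact h1.2.1
  · rintro ⟨h1, h2⟩
    refine ⟨?_, p, f, τ, c, rfl, h2⟩
    unfold tup
    simp only [opair_mem_prodS]
    exact ⟨⟨p.mem, f.mem⟩, h1, c.mem⟩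

theorem Elt_mkName {D0 : M} {S : D.PP → D.AA → M → D.AA → Prop}
    (hS : DefP M (fun t : D.PP × (D.AA × (M × D.AA)) => S t.1 t.2.1 t.2.2.1 t.2.2.2))
    (hm : ∀ p q f g τ c, D.V q g p → S p f τ c → S q (f * g) τ (c * g))
    {q : D.PP} {τ : M} {d k : D.AA} : D.Elt q τ d (D.mkName D0 S) k ↔ (τ ∈ D0 ∧ S q k τ d) := by
  unfold Elt
  constructor
  · rintro ⟨p, f, c, g, h1, h2, h3, h4⟩
    rw [D.tup_mem_mkName hS] at h1
    have := hm _ _ _ _ _ _ h2 h1.2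
    rw [h3, h4] at this
    exact ⟨h1.1, this⟩
  · rintro ⟨h1, h2⟩
    exact ⟨q, k, d, 1, (D.tup_mem_mkName hS).2 ⟨h1, h2⟩, D.V_one q, mul_one _, mul_one _⟩

/-- the name with all possible elements with first components in a given set -/
noncomputable def fullName (D0 : M) : M := D.mkName D0 (fun _ _ _ _ => True)

@[fun_prop]
theorem fullName_def {D0 : α → M} (h0 : DefF M D0) : DefF M (fun a => D.fullName (D0 a)) := by
  unfold fullName
  fun_prop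

theorem Elt_fullName {D0 : M} {q : D.PP} {τ : M} {d k : D.AA} : D.Elt q τ d (D.fullName D0) k ↔ τ ∈ D0 := by
  unfold fullName
  rw [D.Elt_mkName (by fun_prop) (fun _ _ _ _ _ _ _ h => h)]
  simp

variable {D} {C : GChain D}

theorem NElt_mkName {D0 : M} {S : D.PP → D.AA → M → D.AA → Prop}
    (hS : DefP M (fun t : D.PP × (D.AA × (M × D.AA)) => S t.1 t.2.1 t.2.2.1 t.2.2.2))
    (hm : ∀ p q f g τ c, D.V q g p → S p f τ c → S q (f * g) τ (c * g))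
    {q : D.PP} {X : D.VN} {a k : D.AA} : NElt q X (ren (D.mkName D0 S, a) k) ↔ (X.1 ∈ D0 ∧ S q (a * k) X.1 X.2) :=
  D.Elt_mkName hS hm

theorem mem_full {z : Ext C} {n : ℕ} {D0 : M} {a : D.AA} :
    z ∈ val C n (D.fullName D0, a) ↔ ∃ m, n ≤ m ∧ ∃ Z : D.VN, Z.1 ∈ D0 ∧ z = val C m Z := by
  rw [mem_val]
  constructor
  · rintro ⟨m, hm, Z, h1, h2⟩
    exact ⟨m, hm, Z, D.Elt_fullName.1 h1, h2⟩
  · rintro ⟨m, hm, Z, h1, h2⟩
    exact ⟨m, hm, Z, D.Elt_fullName.2 h1, h2⟩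

theorem NElt.dom {q : D.PP} {X Y : D.VN} (h : NElt q X Y) : X.1 ∈ D.dom Y.1 := Elt.dom h

variable (C) in
theorem ext_sep_aux {S : Set (Ext C)} (hS : (Set.univ : Set (Ext C)).Definable₁ LSet S) (n1 : ℕ) (X1 : D.VN) :
    ∃ n Y, n1 ≤ n ∧ (∀ t : M, t ∈ Y → t ∈ prodS (prodS D.P D.A) (prodS (D.dom X1.1) D.A)) ∧
      ∀ z : Ext C, z ∈ val C n (Y, 1) ↔ (z ∈ val C n1 X1 ∧ z ∈ S) := by
  obtain ⟨n0, Fo, h1, h2, h3, h4⟩ := Fr.of_DS (C := C) hS
  obtain ⟨n, hn, hn1⟩ : ∃ n, n0 ≤ n ∧ n1 ≤ n := ⟨max n0 n1, le_max_left _ _, le_max_right _ _⟩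
  have hX : (ren X1 (C.F n1 n)).1 = X1.1 := rfl
  rw [← val_ren hn1 X1, ← hX]
  generalize ren X1 (C.F n1 n) = X
  have hd : DefP M (fun t : D.PP × (D.AA × (M × D.AA)) => NElt t.1 (t.2.2.1, t.2.2.2) (ren X t.2.1) ∧
    Fo t.1 (C.F n0 n * t.2.1) (fun _ => (t.2.2.1, t.2.2.2))) := by fun_prop
  have hm : ∀ p q f g τ c, D.V q g p → (NElt p (τ, c) (ren X f) ∧ Fo p (C.F n0 n * f) (fun _ => (τ, c))) →
      (NElt q (τ, c * g) (ren X (f * g)) ∧ Fo q (C.F n0 n * (f * g)) (fun _ => (τ, c * g))) := by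
    rintro p q f g τ c hq ⟨h5, h6⟩
    have h7 := h5.mono hq
    have h8 := h2 _ _ _ _ _ hq h6
    rw [ren_ren] at h7
    rw [mul_assoc] at h8
    exact ⟨h7, h8⟩
  refine ⟨n, D.mkName (D.dom X.1) (fun p f τ c => NElt p (τ, c) (ren X f) ∧ Fo p (C.F n0 n * f) (fun _ => (τ, c))),
    hn1, ?_, fun z => ?_⟩
  · intro t ht
    unfold mkName at ht
    rw [mem_sepS (by fun_prop)] at ht
    exact ht.1
  rw [mem_val, mem_val]
  constructor
  · rintro ⟨m, hnm, Z, h5, rfl⟩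
    rw [NElt_mkName hd hm] at h5
    obtain ⟨h6, h7, h8⟩ := h5
    rw [one_mul] at h7 h8
    refine ⟨⟨m, hnm, Z, h7, rfl⟩, ?_⟩
    have := h4 m (hn.trans hnm) (fun _ => Z)
    refine this.2 ⟨m, le_refl _, ?_⟩
    rw [C.hFm _ _ _ hn hnm] at h8
    rw [C.hF0, renV_one]
    exact h8
  · rintro ⟨⟨m, hnm, Z, h5, rfl⟩, hz⟩
    have := (h4 m (hn.trans hnm) (fun _ => Z)).1 hz
    obtain ⟨l, hl, h6⟩ := this
    refine ⟨l, hnm.trans hl, ren Z (C.F m l), ?_, (val_ren hl Z).symm⟩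
    have h7 := h5.mono (C.hV m l hl)
    rw [C.F_comp hnm hl] at h7
    rw [NElt_mkName hd hm, one_mul]
    refine ⟨h7.dom, h7, ?_⟩
    rw [C.hFm _ _ _ hn (hnm.trans hl)]
    exact h6

variable (C) in
theorem ext_sep {S : Set (Ext C)} (hS : (Set.univ : Set (Ext C)).Definable₁ LSet S) (x : Ext C) :
    ∃ y : Ext C, ∀ z : Ext C, z ∈ y ↔ (z ∈ x ∧ z ∈ S) := by
  obtain ⟨n, X, rfl⟩ := exists_val x
  obtain ⟨m, Y, _, _, h⟩ := ext_sep_aux C hS n X
  exact ⟨_, h⟩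

variable (C) in
theorem ext_sepP {R : Ext C → Prop} (hR : DefP (Ext C) R) (x : Ext C) :
    ∃ y : Ext C, ∀ z : Ext C, z ∈ y ↔ (z ∈ x ∧ R z) := by
  apply ext_sep C (S := {z | R z})
  have h := Set.Definable.preimage_comp (fun _ : Unit => (0 : Fin 1)) hR
  rw [Set.Definable₁]
  convert h using 1
  ext g
  constructor
  · intro h
    exact ⟨g 0, rfl, h⟩
  · rintro ⟨a, h1, h2⟩
    have : a = g 0 := congrFun h1 ()
    subst this; exact h2

variable (C) in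
theorem ext_ext {x y : Ext C} (h : ∀ z : Ext C, z ∈ x ↔ z ∈ y) : x = y := by
  obtain ⟨n0, X, rfl⟩ := exists_val x
  obtain ⟨n, Y, hn, rfl⟩ := exists_val_ge y n0
  rw [← val_ren hn X] at h ⊢
  generalize ren X (C.F n0 n) = X at h ⊢
  obtain ⟨m, hm, h5⟩ := C.gen n (fun q f => NEq q (ren X f) (ren Y f) ∨
      (∃ Z : D.VN, (NMem q Z (ren X f) ∧ ∀ r k, D.V r k q → ¬ NMem r (ren Z k) (ren (ren Y f) k)) ∨
        (NMem q Z (ren Y f) ∧ ∀ r k, D.V r k q → ¬ NMem r (ren Z k) (ren (ren X f) k)))) (by fun_prop) (by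
    intro q f hq
    by_cases h6 : NEq q (ren X f) (ren Y f)
    · exact ⟨q, 1, D.V_one q, Or.inl (by rw [mul_one]; exact h6)⟩
    rw [NEq_iff_mem] at h6
    push Not at h6
    obtain ⟨r, k, hr, Z, h6⟩ := h6
    have key : ∀ A B : D.VN, NMem r Z A → ¬ NMem r Z B → ∃ s l, D.V s l r ∧ NMem s (ren Z l) (ren A l) ∧
        ∀ t m, D.V t m s → ¬ NMem t (ren (ren Z l) m) (ren (ren B l) m) := by
      intro A B hA hB
      by_contra h7
      apply hB
      apply NMem.dense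
      intro s l hs
      by_contra h8
      push Not at h8
      exact h7 ⟨s, l, hs, hA.mono hs, h8⟩
    rcases h6 with ⟨h6, h7⟩ | ⟨h6, h7⟩
    · obtain ⟨s, l, hs, h8, h9⟩ := key _ _ h6 h7
      refine ⟨s, k * l, D.V_mul hs hr, Or.inr ⟨ren Z l, Or.inl ⟨?_, ?_⟩⟩⟩
      · simpa only [ren_ren, mul_assoc] using h8
      · simpa only [ren_ren, mul_assoc] using h9
    · obtain ⟨s, l, hs, h8, h9⟩ := key _ _ h7 h6
      refine ⟨s, k * l, D.V_mul hs hr, Or.inr ⟨ren Z l, Or.inr ⟨?_, ?_⟩⟩⟩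
      · simpa only [ren_ren, mul_assoc] using h8
      · simpa only [ren_ren, mul_assoc] using h9)
  have key : ∀ A B Z : D.VN, (∀ z, z ∈ val C m A ↔ z ∈ val C m B) → NMem (C.p m) Z A →
      (∀ r k, D.V r k (C.p m) → ¬ NMem r (ren Z k) (ren B k)) → False := by
    intro A B Z hAB hA hB
    have h6 := val_mem_of_NMem hA
    rw [hAB, val_mem] at h6
    obtain ⟨l, hl, h7⟩ := h6
    exact hB _ _ (C.hV m l hl) h7
  rcases h5 with h5 | ⟨Z, ⟨h5, h6⟩ | ⟨h5, h6⟩⟩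
  · rw [← val_ren hm X, ← val_ren hm Y]
    exact val_eq_of_NEq h5
  · exact (key _ _ Z (by simpa only [val_ren hm] using h) h5 h6).elim
  · exact (key _ _ Z (by simpa only [val_ren hm] using fun z => (h z).symm) h5 h6).elim

variable (C) in
theorem ext_found {x : Ext C} (h : ∃ y, y ∈ x) : ∃ y : Ext C, y ∈ x ∧ ∀ z : Ext C, z ∈ y → ¬ z ∈ x := by
  obtain ⟨y, hy⟩ := h
  obtain ⟨n0, X, rfl⟩ := exists_val x
  obtain ⟨n, Y, hn, rfl⟩ := exists_val_ge y n0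
  rw [← val_ren hn X] at hy ⊢
  generalize ren X (C.F n0 n) = X at hy ⊢
  rw [val_mem] at hy
  obtain ⟨n', hn', hy⟩ := hy
  rw [← val_ren hn' X]
  generalize ren X (C.F n n') = X at hy ⊢
  generalize ren Y (C.F n n') = Y at hy
  -- the dense set
  have hE : DefP M (fun t : D.PP × D.AA => ∃ Y : D.VN, NMem t.1 Y (ren X t.2) ∧ ∀ r k, D.V r k t.1 → ∀ Z : D.VN,
    NElt r Z (ren Y k) → ¬ NMem r Z (ren (ren X t.2) k)) := by fun_prop
  have key : ∀ τ : M, ∀ q f c, D.V q f (C.p n') → NMem q (τ, c) (ren X f) → ∃ r k, D.V r k q ∧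
      ∃ Y : D.VN, NMem r Y (ren X (f * k)) ∧ ∀ s l, D.V s l r → ∀ Z : D.VN,
        NElt s Z (ren Y l) → ¬ NMem s Z (ren (ren X (f * k)) l) := by
    refine D.dom_induction (R := fun τ => ∀ q f c, D.V q f (C.p n') → NMem q (τ, c) (ren X f) → ∃ r k, D.V r k q ∧
      ∃ Y : D.VN, NMem r Y (ren X (f * k)) ∧ ∀ s l, D.V s l r → ∀ Z : D.VN,
        NElt s Z (ren Y l) → ¬ NMem s Z (ren (ren X (f * k)) l)) (by fun_prop) ?_
    intro τ ih q f c hq h1
    by_cases h2 : ∃ r k, D.V r k q ∧ ∃ Z : D.VN, NElt r Z (ren (τ, c) k) ∧ NMem r Z (ren (ren X f) k)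
    · obtain ⟨r, k, hr, Z, h3, h4⟩ := h2
      rw [ren_ren] at h4
      obtain ⟨s, l, hs, h5⟩ := ih Z.1 h3.dom r (f * k) Z.2 (D.V_mul hr hq) h4
      refine ⟨s, k * l, D.V_mul hs hr, ?_⟩
      simpa only [mul_assoc] using h5
    · push Not at h2
      refine ⟨q, 1, D.V_one q, (τ, c), ?_, ?_⟩
      · rw [mul_one]; exact h1
      · rw [mul_one]; exact h2
  obtain ⟨m, hm, Y', h5, h6⟩ := C.gen n' (fun q f => ∃ Y : D.VN, NMem q Y (ren X f) ∧ ∀ r k, D.V r k q → ∀ Z : D.VN,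
    NElt r Z (ren Y k) → ¬ NMem r Z (ren (ren X f) k)) hE (by
    intro q f hq
    exact key _ q f _ hq (hy.mono hq))
  refine ⟨val C m Y', ?_, ?_⟩
  · rw [← val_ren hm X]; exact val_mem_of_NMem h5
  · intro z hz hz'
    obtain ⟨l, hl, Z, h7, rfl⟩ := mem_val.1 hz
    rw [← val_ren (hm.trans hl) X, val_mem] at hz'
    obtain ⟨l', hl', h8⟩ := hz'
    have h9 := h7.mono (C.hV l l' hl')
    rw [C.F_comp hl hl'] at h9
    rw [← C.F_comp hm hl] at h8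
    rw [C.F_comp hl hl'] at h8
    exact h6 _ _ (C.hV m l' (hl.trans hl')) _ h9 h8

/-! ### check names -/

variable (D) in
/-- check names -/
noncomputable def chk (x : M) : M := memRec (fun x f => D.fullName (repS x (fun y => app f y))) x

@[fun_prop]
theorem chk_def {x : α → M} (hx : DefF M x) : DefF M (fun a => D.chk (x a)) := by
  unfold chk; fun_prop

theorem chk_eq (x : M) : D.chk x = D.fullName (repS x D.chk) := by
  have hc : DefF M D.chk := by fun_prop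
  conv_lhs => unfold chk
  rw [memRec_eq (by fun_prop)]
  congr 1
  apply ext'
  intro z
  rw [mem_repS (by fun_prop), mem_repS (by fun_prop)]
  constructor
  · rintro ⟨w, h1, rfl⟩
    refine ⟨w, h1, ?_⟩
    have : app (lam x D.chk) w = D.chk w := app_lam hc h1
    exact this
  · rintro ⟨w, h1, rfl⟩
    refine ⟨w, h1, ?_⟩
    have : app (lam x D.chk) w = D.chk w := app_lam hc h1
    exact this.symm

theorem Elt_chk {x : M} {q : D.PP} {τ : M} {d k : D.AA} : D.Elt q τ d (D.chk x) k ↔ ∃ y : M, y ∈ x ∧ τ = D.chk y := by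
  rw [chk_eq, Elt_fullName, mem_repS (by fun_prop)]

theorem FEq_chk (p : D.PP) (x : M) (a b : D.AA) : D.FEq p (D.chk x) a (D.chk x) b := by
  rw [D.FEq_iff]
  refine ⟨fun r k hr τ d hτ => ?_, fun r k hr σ e hσ => ?_⟩
  · rw [Elt_chk] at hτ
    exact ⟨r, 1, D.V_one r, τ, d, Elt_chk.2 hτ, by rw [mul_one]; exact FEq.refl _ _ _⟩
  · rw [Elt_chk] at hσ
    exact ⟨r, 1, D.V_one r, σ, e, Elt_chk.2 hσ, by rw [mul_one]; exact FEq.refl _ _ _⟩

variable (C) in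
/-- the canonical embedding of the ground model -/
noncomputable def jj (x : M) : Ext C := val C 0 (D.chk x, 1)

theorem val_chk (n : ℕ) (x : M) (a : D.AA) : val C n (D.chk x, a) = jj C x := by
  unfold jj
  rw [← val_ren (Nat.zero_le n) (D.chk x, 1)]
  exact val_eq_of_NEq (FEq_chk _ _ _ _)

theorem mem_jj {x : M} {z : Ext C} : z ∈ jj C x ↔ ∃ y : M, y ∈ x ∧ z = jj C y := by
  unfold jj
  rw [mem_val]
  constructor
  · rintro ⟨m, hm, Z, h1, rfl⟩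
    obtain ⟨y, hy, h⟩ := Elt_chk.1 h1
    refine ⟨y, hy, ?_⟩
    have : Z = (D.chk y, Z.2) := Prod.ext h rfl
    rw [this]
    exact val_chk m y Z.2
  · rintro ⟨y, hy, rfl⟩
    exact ⟨0, le_refl _, (D.chk y, 1), Elt_chk.2 ⟨y, hy, rfl⟩, rfl⟩

theorem ext_pair (x y : Ext C) : ∃ z : Ext C, ∀ w : Ext C, w ∈ z ↔ (w = x ∨ w = y) := by
  obtain ⟨n0, X, rfl⟩ := exists_val x
  obtain ⟨n, Y, hn, rfl⟩ := exists_val_ge y n0
  obtain ⟨z, hz⟩ := ext_sepP C (R := fun w => w = val C n0 X ∨ w = val C n Y) (by fun_prop)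
    (val C n0 (D.fullName (upair X.1 Y.1), 1))
  refine ⟨z, fun w => ?_⟩
  rw [hz]
  refine ⟨fun h => h.2, fun h => ⟨?_, h⟩⟩
  rw [mem_full]
  rcases h with rfl | rfl
  · exact ⟨n0, le_refl _, X, by simp, rfl⟩
  · exact ⟨n, hn, Y, by simp, rfl⟩

theorem ext_union (x : Ext C) : ∃ y : Ext C, ∀ z : Ext C, z ∈ y ↔ ∃ w : Ext C, w ∈ x ∧ z ∈ w := by
  obtain ⟨n, X, rfl⟩ := exists_val x
  obtain ⟨y, hy⟩ := ext_sepP C (R := fun z => ∃ w : Ext C, w ∈ val C n X ∧ z ∈ w) (by fun_prop)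
    (val C n (D.fullName (sU (repS (D.dom X.1) D.dom)), 1))
  refine ⟨y, fun z => ?_⟩
  rw [hy]
  refine ⟨fun h => h.2, fun h => ⟨?_, h⟩⟩
  obtain ⟨w, hw, hz⟩ := h
  obtain ⟨m, hm, W, h1, rfl⟩ := mem_val.1 hw
  obtain ⟨l, hl, Z, h2, rfl⟩ := mem_val.1 hz
  rw [mem_full]
  refine ⟨l, hm.trans hl, Z, ?_, rfl⟩
  rw [mem_sU]
  exact ⟨D.dom W.1, (mem_repS (by fun_prop)).2 ⟨W.1, h1.dom, rfl⟩, h2.dom⟩

theorem ext_power (x : Ext C) : ∃ y : Ext C, ∀ z : Ext C, z ∈ y ↔ ∀ w : Ext C, w ∈ z → w ∈ x := by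
  obtain ⟨n, X, rfl⟩ := exists_val x
  obtain ⟨y, hy⟩ := ext_sepP C (R := fun z => ∀ w : Ext C, w ∈ z → w ∈ val C n X) (by fun_prop)
    (val C n (D.fullName (pow (prodS (prodS D.P D.A) (prodS (D.dom X.1) D.A))), 1))
  refine ⟨y, fun z => ?_⟩
  rw [hy]
  refine ⟨fun h => h.2, fun h => ⟨?_, h⟩⟩
  have hS : (Set.univ : Set (Ext C)).Definable₁ LSet {w | w ∈ z} := by
    have h := Set.Definable.preimage_comp (fun _ : Unit => (0 : Fin 1)) (DS_memc (M := Ext C) () z)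
    exact h
  obtain ⟨m, Y, hm, h1, h2⟩ := ext_sep_aux C hS n X
  have e : z = val C m (Y, 1) := by
    apply ext_ext
    intro w
    rw [h2]
    exact ⟨fun h3 => ⟨h w h3, h3⟩, fun h3 => h3.2⟩
  rw [e, mem_full]
  exact ⟨m, hm, (Y, 1), mem_pow.2 h1, rfl⟩

theorem ext_infinity : ∃ x : Ext C, (∃ e : Ext C, e ∈ x ∧ ∀ z : Ext C, ¬ z ∈ e) ∧
    ∀ y : Ext C, y ∈ x → ∃ z : Ext C, z ∈ x ∧ ∀ w : Ext C, w ∈ z ↔ (w ∈ y ∨ w = y) := by
  refine ⟨jj C (om M), ⟨jj C emp, mem_jj.2 ⟨_, zero_mem_om, rfl⟩, ?_⟩, ?_⟩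
  · intro z hz
    obtain ⟨y, hy, _⟩ := mem_jj.1 hz
    exact not_mem_emp y hy
  · intro y hy
    obtain ⟨n, hn, rfl⟩ := mem_jj.1 hy
    refine ⟨jj C (suc n), mem_jj.2 ⟨_, suc_mem_om hn, rfl⟩, fun w => ?_⟩
    rw [mem_jj, mem_jj]
    constructor
    · rintro ⟨y, hy, rfl⟩
      rcases mem_suc.1 hy with h | rfl
      · exact Or.inl ⟨y, h, rfl⟩
      · exact Or.inr rfl
    · rintro (⟨y, hy, rfl⟩ | rfl)
      · exact ⟨y, mem_suc.2 (Or.inl hy), rfl⟩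
      · exact ⟨n, mem_suc.2 (Or.inr rfl), rfl⟩

theorem ext_repl (R : Set (Ext C × Ext C)) (hR : (Set.univ : Set (Ext C)).Definable₂ LSet R) (x : Ext C)
    (hx : ∀ y : Ext C, y ∈ x → ∃! z : Ext C, (y, z) ∈ R) :
    ∃ w : Ext C, ∀ z : Ext C, z ∈ w ↔ ∃ y : Ext C, y ∈ x ∧ (y, z) ∈ R := by
  have hR' : DefP (Ext C) (fun p : Ext C × Ext C => p ∈ R) := by
    have h := Set.Definable.preimage_comp (fun i : Fin 2 => if i = 0 then (Sum.inl () : Unit ⊕ Unit) else Sum.inr ()) hR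
    refine DefP_of h (fun p => ?_)
    rfl
  obtain ⟨n0, Fo, h1, h2, h3, h4⟩ := Fr.of_DS (C := C) hR
  obtain ⟨n, X, hn, rfl⟩ := exists_val_ge x n0
  let tu : D.VN → D.VN → Fin 2 → D.VN := fun X Y i => if i = 0 then X else Y
  have htu : DefF M (fun t : D.VN × D.VN => tu t.1 t.2) := by
    apply DefF_pi
    intro k
    by_cases hk : k = 0
    · simp only [hk, if_true]; fun_prop
    · simp only [hk, if_false]; fun_prop
  obtain ⟨b, hb⟩ := collection (R := fun t σ => ∃ q : D.PP, ∃ f : D.AA, ∃ τ : M, ∃ d e : D.AA, t = D.tup q f τ d ∧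
    Fo q f (tu (τ, d) (σ, e))) (by fun_prop) (prodS (prodS D.P D.A) (prodS (D.dom X.1) D.A))
  have key : ∀ z : Ext C, z ∈ val C n X → ∀ w, (z, w) ∈ R → w ∈ val C n (D.fullName b, 1) := by
    intro z hz w hzw
    obtain ⟨m, hm, Z, h5, e1⟩ := mem_val.1 hz
    obtain ⟨l, W, hl, e2⟩ := exists_val_ge w m
    have e3 : valV C l (tu (ren Z (C.F m l)) W) = fun i => if i = 0 then z else w := by
      funext i
      by_cases hi : i = 0
      · simp [valV, tu, hi, e1, val_ren hl]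
      · simp [valV, tu, hi, e2]
    have h6 := (h4 l (hn.trans (hm.trans hl)) (tu (ren Z (C.F m l)) W)).1 (by
      rw [e3]; exact hzw)
    obtain ⟨k, hk, h7⟩ := h6
    have e4 : renV (tu (ren Z (C.F m l)) W) (C.F l k) = tu (ren Z (C.F m k)) (ren W (C.F l k)) := by
      funext i
      by_cases hi : i = 0
      · simp [tu, hi, C.F_comp hl hk]
      · simp [tu, hi]
    rw [e4] at h7
    obtain ⟨σ, h8, q, f, τ, d, e, h9, h10⟩ := hb (D.tup (C.p k) (C.F n0 k) Z.1 (Z.2 * C.F m k)) (by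
      unfold tup
      simp only [opair_mem_prodS]
      exact ⟨⟨(C.p k).mem, (C.F n0 k).mem⟩, h5.dom, (Z.2 * C.F m k).mem⟩)
      ⟨(ren W (C.F l k)).1, _, _, _, _, (ren W (C.F l k)).2, rfl, h7⟩
    rw [tup_inj] at h9
    obtain ⟨rfl, rfl, rfl, rfl⟩ := h9
    have e5 : valV C k (tu (ren Z (C.F m k)) (σ, e)) = fun i => if i = 0 then z else val C k (σ, e) := by
      funext i
      by_cases hi : i = 0
      · simp [valV, tu, hi, e1, val_ren (hl.trans hk)]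
      · simp [valV, tu, hi]
    have h11 := (h4 k (hn.trans (hm.trans (hl.trans hk))) (tu (ren Z (C.F m k)) (σ, e))).2
      ⟨k, le_refl _, by rw [C.hF0, renV_one]; exact h10⟩
    rw [e5] at h11
    have h12 : (z, val C k (σ, e)) ∈ R := h11
    rw [(hx z hz).unique hzw h12, mem_full]
    exact ⟨k, hm.trans (hl.trans hk), (σ, e), h8, rfl⟩
  obtain ⟨y, hy⟩ := ext_sepP C (R := fun w => ∃ z : Ext C, z ∈ val C n X ∧ (z, w) ∈ R) (by fun_prop)
    (val C n (D.fullName b, 1))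
  refine ⟨y, fun w => ?_⟩
  rw [hy]
  exact ⟨fun h => h.2, fun h => ⟨by obtain ⟨z, hz, hzw⟩ := h; exact key z hz w hzw, h⟩⟩

instance extZF : ZFModel (Ext C) where
  ext := fun _ _ h => ext_ext C h
  found := fun _ h => ext_found C h
  pair := ext_pair
  union := ext_union
  power := ext_power
  infinity := ext_infinity
  separation := fun _ hS x => ext_sep C hS x
  replacement := ext_repl

end FData

end Pool.Agent.Helper79.ZF
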