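import Pool.Agent.Helper79.ZF.KField
import Pool.Agent.Helper79.ZF.Complete

/-!
# The real numbers of a countable model
-/

namespace Pool.Agent.Helper79.ZF

open FirstOrder Set

variable {M : Type} [Membership M M] [ZFModel M]
variable {α β γ : Type} [Ctx M α] [Ctx M β] [Ctx M γ]

variable (M) in
/-- the completion of the rational numbers of the model -/
abbrev KH : Type := Kh (KK M)

/-- elements of the completion with internal lower cut -/
def Low (x : KH M) : Prop := DefP M (fun q : KK M => inc (KK M) q < x)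

theorem Low.out {x : KH M} (h : Low x) : ∃ P : KK M → Prop, DefP M P ∧ ∀ q, P q ↔ inc (KK M) q < x :=
  ⟨_, h, fun _ => Iff.rfl⟩

theorem Low_inc (r : KK M) : Low (inc (KK M) r) := by
  unfold Low
  simp only [inc_lt]
  fun_prop

theorem Low_add {x y : KH M} (hx : Low x) (hy : Low y) : Low (x + y) := by
  obtain ⟨P, hP, hPx⟩ := hx.out
  obtain ⟨Q, hQ, hQy⟩ := hy.out
  have h : DefP M (fun q : KK M => ∃ a b : KK M, P a ∧ Q b ∧ q = a + b) := by fun_prop
  simp only [hPx, hQy] at h
  refine h.congr (fun q => ?_)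
  constructor
  · rintro ⟨a, b, h1, h2, rfl⟩
    rw [map_add]; exact add_lt_add h1 h2
  · intro h
    obtain ⟨a, h1, h2⟩ := exists_btw (K := KK M) (x := inc (KK M) q - y) (y := x) (by linarith)
    refine ⟨a, q - a, h2, ?_, by ring⟩
    rw [map_sub]; linarith

theorem Low_neg {x : KH M} (hx : Low x) : Low (-x) := by
  obtain ⟨P, hP, hPx⟩ := hx.out
  have h : DefP M (fun q : KK M => ∃ a : KK M, a < -q ∧ ¬ P a) := by fun_prop
  simp only [hPx] at h
  refine h.congr (fun q => ?_)
  constructor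
  · rintro ⟨a, h1, h2⟩
    have h3 := (inc_lt (K := KK M)).2 h1
    rw [map_neg] at h3
    rw [not_lt] at h2
    linarith
  · intro h
    obtain ⟨a, h1, h2⟩ := exists_btw (K := KK M) (x := x) (y := inc (KK M) (-q)) (by rw [map_neg]; linarith)
    exact ⟨a, inc_lt.1 h2, not_lt.2 h1.le⟩

theorem lt_mul_iff {x y : KH M} (hx : 0 < x) (hy : 0 < y) (q : KK M) : inc (KK M) q < x * y ↔
    (q ≤ 0 ∨ ∃ a b : KK M, 0 < a ∧ 0 < b ∧ inc (KK M) a < x ∧ inc (KK M) b < y ∧ q < a * b) := by
  constructor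
  · intro h
    rcases le_or_gt q 0 with hq | hq
    · exact Or.inl hq
    · right
      have hq' : 0 < inc (KK M) q := by rw [← map_zero (inc (KK M)), inc_lt]; exact hq
      have h1 : inc (KK M) q / y < x := by rw [div_lt_iff₀ hy]; exact h
      obtain ⟨a, ha1, ha2⟩ := exists_btw h1
      have ha0 : 0 < inc (KK M) a := (div_pos hq' hy).trans ha1
      have ha : 0 < a := by rw [← map_zero (inc (KK M)), inc_lt] at ha0; exact ha0
      have h2 : inc (KK M) q / inc (KK M) a < y := by
        rw [div_lt_iff₀ hy] at ha1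
        rw [div_lt_iff₀ ha0, mul_comm]; exact ha1
      obtain ⟨b, hb1, hb2⟩ := exists_btw h2
      have hb0 : 0 < inc (KK M) b := (div_pos hq' ha0).trans hb1
      have hb : 0 < b := by rw [← map_zero (inc (KK M)), inc_lt] at hb0; exact hb0
      refine ⟨a, b, ha, hb, ha2, hb2, ?_⟩
      rw [← inc_lt, map_mul, mul_comm]
      rwa [div_lt_iff₀ ha0] at hb1
  · rintro (h | ⟨a, b, h1, h2, h3, h4, h5⟩)
    · have h' : inc (KK M) q ≤ 0 := by rw [← map_zero (inc (KK M)), inc_le]; exact h
      exact h'.trans_lt (mul_pos hx hy)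
    · have h1' : 0 < inc (KK M) a := by rw [← map_zero (inc (KK M)), inc_lt]; exact h1
      have h2' : 0 < inc (KK M) b := by rw [← map_zero (inc (KK M)), inc_lt]; exact h2
      have h5' := (inc_lt (K := KK M)).2 h5
      rw [map_mul] at h5'
      exact h5'.trans (mul_lt_mul h3 h4.le h2' hx.le)

theorem Low_mul {x y : KH M} (hx : Low x) (hy : Low y) : Low (x * y) := by
  have key : ∀ x y : KH M, 0 < x → 0 < y → Low x → Low y → Low (x * y) := by
    intro x y h1 h2 hx hy
    obtain ⟨P, hP, hPx⟩ := hx.out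
    obtain ⟨Q, hQ, hQy⟩ := hy.out
    have h0 : DefF M (fun _ : (KK M × KK M) × KK M => (0 : KK M)) := DefF_const _
    have h0' : DefF M (fun _ : KK M => (0 : KK M)) := DefF_const _
    have h : DefP M (fun q : KK M => q ≤ 0 ∨ ∃ a b : KK M, 0 < a ∧ 0 < b ∧ P a ∧ Q b ∧ q < a * b) := by
      fun_prop
    simp only [hPx, hQy] at h
    exact h.congr (fun q => (lt_mul_iff h1 h2 q).symm)
  have L0 : Low (0 : KH M) := by rw [← map_zero (inc (KK M))]; exact Low_inc 0
  rcases lt_trichotomy 0 x with h1 | h1 | h1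
  · rcases lt_trichotomy 0 y with h2 | h2 | h2
    · exact key _ _ h1 h2 hx hy
    · rw [← h2, mul_zero]; exact L0
    · have := Low_neg (key _ _ h1 (neg_pos.2 h2) hx (Low_neg hy))
      rwa [mul_neg, neg_neg] at this
  · rw [← h1, zero_mul]; exact L0
  · rcases lt_trichotomy 0 y with h2 | h2 | h2
    · have := Low_neg (key _ _ (neg_pos.2 h1) h2 (Low_neg hx) hy)
      rwa [neg_mul, neg_neg] at this
    · rw [← h2, mul_zero]; exact L0
    · have := key _ _ (neg_pos.2 h1) (neg_pos.2 h2) (Low_neg hx) (Low_neg hy)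
      rwa [neg_mul_neg] at this

theorem Low_inv {x : KH M} (hx : Low x) : Low x⁻¹ := by
  have key : ∀ x : KH M, 0 < x → Low x → Low x⁻¹ := by
    intro x h1 hx
    obtain ⟨P, hP, hPx⟩ := hx.out
    have h0 : DefF M (fun _ : KK M => (0 : KK M)) := DefF_const _
    have h : DefP M (fun q : KK M => q ≤ 0 ∨ ∃ a : KK M, a < q⁻¹ ∧ ¬ P a) := by fun_prop
    simp only [hPx] at h
    refine h.congr (fun q => ?_)
    constructor
    · rintro (h | ⟨a, h2, h3⟩)
      · have h' : inc (KK M) q ≤ 0 := by rw [← map_zero (inc (KK M)), inc_le]; exact h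
        exact h'.trans_lt (inv_pos.2 h1)
      · have h2' := (inc_lt (K := KK M)).2 h2
        rw [map_inv₀] at h2'
        rw [not_lt] at h3
        have h4 := h3.trans_lt h2'
        have hq : 0 < inc (KK M) q := inv_pos.1 (h1.trans h4)
        rw [lt_inv_comm₀ hq h1]; exact h4
    · intro h
      rcases le_or_gt q 0 with hq | hq
      · exact Or.inl hq
      · right
        have hq' : 0 < inc (KK M) q := by rw [← map_zero (inc (KK M)), inc_lt]; exact hq
        have h2 : x < inc (KK M) q⁻¹ := by rw [map_inv₀, lt_inv_comm₀ h1 hq']; exact h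
        obtain ⟨a, ha1, ha2⟩ := exists_btw h2
        exact ⟨a, inc_lt.1 ha2, not_lt.2 ha1.le⟩
  rcases lt_trichotomy 0 x with h1 | h1 | h1
  · exact key x h1 hx
  · rw [← h1, inv_zero]; rw [← h1] at hx; exact hx
  · have := Low_neg (key _ (neg_pos.2 h1) (Low_neg hx))
    rwa [inv_neg, neg_neg] at this

variable (M) in
/-- the real numbers of the model, as elements of the completion -/
noncomputable def RR : Subfield (KH M) where
  carrier := {x | Low x}
  mul_mem' := Low_mul
  one_mem' := by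
    have := Low_inc (1 : KK M)
    rwa [map_one] at this
  add_mem' := Low_add
  zero_mem' := by
    have := Low_inc (0 : KK M)
    rwa [map_zero] at this
  neg_mem' := Low_neg
  inv_mem' := fun _ h => Low_inv h

theorem RR_low (x : RR M) : DefP M (fun q : KK M => inc (KK M) q < x.1) := x.2

/-- the code of a real number -/
noncomputable def cutc (x : RR M) : El (pow (KC M)) := mkSub (fun t => inc (KK M) (kpi t) < x.1)
  (DefP_comp (R := fun q : KK M => inc (KK M) q < x.1) (RR_low x) (f := kpi) (by fun_prop))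

@[simp] theorem smem_cutc {t : El (KC M)} {x : RR M} : smem t (cutc x) ↔ inc (KK M) (kpi t) < x.1 := by
  unfold cutc; rw [smem_mkSub]

theorem cutc_inj : Function.Injective (cutc (M := M)) := by
  intro x y h
  apply Subtype.ext
  have key : ∀ x y : RR M, cutc x = cutc y → x.1 ≤ y.1 := by
    intro x y h
    apply le_of_cuts
    intro q hq
    obtain ⟨t, rfl⟩ := kpi_surj q
    rw [← smem_cutc, ← h, smem_cutc]
    exact hq
  exact le_antisymm (key x y h) (key y x h.symm)

/-- codes of real numbers -/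
def IsCut (b : El (pow (KC M))) : Prop :=
  (∀ s t, kpi s < kpi t → smem t b → smem s b) ∧ (∀ s, smem s b → ∃ t, kpi s < kpi t ∧ smem t b) ∧
    (∃ t, smem t b) ∧ ∃ t, ¬ smem t b

@[fun_prop]
theorem IsCut_def {b : α → El (pow (KC M))} (hb : DefF M b) : DefP M (fun a => IsCut (b a)) := by
  unfold IsCut; fun_prop

instance countable_KK [Countable M] : Countable (KK M) := by
  have : Countable (El (KC M)) := Subtype.countable
  exact Function.Surjective.countable kpi_surj

theorem IsCut_cutc (x : RR M) : IsCut (cutc x) := by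
  refine ⟨fun s t h1 h2 => ?_, fun s h1 => ?_, ?_, ?_⟩
  · rw [smem_cutc] at h2 ⊢
    exact (inc_lt.2 h1).trans h2
  · rw [smem_cutc] at h1
    obtain ⟨q, h2, h3⟩ := exists_btw h1
    obtain ⟨t, rfl⟩ := kpi_surj q
    exact ⟨t, inc_lt.1 h2, smem_cutc.2 h3⟩
  · obtain ⟨q, _, h3⟩ := exists_btw (K := KK M) (x := x.1 - 1) (y := x.1) (by linarith)
    obtain ⟨t, rfl⟩ := kpi_surj q
    exact ⟨t, smem_cutc.2 h3⟩
  · obtain ⟨q, h2, _⟩ := exists_btw (K := KK M) (x := x.1) (y := x.1 + 1) (by linarith)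
    obtain ⟨t, rfl⟩ := kpi_surj q
    refine ⟨t, fun h => ?_⟩
    rw [smem_cutc] at h
    exact absurd h (not_lt.2 h2.le)

theorem fill [Countable M] {C : KK M → Prop} (hC : DefP M C) (c3 : ∀ p q, p < q → C q → C p) (c4 : ∀ q, C q → ∃ p, q < p ∧ C p)
    (c1 : ∃ q, C q) (c2 : ∃ q, ¬ C q) : ∃ x : RR M, ∀ q, inc (KK M) q < x.1 ↔ C q := by
  obtain ⟨x, hx⟩ := fill_cut c3 c4 (by
    intro e he
    by_contra h
    push Not at h
    obtain ⟨q0, hq0⟩ := c1
    obtain ⟨b, hb⟩ := c2
    have key : ∀ n : El (om M), C (q0 + kof (El (om M)) n * e) := by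
      refine oind' (R := fun n => C (q0 + kof (El (om M)) n * e)) (by fun_prop) ?_ ?_
      · rw [map_zero, zero_mul, add_zero]; exact hq0
      · intro n hn
        have := h _ hn
        rw [map_add, map_one]
        convert this using 1
        ring
    obtain ⟨n, hn⟩ := k_arch ((b - q0) / e)
    rw [div_lt_iff₀ he] at hn
    exact hb (c3 _ _ (by linarith) (key n)))
  refine ⟨⟨x, ?_⟩, hx⟩
  show DefP M (fun q : KK M => inc (KK M) q < x)
  exact hC.congr (fun q => (hx q).symm)

theorem IsCut.exists [Countable M] {b : El (pow (KC M))} (h : IsCut b) : ∃ x : RR M, cutc x = b := by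
  obtain ⟨h1, h2, ⟨t1, h3⟩, ⟨t2, h4⟩⟩ := h
  have sat : ∀ s t, kpi s = kpi t → smem t b → smem s b := by
    intro s t hst ht
    obtain ⟨t', h5, h6⟩ := h2 t ht
    exact h1 s t' (by rw [hst]; exact h5) h6
  obtain ⟨x, hx⟩ := fill (C := fun q => ∃ t, kpi t = q ∧ smem t b) (by fun_prop)
    (by
      rintro p q hpq ⟨t, rfl, ht⟩
      obtain ⟨s, rfl⟩ := kpi_surj p
      exact ⟨s, rfl, h1 s t hpq ht⟩)
    (by
      rintro q ⟨t, rfl, ht⟩
      obtain ⟨t', h5, h6⟩ := h2 t ht
      exact ⟨kpi t', h5, t', rfl, h6⟩)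
    ⟨kpi t1, t1, rfl, h3⟩ ⟨kpi t2, by rintro ⟨t, ht, ht'⟩; exact h4 (sat _ _ ht.symm ht')⟩
  refine ⟨x, sub_ext (fun t => ?_)⟩
  rw [smem_cutc, hx]
  constructor
  · rintro ⟨s, hs, hs'⟩; exact sat _ _ hs.symm hs'
  · intro h; exact ⟨t, rfl, h⟩

variable (M) in
/-- the set of codes of real numbers -/
noncomputable def R0 : M := sepS (pow (KC M)) (fun z => ∃ b : El (pow (KC M)), b.v = z ∧ IsCut b)

theorem mem_R0 {z : M} : z ∈ R0 M ↔ ∃ b : El (pow (KC M)), b.v = z ∧ IsCut b := by
  unfold R0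
  rw [mem_sepS (by fun_prop)]
  constructor
  · intro h; exact h.2
  · rintro ⟨b, rfl, h⟩; exact ⟨b.mem, b, rfl, h⟩

/-- the cut of an element -/
noncomputable def cb (r : El (R0 M)) : El (pow (KC M)) := El.mk r.v (by
  obtain ⟨b, hb, _⟩ := mem_R0.1 r.mem
  rw [← hb]; exact b.mem)

theorem cb_inj {r s : El (R0 M)} (h : cb r = cb s) : r = s := by
  have h' := congrArg El.v h
  exact El.ext h'

@[fun_prop]
theorem cb_def {r : α → El (R0 M)} (hr : DefF M r) : DefF M (fun a => cb (r a)) := by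
  apply DefF_of_v
  show DefF M (fun a => (r a).v)
  fun_prop

theorem cb_cut (r : El (R0 M)) : IsCut (cb r) := by
  obtain ⟨b, hb, h⟩ := mem_R0.1 r.mem
  have : cb r = b := El.ext hb.symm
  rw [this]; exact h

section
variable [Countable M]

theorem exists_phi (r : El (R0 M)) : ∃ x : RR M, cutc x = cb r := (cb_cut r).exists

/-- the real number with a given code -/
noncomputable def phi (r : El (R0 M)) : RR M := (exists_phi r).choose

theorem cutc_phi (r : El (R0 M)) : cutc (phi r) = cb r := (exists_phi r).choose_spec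

theorem phi_inj : Function.Injective (phi (M := M)) := by
  intro r s h
  apply cb_inj
  rw [← cutc_phi, ← cutc_phi, h]

theorem phi_surj : Function.Surjective (phi (M := M)) := by
  intro x
  refine ⟨El.mk (cutc x).v (mem_R0.2 ⟨_, rfl, IsCut_cutc x⟩), ?_⟩
  apply cutc_inj
  rw [cutc_phi]
  exact El.ext rfl

variable (M) in
/-- the equivalence between the set of codes and the real numbers -/
noncomputable def ePhi : El (R0 M) ≃ RR M := Equiv.ofBijective phi ⟨phi_inj, phi_surj⟩

noncomputable instance fieldR0 : Field (El (R0 M)) := (ePhi M).field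

variable (M) in
/-- the ring isomorphism -/
noncomputable def rPhi : El (R0 M) ≃+* RR M := (ePhi M).ringEquiv

noncomputable instance orderR0 : LinearOrder (El (R0 M)) := LinearOrder.lift' (ePhi M) (ePhi M).injective

/-- the value of a code in the completion -/
noncomputable def fv (r : El (R0 M)) : KH M := (phi r).1

theorem fv_le {r s : El (R0 M)} : r ≤ s ↔ fv r ≤ fv s := Iff.rfl

theorem fv_inj {r s : El (R0 M)} : fv r = fv s ↔ r = s :=
  ⟨fun h => phi_inj (Subtype.ext h), fun h => by rw [h]⟩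

theorem fv_lt {r s : El (R0 M)} : r < s ↔ fv r < fv s := by
  rw [← not_le, fv_le, not_le]

theorem fv_add (r s : El (R0 M)) : fv (r + s) = fv r + fv s := by
  have := map_add (rPhi M) r s
  exact congrArg Subtype.val this

theorem fv_mul (r s : El (R0 M)) : fv (r * s) = fv r * fv s := by
  have := map_mul (rPhi M) r s
  exact congrArg Subtype.val this

theorem fv_zero : fv (0 : El (R0 M)) = 0 := by
  have := map_zero (rPhi M)
  exact congrArg Subtype.val this

theorem fv_one : fv (1 : El (R0 M)) = 1 := by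
  have := map_one (rPhi M)
  exact congrArg Subtype.val this

theorem fv_neg (r : El (R0 M)) : fv (-r) = - fv r := by
  have := map_neg (rPhi M) r
  exact congrArg Subtype.val this

instance strictR0 : IsStrictOrderedRing (El (R0 M)) := by
  refine Function.Injective.isStrictOrderedRing (R := KH M) fv fv_zero fv_one fv_add fv_mul ?_ ?_
  · intro a b; exact fv_le
  · intro a b; exact fv_lt

theorem fv_smem {t : El (KC M)} {r : El (R0 M)} : smem t (cb r) ↔ inc (KK M) (kpi t) < fv r := by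
  rw [← cutc_phi, smem_cutc]; rfl

theorem fv_cut0 : DefP M (fun p : KK M × El (R0 M) => inc (KK M) p.1 < fv p.2) := by
  refine DefP_lift (π := fun p : El (KC M) × El (R0 M) => (kpi p.1, p.2)) ?_ (by fun_prop) ?_
  · rintro ⟨q, r⟩
    obtain ⟨t, rfl⟩ := kpi_surj q
    exact ⟨(t, r), rfl⟩
  · have h : DefP M (fun p : El (KC M) × El (R0 M) => smem p.1 (cb p.2)) := by fun_prop
    exact h.congr (fun p => fv_smem)

@[fun_prop]
theorem fv_cut_def {q : α → KK M} {r : α → El (R0 M)} (hq : DefF M q) (hr : DefF M r) :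
    DefP M (fun a => inc (KK M) (q a) < fv (r a)) :=
  DefP_comp (R := fun p : KK M × El (R0 M) => inc (KK M) p.1 < fv p.2) fv_cut0 (DefF_prod hq hr)

theorem fv_le_iff {r s : El (R0 M)} : r ≤ s ↔ ∀ q : KK M, inc (KK M) q < fv r → inc (KK M) q < fv s := by
  rw [fv_le]
  exact ⟨fun h q hq => hq.trans_le h, fun h => le_of_cuts h⟩

@[fun_prop]
theorem rle_def {x y : α → El (R0 M)} (hx : DefF M x) (hy : DefF M y) : DefP M (fun a => x a ≤ y a) := by
  simp only [fv_le_iff]; fun_prop

@[fun_prop]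
theorem rlt_def {x y : α → El (R0 M)} (hx : DefF M x) (hy : DefF M y) : DefP M (fun a => x a < y a) := by
  simp only [← not_le]; fun_prop

theorem fv_eq_iff {r : El (R0 M)} {x : KH M} : fv r = x ↔ ∀ q : KK M, inc (KK M) q < fv r ↔ inc (KK M) q < x := by
  constructor
  · rintro rfl q; rfl
  · intro h
    exact le_antisymm (le_of_cuts (fun q hq => (h q).1 hq)) (le_of_cuts (fun q hq => (h q).2 hq))

@[fun_prop]
theorem radd_def {x y : α → El (R0 M)} (hx : DefF M x) (hy : DefF M y) : DefF M (fun a => x a + y a) := by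
  apply DefF_of (R := fun a z => ∀ q : KK M, inc (KK M) q < fv z ↔ ∃ b c : KK M, inc (KK M) b < fv (x a) ∧
    inc (KK M) c < fv (y a) ∧ q = b + c) (by fun_prop)
  intro a z
  have e : x a + y a = z ↔ fv z = fv (x a) + fv (y a) := by
    rw [← fv_add, fv_inj]; exact eq_comm
  rw [e, fv_eq_iff]
  have key : ∀ q : KK M, inc (KK M) q < fv (x a) + fv (y a) ↔ ∃ b c : KK M, inc (KK M) b < fv (x a) ∧
    inc (KK M) c < fv (y a) ∧ q = b + c := by
    intro q
    constructor
    · intro h
      obtain ⟨b, h1, h2⟩ := exists_btw (K := KK M) (x := inc (KK M) q - fv (y a)) (y := fv (x a)) (by linarith)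
      refine ⟨b, q - b, h2, ?_, by ring⟩
      rw [map_sub]; linarith
    · rintro ⟨b, c, h1, h2, rfl⟩
      rw [map_add]; exact add_lt_add h1 h2
  simp only [key]

@[fun_prop]
theorem rneg_def {x : α → El (R0 M)} (hx : DefF M x) : DefF M (fun a => - x a) := by
  have h1 : DefF M (fun _ : α × El (R0 M) => (0 : El (R0 M))) := DefF_const _
  apply DefF_of (R := fun a y => x a + y = 0) (by fun_prop)
  intro a y
  rw [neg_eq_iff_add_eq_zero]

/-- multiplication of positive reals, in terms of cuts -/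
def PM (x y z : El (R0 M)) : Prop := ∀ q : KK M, inc (KK M) q < fv z ↔
    (q ≤ 0 ∨ ∃ a b : KK M, 0 < a ∧ 0 < b ∧ inc (KK M) a < fv x ∧ inc (KK M) b < fv y ∧ q < a * b)

@[fun_prop]
theorem PM_def {x y z : α → El (R0 M)} (hx : DefF M x) (hy : DefF M y) (hz : DefF M z) :
    DefP M (fun a => PM (x a) (y a) (z a)) := by
  unfold PM
  have h0 : ∀ {δ : Type} [Ctx M δ], DefF M (fun _ : δ => (0 : KK M)) := fun {δ} _ => DefF_const _
  have h1 : DefF M (fun _ : α × KK M => (0 : KK M)) := h0
  have h2 : DefF M (fun _ : ((α × KK M) × KK M) × KK M => (0 : KK M)) := h0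
  fun_prop

theorem PM_iff {x y z : El (R0 M)} (hx : 0 < x) (hy : 0 < y) : PM x y z ↔ x * y = z := by
  rw [fv_lt, fv_zero] at hx hy
  have e : x * y = z ↔ fv z = fv x * fv y := by
    rw [← fv_mul, fv_inj]; exact eq_comm
  rw [e, fv_eq_iff]
  unfold PM
  simp only [lt_mul_iff hx hy]

@[fun_prop]
theorem rmul_def {x y : α → El (R0 M)} (hx : DefF M x) (hy : DefF M y) : DefF M (fun a => x a * y a) := by
  have h1 : DefF M (fun _ : α × El (R0 M) => (0 : El (R0 M))) := DefF_const _
  apply DefF_of (R := fun a z => (x a = 0 ∧ z = 0) ∨ (y a = 0 ∧ z = 0) ∨ (0 < x a ∧ 0 < y a ∧ PM (x a) (y a) z) ∨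
    (0 < - x a ∧ 0 < y a ∧ PM (- x a) (y a) (-z)) ∨ (0 < x a ∧ 0 < - y a ∧ PM (x a) (- y a) (-z)) ∨
    (0 < - x a ∧ 0 < - y a ∧ PM (- x a) (- y a) z)) (by fun_prop)
  intro a z
  generalize x a = x
  generalize y a = y
  constructor
  · rintro rfl
    rcases lt_trichotomy 0 x with h1 | h1 | h1
    · rcases lt_trichotomy 0 y with h2 | h2 | h2
      · right; right; left; exact ⟨h1, h2, (PM_iff h1 h2).2 rfl⟩
      · right; left; exact ⟨h2.symm, by rw [← h2, mul_zero]⟩
      · right; right; right; right; left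
        exact ⟨h1, neg_pos.2 h2, (PM_iff h1 (neg_pos.2 h2)).2 (by ring)⟩
    · left; exact ⟨h1.symm, by rw [← h1, zero_mul]⟩
    · rcases lt_trichotomy 0 y with h2 | h2 | h2
      · right; right; right; left
        exact ⟨neg_pos.2 h1, h2, (PM_iff (neg_pos.2 h1) h2).2 (by ring)⟩
      · right; left; exact ⟨h2.symm, by rw [← h2, mul_zero]⟩
      · right; right; right; right; right
        exact ⟨neg_pos.2 h1, neg_pos.2 h2, (PM_iff (neg_pos.2 h1) (neg_pos.2 h2)).2 (by ring)⟩
  · rintro (⟨h1, h2⟩ | ⟨h1, h2⟩ | ⟨h1, h2, h3⟩ | ⟨h1, h2, h3⟩ | ⟨h1, h2, h3⟩ | ⟨h1, h2, h3⟩)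
    · rw [h1, h2, zero_mul]
    · rw [h1, h2, mul_zero]
    · exact (PM_iff h1 h2).1 h3
    · have := (PM_iff h1 h2).1 h3
      rw [neg_mul, neg_inj] at this; exact this
    · have := (PM_iff h1 h2).1 h3
      rw [mul_neg, neg_inj] at this; exact this
    · have := (PM_iff h1 h2).1 h3
      rw [neg_mul_neg] at this; exact this

/-- completeness -/
theorem r_complete (S : M) (h1 : ∃ x : El (R0 M), x.v ∈ S) (h2 : ∃ b : El (R0 M), ∀ x : El (R0 M), x.v ∈ S → x ≤ b) :
    ∃ s : El (R0 M), IsLUB {x : El (R0 M) | x.v ∈ S} s := by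
  obtain ⟨x0, hx0⟩ := h1
  obtain ⟨b, hb⟩ := h2
  obtain ⟨z, hz⟩ := fill (C := fun q => ∃ x : El (R0 M), x.v ∈ S ∧ inc (KK M) q < fv x) (by fun_prop)
    (by
      rintro p q hpq ⟨x, hx, h⟩
      exact ⟨x, hx, (inc_lt.2 hpq).trans h⟩)
    (by
      rintro q ⟨x, hx, h⟩
      obtain ⟨p, h5, h6⟩ := exists_btw h
      exact ⟨p, inc_lt.1 h5, x, hx, h6⟩)
    (by
      obtain ⟨q, _, h3⟩ := exists_btw (K := KK M) (x := fv x0 - 1) (y := fv x0) (by linarith)
      exact ⟨q, x0, hx0, h3⟩)
    (by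
      obtain ⟨q, h3, _⟩ := exists_btw (K := KK M) (x := fv b) (y := fv b + 1) (by linarith)
      refine ⟨q, ?_⟩
      rintro ⟨x, hx, h⟩
      have := hb x hx
      rw [fv_le] at this
      exact absurd (h.trans_le this) (not_lt.2 h3.le))
  obtain ⟨s, rfl⟩ := phi_surj z
  refine ⟨s, fun x hx => ?_, fun c hc => ?_⟩
  · rw [fv_le_iff]
    intro q hq
    exact (hz q).2 ⟨x, hx, hq⟩
  · rw [fv_le_iff]
    intro q hq
    obtain ⟨x, hx, h⟩ := (hz q).1 hq
    have := hc hx
    rw [fv_le] at this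
    exact h.trans_le this

end

end Pool.Agent.Helper79.ZF
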