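import Pool.Agent.Helper79.ZF.GroupN
import Pool.Agent.Helper79.ZF.RealsN
import Pool.Agent.Helper79.ZF.LS

/-!
# The failure of (S) in the extension
-/

namespace Pool.Agent.Helper79.ZF

open FirstOrder Set FData

section
variable {M : Type} [Membership M M] [ZFModel M]

theorem isPair_iff {p x y : M} : IsPair p x y ↔ p = opair x y := by
  have h : ∀ z : M, ((∀ w : M, w ∈ z ↔ w = x) ∨ ∀ w : M, w ∈ z ↔ (w = x ∨ w = y)) ↔ z ∈ opair x y := by
    intro z
    unfold opair
    rw [mem_upair]
    constructor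
    · rintro (h | h)
      · left; apply ext'; intro w; rw [h, mem_sing]
      · right; apply ext'; intro w; rw [h, mem_upair]
    · rintro (rfl | rfl)
      · left; intro w; rw [mem_sing]
      · right; intro w; rw [mem_upair]
  unfold IsPair
  constructor
  · intro h'
    apply ext'
    intro z
    rw [h', h]
  · rintro rfl z
    rw [h]

theorem exists_graph {A : M} {op : El A → El A → El A} (h : DefF M (fun p : El A × El A => op p.1 p.2)) :
    ∃ T : M, IsGraph op T := by
  refine ⟨sepS (prodS (prodS A A) A) (fun t => ∃ x y : El A, t = opair (opair x.v y.v) (op x y).v), ?_⟩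
  intro x y z p q hp hq
  rw [isPair_iff] at hp hq
  subst hp hq
  rw [mem_sepS (by fun_prop)]
  constructor
  · rintro ⟨_, x', y', h'⟩
    simp only [opair_inj] at h'
    obtain ⟨⟨h1, h2⟩, h3⟩ := h'
    rw [El.ext h1, El.ext h2]
    exact (El.ext h3).symm
  · rintro rfl
    refine ⟨?_, x, y, rfl⟩
    simp only [opair_mem_prodS]
    exact ⟨⟨x.mem, y.mem⟩, (op x y).mem⟩

variable (M) in
/-- the real numbers of a countable model -/
noncomputable def mReals [Countable M] : ModelReals M where
  car := R0 M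
  fld := fieldR0
  ord := orderR0
  strict := strictR0
  add_table := exists_graph (by fun_prop)
  mul_table := exists_graph (by fun_prop)
  le_table := by
    refine ⟨sepS (prodS (R0 M) (R0 M)) (fun t => ∃ x y : El (R0 M), t = opair x.v y.v ∧ x ≤ y), ?_⟩
    intro x y p hp
    rw [isPair_iff] at hp
    subst hp
    rw [mem_sepS (by fun_prop)]
    constructor
    · rintro ⟨_, x', y', h', h⟩
      simp only [opair_inj] at h'
      rw [El.ext h'.1, El.ext h'.2]; exact h
    · intro h
      refine ⟨?_, x, y, rfl, h⟩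
      simp only [opair_mem_prodS]
      exact ⟨x.mem, y.mem⟩
  complete := r_complete

/-- a definable splitting of the base set in two copies of itself -/
theorem exists_split : ∃ (b : El (ZZ M) → El (ZZ M) × Bool) (c : El (ZZ M) × Bool → El (ZZ M)), DefF M b ∧ DefF M c ∧
    (∀ x, c (b x) = x) ∧ ∀ j, b (c j) = j := by
  let cc : El (ZZ M) × Bool → El (ZZ M) := fun j => zp j.1 (bz j.2)
  have hcc : DefF M cc := by simp only [cc]; fun_prop
  have hci : ∀ j j', cc j = cc j' → j = j' := by
    rintro ⟨z, b⟩ ⟨z', b'⟩ h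
    simp [cc] at h
    rw [h.1, h.2]
  obtain ⟨h, hd, hi, hr⟩ := cantor_bernstein (A := ZZ M) (f := fun z => cc (z, true)) (by fun_prop)
    (fun x y h => by have := hci _ _ h; simpa using this)
    (R := fun x => ∃ j, cc j = x) (by fun_prop)
    (fun x => ⟨_, rfl⟩)
  choose b hb using fun x => (hr (h x)).2 ⟨x, rfl⟩
  choose c hc using fun j => (hr (cc j)).1 ⟨j, rfl⟩
  refine ⟨b, c, ?_, ?_, fun x => hi ?_, fun j => hci _ _ ?_⟩
  · exact DefF_of (R := fun x j => cc j = h x) (by fun_prop)
      (fun x j => ⟨fun e => by rw [← e]; exact hb x, fun e => hci _ _ (by rw [hb, e])⟩)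
  · exact DefF_of (R := fun j x => cc j = h x) (by fun_prop)
      (fun j x => ⟨fun e => by rw [← e]; exact (hc j).symm, fun e => hi (by rw [hc, e])⟩)
  · rw [hc, hb]
  · rw [hb, hc]

end

variable {M : Type} [Membership M M] [ZFModel M]

/-- names of subsets of the subgroup -/
noncomputable def HN (R : El (SZ M) → Prop) : M := (DZ M).mkName (repE (A := SZ M) lmb)
  (fun _ f τ c => ∃ h : El (SZ M), R h ∧ τ = lmb h ∧ c = f)

variable (C : GChain (DZ M))

/-- subsets of the subgroup -/
noncomputable def HSet (R : El (SZ M) → Prop) : Ext C := val C 0 (HN R, 1)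

variable {C}

theorem mem_HSet {R : El (SZ M) → Prop} (hR : DefP M R) {z : Ext C} : z ∈ HSet C R ↔ ∃ h, R h ∧ z = Lam C 0 h := by
  have hm : ∀ (p q : (DZ M).PP) (f g : (DZ M).AA) (τ : M) (c : (DZ M).AA), (DZ M).V q g p →
      (∃ h : El (SZ M), R h ∧ τ = lmb h ∧ c = f) → (∃ h : El (SZ M), R h ∧ τ = lmb h ∧ c * g = f * g) := by
    rintro p q f g τ c _ ⟨h, h1, h2, h3⟩
    exact ⟨h, h1, h2, by rw [h3]⟩
  have hd : DefP M (fun t : (DZ M).PP × ((DZ M).AA × (M × (DZ M).AA)) => ∃ h : El (SZ M), R h ∧ t.2.2.1 = lmb h ∧ t.2.2.2 = t.2.1) := by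
    fun_prop
  have key : ∀ m (h : El (SZ M)), val C m (lmb h, C.F 0 m) = Lam C 0 h := by
    intro m h
    rw [val_lmb, ← Lam_shift (Nat.zero_le m)]
  unfold HSet
  rw [mem_val]
  constructor
  · rintro ⟨m, _, Z, h1, rfl⟩
    unfold HN at h1
    rw [NElt_mkName hd (fun p q f g τ c hq h => hm p q f g τ c hq h)] at h1
    obtain ⟨_, h, h2, h3, h4⟩ := h1
    refine ⟨h, h2, ?_⟩
    have : Z = (lmb h, C.F 0 m) := Prod.ext h3 (by rw [h4, one_mul])
    rw [this, key]
  · rintro ⟨h, h1, rfl⟩
    refine ⟨0, le_refl _, (lmb h, C.F 0 0), ?_, (key 0 h).symm⟩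
    unfold HN
    rw [NElt_mkName hd (fun p q f g τ c hq h => hm p q f g τ c hq h), one_mul]
    exact ⟨(mem_repE (by fun_prop)).2 ⟨h, rfl⟩, h, h1, rfl, rfl⟩

variable (C) in
/-- the underlying set of the subgroup -/
noncomputable def HS : Ext C := HSet C (fun _ => True)

theorem mem_HS {z : Ext C} : z ∈ HS C ↔ ∃ h, z = Lam C 0 h := by
  unfold HS
  rw [mem_HSet (DefP.const True)]
  simp

variable (C) in
/-- the elements of the subgroup -/
noncomputable def hel (g : El (SZ M)) : El (HS C) := El.mk (Lam C 0 g) (mem_HS.2 ⟨g, rfl⟩)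

theorem hel_bij : Function.Bijective (hel C) := by
  constructor
  · intro g h e
    have e' := congrArg El.v e
    exact Lam_inj e'
  · intro x
    obtain ⟨g, h⟩ := mem_HS.1 x.mem
    exact ⟨g, El.ext h.symm⟩

variable (C) in
/-- the elements of the subgroup, as an equivalence -/
noncomputable def hE : El (HS C) ≃ El (SZ M) := (Equiv.ofBijective (hel C) hel_bij).symm

noncomputable instance groupHS : Group (El (HS C)) := (hE C).group

theorem hel_mul (g h : El (SZ M)) : hel C g * hel C h = hel C (g * h) := by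
  apply (hE C).injective
  have h1 : hE C (hel C g * hel C h) = hE C (hel C g) * hE C (hel C h) := (hE C).apply_symm_apply _
  have h2 : ∀ g, hE C (hel C g) = g := fun g => (Equiv.ofBijective (hel C) hel_bij).symm_apply_apply g
  rw [h1, h2, h2, h2]

variable (C) in
/-- the group -/
noncomputable def mG : ModelGroup (Ext C) where
  car := GS C
  grp := groupGS
  table := exists_graph gmul_def

variable (C) in
/-- the subgroup -/
noncomputable def mH : ModelGroup (Ext C) where
  car := HS C
  grp := groupHS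
  table := by
    refine ⟨MulT C, ?_⟩
    intro x y z p q hp hq
    rw [isPair_iff] at hp hq
    subst hp hq
    obtain ⟨g, rfl⟩ := hel_bij.2 x
    obtain ⟨h, rfl⟩ := hel_bij.2 y
    obtain ⟨k, rfl⟩ := hel_bij.2 z
    have h1 := mul_iff (x := LamE C 0 g) (y := LamE C 0 h) (z := LamE C 0 k)
    refine h1.symm.trans ?_
    beta_reduce
    rw [hel_mul, LamE_mul, LamE_inj, hel_bij.1.eq_iff]

theorem subgroup_HG : IsSubgroup (mH C) (mG C) := by
  refine ⟨fun x => El.mk x.v (by
    obtain ⟨g, h⟩ := mem_HS.1 x.mem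
    rw [h]; exact Lam_mem_GS 0 g), fun x => rfl, fun x y => ?_⟩
  obtain ⟨g, rfl⟩ := hel_bij.2 x
  obtain ⟨h, rfl⟩ := hel_bij.2 y
  have h1 : (hel C g * hel C h : El (HS C)) = hel C (g * h) := hel_mul g h
  have h2 : LamE C 0 g * LamE C 0 h = LamE C 0 (g * h) := LamE_mul 0 g h
  apply El.ext
  show (hel C g * hel C h : El (HS C)).v = (LamE C 0 g * LamE C 0 h).v
  rw [h1, h2]
  rfl

/-! ### the group is amenable -/

theorem EvG_translate {A B : Ext C} (x : El (GS C)) (h : ∀ y : El (GS C), y.v ∈ A ↔ (x * y).v ∈ B) (hA : EvG A) : EvG B := by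
  obtain ⟨m, hA⟩ := hA
  obtain ⟨n, hn, a, rfl⟩ := LamE_surj x m
  refine ⟨n, fun l hl g hg => ?_⟩
  rw [LamE_shift hl] at h
  have h1 := h (LamE C l ((push (au (C.F n l)) a)⁻¹ * g))
  rw [LamE_mul, mul_inv_cancel_left] at h1
  refine h1.1 (hA l (hn.trans hl) _ ?_)
  rw [← C.hFm _ _ _ hn hl, au_mul, ← push_inv]
  exact (hg.trans _).mono _

theorem EvG.and {A B : Ext C} (hA : EvG A) (hB : EvG B) : ∃ x, x ∈ A ∧ x ∈ B := by
  obtain ⟨m, hA⟩ := hA
  obtain ⟨n, hB⟩ := hB
  obtain ⟨l, hl, g, hg⟩ := exists_gen_late C (max m n)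
  refine ⟨Lam C l g, hA l ((le_max_left _ _).trans hl) g ?_, hB l ((le_max_right _ _).trans hl) g ?_⟩
  · rw [← C.hFm _ _ _ (le_max_left m n) hl, au_mul]; exact hg.mono _
  · rw [← C.hFm _ _ _ (le_max_right m n) hl, au_mul]; exact hg.mono _

theorem EvG.sub {A B : Ext C} (hA : EvG A) (h : ∀ x, x ∈ A → x ∈ B) : EvG B := by
  obtain ⟨m, hA⟩ := hA
  exact ⟨m, fun l hl g hg => h _ (hA l hl g hg)⟩

theorem EvN.or {A B D : Ext C} (hA : EvN A) (hB : EvN B) (h : ∀ x, x ∈ D → x ∈ A ∨ x ∈ B) : EvN D := by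
  obtain ⟨m, hA⟩ := hA
  obtain ⟨n, hB⟩ := hB
  refine ⟨max m n, fun l hl g hg hD => ?_⟩
  rcases h _ hD with h1 | h1
  · refine hA l ((le_max_left _ _).trans hl) g ?_ h1
    rw [← C.hFm _ _ _ (le_max_left m n) hl, au_mul]; exact hg.mono _
  · refine hB l ((le_max_right _ _).trans hl) g ?_ h1
    rw [← C.hFm _ _ _ (le_max_right m n) hl, au_mul]; exact hg.mono _

theorem amenable_G (R : ModelReals (Ext C)) : Amenable R (mG C) := by
  classical
  obtain ⟨U, hU⟩ := exists_U C
  have hmem : ∀ A : Ext C, MSub A (GS C) → (A ∈ U ↔ EvG A) := fun A hA => by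
    rw [hU]; exact ⟨fun h => h.2, fun h => ⟨hA, h⟩⟩
  have hnot : ∀ A : Ext C, ¬ EvG A → EvN A := fun A h => (EvG_or_EvN A).resolve_left h
  refine ⟨fun A => if A ∈ U then 1 else 0, ?_, ?_, ?_, ?_, ?_⟩
  · have h1 : DefF (Ext C) (fun _ : (Ext C × Ext C) × El R.car => (1 : El R.car)) := DefF_const _
    have h0 : DefF (Ext C) (fun _ : (Ext C × Ext C) × El R.car => (0 : El R.car)) := DefF_const _
    refine ⟨sepS (prodS (pow (GS C)) R.car) (fun t => ∃ A : Ext C, ∃ r : El R.car, t = opair A r.v ∧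
      ((A ∈ U ∧ r = 1) ∨ (¬ A ∈ U ∧ r = 0))), ?_⟩
    intro A hA r p hp
    rw [isPair_iff] at hp
    subst hp
    rw [mem_sepS (by fun_prop)]
    constructor
    · rintro ⟨_, A', r', h2, h3⟩
      rw [opair_inj] at h2
      obtain ⟨rfl, h2⟩ := h2
      have := El.ext h2
      subst this
      rcases h3 with ⟨h3, rfl⟩ | ⟨h3, rfl⟩ <;> simp [h3]
    · intro h
      refine ⟨?_, A, r, rfl, ?_⟩
      · rw [opair_mem_prodS, mem_pow]
        exact ⟨hA, r.mem⟩
      · by_cases h3 : A ∈ U
        · simp only [h3, if_true] at h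
          exact Or.inl ⟨h3, h.symm⟩
        · simp only [h3, if_false] at h
          exact Or.inr ⟨h3, h.symm⟩
  · intro A _
    by_cases h3 : A ∈ U
    · simp [h3]
    · simp [h3]
  · have : GS C ∈ U := by
      rw [hmem _ (fun x h => h)]
      exact ⟨0, fun l _ g _ => Lam_mem_GS l g⟩
    show (if GS C ∈ U then (1 : El R.car) else 0) = 1
    simp [this]
  · intro A B D hA hB hd hD
    have hD' : MSub D (GS C) := by
      intro x hx
      rcases (hD x).1 hx with h | h
      · exact hA x h
      · exact hB x h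
    beta_reduce
    by_cases h1 : A ∈ U
    · have h2 : ¬ B ∈ U := by
        intro h2
        rw [hmem A hA] at h1
        rw [hmem B hB] at h2
        obtain ⟨x, h3, h4⟩ := h1.and h2
        exact hd x ⟨h3, h4⟩
      have h3 : D ∈ U := by
        rw [hmem D hD']
        rw [hmem A hA] at h1
        exact h1.sub (fun x hx => (hD x).2 (Or.inl hx))
      simp [h1, h2, h3]
    · by_cases h2 : B ∈ U
      · have h3 : D ∈ U := by
          rw [hmem D hD']
          rw [hmem B hB] at h2
          exact h2.sub (fun x hx => (hD x).2 (Or.inr hx))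
        simp [h1, h2, h3]
      · have h3 : ¬ D ∈ U := by
          rw [hmem D hD']
          rw [hmem A hA] at h1
          rw [hmem B hB] at h2
          intro h3
          exact h3.not_EvN ((hnot A h1).or (hnot B h2) (fun x hx => (hD x).1 hx))
        simp [h1, h2, h3]
  · intro g0 A B hA hB h0
    let g : El (GS C) := g0
    have h : ∀ x : El (GS C), x.v ∈ A ↔ (g * x).v ∈ B := h0
    have h1 : A ∈ U ↔ B ∈ U := by
      rw [hmem A hA, hmem B hB]
      constructor
      · exact EvG_translate g h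
      · refine EvG_translate g⁻¹ (fun y => ?_)
        have := h (g⁻¹ * y)
        rw [mul_inv_cancel_left] at this
        exact this.symm
    beta_reduce
    simp [h1]

/-! ### the subgroup is not amenable -/

theorem not_amenable_H (R : ModelReals (Ext C)) : ¬ Amenable R (mH C) := by
  classical
  rintro ⟨μ, hg, hu, ht, ha, hi⟩
  obtain ⟨b, c, hb, hc, hcb, hbc⟩ := exists_split (M := M)
  -- three permutations
  let s : El (ZZ M) → El (ZZ M) := fun x => if (b x).2 = true then c ((b x).1, false) else c ((b x).1, true)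
  have hs : DefF M s := DefF.bool (by fun_prop) (by fun_prop) (by fun_prop)
  have s1 : ∀ z, s (c (z, false)) = c (z, true) := fun z => by simp [s, hbc]
  have s2 : ∀ z, s (c (z, true)) = c (z, false) := fun z => by simp [s, hbc]
  let t : El (ZZ M) → El (ZZ M) := fun x => if (b x).2 = true then
      (if (b (b x).1).2 = true then x else c ((b (b x).1).1, false)) else c (c ((b x).1, false), true)
  have hts : DefF M t := DefF.bool (by fun_prop) (DefF.bool (by fun_prop) (by fun_prop) (by fun_prop)) (by fun_prop)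
  have t1 : ∀ z, t (c (z, false)) = c (c (z, false), true) := fun z => by simp [t, hbc]
  have t2 : ∀ z, t (c (c (z, false), true)) = c (z, false) := fun z => by simp [t, hbc]
  have t3 : ∀ z, t (c (c (z, true), true)) = c (c (z, true), true) := fun z => by simp [t, hbc]
  let r : El (ZZ M) → El (ZZ M) := fun x => if (b x).2 = true then
      (if (b (b x).1).2 = true then c ((b (b x).1).1, false) else x) else c (c ((b x).1, true), true)
  have hrs : DefF M r := DefF.bool (by fun_prop) (DefF.bool (by fun_prop) (by fun_prop) (by fun_prop)) (by fun_prop)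
  have r1 : ∀ z, r (c (z, false)) = c (c (z, true), true) := fun z => by simp [r, hbc]
  have r2 : ∀ z, r (c (c (z, true), true)) = c (z, false) := fun z => by simp [r, hbc]
  have r3 : ∀ z, r (c (c (z, false), true)) = c (c (z, false), true) := fun z => by simp [r, hbc]
  have cs : ∀ x, (∃ z, x = c (z, false)) ∨ (∃ z, x = c (c (z, false), true)) ∨ ∃ z, x = c (c (z, true), true) := by
    intro x
    rcases h1 : b x with ⟨z, e⟩
    have hx : x = c (z, e) := by rw [← h1, hcb]
    cases e
    · exact Or.inl ⟨z, hx⟩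
    · rcases h2 : b z with ⟨w, e'⟩
      have hz : z = c (w, e') := by rw [← h2, hcb]
      cases e'
      · exact Or.inr (Or.inl ⟨w, by rw [hx, hz]⟩)
      · exact Or.inr (Or.inr ⟨w, by rw [hx, hz]⟩)
  have si : Function.Involutive s := by
    intro x
    rcases cs x with ⟨z, rfl⟩ | ⟨z, rfl⟩ | ⟨z, rfl⟩
    · rw [s1, s2]
    · rw [s2, s1]
    · rw [s2, s1]
  have ti : Function.Involutive t := by
    intro x
    rcases cs x with ⟨z, rfl⟩ | ⟨z, rfl⟩ | ⟨z, rfl⟩
    · rw [t1, t2]
    · rw [t2, t1]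
    · rw [t3, t3]
  have ri : Function.Involutive r := by
    intro x
    rcases cs x with ⟨z, rfl⟩ | ⟨z, rfl⟩ | ⟨z, rfl⟩
    · rw [r1, r2]
    · rw [r3, r3]
    · rw [r2, r1]
  clear_value s t r
  let ps : El (SZ M) := mkS s hs si.bijective
  let pt : El (SZ M) := mkS t hts ti.bijective
  let pr : El (SZ M) := mkS r hrs ri.bijective
  -- four sets
  let z0 : El (ZZ M) := oz o0
  let A1 : El (SZ M) → Prop := fun g => ¬ (b (sa g z0)).2 = true
  let A23 : El (SZ M) → Prop := fun g => (b (sa g z0)).2 = true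
  let A2 : El (SZ M) → Prop := fun g => (b (sa g z0)).2 = true ∧ ¬ (b (b (sa g z0)).1).2 = true
  let A3 : El (SZ M) → Prop := fun g => (b (sa g z0)).2 = true ∧ (b (b (sa g z0)).1).2 = true
  have d1 : DefP M A1 := by simp only [A1]; fun_prop
  have d23 : DefP M A23 := by simp only [A23]; fun_prop
  have d2 : DefP M A2 := by simp only [A2]; fun_prop
  have d3 : DefP M A3 := by simp only [A3]; fun_prop
  have sub : ∀ A : El (SZ M) → Prop, DefP M A → MSub (HSet C A) (HS C) := by
    intro A hA x hx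
    obtain ⟨h, _, rfl⟩ := (mem_HSet hA).1 hx
    exact mem_HS.2 ⟨h, rfl⟩
  have memL : ∀ (A : El (SZ M) → Prop) (hA : DefP M A) (g : El (SZ M)), Lam C 0 g ∈ HSet C A ↔ A g := by
    intro A hA g
    rw [mem_HSet hA]
    constructor
    · rintro ⟨h, h1, h2⟩; rw [Lam_inj h2]; exact h1
    · intro h; exact ⟨g, h, rfl⟩
  have inv : ∀ (A B : El (SZ M) → Prop), DefP M A → DefP M B → ∀ g : El (SZ M), (∀ h, A h ↔ B (g * h)) →
      μ (HSet C B) = μ (HSet C A) := by
    intro A B hA hB g h
    apply hi (hel C g) (HSet C A) (HSet C B) (sub A hA) (sub B hB)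
    intro x
    obtain ⟨k, rfl⟩ := hel_bij.2 x
    have e : (hel C g * hel C k : El (HS C)) = hel C (g * k) := hel_mul g k
    have e1 : (hel C g * hel C k : El (HS C)).v = Lam C 0 (g * k) := by rw [e]; rfl
    show Lam C 0 k ∈ HSet C A ↔ (hel C g * hel C k : El (HS C)).v ∈ HSet C B
    rw [e1, memL A hA, memL B hB, h]
  have m1 : μ (HS C) = μ (HSet C A1) + μ (HSet C A23) := by
    apply ha _ _ _ (sub A1 d1) (sub A23 d23)
    · rintro x ⟨h1, h2⟩
      obtain ⟨g, _, rfl⟩ := (mem_HSet d1).1 h1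
      rw [memL _ d1] at h1
      rw [memL _ d23] at h2
      exact h1 h2
    · intro x
      constructor
      · intro h
        obtain ⟨g, rfl⟩ := mem_HS.1 h
        rw [memL _ d1, memL _ d23]
        exact (em _).symm
      · rintro (h | h)
        · exact sub _ d1 x h
        · exact sub _ d23 x h
  have m2 : μ (HSet C A23) = μ (HSet C A2) + μ (HSet C A3) := by
    apply ha _ _ _ (sub A2 d2) (sub A3 d3)
    · rintro x ⟨h1, h2⟩
      obtain ⟨g, _, rfl⟩ := (mem_HSet d2).1 h1
      rw [memL _ d2] at h1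
      rw [memL _ d3] at h2
      exact h1.2 h2.2
    · intro x
      constructor
      · intro h
        obtain ⟨g, _, rfl⟩ := (mem_HSet d23).1 h
        rw [memL _ d23] at h
        rw [memL _ d2, memL _ d3]
        by_cases h5 : (b (b (sa g z0)).1).2 = true
        · exact Or.inr ⟨h, h5⟩
        · exact Or.inl ⟨h, h5⟩
      · rintro (h | h)
        · obtain ⟨g, h1, rfl⟩ := (mem_HSet d2).1 h
          rw [memL _ d23]; exact h1.1
        · obtain ⟨g, h1, rfl⟩ := (mem_HSet d3).1 h
          rw [memL _ d23]; exact h1.1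
  have m3 : μ (HSet C A23) = μ (HSet C A1) := by
    apply inv _ _ d1 d23 ps
    intro h
    simp only [A1, A23, ps]
    rw [sa_mul, sa_mkS]
    rcases cs (sa h z0) with ⟨z, e⟩ | ⟨z, e⟩ | ⟨z, e⟩
    · rw [e, s1, hbc, hbc]; simp
    · rw [e, s2, hbc, hbc]; simp
    · rw [e, s2, hbc, hbc]; simp
  have m4 : μ (HSet C A2) = μ (HSet C A1) := by
    apply inv _ _ d1 d2 pt
    intro h
    simp only [A1, A2, pt]
    rw [sa_mul, sa_mkS]
    rcases cs (sa h z0) with ⟨z, e⟩ | ⟨z, e⟩ | ⟨z, e⟩
    · rw [e, t1, hbc, hbc, hbc]; simp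
    · rw [e, t2, hbc, hbc]; simp
    · rw [e, t3, hbc, hbc]; simp
  have m5 : μ (HSet C A3) = μ (HSet C A1) := by
    apply inv _ _ d1 d3 pr
    intro h
    simp only [A1, A3, pr]
    rw [sa_mul, sa_mkS]
    rcases cs (sa h z0) with ⟨z, e⟩ | ⟨z, e⟩ | ⟨z, e⟩
    · rw [e, r1, hbc, hbc, hbc]; simp
    · rw [e, r3, hbc, hbc]; simp
    · rw [e, r2, hbc, hbc]; simp
  have m6 : μ (HS C) = 1 := ht
  rw [m4, m5, m3] at m2
  rw [m3, m6] at m1
  have m7 : μ (HSet C A1) = 0 := by linarith
  rw [m7] at m1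
  simp at m1

instance countable_Ext [Countable M] : Countable (Ext C) := by
  have : Countable (DZ M).AA := Subtype.countable
  have : Countable (ℕ × (DZ M).VN) := inferInstance
  exact Function.Surjective.countable (f := fun x : ℕ × (DZ M).VN => val C x.1 x.2) (fun z => by
    obtain ⟨n, X, h⟩ := exists_val z
    exact ⟨(n, X), h.symm⟩)

theorem main_countable [Countable M] : ∃ (N : Type) (_ : Membership N N), Countable N ∧ ZFModel N ∧ ¬ StatementS N := by
  have p0 : (DZ M).PP := mkP (fun _ => 1) (DefF_const _) o0 (fun _ => mkSub (fun _ => True) (DefP.const _)) (DefF_const _)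
  obtain ⟨C, _⟩ := exists_GChain (DZ M) p0
  refine ⟨Ext C, inferInstance, inferInstance, inferInstance, fun h => ?_⟩
  exact not_amenable_H (mReals (Ext C)) (h (mReals (Ext C)) (mG C) (mH C) subgroup_HG (amenable_G _))

/-- If ZF has a model, then it has a countable model in which (S) fails. -/
theorem main (h : ∃ (M : Type) (_ : Membership M M), ZFModel M) :
    ∃ (N : Type) (_ : Membership N N), ZFModel N ∧ ¬ StatementS N := by
  obtain ⟨M, _, hM⟩ := h
  obtain ⟨S, _, hS, hS'⟩ := exists_countable_model M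
  obtain ⟨N, hN, _, h1, h2⟩ := main_countable (M := S)
  exact ⟨N, hN, h1, h2⟩

end Pool.Agent.Helper79.ZF
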