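import Pool.Agent.Helper79.ZF.Rank

/-!
# Category forcing inside a model of ZF: names and atomic forcing
-/

namespace Pool.Agent.Helper79.ZF

open FirstOrder Set

variable {M : Type} [Membership M M] [ZFModel M]
variable {α β γ : Type} [Ctx M α] [Ctx M β] [Ctx M γ]

/-! ### more set operations -/

/-- rank comparison -/
theorem V_rank (y : M) : ∀ w σ : M, w ∈ V y → (∀ u : M, u ∈ σ → u ∈ V w) → σ ∈ V y := by
  refine mem_induction (R := fun y => ∀ w σ : M, w ∈ V y → (∀ u : M, u ∈ σ → u ∈ V w) → σ ∈ V y) (by fun_prop) ?_ y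
  intro y ih w σ hw hσ
  obtain ⟨y', hy', hw'⟩ := mem_V.1 hw
  rw [mem_V]
  refine ⟨y', hy', fun u hu => ?_⟩
  obtain ⟨w', hw'1, hw'2⟩ := mem_V.1 (hσ u hu)
  exact ih y' hy' w' u (hw' w' hw'1) hw'2

theorem rank_induction {R : M → Prop} (hR : DefP M R) (h : ∀ x : M, (∀ y : M, y ∈ V x → R y) → R x) (x : M) : R x := by
  have key : ∀ x : M, ∀ τ : M, τ ∈ V x → R τ := by
    intro x
    refine mem_induction (R := fun x => ∀ τ : M, τ ∈ V x → R τ) (by fun_prop) ?_ x
    intro x ih τ hτ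
    obtain ⟨y, hy, hτ'⟩ := mem_V.1 hτ
    apply h
    intro σ hσ
    apply ih y hy
    obtain ⟨w, hw, hσ'⟩ := mem_V.1 hσ
    exact V_rank y w σ (hτ' w hw) hσ'
  exact h x (fun y hy => key x y hy)

/-- first projection -/
noncomputable def fst (z : M) : M := theD (fun x => ∃ y : M, z = opair x y)

/-- second projection -/
noncomputable def snd (z : M) : M := theD (fun y => ∃ x : M, z = opair x y)

@[fun_prop]
theorem DefF.fst' {f : α → M} (hf : DefF M f) : DefF M (fun a => fst (f a)) := by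
  unfold fst; fun_prop

@[fun_prop]
theorem DefF.snd' {f : α → M} (hf : DefF M f) : DefF M (fun a => snd (f a)) := by
  unfold snd; fun_prop

@[simp] theorem fst_opair (x y : M) : fst (opair x y) = x := by
  apply theD_eq ⟨y, rfl⟩
  rintro x' ⟨y', h⟩
  rw [opair_inj] at h
  exact h.1.symm

@[simp] theorem snd_opair (x y : M) : snd (opair x y) = y := by
  apply theD_eq ⟨x, rfl⟩
  rintro x' ⟨y', h⟩
  rw [opair_inj] at h
  exact h.2.symm

/-- cartesian product -/
noncomputable def prodS (x y : M) : M := sU (repS x (fun a => repS y (fun b => opair a b)))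

@[fun_prop]
theorem DefF.prodS {f g : α → M} (hf : DefF M f) (hg : DefF M g) : DefF M (fun a => prodS (f a) (g a)) := by
  unfold Pool.Agent.Helper79.ZF.prodS; fun_prop

theorem mem_prodS {x y z : M} : z ∈ prodS x y ↔ ∃ a b : M, a ∈ x ∧ b ∈ y ∧ z = opair a b := by
  unfold prodS
  rw [mem_sU]
  constructor
  · rintro ⟨w, h1, h2⟩
    obtain ⟨a, ha, rfl⟩ := (mem_repS (by fun_prop)).1 h1
    obtain ⟨b, hb, rfl⟩ := (mem_repS (by fun_prop)).1 h2
    exact ⟨a, b, ha, hb, rfl⟩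
  · rintro ⟨a, b, ha, hb, rfl⟩
    exact ⟨_, (mem_repS (by fun_prop)).2 ⟨a, ha, rfl⟩, (mem_repS (by fun_prop)).2 ⟨b, hb, rfl⟩⟩

@[simp] theorem opair_mem_prodS {x y a b : M} : opair a b ∈ prodS x y ↔ (a ∈ x ∧ b ∈ y) := by
  rw [mem_prodS]
  constructor
  · rintro ⟨a', b', h1, h2, h3⟩
    rw [opair_inj] at h3
    rw [h3.1, h3.2]; exact ⟨h1, h2⟩
  · rintro ⟨h1, h2⟩; exact ⟨a, b, h1, h2, rfl⟩

/-! ### forcing data -/

/-- Internal data for category forcing: a set `P` of conditions, a set `A` of renamings forming a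
monoid, and a relation `V q f p` (`f` is a morphism from `q` to `p`). -/
structure FData (M : Type) [Membership M M] where
  P : M
  A : M
  mon : Monoid (El A)
  mul_def : DefF M (fun p : El A × El A => p.1 * p.2)
  V : El P → El A → El P → Prop
  V_def : DefP M (fun p : El P × (El A × El P) => V p.1 p.2.1 p.2.2)
  V_one : ∀ p, V p 1 p
  V_mul : ∀ {r g q f p}, V r g q → V q f p → V r (f * g) p

namespace FData

variable (D : FData M)

/-- conditions -/
abbrev PP : Type := El D.P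

/-- renamings -/
abbrev AA : Type := El D.A

instance : Monoid D.AA := D.mon

@[fun_prop]
theorem mul_def' {f g : α → D.AA} (hf : DefF M f) (hg : DefF M g) : DefF M (fun a => f a * g a) :=
  DefF_comp (g := fun p : D.AA × D.AA => p.1 * p.2) D.mul_def (DefF_prod hf hg)

@[fun_prop]
theorem V_def' {f : α → D.PP} {g : α → D.AA} {h : α → D.PP} (hf : DefF M f) (hg : DefF M g) (hh : DefF M h) :
    DefP M (fun a => D.V (f a) (g a) (h a)) :=
  DefP_comp (R := fun p : D.PP × (D.AA × D.PP) => D.V p.1 p.2.1 p.2.2) D.V_def (DefF_prod hf (DefF_prod hg hh))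

/-- code of a potential element of a name -/
noncomputable def tup (p : D.PP) (f : D.AA) (τ : M) (c : D.AA) : M := opair (opair p.v f.v) (opair τ c.v)

@[fun_prop]
theorem tup_def {p : α → D.PP} {f : α → D.AA} {τ : α → M} {c : α → D.AA} (hp : DefF M p) (hf : DefF M f)
    (hτ : DefF M τ) (hc : DefF M c) : DefF M (fun a => D.tup (p a) (f a) (τ a) (c a)) := by
  unfold tup; fun_prop

@[simp] theorem tup_inj {p p' : D.PP} {f f' : D.AA} {τ τ' : M} {c c' : D.AA} :
    D.tup p f τ c = D.tup p' f' τ' c' ↔ (p = p' ∧ f = f' ∧ τ = τ' ∧ c = c') := by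
  unfold tup
  simp only [opair_inj]
  constructor
  · rintro ⟨⟨h1, h2⟩, h3, h4⟩; exact ⟨El.ext h1, El.ext h2, h3, El.ext h4⟩
  · rintro ⟨rfl, rfl, rfl, rfl⟩; exact ⟨⟨rfl, rfl⟩, rfl, rfl⟩

/-- `τ` renamed by `d` is an element of `x` renamed by `a` at stage `q` -/
def Elt (q : D.PP) (τ : M) (d : D.AA) (x : M) (a : D.AA) : Prop :=
  ∃ p' : D.PP, ∃ f' c g : D.AA, D.tup p' f' τ c ∈ x ∧ D.V q g p' ∧ f' * g = a ∧ c * g = d

@[fun_prop]
theorem Elt_def {q : α → D.PP} {τ : α → M} {d : α → D.AA} {x : α → M} {a : α → D.AA} (hq : DefF M q)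
    (hτ : DefF M τ) (hd : DefF M d) (hx : DefF M x) (ha : DefF M a) :
    DefP M (fun w => D.Elt (q w) (τ w) (d w) (x w) (a w)) := by
  unfold Elt; fun_prop

theorem Elt.mono {D : FData M} {q r : D.PP} {τ x : M} {d a k : D.AA} (h : D.Elt q τ d x a) (hr : D.V r k q) :
    D.Elt r τ (d * k) x (a * k) := by
  obtain ⟨p', f', c, g, h1, h2, h3, h4⟩ := h
  exact ⟨p', f', c, g * k, h1, D.V_mul hr h2, by rw [← mul_assoc, h3], by rw [← mul_assoc, h4]⟩

/-- the first components of a name -/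
noncomputable def dom (x : M) : M :=
  sepS (sU (sU (sU (sU x)))) (fun τ => ∃ p : D.PP, ∃ f c : D.AA, D.tup p f τ c ∈ x)

@[fun_prop]
theorem dom_def {x : α → M} (hx : DefF M x) : DefF M (fun w => D.dom (x w)) := by
  unfold dom; fun_prop

theorem mem_dom {x τ : M} : τ ∈ D.dom x ↔ ∃ p : D.PP, ∃ f c : D.AA, D.tup p f τ c ∈ x := by
  unfold dom
  rw [mem_sepS (by fun_prop)]
  constructor
  · rintro ⟨_, h⟩; exact h
  · rintro ⟨p, f, c, h⟩
    refine ⟨?_, p, f, c, h⟩
    simp only [mem_sU]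
    refine ⟨sing τ, ⟨opair τ c.v, ⟨upair (opair p.v f.v) (opair τ c.v), ⟨D.tup p f τ c, h, ?_⟩, ?_⟩, ?_⟩, ?_⟩
    · simp [tup, opair]
    · simp
    · simp [opair]
    · simp

theorem dom_sub_V {x τ : M} (h : τ ∈ D.dom x) : τ ∈ Pool.Agent.Helper79.ZF.V x := by
  obtain ⟨p, f, c, h⟩ := D.mem_dom.1 h
  have h1 := V_sub x _ h
  have h2 : opair τ c.v ∈ Pool.Agent.Helper79.ZF.V x := by
    refine V_trans x (upair (opair p.v f.v) (opair τ c.v)) _ (V_trans x _ _ h1 ?_) (by simp)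
    simp [tup, opair]
  exact V_trans x (sing τ) _ (V_trans x _ _ h2 (by simp [opair])) (by simp)

theorem Elt.dom {D : FData M} {q : D.PP} {τ x : M} {d a : D.AA} (h : D.Elt q τ d x a) : τ ∈ D.dom x := by
  obtain ⟨p', f', c, g, h1, _⟩ := h
  exact D.mem_dom.2 ⟨p', f', c, h1⟩

theorem dom_induction {R : M → Prop} (hR : DefP M R) (h : ∀ x : M, (∀ y : M, y ∈ D.dom x → R y) → R x) (x : M) : R x :=
  rank_induction hR (fun x hx => h x (fun y hy => hx y (D.dom_sub_V hy))) x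

/-- predecessors of a pair of names -/
noncomputable def prd (z : M) : M := prodS (D.dom (fst z)) (D.dom (snd z))

@[fun_prop]
theorem prd_def {x : α → M} (hx : DefF M x) : DefF M (fun w => D.prd (x w)) := by
  unfold prd; fun_prop

theorem prd_ind (Q : M → Prop) (hQ : DefP M Q) (h : ∀ x : M, (∀ y : M, y ∈ D.prd x → Q y) → Q x) (x : M) : Q x := by
  have key : ∀ x y : M, Q (opair x y) := by
    intro x
    refine D.dom_induction (R := fun x => ∀ y : M, Q (opair x y)) (by fun_prop) ?_ x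
    intro x ih y
    apply h
    intro z hz
    unfold prd at hz
    rw [mem_prodS] at hz
    obtain ⟨a, b, ha, hb, rfl⟩ := hz
    rw [fst_opair] at ha
    exact ih a ha b
  apply h
  intro y hy
  unfold prd at hy
  rw [mem_prodS] at hy
  obtain ⟨a, b, _, _, rfl⟩ := hy
  exact key a b

/-- body of the recursion defining forced equality -/
def EqBody (p : D.PP) (x : M) (a : D.AA) (y : M) (b : D.AA) (h : M) : Prop :=
  (∀ r : D.PP, ∀ k : D.AA, D.V r k p → ∀ τ : M, ∀ d : D.AA, D.Elt r τ d x (a * k) →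
    ∃ s : D.PP, ∃ l : D.AA, D.V s l r ∧ ∃ σ : M, ∃ e : D.AA, D.Elt s σ e y (b * k * l) ∧
      opair (opair s.v (d * l).v) e.v ∈ app h (opair τ σ)) ∧
  (∀ r : D.PP, ∀ k : D.AA, D.V r k p → ∀ σ : M, ∀ e : D.AA, D.Elt r σ e y (b * k) →
    ∃ s : D.PP, ∃ l : D.AA, D.V s l r ∧ ∃ τ : M, ∃ d : D.AA, D.Elt s τ d x (a * k * l) ∧
      opair (opair s.v d.v) (e * l).v ∈ app h (opair τ σ))

/-- one step of the recursion -/
noncomputable def EqStep (z h : M) : M :=
  sepS (prodS (prodS D.P D.A) D.A) (fun t => ∃ p : D.PP, ∃ a b : D.AA, t = opair (opair p.v a.v) b.v ∧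
    D.EqBody p (fst z) a (snd z) b h)

theorem EqStep_def : DefF M (fun p : M × M => D.EqStep p.1 p.2) := by
  unfold EqStep EqBody; fun_prop

/-- the set of all `(p, a, b)` with `p` forcing equality of `x` renamed by `a` and `y` renamed by `b` -/
noncomputable def EqSet (z : M) : M := recF D.prd D.EqStep z

theorem EqSet_def : DefF M D.EqSet := by
  have := D.EqStep_def
  unfold EqSet
  fun_prop

/-- forced equality -/
def FEq (p : D.PP) (x : M) (a : D.AA) (y : M) (b : D.AA) : Prop :=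
  opair (opair p.v a.v) b.v ∈ D.EqSet (opair x y)

@[fun_prop]
theorem FEq_def {p : α → D.PP} {x : α → M} {a : α → D.AA} {y : α → M} {b : α → D.AA} (hp : DefF M p)
    (hx : DefF M x) (ha : DefF M a) (hy : DefF M y) (hb : DefF M b) :
    DefP M (fun w => D.FEq (p w) (x w) (a w) (y w) (b w)) := by
  have := D.EqSet_def
  unfold FEq; fun_prop

theorem FEq_iff {p : D.PP} {x : M} {a : D.AA} {y : M} {b : D.AA} : D.FEq p x a y b ↔
    (∀ r : D.PP, ∀ k : D.AA, D.V r k p → ∀ τ : M, ∀ d : D.AA, D.Elt r τ d x (a * k) →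
      ∃ s : D.PP, ∃ l : D.AA, D.V s l r ∧ ∃ σ : M, ∃ e : D.AA, D.Elt s σ e y (b * k * l) ∧
        D.FEq s τ (d * l) σ e) ∧
    (∀ r : D.PP, ∀ k : D.AA, D.V r k p → ∀ σ : M, ∀ e : D.AA, D.Elt r σ e y (b * k) →
      ∃ s : D.PP, ∃ l : D.AA, D.V s l r ∧ ∃ τ : M, ∃ d : D.AA, D.Elt s τ d x (a * k * l) ∧
        D.FEq s τ d σ (e * l)) := by
  have hE := D.EqSet_def
  have hS := D.EqStep_def
  have hrec : D.EqSet (opair x y) = D.EqStep (opair x y) (lam (D.prd (opair x y)) D.EqSet) :=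
    recF_eq (by fun_prop) hS D.prd_ind _
  have happ : ∀ τ σ : M, τ ∈ D.dom x → σ ∈ D.dom y →
      app (lam (D.prd (opair x y)) D.EqSet) (opair τ σ) = D.EqSet (opair τ σ) := by
    intro τ σ h1 h2
    apply app_lam hE
    unfold prd
    simp [h1, h2]
  unfold FEq
  rw [hrec]
  conv_lhs => unfold EqStep
  rw [mem_sepS (by unfold EqBody; fun_prop)]
  constructor
  · rintro ⟨-, p', a', b', h, hb⟩
    simp only [opair_inj] at h
    obtain ⟨⟨h1, h2⟩, h3⟩ := h
    obtain rfl := El.ext h1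
    obtain rfl := El.ext h2
    obtain rfl := El.ext h3
    rw [fst_opair, snd_opair] at hb
    obtain ⟨hb1, hb2⟩ := hb
    refine ⟨fun r k hr τ d hτ => ?_, fun r k hr σ e hσ => ?_⟩
    · obtain ⟨s, l, hs, σ, e, h1, h2⟩ := hb1 r k hr τ d hτ
      rw [happ τ σ hτ.dom h1.dom] at h2
      exact ⟨s, l, hs, σ, e, h1, h2⟩
    · obtain ⟨s, l, hs, τ, d, h1, h2⟩ := hb2 r k hr σ e hσ
      rw [happ τ σ h1.dom hσ.dom] at h2
      exact ⟨s, l, hs, τ, d, h1, h2⟩
  · rintro ⟨hb1, hb2⟩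
    refine ⟨?_, p, a, b, rfl, ?_⟩
    · simp only [opair_mem_prodS]
      exact ⟨⟨p.mem, a.mem⟩, b.mem⟩
    · rw [fst_opair, snd_opair]
      refine ⟨fun r k hr τ d hτ => ?_, fun r k hr σ e hσ => ?_⟩
      · obtain ⟨s, l, hs, σ, e, h1, h2⟩ := hb1 r k hr τ d hτ
        rw [← happ τ σ hτ.dom h1.dom] at h2
        exact ⟨s, l, hs, σ, e, h1, h2⟩
      · obtain ⟨s, l, hs, τ, d, h1, h2⟩ := hb2 r k hr σ e hσ
        rw [← happ τ σ h1.dom hσ.dom] at h2
        exact ⟨s, l, hs, τ, d, h1, h2⟩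

end FData

end Pool.Agent.Helper79.ZF
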