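import Pool.Agent.Helper79.ZF.Forcing

/-!
# Properties of forced equality and membership
-/

namespace Pool.Agent.Helper79.ZF

open FirstOrder Set

variable {M : Type} [Membership M M] [ZFModel M]
variable {α β γ : Type} [Ctx M α] [Ctx M β] [Ctx M γ]

namespace FData

variable (D : FData M)

theorem FEq_symm_aux (x : M) : ∀ y : M, ∀ p : D.PP, ∀ a b : D.AA, D.FEq p x a y b ↔ D.FEq p y b x a := by
  refine D.dom_induction (R := fun x => ∀ y : M, ∀ p : D.PP, ∀ a b : D.AA, D.FEq p x a y b ↔ D.FEq p y b x a)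
    (by fun_prop) ?_ x
  intro x ih y p a b
  rw [D.FEq_iff, D.FEq_iff]
  constructor
  · rintro ⟨h1, h2⟩
    refine ⟨fun r k hr σ e hσ => ?_, fun r k hr τ d hτ => ?_⟩
    · obtain ⟨s, l, hs, τ, d, h3, h4⟩ := h2 r k hr σ e hσ
      exact ⟨s, l, hs, τ, d, h3, (ih τ h3.dom σ s d (e * l)).1 h4⟩
    · obtain ⟨s, l, hs, σ, e, h3, h4⟩ := h1 r k hr τ d hτ
      exact ⟨s, l, hs, σ, e, h3, (ih τ hτ.dom σ s (d * l) e).1 h4⟩
  · rintro ⟨h1, h2⟩
    refine ⟨fun r k hr τ d hτ => ?_, fun r k hr σ e hσ => ?_⟩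
    · obtain ⟨s, l, hs, σ, e, h3, h4⟩ := h2 r k hr τ d hτ
      exact ⟨s, l, hs, σ, e, h3, (ih τ hτ.dom σ s (d * l) e).2 h4⟩
    · obtain ⟨s, l, hs, τ, d, h3, h4⟩ := h1 r k hr σ e hσ
      exact ⟨s, l, hs, τ, d, h3, (ih τ h3.dom σ s d (e * l)).2 h4⟩

variable {D}

theorem FEq.symm {p : D.PP} {x : M} {a : D.AA} {y : M} {b : D.AA} (h : D.FEq p x a y b) : D.FEq p y b x a :=
  (D.FEq_symm_aux x y p a b).1 h

theorem FEq.mono {p q : D.PP} {x : M} {a : D.AA} {y : M} {b f : D.AA} (h : D.FEq p x a y b) (hq : D.V q f p) :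
    D.FEq q x (a * f) y (b * f) := by
  rw [D.FEq_iff] at h ⊢
  obtain ⟨h1, h2⟩ := h
  refine ⟨fun r k hr τ d hτ => ?_, fun r k hr σ e hσ => ?_⟩
  · rw [mul_assoc] at hτ
    obtain ⟨s, l, hs, σ, e, h3, h4⟩ := h1 r (f * k) (D.V_mul hr hq) τ d hτ
    rw [← mul_assoc] at h3
    exact ⟨s, l, hs, σ, e, h3, h4⟩
  · rw [mul_assoc] at hσ
    obtain ⟨s, l, hs, σ, e, h3, h4⟩ := h2 r (f * k) (D.V_mul hr hq) σ e hσ
    rw [← mul_assoc] at h3
    exact ⟨s, l, hs, σ, e, h3, h4⟩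

theorem FEq.refl (p : D.PP) (x : M) (a : D.AA) : D.FEq p x a x a := by
  have key : ∀ x : M, ∀ p : D.PP, ∀ a : D.AA, D.FEq p x a x a := by
    refine D.dom_induction (R := fun x => ∀ p : D.PP, ∀ a : D.AA, D.FEq p x a x a) (by fun_prop) ?_
    intro x ih p a
    rw [D.FEq_iff]
    refine ⟨fun r k hr τ d hτ => ?_, fun r k hr σ e hσ => ?_⟩
    · exact ⟨r, 1, D.V_one r, τ, d, by rw [mul_one]; exact hτ, by rw [mul_one]; exact ih τ hτ.dom r d⟩
    · exact ⟨r, 1, D.V_one r, σ, e, by rw [mul_one]; exact hσ, by rw [mul_one]; exact ih σ hσ.dom r e⟩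
  exact key x p a

variable (D)

theorem FEq_trans_aux (x : M) : ∀ y z : M, ∀ p : D.PP, ∀ a b c : D.AA,
    D.FEq p x a y b → D.FEq p y b z c → D.FEq p x a z c := by
  refine D.dom_induction (R := fun x => ∀ y z : M, ∀ p : D.PP, ∀ a b c : D.AA,
    D.FEq p x a y b → D.FEq p y b z c → D.FEq p x a z c) (by fun_prop) ?_ x
  intro x ih y z p a b c hxy hyz
  rw [D.FEq_iff] at hxy hyz ⊢
  obtain ⟨h1, h2⟩ := hxy
  obtain ⟨h3, h4⟩ := hyz
  refine ⟨fun r k hr τ d hτ => ?_, fun r k hr ρ g hρ => ?_⟩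
  · obtain ⟨s, l, hs, σ, e, h5, h6⟩ := h1 r k hr τ d hτ
    obtain ⟨s', l', hs', ρ, g, h7, h8⟩ := h3 s (k * l) (D.V_mul hs hr) σ e (by rw [← mul_assoc]; exact h5)
    refine ⟨s', l * l', D.V_mul hs' hs, ρ, g, by rw [← mul_assoc, mul_assoc c k l]; exact h7, ?_⟩
    have h9 := h6.mono hs'
    rw [← mul_assoc]
    exact ih τ hτ.dom σ ρ s' _ _ _ h9 h8
  · obtain ⟨s, l, hs, σ, e, h5, h6⟩ := h4 r k hr ρ g hρ
    obtain ⟨s', l', hs', τ, d, h7, h8⟩ := h2 s (k * l) (D.V_mul hs hr) σ e (by rw [← mul_assoc]; exact h5)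
    refine ⟨s', l * l', D.V_mul hs' hs, τ, d, by rw [← mul_assoc, mul_assoc a k l]; exact h7, ?_⟩
    have h9 := h6.mono hs'
    rw [← mul_assoc]
    exact ih τ h7.dom σ ρ s' _ _ _ h8 h9

variable {D}

theorem FEq.trans {p : D.PP} {x y z : M} {a b c : D.AA} (h1 : D.FEq p x a y b) (h2 : D.FEq p y b z c) :
    D.FEq p x a z c := D.FEq_trans_aux x y z p a b c h1 h2

variable (D)

/-- forced membership -/
def FMem (p : D.PP) (x : M) (a : D.AA) (y : M) (b : D.AA) : Prop :=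
  ∀ r : D.PP, ∀ k : D.AA, D.V r k p → ∃ s : D.PP, ∃ l : D.AA, D.V s l r ∧ ∃ σ : M, ∃ e : D.AA,
    D.Elt s σ e y (b * k * l) ∧ D.FEq s x (a * k * l) σ e

@[fun_prop]
theorem FMem_def {p : α → D.PP} {x : α → M} {a : α → D.AA} {y : α → M} {b : α → D.AA} (hp : DefF M p)
    (hx : DefF M x) (ha : DefF M a) (hy : DefF M y) (hb : DefF M b) :
    DefP M (fun w => D.FMem (p w) (x w) (a w) (y w) (b w)) := by
  unfold FMem; fun_prop

variable {D}

theorem FMem.mono {p q : D.PP} {x : M} {a : D.AA} {y : M} {b f : D.AA} (h : D.FMem p x a y b) (hq : D.V q f p) :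
    D.FMem q x (a * f) y (b * f) := by
  intro r k hr
  obtain ⟨s, l, hs, σ, e, h1, h2⟩ := h r (f * k) (D.V_mul hr hq)
  rw [← mul_assoc] at h1 h2
  exact ⟨s, l, hs, σ, e, h1, h2⟩

theorem Elt.fmem {q : D.PP} {τ x : M} {d a : D.AA} (h : D.Elt q τ d x a) : D.FMem q τ d x a := by
  intro r k hr
  exact ⟨r, 1, D.V_one r, τ, d * k, by rw [mul_one]; exact h.mono hr, by rw [mul_one]; exact FEq.refl _ _ _⟩

theorem FMem.congr_left {p : D.PP} {x x' y : M} {a a' b : D.AA} (h : D.FMem p x a y b) (he : D.FEq p x a x' a') :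
    D.FMem p x' a' y b := by
  intro r k hr
  obtain ⟨s, l, hs, σ, e, h1, h2⟩ := h r k hr
  exact ⟨s, l, hs, σ, e, h1, ((he.mono hr).mono hs).symm.trans h2⟩

theorem FMem.congr_right {p : D.PP} {x y y' : M} {a b b' : D.AA} (h : D.FMem p x a y b) (he : D.FEq p y b y' b') :
    D.FMem p x a y' b' := by
  intro r k hr
  obtain ⟨s, l, hs, σ, e, h1, h2⟩ := h r k hr
  rw [D.FEq_iff] at he
  obtain ⟨s', l', hs', σ', e', h3, h4⟩ := he.1 s (k * l) (D.V_mul hs hr) σ e (by rw [← mul_assoc]; exact h1)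
  refine ⟨s', l * l', D.V_mul hs' hs, σ', e', by rw [← mul_assoc, mul_assoc b' k l]; exact h3, ?_⟩
  rw [← mul_assoc]
  exact (h2.mono hs').trans h4

/-- density for forced membership -/
theorem FMem.dense {p : D.PP} {x y : M} {a b : D.AA}
    (h : ∀ q : D.PP, ∀ f : D.AA, D.V q f p → ∃ r : D.PP, ∃ g : D.AA, D.V r g q ∧ D.FMem r x (a * f * g) y (b * f * g)) :
    D.FMem p x a y b := by
  intro r k hr
  obtain ⟨s, l, hs, h1⟩ := h r k hr
  obtain ⟨t, m, ht, σ, e, h2, h3⟩ := h1 s 1 (D.V_one s)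
  refine ⟨t, l * m, D.V_mul ht hs, σ, e, ?_, ?_⟩
  · rw [mul_one] at h2; rw [← mul_assoc]; exact h2
  · rw [mul_one] at h3; rw [← mul_assoc]; exact h3

/-- forced extensionality -/
theorem FEq_iff_mem {p : D.PP} {x y : M} {a b : D.AA} : D.FEq p x a y b ↔
    ∀ r : D.PP, ∀ k : D.AA, D.V r k p → ∀ z : M, ∀ c : D.AA, D.FMem r z c x (a * k) ↔ D.FMem r z c y (b * k) := by
  constructor
  · intro h r k hr z c
    exact ⟨fun h1 => h1.congr_right (h.mono hr), fun h1 => h1.congr_right (h.mono hr).symm⟩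
  · intro h
    rw [D.FEq_iff]
    refine ⟨fun r k hr τ d hτ => ?_, fun r k hr σ e hσ => ?_⟩
    · have h1 := (h r k hr τ d).1 hτ.fmem
      obtain ⟨s, l, hs, σ, e, h2, h3⟩ := h1 r 1 (D.V_one r)
      rw [mul_one] at h2 h3
      exact ⟨s, l, hs, σ, e, h2, h3⟩
    · have h1 := (h r k hr σ e).2 hσ.fmem
      obtain ⟨s, l, hs, τ, d, h2, h3⟩ := h1 r 1 (D.V_one r)
      rw [mul_one] at h2 h3
      exact ⟨s, l, hs, τ, d, h2, h3.symm⟩

/-- density for forced equality -/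
theorem FEq.dense {p : D.PP} {x y : M} {a b : D.AA}
    (h : ∀ q : D.PP, ∀ f : D.AA, D.V q f p → ∃ r : D.PP, ∃ g : D.AA, D.V r g q ∧ D.FEq r x (a * f * g) y (b * f * g)) :
    D.FEq p x a y b := by
  rw [FEq_iff_mem]
  intro r k hr z c
  constructor
  · intro h1
    apply FMem.dense
    intro q f hq
    obtain ⟨s, g, hs, h2⟩ := h q (k * f) (D.V_mul hq hr)
    refine ⟨s, g, hs, ?_⟩
    have h3 := (h1.mono hq).mono hs
    rw [← mul_assoc, ← mul_assoc] at h2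
    exact h3.congr_right h2
  · intro h1
    apply FMem.dense
    intro q f hq
    obtain ⟨s, g, hs, h2⟩ := h q (k * f) (D.V_mul hq hr)
    refine ⟨s, g, hs, ?_⟩
    have h3 := (h1.mono hq).mono hs
    rw [← mul_assoc, ← mul_assoc] at h2
    exact h3.congr_right h2.symm

end FData

end Pool.Agent.Helper79.ZF
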