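import Pool.Agent.Helper79.ZF.ExtZF

/-!
# Internal functions, permutations and injections
-/

namespace Pool.Agent.Helper79.ZF

open FirstOrder Set

variable {M : Type} [Membership M M] [ZFModel M]
variable {α β γ : Type} [Ctx M α] [Ctx M β] [Ctx M γ]

/-! ### booleans -/

theorem emp_ne_suc_emp : (emp : M) ≠ suc emp := fun h => suc_ne_emp _ h.symm

noncomputable instance ctxBool : Ctx M Bool where
  ι := Unit
  fin := inferInstance
  co := fun b _ => if b then suc emp else emp
  inj := by
    intro x y h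
    have h := congrFun h ()
    cases x <;> cases y <;> simp [emp_ne_suc_emp, suc_ne_emp] at h ⊢
  ran := by
    have : Set.range (fun (b : Bool) (_ : Unit) => if b then suc (emp : M) else emp) = {v | v () = suc emp} ∪ {v | v () = emp} := by
      ext v
      simp only [Set.mem_range, Set.mem_union, Set.mem_ofPred_eq]
      constructor
      · rintro ⟨b, rfl⟩
        cases b
        · right; rfl
        · left; rfl
      · rintro (h | h)
        · exact ⟨true, by ext; simp [h]⟩
        · exact ⟨false, by ext; simp [h]⟩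
    rw [this]
    exact (DS_const _ _).union (DS_const _ _)

@[fun_prop]
theorem DefP.isTrue {b : α → Bool} (hb : DefF M b) : DefP M (fun a => b a = true) := by
  have : DefF M (fun _ : α => true) := DefF_const _
  fun_prop

theorem DefF.cond {R : α → Prop} {f g : α → β} (hR : DefP M R) (hf : DefF M f) (hg : DefF M g)
    [DecidablePred R] : DefF M (fun a => if R a then f a else g a) := by
  apply DefF_of (R := fun a b => (R a ∧ f a = b) ∨ (¬ R a ∧ g a = b)) (by fun_prop)
  intro a b
  by_cases h : R a <;> simp [h]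

theorem DefF.bool {f g : α → β} {b : α → Bool} (hb : DefF M b) (hf : DefF M f) (hg : DefF M g) :
    DefF M (fun a => if b a then f a else g a) :=
  DefF.cond (R := fun a => b a = true) (by fun_prop) hf hg

/-! ### pairs -/

/-- first coordinate -/
noncomputable def pr1 {A B : M} (x : El (prodS A B)) : El A := El.mk (fst x.v) (by
  obtain ⟨a, b, ha, hb, h⟩ := mem_prodS.1 x.mem
  rw [h, fst_opair]; exact ha)

/-- second coordinate -/
noncomputable def pr2 {A B : M} (x : El (prodS A B)) : El B := El.mk (snd x.v) (by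
  obtain ⟨a, b, ha, hb, h⟩ := mem_prodS.1 x.mem
  rw [h, snd_opair]; exact hb)

/-- pairing -/
noncomputable def mkp {A B : M} (a : El A) (b : El B) : El (prodS A B) := El.mk (opair a.v b.v) (by
  rw [opair_mem_prodS]; exact ⟨a.mem, b.mem⟩)

@[simp] theorem pr1_mkp {A B : M} (a : El A) (b : El B) : pr1 (mkp a b) = a := by
  apply El.ext; simp [pr1, mkp]

@[simp] theorem pr2_mkp {A B : M} (a : El A) (b : El B) : pr2 (mkp a b) = b := by
  apply El.ext; simp [pr2, mkp]

@[simp] theorem mkp_pr {A B : M} (x : El (prodS A B)) : mkp (pr1 x) (pr2 x) = x := by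
  apply El.ext
  obtain ⟨a, b, ha, hb, h⟩ := mem_prodS.1 x.mem
  simp only [pr1, pr2, mkp, El.mk_v]
  rw [h, fst_opair, snd_opair]

theorem prod_ext {A B : M} {x y : El (prodS A B)} (h1 : pr1 x = pr1 y) (h2 : pr2 x = pr2 y) : x = y := by
  rw [← mkp_pr x, ← mkp_pr y, h1, h2]

@[fun_prop]
theorem pr1_def {A B : M} {f : α → El (prodS A B)} (hf : DefF M f) : DefF M (fun a => pr1 (f a)) := by
  apply DefF_of_v
  show DefF M (fun a => fst (f a).v)
  fun_prop

@[fun_prop]
theorem pr2_def {A B : M} {f : α → El (prodS A B)} (hf : DefF M f) : DefF M (fun a => pr2 (f a)) := by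
  apply DefF_of_v
  show DefF M (fun a => snd (f a).v)
  fun_prop

@[fun_prop]
theorem mkp_def {A B : M} {f : α → El A} {g : α → El B} (hf : DefF M f) (hg : DefF M g) :
    DefF M (fun a => mkp (f a) (g a)) := by
  apply DefF_of_v
  show DefF M (fun a => opair (f a).v (g a).v)
  fun_prop

/-! ### function spaces -/

/-- the set of functions from `A` to `B` -/
noncomputable def Fn (A B : M) : M := sepS (pow (prodS A B))
  (fun f => ∀ x : El A, ∃ y : El B, opair x.v y.v ∈ f ∧ ∀ y' : M, opair x.v y' ∈ f → y' = y.v)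

theorem mem_Fn {A B f : M} : f ∈ Fn A B ↔ ((∀ t : M, t ∈ f → t ∈ prodS A B) ∧
    ∀ x : El A, ∃ y : El B, opair x.v y.v ∈ f ∧ ∀ y' : M, opair x.v y' ∈ f → y' = y.v) := by
  unfold Fn
  rw [mem_sepS (by fun_prop), mem_pow]

theorem Fn_spec {A B : M} (f : El (Fn A B)) (x : El A) :
    ∃ y : El B, app f.v x.v = y.v ∧ ∀ y' : M, opair x.v y' ∈ f.v ↔ y' = y.v := by
  obtain ⟨y, h1, h2⟩ := (mem_Fn.1 f.mem).2 x
  exact ⟨y, app_eq h1 h2, fun y' => ⟨h2 y', fun h => by rw [h]; exact h1⟩⟩

/-- application of an internal function -/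
noncomputable def fapp {A B : M} (f : El (Fn A B)) (x : El A) : El B := El.mk (app f.v x.v) (by
  obtain ⟨y, h, _⟩ := Fn_spec f x
  rw [h]; exact y.mem)

@[fun_prop]
theorem fapp_def {A B : M} {f : α → El (Fn A B)} {x : α → El A} (hf : DefF M f) (hx : DefF M x) :
    DefF M (fun a => fapp (f a) (x a)) := by
  apply DefF_of_v
  show DefF M (fun a => app (f a).v (x a).v)
  fun_prop

theorem opair_mem_fn {A B : M} {f : El (Fn A B)} {x : El A} {y : M} : opair x.v y ∈ f.v ↔ y = (fapp f x).v := by
  obtain ⟨z, h1, h2⟩ := Fn_spec f x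
  rw [h2]
  show y = z.v ↔ y = app f.v x.v
  rw [h1]

theorem fn_ext {A B : M} {f g : El (Fn A B)} (h : ∀ x, fapp f x = fapp g x) : f = g := by
  apply El.ext
  apply ext'
  have key : ∀ f g : El (Fn A B), (∀ x, fapp f x = fapp g x) → ∀ z : M, z ∈ f.v → z ∈ g.v := by
    intro f g h z hz
    obtain ⟨a, b, ha, hb, rfl⟩ := mem_prodS.1 ((mem_Fn.1 f.mem).1 z hz)
    have h1 := (opair_mem_fn (f := f) (x := El.mk a ha)).1 hz
    exact (opair_mem_fn (f := g) (x := El.mk a ha)).2 (by rw [h1, h])
  exact fun z => ⟨key f g h z, key g f (fun x => (h x).symm) z⟩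

/-- the internal function with given values -/
noncomputable def mkFn {A B : M} (F : El A → El B) (hF : DefF M F) : El (Fn A B) :=
  El.mk (sepS (prodS A B) (fun t => ∃ x : El A, t = opair x.v (F x).v)) (by
    have h : ∀ t : M, t ∈ sepS (prodS A B) (fun t => ∃ x : El A, t = opair x.v (F x).v) ↔ ∃ x : El A, t = opair x.v (F x).v := by
      intro t
      rw [mem_sepS (by fun_prop)]
      refine ⟨fun h => h.2, fun h => ⟨?_, h⟩⟩
      obtain ⟨x, rfl⟩ := h
      rw [opair_mem_prodS]; exact ⟨x.mem, (F x).mem⟩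
    rw [mem_Fn]
    refine ⟨fun t ht => ?_, fun x => ⟨F x, (h _).2 ⟨x, rfl⟩, fun y' hy' => ?_⟩⟩
    · rw [mem_sepS (by fun_prop)] at ht; exact ht.1
    · rw [h] at hy'
      obtain ⟨x', h'⟩ := hy'
      rw [opair_inj] at h'
      have : x = x' := El.ext h'.1
      subst this
      exact h'.2)

@[simp] theorem fapp_mkFn {A B : M} (F : El A → El B) (hF : DefF M F) (x : El A) : fapp (mkFn F hF) x = F x := by
  have h : opair x.v (F x).v ∈ (mkFn F hF).v := by
    simp only [mkFn, El.mk_v]
    rw [mem_sepS (by fun_prop)]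
    exact ⟨by rw [opair_mem_prodS]; exact ⟨x.mem, (F x).mem⟩, x, rfl⟩
  exact El.ext (opair_mem_fn.1 h).symm

@[fun_prop]
theorem mkFn_def {A B : M} {F : α → El A → El B} {h : ∀ a, DefF M (F a)} (hF : DefF M (fun p : α × El A => F p.1 p.2)) :
    DefF M (fun a => mkFn (F a) (h a)) := by
  apply DefF_of (R := fun a g => ∀ x, fapp g x = F a x) (by fun_prop)
  intro a g
  constructor
  · rintro rfl x; rw [fapp_mkFn]
  · intro h'; exact fn_ext (fun x => by rw [fapp_mkFn, h'])

/-! ### subsets -/

/-- membership in an internal subset -/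
def smem {A : M} (x : El A) (S : El (pow A)) : Prop := x.v ∈ S.v

@[fun_prop]
theorem smem_def {A : M} {x : α → El A} {S : α → El (pow A)} (hx : DefF M x) (hS : DefF M S) :
    DefP M (fun a => smem (x a) (S a)) := by
  unfold smem; fun_prop

theorem sub_ext {A : M} {S T : El (pow A)} (h : ∀ x : El A, smem x S ↔ smem x T) : S = T := by
  apply El.ext
  apply ext'
  intro z
  constructor
  · intro hz
    exact (h (El.mk z (mem_pow.1 S.mem z hz))).1 hz
  · intro hz
    exact (h (El.mk z (mem_pow.1 T.mem z hz))).2 hz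

/-- internal subset defined by a definable predicate -/
noncomputable def mkSub {A : M} (R : El A → Prop) (hR : DefP M R) : El (pow A) :=
  El.mk (sepS A (fun t => ∃ x : El A, t = x.v ∧ R x)) (by
    rw [mem_pow]
    intro w hw
    rw [mem_sepS (by fun_prop)] at hw
    exact hw.1)

@[simp] theorem smem_mkSub {A : M} {R : El A → Prop} {hR : DefP M R} {x : El A} : smem x (mkSub R hR) ↔ R x := by
  simp only [smem, mkSub, El.mk_v]
  rw [mem_sepS (by fun_prop)]
  constructor
  · rintro ⟨_, y, h1, h2⟩
    rwa [El.ext h1]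
  · intro h
    exact ⟨x.mem, x, rfl, h⟩

@[fun_prop]
theorem mkSub_def {A : M} {R : α → El A → Prop} {h : ∀ a, DefP M (R a)} (hR : DefP M (fun p : α × El A => R p.1 p.2)) :
    DefF M (fun a => mkSub (R a) (h a)) := by
  apply DefF_of (R := fun a g => ∀ x, smem x g ↔ R a x) (by fun_prop)
  intro a g
  constructor
  · rintro rfl x; rw [smem_mkSub]
  · intro h'; exact sub_ext (fun x => by rw [smem_mkSub, h'])

/-! ### Cantor-Bernstein -/

/-- the Cantor-Bernstein theorem for internal functions -/
theorem cantor_bernstein {A : M} {f : El A → El A} (hf : DefF M f) (hfi : Function.Injective f) {R : El A → Prop}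
    (hR : DefP M R) (hfR : ∀ x, R (f x)) : ∃ h : El A → El A, DefF M h ∧ Function.Injective h ∧ ∀ y, R y ↔ ∃ x, h x = y := by
  classical
  let C : El A → Prop := fun x => ∀ K : El (pow A), (∀ y, ¬ R y → smem y K) → (∀ y, smem y K → smem (f y) K) → smem x K
  have hC : DefP M C := by simp only [C]; fun_prop
  have hC1 : ∀ y, ¬ R y → C y := fun y hy K h1 _ => h1 y hy
  have hC2 : ∀ y, C y → C (f y) := fun y hy K h1 h2 => h2 y (hy K h1 h2)
  have hC3 : ∀ y, C y → ¬ R y ∨ ∃ x, C x ∧ f x = y := by
    intro y hy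
    have h := hy (mkSub (fun y => ¬ R y ∨ ∃ x, C x ∧ f x = y) (by fun_prop)) (by
      intro y hy; rw [smem_mkSub]; exact Or.inl hy) (by
      intro y hy; rw [smem_mkSub] at hy ⊢
      right
      refine ⟨y, ?_, rfl⟩
      rcases hy with hy | ⟨x, hx, rfl⟩
      · exact hC1 y hy
      · exact hC2 x hx)
    rwa [smem_mkSub] at h
  refine ⟨fun x => if C x then f x else x, DefF.cond hC hf DefF_id, ?_, ?_⟩
  · intro x y h
    by_cases hx : C x <;> by_cases hy : C y <;> simp only [hx, hy, if_true, if_false] at h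
    · exact hfi h
    · exact absurd (h ▸ hC2 x hx) hy
    · exact absurd (h ▸ hC2 y hy) hx
    · exact h
  · intro y
    constructor
    · intro hy
      by_cases h : C y
      · rcases hC3 y h with h1 | ⟨x, hx, rfl⟩
        · exact absurd hy h1
        · exact ⟨x, by simp [hx]⟩
      · exact ⟨y, by simp [h]⟩
    · rintro ⟨x, rfl⟩
      by_cases hx : C x
      · simp only [hx, if_true]; exact hfR x
      · simp only [hx, if_false]
        by_contra h
        exact hx (hC1 x h)

end Pool.Agent.Helper79.ZF
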