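import Pool.Agent.Helper79.ZF.ForcingEq

/-!
# Generic chains and generic extensions
-/

namespace Pool.Agent.Helper79.ZF

open FirstOrder Set

variable {M : Type} [Membership M M] [ZFModel M]
variable {α β γ : Type} [Ctx M α] [Ctx M β] [Ctx M γ]

instance : Countable (LSet.Symbols) := by
  unfold Language.Symbols LSet
  have : Countable (Σ l, memRel l) := by
    apply Function.Injective.countable (f := fun (_ : Σ l, memRel l) => ())
    rintro ⟨l, a⟩ ⟨l', b⟩ _
    cases a; cases b; rfl
  infer_instance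

omit [ZFModel M] in
/-- there are only countably many definable predicates over a countable model -/
theorem countable_DefP [Countable M] : Countable {R : α → Prop // DefP M R} := by
  classical
  have h : ∀ R : {R : α → Prop // DefP M R}, ∃ φ : LSet[[(Set.univ : Set M)]].Formula (Ctx.ι M α),
      ∀ a, R.1 a ↔ φ.Realize (Ctx.co a) := by
    rintro ⟨R, hR⟩
    obtain ⟨φ, hφ⟩ := id hR
    refine ⟨φ, fun a => ?_⟩
    show R a ↔ _
    rw [hR.spec, hφ]
    rfl
  choose F hF using h
  have : Countable (Ctx.ι M α) := Finite.to_countable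
  apply Function.Injective.countable (f := F)
  intro R S h
  apply Subtype.ext
  funext a
  exact propext ((hF R a).trans (by rw [h]; exact (hF S a).symm))

namespace FData

/-- A generic chain of conditions. -/
structure GChain (D : FData M) where
  p : ℕ → D.PP
  F : ℕ → ℕ → D.AA
  hF0 : ∀ n, F n n = 1
  hFm : ∀ n m l, n ≤ m → m ≤ l → F n m * F m l = F n l
  hV : ∀ n m, n ≤ m → D.V (p m) (F n m) (p n)
  gen : ∀ n (E : D.PP → D.AA → Prop), DefP M (fun t : D.PP × D.AA => E t.1 t.2) →
    (∀ q g, D.V q g (p n) → ∃ r k, D.V r k q ∧ E r (g * k)) → ∃ m, n ≤ m ∧ E (p m) (F n m)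

theorem exists_GChain [Countable M] (D : FData M) (p0 : D.PP) : ∃ C : GChain D, C.p 0 = p0 := by
  classical
  have hc : Countable {R : D.PP × D.AA → Prop // DefP M R} := countable_DefP
  have hne : Nonempty {R : D.PP × D.AA → Prop // DefP M R} := ⟨⟨fun _ => True, DefP.const _⟩⟩
  obtain ⟨e, he⟩ := exists_surjective_nat {R : D.PP × D.AA → Prop // DefP M R}
  -- one step
  have step : ∀ (m : ℕ) (P : ℕ → D.PP) (C : ℕ → D.AA), ∃ qg : D.PP × D.AA,
      D.V qg.1 qg.2 (P m) ∧ ((∀ q g, D.V q g (P (Nat.unpair m).1) → ∃ r k, D.V r k q ∧ (e (Nat.unpair m).2).1 (r, g * k)) →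
        D.V (P m) (C (Nat.unpair m).1) (P (Nat.unpair m).1) → (e (Nat.unpair m).2).1 (qg.1, C (Nat.unpair m).1 * qg.2)) := by
    intro m P C
    by_cases h : (∀ q g, D.V q g (P (Nat.unpair m).1) → ∃ r k, D.V r k q ∧ (e (Nat.unpair m).2).1 (r, g * k)) ∧
        D.V (P m) (C (Nat.unpair m).1) (P (Nat.unpair m).1)
    · obtain ⟨r, k, h1, h2⟩ := h.1 _ _ h.2
      exact ⟨(r, k), h1, fun _ _ => h2⟩
    · exact ⟨(P m, 1), D.V_one _, fun h1 h2 => absurd ⟨h1, h2⟩ h⟩
  choose nx hnx1 hnx2 using step
  -- states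
  let st : ℕ → (ℕ → D.PP) × (ℕ → D.AA) := fun m => Nat.rec (fun _ => p0, fun _ => 1)
    (fun m s => (Function.update s.1 (m+1) (nx m s.1 s.2).1,
      fun n => if n ≤ m then s.2 n * (nx m s.1 s.2).2 else 1)) m
  have st_succ : ∀ m, st (m+1) = (Function.update (st m).1 (m+1) (nx m (st m).1 (st m).2).1,
      fun n => if n ≤ m then (st m).2 n * (nx m (st m).1 (st m).2).2 else 1) := fun m => rfl
  -- history is stable
  have hist : ∀ m n, n ≤ m → (st m).1 n = (st n).1 n := by
    intro m
    induction m with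
    | zero => intro n hn; obtain rfl : n = 0 := by omega
              rfl
    | succ m ih =>
      intro n hn
      rcases Nat.lt_or_ge m n with h | h
      · obtain rfl : n = m + 1 := by omega
        rfl
      · rw [st_succ]
        simp only
        rw [Function.update_of_ne (by omega)]
        exact ih n h
  set p : ℕ → D.PP := fun m => (st m).1 m with hp
  set g : ℕ → D.AA := fun m => (nx m (st m).1 (st m).2).2 with hg
  have hpsucc : ∀ m, p (m+1) = (nx m (st m).1 (st m).2).1 := by
    intro m
    simp only [hp]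
    rw [st_succ]
    simp
  have hVs : ∀ m, D.V (p (m+1)) (g m) (p m) := by
    intro m
    rw [hpsucc]
    exact hnx1 m (st m).1 (st m).2
  -- composites
  let F : ℕ → ℕ → D.AA := fun n m => (st m).2 n
  have hF0 : ∀ n, F n n = 1 := by
    intro n
    cases n with
    | zero => rfl
    | succ n => simp only [F]; rw [st_succ]; simp
  have hFs : ∀ n m, n ≤ m → F n (m+1) = F n m * g m := by
    intro n m h
    simp only [F]
    rw [st_succ]
    simp only [if_pos h]
    rfl
  have hFV : ∀ n m, n ≤ m → D.V (p m) (F n m) (p n) := by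
    intro n m h
    induction m, h using Nat.le_induction with
    | base => rw [hF0]; exact D.V_one _
    | succ m hm ih => rw [hFs n m hm]; exact D.V_mul (hVs m) ih
  refine ⟨⟨p, F, hF0, ?_, hFV, ?_⟩, rfl⟩
  · intro n m l h1 h2
    induction l, h2 using Nat.le_induction with
    | base => rw [hF0, mul_one]
    | succ l hl ih => rw [hFs m l hl, hFs n l (h1.trans hl), ← mul_assoc, ih]
  · intro n E hE hd
    obtain ⟨j, hj⟩ := he ⟨fun t => E t.1 t.2, hE⟩
    have hun : Nat.unpair (Nat.pair n j) = (n, j) := Nat.unpair_pair n j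
    have hle : n ≤ Nat.pair n j := Nat.left_le_pair n j
    refine ⟨Nat.pair n j + 1, by omega, ?_⟩
    have h1 := hnx2 (Nat.pair n j) (st (Nat.pair n j)).1 (st (Nat.pair n j)).2
    rw [hun] at h1
    simp only [hj] at h1
    rw [hist _ n hle] at h1
    have h2 := h1 hd (hFV n _ hle)
    rw [hpsucc, hFs n _ hle]
    exact h2

end FData

end Pool.Agent.Helper79.ZF
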