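import Pool.Agent.Helper79.ZF.Names

/-!
# The group in the extension and its invariant ultrafilter
-/

namespace Pool.Agent.Helper79.ZF

open FirstOrder Set

variable {M : Type} [Membership M M] [ZFModel M]
variable {α β γ : Type} [Ctx M α] [Ctx M β] [Ctx M γ]

namespace FData

variable {D : FData M}

/-- name of an unordered pair -/
noncomputable def pairN (X Y : D.VN) : M := D.mkName (upair X.1 Y.1)
  (fun _ f τ c => (τ = X.1 ∧ c = X.2 * f) ∨ (τ = Y.1 ∧ c = Y.2 * f))

@[fun_prop]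
theorem pairN_def {X Y : α → D.VN} (hX : DefF M X) (hY : DefF M Y) : DefF M (fun a => pairN (X a) (Y a)) := by
  unfold pairN; fun_prop

theorem NElt_pairN {X Y Z : D.VN} {q : D.PP} {a : D.AA} : NElt q Z (pairN X Y, a) ↔ (Z = ren X a ∨ Z = ren Y a) := by
  have h := NElt_mkName (D := D) (D0 := upair X.1 Y.1) (S := fun _ f τ c => (τ = X.1 ∧ c = X.2 * f) ∨ (τ = Y.1 ∧ c = Y.2 * f))
    (by fun_prop) (by
      rintro p q f g τ c _ (⟨h1, h2⟩ | ⟨h1, h2⟩)
      · exact Or.inl ⟨h1, by rw [h2, mul_assoc]⟩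
      · exact Or.inr ⟨h1, by rw [h2, mul_assoc]⟩) (q := q) (X := Z) (a := a) (k := 1)
  have h' : NElt q Z (pairN X Y, a) ↔ NElt q Z (ren (pairN X Y, a) 1) := by rw [ren_one]
  rw [h']
  refine h.trans ?_
  rw [mul_one]
  constructor
  · rintro ⟨_, ⟨h1, h2⟩ | ⟨h1, h2⟩⟩
    · left; exact Prod.ext h1 h2
    · right; exact Prod.ext h1 h2
  · rintro (rfl | rfl)
    · exact ⟨by simp, Or.inl ⟨rfl, rfl⟩⟩
    · exact ⟨by simp, Or.inr ⟨rfl, rfl⟩⟩

theorem val_pairN {C : GChain D} {n : ℕ} {X Y : D.VN} {a : D.AA} :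
    val C n (pairN X Y, a) = upair (val C n (ren X a)) (val C n (ren Y a)) := by
  apply ext'
  intro z
  rw [mem_upair, mem_val]
  constructor
  · rintro ⟨m, hm, Z, h1, rfl⟩
    unfold ren at h1
    rw [NElt_pairN] at h1
    rcases h1 with rfl | rfl
    · left
      rw [← ren_ren]; exact val_ren hm _
    · right
      rw [← ren_ren]; exact val_ren hm _
  · rintro (rfl | rfl)
    · refine ⟨n, le_refl _, ren X a, ?_, rfl⟩
      rw [C.hF0, ren_one, NElt_pairN]
      exact Or.inl rfl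
    · refine ⟨n, le_refl _, ren Y a, ?_, rfl⟩
      rw [C.hF0, ren_one, NElt_pairN]
      exact Or.inr rfl

/-- name of an ordered pair -/
noncomputable def opairN (X Y : D.VN) : M := pairN (D := D) (pairN X X, 1) (pairN X Y, 1)

@[fun_prop]
theorem opairN_def {X Y : α → D.VN} (hX : DefF M X) (hY : DefF M Y) : DefF M (fun a => opairN (X a) (Y a)) := by
  unfold opairN; fun_prop

theorem val_opairN {C : GChain D} {n : ℕ} {X Y : D.VN} {a : D.AA} :
    val C n (opairN X Y, a) = opair (val C n (ren X a)) (val C n (ren Y a)) := by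
  unfold opairN
  rw [val_pairN]
  unfold ren
  rw [one_mul, val_pairN, val_pairN]
  rfl

end FData

open FData

variable (M) in
/-- the name of the group -/
noncomputable def GGn : M := (DZ M).fullName (repE (A := SZ M) lmb)

variable (C : GChain (DZ M))

/-- the underlying set of the group in the extension -/
noncomputable def GS : Ext C := val C 0 (GGn M, 1)

variable {C}

theorem mem_GS {z : Ext C} : z ∈ GS C ↔ ∃ m g, z = Lam C m g := by
  unfold GS GGn
  rw [mem_full]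
  constructor
  · rintro ⟨m, _, ⟨τ, a⟩, h1, rfl⟩
    rw [mem_repE (by fun_prop)] at h1
    obtain ⟨g, h1⟩ := h1
    simp only at h1
    subst h1
    exact ⟨m, _, val_lmb _ _ _⟩
  · rintro ⟨m, g, rfl⟩
    exact ⟨m, Nat.zero_le _, (lmb g, 1), (mem_repE (by fun_prop)).2 ⟨g, rfl⟩, rfl⟩

theorem Lam_mem_GS (m : ℕ) (g : El (SZ M)) : Lam C m g ∈ GS C := mem_GS.2 ⟨m, g, rfl⟩

/-- the group element `g` of stage `n` -/
noncomputable def LamE (C : GChain (DZ M)) (n : ℕ) (g : El (SZ M)) : El (GS C) := El.mk (Lam C n g) (Lam_mem_GS n g)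

@[simp] theorem LamE_v (n : ℕ) (g : El (SZ M)) : (LamE C n g).v = Lam C n g := rfl

theorem LamE_inj {n : ℕ} {g h : El (SZ M)} : LamE C n g = LamE C n h ↔ g = h := by
  constructor
  · intro e
    have e' := congrArg El.v e
    exact Lam_inj e'
  · rintro rfl; rfl

theorem LamE_shift {n m : ℕ} (h : n ≤ m) (g : El (SZ M)) : LamE C n g = LamE C m (push (au (C.F n m)) g) :=
  El.ext (Lam_shift h g)

theorem LamE_surj (z : El (GS C)) (k : ℕ) : ∃ m, k ≤ m ∧ ∃ g, z = LamE C m g := by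
  obtain ⟨m, g, h⟩ := mem_GS.1 z.mem
  refine ⟨max k m, le_max_left _ _, push (au (C.F m (max k m))) g, ?_⟩
  rw [← LamE_shift (le_max_right _ _)]
  exact El.ext h

theorem LamE_surj2 (z w : El (GS C)) (k : ℕ) : ∃ m, k ≤ m ∧ ∃ g h, z = LamE C m g ∧ w = LamE C m h := by
  obtain ⟨n, hn, g, rfl⟩ := LamE_surj z k
  obtain ⟨m, hm, h, rfl⟩ := LamE_surj w n
  exact ⟨m, hn.trans hm, _, h, LamE_shift hm g, rfl⟩

theorem exists_gmul (z w : El (GS C)) : ∃ y : El (GS C), ∃ m g h, z = LamE C m g ∧ w = LamE C m h ∧ y = LamE C m (g * h) := by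
  obtain ⟨m, _, g, h, h1, h2⟩ := LamE_surj2 z w 0
  exact ⟨_, m, g, h, h1, h2, rfl⟩

/-- multiplication -/
noncomputable def gmul (z w : El (GS C)) : El (GS C) := (exists_gmul z w).choose

theorem gmul_eq (n : ℕ) (g h : El (SZ M)) : gmul (LamE C n g) (LamE C n h) = LamE C n (g * h) := by
  obtain ⟨m, g', h', e1, e2, e3⟩ := (exists_gmul (LamE C n g) (LamE C n h)).choose_spec
  unfold gmul
  rw [e3, LamE_shift (le_max_left m n) (g' * h'), LamE_shift (le_max_right m n) (g * h)]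
  rw [LamE_shift (le_max_left m n) g', LamE_shift (le_max_right m n) g, LamE_inj] at e1
  rw [LamE_shift (le_max_left m n) h', LamE_shift (le_max_right m n) h, LamE_inj] at e2
  rw [push_mul, push_mul, e1, e2]

theorem exists_ginv (z : El (GS C)) : ∃ y : El (GS C), ∃ m g, z = LamE C m g ∧ y = LamE C m g⁻¹ := by
  obtain ⟨m, _, g, h1⟩ := LamE_surj z 0
  exact ⟨_, m, g, h1, rfl⟩

/-- inversion -/
noncomputable def ginv (z : El (GS C)) : El (GS C) := (exists_ginv z).choose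

theorem ginv_eq (n : ℕ) (g : El (SZ M)) : ginv (LamE C n g) = LamE C n g⁻¹ := by
  obtain ⟨m, g', e1, e2⟩ := (exists_ginv (LamE C n g)).choose_spec
  unfold ginv
  rw [e2, LamE_shift (le_max_left m n) (g'⁻¹), LamE_shift (le_max_right m n) (g⁻¹)]
  rw [LamE_shift (le_max_left m n) g', LamE_shift (le_max_right m n) g, LamE_inj] at e1
  rw [push_inv, push_inv, e1]

theorem LamE_one (n : ℕ) : LamE C n 1 = LamE C 0 1 := by
  rw [LamE_shift (Nat.zero_le n) 1, push_one]

noncomputable instance groupGS : Group (El (GS C)) where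
  mul := gmul
  one := LamE C 0 1
  inv := ginv
  mul_assoc x y z := by
    obtain ⟨n, _, a, b, rfl, rfl⟩ := LamE_surj2 x y 0
    obtain ⟨m, hm, c, rfl⟩ := LamE_surj z n
    rw [LamE_shift hm a, LamE_shift hm b]
    show gmul (gmul _ _) _ = gmul _ (gmul _ _)
    rw [gmul_eq, gmul_eq, gmul_eq, gmul_eq, mul_assoc]
  one_mul x := by
    obtain ⟨n, _, a, rfl⟩ := LamE_surj x 0
    show gmul (LamE C 0 1) _ = _
    rw [← LamE_one n, gmul_eq, one_mul]
  mul_one x := by
    obtain ⟨n, _, a, rfl⟩ := LamE_surj x 0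
    show gmul _ (LamE C 0 1) = _
    rw [← LamE_one n, gmul_eq, mul_one]
  inv_mul_cancel x := by
    obtain ⟨n, _, a, rfl⟩ := LamE_surj x 0
    show gmul (ginv _) _ = LamE C 0 1
    rw [← LamE_one n, ginv_eq, gmul_eq, inv_mul_cancel]

theorem LamE_mul (n : ℕ) (g h : El (SZ M)) : LamE C n g * LamE C n h = LamE C n (g * h) := gmul_eq n g h

theorem LamE_inv (n : ℕ) (g : El (SZ M)) : (LamE C n g)⁻¹ = LamE C n g⁻¹ := ginv_eq n g

variable (M) in
/-- name of the multiplication table -/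
noncomputable def MulN : M := (DZ M).fullName (repE (A := prodS (SZ M) (SZ M)) (fun t => opairN (D := DZ M)
  (opairN (D := DZ M) (lmb (pr1 t), 1) (lmb (pr2 t), 1), 1) (lmb (pr1 t * pr2 t), 1)))

variable (C) in
/-- the multiplication table -/
noncomputable def MulT : Ext C := val C 0 (MulN M, 1)

theorem mem_MulT {z : Ext C} : z ∈ MulT C ↔ ∃ x y : El (GS C), z = opair (opair x.v y.v) (x * y).v := by
  have key : ∀ m (a : (DZ M).AA) (g h : El (SZ M)), val C m (opairN (D := DZ M)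
      (opairN (D := DZ M) (lmb g, 1) (lmb h, 1), 1) (lmb (g * h), 1), a) =
      opair (opair (LamE C m (push (au a) g)).v (LamE C m (push (au a) h)).v) (LamE C m (push (au a) g) * LamE C m (push (au a) h)).v := by
    intro m a g h
    rw [val_opairN]
    unfold ren
    simp only [one_mul]
    rw [val_opairN]
    unfold ren
    simp only [one_mul]
    rw [val_lmb, val_lmb, val_lmb, LamE_mul, push_mul]
    rfl
  unfold MulT MulN
  rw [mem_full]
  constructor
  · rintro ⟨m, _, ⟨τ, a⟩, h1, rfl⟩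
    rw [mem_repE (by fun_prop)] at h1
    obtain ⟨t, h1⟩ := h1
    simp only at h1
    rw [h1, key]
    exact ⟨_, _, rfl⟩
  · rintro ⟨x, y, rfl⟩
    obtain ⟨m, _, g, h, rfl, rfl⟩ := LamE_surj2 x y 0
    refine ⟨m, Nat.zero_le _, (opairN (D := DZ M) (opairN (D := DZ M) (lmb g, 1) (lmb h, 1), 1) (lmb (g * h), 1), 1),
      (mem_repE (by fun_prop)).2 ⟨mkp g h, by rw [pr1_mkp, pr2_mkp]⟩, ?_⟩
    rw [key, au_oneD, push_iid, push_iid]

theorem mul_iff {x y z : El (GS C)} : x * y = z ↔ opair (opair x.v y.v) z.v ∈ MulT C := by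
  rw [mem_MulT]
  constructor
  · rintro rfl; exact ⟨x, y, rfl⟩
  · rintro ⟨x', y', h⟩
    simp only [opair_inj] at h
    obtain ⟨⟨h1, h2⟩, h3⟩ := h
    rw [El.ext h1, El.ext h2]
    exact (El.ext h3).symm

theorem gmul_def : DefF (Ext C) (fun p : El (GS C) × El (GS C) => p.1 * p.2) := by
  apply DefF_of (R := fun p z => opair (opair p.1.v p.2.v) z.v ∈ MulT C) (by fun_prop)
  intro p z
  exact mul_iff

/-! ### the ultrafilter -/

/-- `X` contains all generic elements, as forced by `q` -/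
def Large (q : (DZ M).PP) (X : (DZ M).VN) : Prop := ∀ (r : (DZ M).PP) (k : (DZ M).AA), (DZ M).V r k q →
  ∀ g : El (SZ M), Gen (au k) g → NMem (D := DZ M) r (lmb g, 1) (ren X k)

/-- `X` contains no generic elements, as forced by `q` -/
def LargeC (q : (DZ M).PP) (X : (DZ M).VN) : Prop := ∀ (r : (DZ M).PP) (k : (DZ M).AA), (DZ M).V r k q →
  ∀ g : El (SZ M), Gen (au k) g → ¬ NMem (D := DZ M) r (lmb g, 1) (ren X k)

@[fun_prop]
theorem Large_def {q : α → (DZ M).PP} {X : α → (DZ M).VN} (hq : DefF M q) (hX : DefF M X) :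
    DefP M (fun a => Large (q a) (X a)) := by
  unfold Large; fun_prop

@[fun_prop]
theorem LargeC_def {q : α → (DZ M).PP} {X : α → (DZ M).VN} (hq : DefF M q) (hX : DefF M X) :
    DefP M (fun a => LargeC (q a) (X a)) := by
  unfold LargeC; fun_prop

theorem Large.mono {q r : (DZ M).PP} {k : (DZ M).AA} {X : (DZ M).VN} (h : Large q X) (hr : (DZ M).V r k q) :
    Large r (ren X k) := by
  intro r' k' hr' g hg
  rw [ren_ren]
  apply h r' (k * k') ((DZ M).V_mul hr' hr)
  rw [au_mul]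
  exact hg.mono _

theorem Large.congr {q : (DZ M).PP} {X X' : (DZ M).VN} (h : Large q X) (he : NEq q X X') : Large q X' := by
  intro r k hr g hg
  exact (h r k hr g hg).congr_right (he.mono hr)

theorem NEq_ren_lmb (q : (DZ M).PP) (g : El (SZ M)) (a b : (DZ M).AA) :
    NEq (D := DZ M) q (ren (lmb g, a) b) (lmb (push (au (a * b)) g), 1) := NEq_lmb q g (a * b)

theorem decide_large (p : (DZ M).PP) (X : (DZ M).VN) : ∃ q, (DZ M).V q 1 p ∧ (Large q X ∨ LargeC q X) := by
  obtain ⟨u, g0, hg0⟩ := exists_Gen (M := M)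
  -- restriction of a condition
  have restr : ∀ (r : (DZ M).PP) (k : (DZ M).AA), (DZ M).V r k p →
      ∃ q, (DZ M).V q 1 p ∧ (DZ M).V r k q ∧ pm q = pm r := by
    intro r k hr
    obtain ⟨h1, h2, h3⟩ := hr
    refine ⟨mkP (pa p) (by fun_prop) (pm r) (fun i => ps r (ia (av k) i)) (by fun_prop), ⟨?_, ?_, ?_⟩, ⟨?_, ?_, ?_⟩, ?_⟩
    · intro i
      rw [pa_mkP, av_oneD, au_oneD, ia_iid, push_iid]
    · intro n hn
      rw [pm_mkP]; exact h2 n hn
    · intro n hn i
      rw [ps_mkP, av_oneD, ia_iid, h3 n hn]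
    · intro i
      rw [pa_mkP, h1]
    · intro n hn
      rwa [pm_mkP] at hn
    · intro n _ i
      rw [ps_mkP]
    · rw [pm_mkP]
  -- a condition with a generic permutation
  let r0 : (DZ M).PP := mkP (fun i => push u (pa p i)) (by fun_prop) (pm p) (ps p) (by fun_prop)
  let k0 : (DZ M).AA := mkA u iid
  have hr0 : (DZ M).V r0 k0 p := by
    refine ⟨?_, ?_, ?_⟩
    · intro i
      simp only [r0, k0]
      rw [pa_mkP, av_mkA, au_mkA, ia_iid]
    · intro n hn
      simp only [r0]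
      rw [pm_mkP]; exact hn
    · intro n _ i
      simp only [r0, k0]
      rw [ps_mkP, av_mkA, ia_iid]
  have hk0 : Gen (au k0) g0 := by simp only [k0]; rw [au_mkA]; exact hg0
  clear_value r0 k0
  by_cases hc : ∃ r k, (DZ M).V r k r0 ∧ NMem (D := DZ M) r (lmb g0, k) (ren X (k0 * k))
  · obtain ⟨r, k, hr, h1⟩ := hc
    have hg : Gen (au (k0 * k)) (push (au k) g0) := by
      rw [au_mul]; exact hk0.push
    have h2 : NMem (D := DZ M) r (lmb (push (au k) g0), 1) (ren X (k0 * k)) := h1.congr_left (NEq_lmb _ _ _)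
    have hrp := (DZ M).V_mul hr hr0
    generalize push (au k) g0 = g at hg h2
    generalize k0 * k = K at hg h2 hrp
    obtain ⟨q, hq1, hq2, hq3⟩ := restr r K hrp
    refine ⟨q, hq1, Or.inl ?_⟩
    intro r' k' hr' g' hg'
    apply NMem.dense
    intro s f hs
    obtain ⟨t, l, l', ht, ht', e1, e2⟩ := amalg hq2 ((DZ M).V_mul hs hr') hq3 hg (by rw [au_mul]; exact hg'.push (k := au f))
    refine ⟨t, l', ht', ?_⟩
    have h3 := h2.mono ht
    have h4 := h3.congr_left (NEq_ren_lmb t g 1 l)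
    simp only [ren_ren]
    rw [ren_ren, e1] at h4
    refine h4.congr_left ?_
    have h5 := (NEq_ren_lmb t g' 1 (f * l')).symm
    rw [one_mul] at h5 ⊢
    rw [au_mul, push_comp] at h5
    rw [e2]
    exact h5
  · push Not at hc
    obtain ⟨q, hq1, hq2, hq3⟩ := restr r0 k0 hr0
    refine ⟨q, hq1, Or.inr ?_⟩
    intro r' k' hr' g' hg' hn
    obtain ⟨t, l, l', ht, ht', e1, e2⟩ := amalg hq2 hr' hq3 hk0 hg'
    apply hc t l ht
    have h3 := (hn.mono ht').congr_left (NEq_ren_lmb t g' 1 l')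
    rw [ren_ren, ← e1, one_mul, ← e2] at h3
    exact h3.congr_left (NEq_lmb t g0 l).symm

/-- `S` contains all sufficiently generic elements -/
def EvG (S : Ext C) : Prop := ∃ m, ∀ l, m ≤ l → ∀ g, Gen (au (C.F m l)) g → Lam C l g ∈ S

/-- `S` contains no sufficiently generic elements -/
def EvN (S : Ext C) : Prop := ∃ m, ∀ l, m ≤ l → ∀ g, Gen (au (C.F m l)) g → ¬ Lam C l g ∈ S

variable (C) in
theorem exists_gen_late (m : ℕ) : ∃ l, m ≤ l ∧ ∃ g, Gen (au (C.F m l)) g := by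
  obtain ⟨l, hl, g, hg⟩ := C.gen m (fun q f => ∃ g, Gen (au f) g) (by fun_prop) (by
    intro q f _
    obtain ⟨u, g0, hg0⟩ := exists_Gen (M := M)
    refine ⟨mkP (fun i => push u (pa q i)) (by fun_prop) (pm q) (ps q) (by fun_prop), mkA u iid, ⟨?_, ?_, ?_⟩, g0, ?_⟩
    · intro i
      rw [pa_mkP, av_mkA, au_mkA, ia_iid]
    · intro n hn
      rw [pm_mkP]; exact hn
    · intro n _ i
      rw [ps_mkP, av_mkA, ia_iid]
    · rw [au_mul, au_mkA]; exact hg0.mono _)
  exact ⟨l, hl, g, hg⟩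

theorem EvG_of_Large {m : ℕ} {X : (DZ M).VN} (h : Large (C.p m) X) : EvG (val C m X) := by
  refine ⟨m, fun l hl g hg => ?_⟩
  rw [← val_ren hl]
  exact val_mem_of_NMem (h _ _ (C.hV m l hl) g hg)

theorem EvN_of_LargeC {m : ℕ} {X : (DZ M).VN} (h : LargeC (C.p m) X) : EvN (val C m X) := by
  refine ⟨m, fun l hl g hg hn => ?_⟩
  rw [← val_ren hl, Lam, val_mem] at hn
  obtain ⟨l', hl', hn⟩ := hn
  rw [C.F_comp hl hl'] at hn
  have h1 := hn.congr_left (NEq_ren_lmb _ _ _ _)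
  refine h _ _ (C.hV m l' (hl.trans hl')) _ ?_ h1
  rw [one_mul, ← C.hFm _ _ _ hl hl', au_mul]
  exact hg.push

theorem large_dichotomy (n : ℕ) (X : (DZ M).VN) :
    (∃ m, n ≤ m ∧ Large (C.p m) (ren X (C.F n m))) ∨ ∃ m, n ≤ m ∧ LargeC (C.p m) (ren X (C.F n m)) := by
  obtain ⟨m, hm, h⟩ := C.gen n (fun q f => Large q (ren X f) ∨ LargeC q (ren X f)) (by fun_prop) (by
    intro q f _
    obtain ⟨r, hr, h⟩ := decide_large q (ren X f)
    exact ⟨r, 1, hr, by rw [mul_one]; exact h⟩)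
  rcases h with h | h
  · exact Or.inl ⟨m, hm, h⟩
  · exact Or.inr ⟨m, hm, h⟩

theorem EvG_or_EvN (S : Ext C) : EvG S ∨ EvN S := by
  obtain ⟨n, X, rfl⟩ := exists_val S
  rcases large_dichotomy (C := C) n X with ⟨m, hm, h⟩ | ⟨m, hm, h⟩
  · left
    rw [← val_ren hm]
    exact EvG_of_Large h
  · right
    rw [← val_ren hm]
    exact EvN_of_LargeC h

theorem EvG.not_EvN {S : Ext C} (h : EvG S) (h' : EvN S) : False := by
  obtain ⟨m, h⟩ := h
  obtain ⟨m', h'⟩ := h'
  obtain ⟨l, hl, g, hg⟩ := exists_gen_late C (max m m')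
  have h1 := h l ((le_max_left m m').trans hl) g (by
    rw [← C.hFm _ _ _ (le_max_left m m') hl, au_mul]; exact hg.mono _)
  have h2 := h' l ((le_max_right m m').trans hl) g (by
    rw [← C.hFm _ _ _ (le_max_right m m') hl, au_mul]; exact hg.mono _)
  exact h2 h1

variable (M) in
/-- bound for names of subsets of the group -/
noncomputable def UDom : M := pow (prodS (prodS (DZ M).P (DZ M).A) (prodS ((DZ M).dom (GGn M)) (DZ M).A))

variable (M) in
/-- name of the ultrafilter -/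
noncomputable def UUn : M := (DZ M).mkName (UDom M) (fun q _ τ c => Large q (τ, c))

theorem exists_U (C : GChain (DZ M)) : ∃ U : Ext C, ∀ S : Ext C, S ∈ U ↔ ((∀ z : Ext C, z ∈ S → z ∈ GS C) ∧ EvG S) := by
  have hm : ∀ (p q : (DZ M).PP) (f g : (DZ M).AA) (τ : M) (c : (DZ M).AA), (DZ M).V q g p → Large p (τ, c) → Large q (τ, c * g) := by
    intro p q f g τ c hq h
    exact h.mono hq
  have hU : ∀ S : Ext C, S ∈ val C 0 (UUn M, 1) ↔ ∃ m Z, Z.1 ∈ UDom M ∧ Large (C.p m) Z ∧ S = val C m Z := by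
    intro S
    rw [mem_val]
    unfold UUn
    constructor
    · rintro ⟨m, _, Z, h1, h2⟩
      rw [NElt_mkName (by fun_prop) (fun p q f g τ c hq h => hm p q f g τ c hq h)] at h1
      exact ⟨m, Z, h1.1, h1.2, h2⟩
    · rintro ⟨m, Z, h1, h2, h3⟩
      refine ⟨m, Nat.zero_le _, Z, ?_, h3⟩
      rw [NElt_mkName (by fun_prop) (fun p q f g τ c hq h => hm p q f g τ c hq h)]
      exact ⟨h1, h2⟩
  obtain ⟨U, h⟩ := ext_sepP C (R := fun S => ∀ z : Ext C, z ∈ S → z ∈ GS C) (by fun_prop) (val C 0 (UUn M, 1))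
  refine ⟨U, fun S => ?_⟩
  rw [h]
  constructor
  · rintro ⟨h1, h2⟩
    obtain ⟨m, Z, _, h3, rfl⟩ := (hU S).1 h1
    exact ⟨h2, EvG_of_Large h3⟩
  · rintro ⟨h1, h2⟩
    refine ⟨?_, h1⟩
    rw [hU]
    -- a representation by a large name
    obtain ⟨m, X, hX, hS⟩ : ∃ m X, Large (C.p m) X ∧ S = val C m X := by
      obtain ⟨n, X, hS⟩ := exists_val S
      rcases large_dichotomy (C := C) n X with ⟨m, hm', h'⟩ | ⟨m, hm', h'⟩
      · exact ⟨m, _, h', by rw [val_ren hm', hS]⟩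
      · exfalso
        have := EvN_of_LargeC h'
        rw [val_ren hm', ← hS] at this
        exact h2.not_EvN this
    have hS1 : (Set.univ : Set (Ext C)).Definable₁ LSet {w | w ∈ S} := by
      have h := Set.Definable.preimage_comp (fun _ : Unit => (0 : Fin 1)) (DS_memc (M := Ext C) () S)
      exact h
    obtain ⟨n, Y, _, h3, h4⟩ := ext_sep_aux C hS1 0 (GGn M, 1)
    have h5 : val C n (Y, 1) = S := by
      apply ext_ext
      intro z
      rw [h4]
      exact ⟨fun h => h.2, fun h => ⟨h1 z h, h⟩⟩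
    rw [hS, val_eq_iff] at h5
    obtain ⟨k, hk1, hk2, h6⟩ := h5
    refine ⟨k, ren (Y, 1) (C.F n k), mem_pow.2 h3, ?_, ?_⟩
    · exact (hX.mono (C.hV m k hk2)).congr h6.symm
    · rw [hS, ← val_ren hk2]
      exact (val_eq_of_NEq h6).symm

end Pool.Agent.Helper79.ZF
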