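import Pool.Agent.Helper79.ZF.OrdField

/-!
# The ordered field of rational numbers of a model
-/

namespace Pool.Agent.Helper79.ZF

open FirstOrder Set

variable {M : Type} [Membership M M] [ZFModel M]
variable {α β γ : Type} [Ctx M α] [Ctx M β] [Ctx M γ]

section Inj
variable {K B : Type} [Ctx M B] (e : K → B) (he : Function.Injective e) (hr : DefP M (fun b => ∃ k, e k = b))

/-- context structure on a type given by an injection with definable range -/
@[reducible]
noncomputable def ctxInj : Ctx M K where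
  ι := Ctx.ι M B
  fin := inferInstance
  co k := Ctx.co (e k)
  inj := fun x y h => he (Ctx.inj h)
  ran := by
    unfold DefP at hr
    convert hr using 1
    ext v
    simp only [Set.mem_range, Set.mem_ofPred_eq]
    constructor
    · rintro ⟨k, rfl⟩
      exact ⟨e k, rfl, k, rfl⟩
    · rintro ⟨b, rfl, k, rfl⟩
      exact ⟨k, rfl⟩

theorem ctxInj_e : @DefF M _ K B (ctxInj e he hr) _ e := by
  let _ : Ctx M K := ctxInj e he hr
  have h : DefP M (fun p : B × B => p.1 = p.2) := by fun_prop
  exact DefP_of (α := K × B) h (fun p => by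
    constructor
    · intro h
      refine ⟨(e p.1, p.2), ?_, h⟩
      funext i; rcases i with i | i <;> rfl
    · rintro ⟨⟨a, b⟩, h1, h2⟩
      have e1 : a = e p.1 := Ctx.inj (M := M) (by funext i; exact congrFun h1 (Sum.inl i))
      have e2 : b = p.2 := Ctx.inj (M := M) (by funext i; exact congrFun h1 (Sum.inr i))
      rw [← e1, ← e2]; exact h2)

theorem ctxInj_of {F : α → K} (h : DefF M (fun a => e (F a))) : @DefF M _ α K _ (ctxInj e he hr) F := by
  let _ : Ctx M K := ctxInj e he hr
  have h1 : DefF M e := ctxInj_e e he hr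
  have h2 : DefP M (fun p : α × K => e (F p.1) = e p.2) :=
    DefP.eq (DefF_comp (g := fun a => e (F a)) h DefF_fst) (DefF_comp h1 DefF_snd)
  exact h2.congr (fun p => he.eq_iff)

end Inj

section Surj
variable {A : M} {K : Type} (π : El A → K) (hs : Function.Surjective π)
  (hk : DefP M (fun p : El A × El A => π p.1 = π p.2))

include hs hk in
theorem ker_def (k : K) : DefP M (fun a : El A => π a = k) := by
  obtain ⟨a0, rfl⟩ := hs k
  exact DefP_comp (R := fun p : El A × El A => π p.1 = π p.2) hk (f := fun a => (a, a0)) (by fun_prop)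

/-- the class of preimages -/
noncomputable def cls (k : K) : El (pow A) := mkSub (fun a => π a = k) (ker_def π hs hk k)

theorem smem_cls {a : El A} {k : K} : smem a (cls π hs hk k) ↔ π a = k := by
  unfold cls; rw [smem_mkSub]

theorem cls_inj : Function.Injective (cls π hs hk) := by
  intro k k' h
  obtain ⟨a, rfl⟩ := hs k
  have h1 : smem a (cls π hs hk (π a)) := (smem_cls π hs hk).2 rfl
  rw [h] at h1
  exact (smem_cls π hs hk).1 h1

theorem cls_range : DefP M (fun b => ∃ k, cls π hs hk k = b) := by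
  have h1 : DefP M (fun b : El (pow A) => ∃ a0 : El A, ∀ a : El A, smem a b ↔ π a = π a0) := by
    have : DefP M (fun p : (El (pow A) × El A) × El A => π p.2 = π p.1.2) :=
      DefP_comp (R := fun p : El A × El A => π p.1 = π p.2) hk (f := fun p : (El (pow A) × El A) × El A => (p.2, p.1.2))
        (by fun_prop)
    fun_prop
  refine h1.congr (fun b => ?_)
  constructor
  · rintro ⟨a0, h⟩
    exact ⟨π a0, sub_ext (fun a => by rw [smem_cls, h])⟩
  · rintro ⟨k, rfl⟩
    obtain ⟨a0, rfl⟩ := hs k
    exact ⟨a0, fun a => smem_cls π hs hk⟩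

/-- context structure on a type given by a surjection with definable kernel -/
@[reducible]
noncomputable def ctxSurj : Ctx M K := ctxInj (cls π hs hk) (cls_inj π hs hk) (cls_range π hs hk)

theorem DefF_surj : @DefF M _ (El A) K _ (ctxSurj π hs hk) π := by
  apply ctxInj_of
  apply DefF_of (R := fun a b => ∀ a', smem a' b ↔ π a' = π a)
  · have : DefP M (fun p : (El A × El (pow A)) × El A => π p.2 = π p.1.1) :=
      DefP_comp (R := fun p : El A × El A => π p.1 = π p.2) hk (f := fun p : (El A × El (pow A)) × El A => (p.2, p.1.1))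
        (by fun_prop)
    fun_prop
  · intro a b
    constructor
    · rintro rfl a'; exact smem_cls π hs hk
    · intro h; exact sub_ext (fun a' => by rw [smem_cls, h])

end Surj

theorem DefP_lift {K : Type} [Ctx M K] {π : α → K} (hs : Function.Surjective π) (hπ : DefF M π) {R : K → Prop}
    (h : DefP M (fun t => R (π t))) : DefP M R := by
  have h2 : DefP M (fun q : K × α => R (π q.2)) := DefP_comp (R := fun t => R (π t)) h DefF_snd
  have h3 : DefF M (fun q : K × α => π q.2) := DefF_comp hπ DefF_snd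
  have h4 : DefP M (fun q : K × α => π q.2 = q.1) := DefP.eq h3 DefF_fst
  refine (DefP.ex (R := fun k t => π t = k ∧ R (π t)) (DefP.and h4 h2)).congr (fun k => ?_)
  constructor
  · rintro ⟨t, rfl, h⟩; exact h
  · intro h
    obtain ⟨t, rfl⟩ := hs k
    exact ⟨t, rfl, h⟩

theorem DefF_lift {K : Type} [Ctx M K] {π : α → K} (hs : Function.Surjective π) (hπ : DefF M π) {F : K → β}
    (h : DefF M (fun t => F (π t))) : DefF M F := by
  unfold DefF
  refine DefP_lift (π := fun p : α × β => (π p.1, p.2)) ?_ ?_ h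
  · rintro ⟨k, b⟩
    obtain ⟨t, rfl⟩ := hs k
    exact ⟨(t, b), rfl⟩
  · exact DefF_prod (DefF_comp hπ DefF_fst) DefF_snd

variable (M) in
/-- codes for rational numbers -/
noncomputable def KC : M := prodS (om M) (prodS (om M) (om M))

variable (M) in
/-- the rational numbers of the model -/
abbrev KK : Type := Kf (El (om M))

/-- numerator, positive part -/
noncomputable def ka (t : El (KC M)) : El (om M) := pr1 (B := prodS (om M) (om M)) t
/-- numerator, negative part -/
noncomputable def kb (t : El (KC M)) : El (om M) := pr1 (pr2 (A := om M) (B := prodS (om M) (om M)) t)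
/-- predecessor of the denominator -/
noncomputable def kc (t : El (KC M)) : El (om M) := pr2 (pr2 (A := om M) (B := prodS (om M) (om M)) t)
/-- make a code -/
noncomputable def mkK (a b c : El (om M)) : El (KC M) := mkp a (mkp b c)

@[fun_prop]
theorem ka_def {t : α → El (KC M)} (ht : DefF M t) : DefF M (fun a => ka (t a)) := pr1_def ht
@[fun_prop]
theorem kb_def {t : α → El (KC M)} (ht : DefF M t) : DefF M (fun a => kb (t a)) := by
  have : DefF M (fun a => pr2 (A := om M) (B := prodS (om M) (om M)) (t a)) := pr2_def ht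
  exact pr1_def this
@[fun_prop]
theorem kc_def {t : α → El (KC M)} (ht : DefF M t) : DefF M (fun a => kc (t a)) := by
  have : DefF M (fun a => pr2 (A := om M) (B := prodS (om M) (om M)) (t a)) := pr2_def ht
  exact pr2_def this
@[fun_prop]
theorem mkK_def {a b c : α → El (om M)} (ha : DefF M a) (hb : DefF M b) (hc : DefF M c) :
    DefF M (fun x => mkK (a x) (b x) (c x)) := mkp_def ha (mkp_def hb hc)

@[simp] theorem ka_mkK (a b c : El (om M)) : ka (mkK a b c) = a := pr1_mkp _ _
@[simp] theorem kb_mkK (a b c : El (om M)) : kb (mkK a b c) = b := by unfold kb mkK; rw [pr2_mkp, pr1_mkp]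
@[simp] theorem kc_mkK (a b c : El (om M)) : kc (mkK a b c) = c := by unfold kc mkK; rw [pr2_mkp, pr2_mkp]

/-- the rational number with a given code -/
noncomputable def kpi (t : El (KC M)) : KK M :=
  (kof (El (om M)) (ka t) - kof (El (om M)) (kb t)) / (kof (El (om M)) (kc t) + 1)

theorem kof_succ_pos (c : El (om M)) : 0 < kof (El (om M)) c + 1 := by
  have := kof_nonneg c
  linarith

theorem kpi_surj : Function.Surjective (kpi (M := M)) := by
  intro x
  obtain ⟨a, b, c, hc, rfl⟩ := kof_rep x
  rcases o_cases c with rfl | ⟨d, rfl⟩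
  · exact absurd o0_eq hc
  · refine ⟨mkK a b d, ?_⟩
    unfold kpi
    rw [ka_mkK, kb_mkK, kc_mkK, oS_eq, map_add, map_one]

theorem kpi_eq {s t : El (KC M)} : kpi s = kpi t ↔
    ka s * (kc t + 1) + kb t * (kc s + 1) = ka t * (kc s + 1) + kb s * (kc t + 1) := by
  have h1 := (kof_succ_pos (kc s)).ne'
  have h2 := (kof_succ_pos (kc t)).ne'
  unfold kpi
  rw [div_eq_div_iff h1 h2]
  constructor
  · intro h
    apply kof_inj
    simp only [map_add, map_mul, map_one]
    linear_combination h
  · intro h
    have h := congrArg (kof (El (om M))) h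
    simp only [map_add, map_mul, map_one] at h
    linear_combination h

theorem kpi_ker : DefP M (fun p : El (KC M) × El (KC M) => kpi p.1 = kpi p.2) := by
  have h1 : DefF M (fun _ : El (KC M) × El (KC M) => (1 : El (om M))) := DefF_const _
  simp only [kpi_eq]
  fun_prop

noncomputable instance ctxKK : Ctx M (KK M) := ctxSurj kpi kpi_surj kpi_ker

@[fun_prop]
theorem kpi_def {t : α → El (KC M)} (ht : DefF M t) : DefF M (fun a => kpi (t a)) :=
  DefF_comp (g := kpi) (DefF_surj kpi kpi_surj kpi_ker) ht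

theorem kof_eq_kpi (n : El (om M)) : kof (El (om M)) n = kpi (mkK n 0 0) := by
  unfold kpi
  rw [ka_mkK, kb_mkK, kc_mkK, map_zero]
  simp

@[fun_prop]
theorem kof_def {n : α → El (om M)} (hn : DefF M n) : DefF M (fun a => kof (El (om M)) (n a)) := by
  have h0 : DefF M (fun _ : α => (0 : El (om M))) := DefF_const _
  simp only [kof_eq_kpi]
  fun_prop

theorem kpi2_surj : Function.Surjective (fun p : El (KC M) × El (KC M) => (kpi p.1, kpi p.2)) := by
  rintro ⟨x, y⟩
  obtain ⟨s, rfl⟩ := kpi_surj x
  obtain ⟨t, rfl⟩ := kpi_surj y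
  exact ⟨(s, t), rfl⟩

theorem DefF_liftK2 {F : KK M → KK M → β} (h : DefF M (fun p : El (KC M) × El (KC M) => F (kpi p.1) (kpi p.2))) :
    DefF M (fun p : KK M × KK M => F p.1 p.2) :=
  DefF_lift (π := fun p : El (KC M) × El (KC M) => (kpi p.1, kpi p.2)) kpi2_surj (by fun_prop) h

theorem DefP_liftK2 {R : KK M → KK M → Prop} (h : DefP M (fun p : El (KC M) × El (KC M) => R (kpi p.1) (kpi p.2))) :
    DefP M (fun p : KK M × KK M => R p.1 p.2) :=
  DefP_lift (π := fun p : El (KC M) × El (KC M) => (kpi p.1, kpi p.2)) kpi2_surj (by fun_prop) h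

theorem kadd0 : DefF M (fun p : KK M × KK M => p.1 + p.2) := by
  apply DefF_liftK2 (F := fun x y => x + y)
  have h1 : DefF M (fun _ : El (KC M) × El (KC M) => (1 : El (om M))) := DefF_const _
  have : (fun p : El (KC M) × El (KC M) => kpi p.1 + kpi p.2) = fun p => kpi (mkK
      (ka p.1 * (kc p.2 + 1) + ka p.2 * (kc p.1 + 1)) (kb p.1 * (kc p.2 + 1) + kb p.2 * (kc p.1 + 1))
      (kc p.1 * kc p.2 + kc p.1 + kc p.2)) := by
    funext p
    have h1 := (kof_succ_pos (kc p.1)).ne'
    have h2 := (kof_succ_pos (kc p.2)).ne'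
    have h3 := (kof_succ_pos (kc p.1 * kc p.2 + kc p.1 + kc p.2)).ne'
    unfold kpi
    rw [ka_mkK, kb_mkK, kc_mkK]
    simp only [map_add, map_mul, map_one] at h3 ⊢
    have e : kof (El (om M)) (kc p.1) * kof (El (om M)) (kc p.2) + kof (El (om M)) (kc p.1) + kof (El (om M)) (kc p.2) + 1
      = (kof (El (om M)) (kc p.1) + 1) * (kof (El (om M)) (kc p.2) + 1) := by ring
    rw [e, div_add_div _ _ h1 h2]
    congr 1
    ring
  rw [this]
  fun_prop

@[fun_prop]
theorem kadd_def {x y : α → KK M} (hx : DefF M x) (hy : DefF M y) : DefF M (fun a => x a + y a) :=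
  DefF_comp (g := fun p : KK M × KK M => p.1 + p.2) kadd0 (DefF_prod hx hy)

theorem kmul0 : DefF M (fun p : KK M × KK M => p.1 * p.2) := by
  apply DefF_liftK2 (F := fun x y => x * y)
  have : (fun p : El (KC M) × El (KC M) => kpi p.1 * kpi p.2) = fun p => kpi (mkK
      (ka p.1 * ka p.2 + kb p.1 * kb p.2) (ka p.1 * kb p.2 + kb p.1 * ka p.2)
      (kc p.1 * kc p.2 + kc p.1 + kc p.2)) := by
    funext p
    have h1 := (kof_succ_pos (kc p.1)).ne'
    have h2 := (kof_succ_pos (kc p.2)).ne'
    unfold kpi
    rw [ka_mkK, kb_mkK, kc_mkK]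
    simp only [map_add, map_mul]
    have e : kof (El (om M)) (kc p.1) * kof (El (om M)) (kc p.2) + kof (El (om M)) (kc p.1) + kof (El (om M)) (kc p.2) + 1
      = (kof (El (om M)) (kc p.1) + 1) * (kof (El (om M)) (kc p.2) + 1) := by ring
    rw [e, div_mul_div_comm]
    congr 1
    ring
  rw [this]
  fun_prop

@[fun_prop]
theorem kmul_def {x y : α → KK M} (hx : DefF M x) (hy : DefF M y) : DefF M (fun a => x a * y a) :=
  DefF_comp (g := fun p : KK M × KK M => p.1 * p.2) kmul0 (DefF_prod hx hy)

@[fun_prop]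
theorem kneg_def {x : α → KK M} (hx : DefF M x) : DefF M (fun a => - x a) := by
  have h0 : ∀ {δ : Type} [Ctx M δ], DefF M (fun _ : δ => (0 : KK M)) := fun {δ} _ => DefF_const _
  have h1 : DefF M (fun _ : α × KK M => (0 : KK M)) := h0
  apply DefF_of (R := fun a y => x a + y = 0) (by fun_prop)
  intro a y
  rw [neg_eq_iff_add_eq_zero]

@[fun_prop]
theorem ksub_def {x y : α → KK M} (hx : DefF M x) (hy : DefF M y) : DefF M (fun a => x a - y a) := by
  simp only [sub_eq_add_neg]
  fun_prop

@[fun_prop]
theorem kinv_def {x : α → KK M} (hx : DefF M x) : DefF M (fun a => (x a)⁻¹) := by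
  have h1 : DefF M (fun _ : α × KK M => (0 : KK M)) := DefF_const _
  have h2 : DefF M (fun _ : α × KK M => (1 : KK M)) := DefF_const _
  apply DefF_of (R := fun a y => (x a = 0 ∧ y = 0) ∨ x a * y = 1) (by fun_prop)
  intro a y
  by_cases h : x a = 0
  · rw [h, inv_zero]
    constructor
    · rintro rfl; exact Or.inl ⟨rfl, rfl⟩
    · rintro (⟨_, h⟩ | h)
      · exact h.symm
      · rw [zero_mul] at h; exact absurd h zero_ne_one
  · constructor
    · rintro rfl; exact Or.inr (mul_inv_cancel₀ h)
    · rintro (⟨h', _⟩ | h')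
      · exact absurd h' h
      · exact (eq_inv_of_mul_eq_one_right h').symm

theorem kof_le {a b : El (om M)} : kof (El (om M)) a ≤ kof (El (om M)) b ↔ ∃ c, a + c = b := by
  constructor
  · intro h
    obtain ⟨c, hc | hc⟩ := Disc.tot a b
    · exact ⟨c, hc⟩
    · have h2 : kof (El (om M)) b ≤ kof (El (om M)) a := by
        rw [← hc, map_add]
        have := kof_nonneg c
        linarith
      have h3 := kof_inj (le_antisymm h h2)
      exact ⟨0, by rw [add_zero, h3]⟩
  · rintro ⟨c, rfl⟩
    rw [map_add]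
    have := kof_nonneg c
    linarith

theorem kle0 : DefP M (fun p : KK M × KK M => p.1 ≤ p.2) := by
  apply DefP_liftK2 (R := fun x y => x ≤ y)
  have h1 : ∀ {δ : Type} [Ctx M δ], DefF M (fun _ : δ => (1 : El (om M))) := fun {δ} _ => DefF_const _
  have h2 : DefF M (fun _ : (El (KC M) × El (KC M)) × El (om M) => (1 : El (om M))) := h1
  have : (fun p : El (KC M) × El (KC M) => kpi p.1 ≤ kpi p.2) = fun p => ∃ c,
      (ka p.1 * (kc p.2 + 1) + kb p.2 * (kc p.1 + 1)) + c = ka p.2 * (kc p.1 + 1) + kb p.1 * (kc p.2 + 1) := by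
    funext p
    rw [eq_iff_iff, ← kof_le]
    have h1 := kof_succ_pos (kc p.1)
    have h2 := kof_succ_pos (kc p.2)
    unfold kpi
    rw [div_le_div_iff₀ h1 h2]
    simp only [map_add, map_mul, map_one]
    constructor
    · intro h; linarith
    · intro h; linarith
  rw [this]
  fun_prop

@[fun_prop]
theorem kle_def {x y : α → KK M} (hx : DefF M x) (hy : DefF M y) : DefP M (fun a => x a ≤ y a) :=
  DefP_comp (R := fun p : KK M × KK M => p.1 ≤ p.2) kle0 (DefF_prod hx hy)

@[fun_prop]
theorem klt_def {x y : α → KK M} (hx : DefF M x) (hy : DefF M y) : DefP M (fun a => x a < y a) := by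
  simp only [← not_le]
  fun_prop

theorem k_arch (x : KK M) : ∃ n : El (om M), x < kof (El (om M)) n := by
  obtain ⟨t, rfl⟩ := kpi_surj x
  refine ⟨ka t + 1, ?_⟩
  unfold kpi
  rw [div_lt_iff₀ (kof_succ_pos _), map_add, map_one]
  have h1 := kof_nonneg (ka t)
  have h2 := kof_nonneg (kb t)
  have h3 := kof_nonneg (kc t)
  nlinarith [mul_nonneg h1 h3]

end Pool.Agent.Helper79.ZF
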