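import Pool.Agent.Helper79.ZF.Amalg

/-!
# The names of reals and of group elements
-/

namespace Pool.Agent.Helper79.ZF

open FirstOrder Set

variable {M : Type} [Membership M M] [ZFModel M]
variable {α β γ : Type} [Ctx M α] [Ctx M β] [Ctx M γ]

/-- the image of a set under a function defined on its elements -/
noncomputable def repE {A : M} (F : El A → M) : M := theD (fun y => ∀ z : M, z ∈ y ↔ ∃ w : El A, z = F w)

theorem mem_repE {A : M} {F : El A → M} (hF : DefF M F) {z : M} : z ∈ repE F ↔ ∃ w : El A, z = F w := by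
  obtain ⟨p, hp⟩ := rep_ax (R := fun w z => ∃ x : El A, x.v = w ∧ z = F x) (by fun_prop) A (fun y hy => ⟨F (El.mk y hy),
    ⟨El.mk y hy, rfl, rfl⟩, fun z hz => by
      obtain ⟨x, h1, h2⟩ := hz
      have : x = El.mk y hy := El.ext h1
      rw [h2, this]⟩)
  have hp' : ∀ z : M, z ∈ p ↔ ∃ w : El A, z = F w := by
    intro z
    rw [hp]
    constructor
    · rintro ⟨y, _, x, _, h⟩; exact ⟨x, h⟩
    · rintro ⟨x, h⟩; exact ⟨x.v, x.mem, x, rfl, h⟩
  rw [repE, theD_eq hp' (fun p' hp'' => ext' (fun w => by rw [hp', hp'']))]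
  exact hp' z

@[fun_prop]
theorem repE_def {A : M} {F : α → El A → M} (hF : DefF M (fun p : α × El A => F p.1 p.2)) :
    DefF M (fun a => repE (F a)) := by
  unfold repE; fun_prop

namespace FData

theorem FEq_of_Elt {D : FData M} {p : D.PP} {x y : M} {a b : D.AA}
    (h : ∀ q f, D.V q f p → ∀ τ d, D.Elt q τ d x (a * f) ↔ D.Elt q τ d y (b * f)) : D.FEq p x a y b := by
  rw [D.FEq_iff]
  refine ⟨fun r k hr τ d hτ => ?_, fun r k hr σ e hσ => ?_⟩
  · exact ⟨r, 1, D.V_one r, τ, d, by rw [mul_one]; exact (h r k hr τ d).1 hτ, by rw [mul_one]; exact FEq.refl _ _ _⟩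
  · exact ⟨r, 1, D.V_one r, σ, e, by rw [mul_one]; exact (h r k hr σ e).2 hσ, by rw [mul_one]; exact FEq.refl _ _ _⟩

theorem chk_inj {D : FData M} (x : M) : ∀ (q : D.PP) (y : M) (a b : D.AA), D.FEq q (D.chk x) a (D.chk y) b → x = y := by
  refine mem_induction (R := fun x => ∀ (q : D.PP) (y : M) (a b : D.AA), D.FEq q (D.chk x) a (D.chk y) b → x = y)
    (by fun_prop) ?_ x
  intro x ih q y a b h
  rw [D.FEq_iff] at h
  obtain ⟨h1, h2⟩ := h
  apply ext'
  intro z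
  constructor
  · intro hz
    obtain ⟨s, l, _, σ, e, h3, h4⟩ := h1 q 1 (D.V_one q) (D.chk z) 1 (Elt_chk.2 ⟨z, hz, rfl⟩)
    obtain ⟨z', hz', rfl⟩ := Elt_chk.1 h3
    rw [ih z hz _ _ _ _ h4]; exact hz'
  · intro hz
    obtain ⟨s, l, _, τ, d, h3, h4⟩ := h2 q 1 (D.V_one q) (D.chk z) 1 (Elt_chk.2 ⟨z, hz, rfl⟩)
    obtain ⟨z', hz', rfl⟩ := Elt_chk.1 h3
    rw [← ih z' hz' _ _ _ _ h4]; exact hz'

theorem jj_inj {D : FData M} {C : GChain D} {x y : M} (h : jj C x = jj C y) : x = y := by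
  unfold jj at h
  rw [val_eq] at h
  obtain ⟨m, _, h⟩ := h
  exact chk_inj x _ _ _ _ h

end FData

open FData

theorem au_oneD : au (1 : (DZ M).AA) = iid := au_one
theorem av_oneD : av (1 : (DZ M).AA) = iid := av_one

/-- name of a generic real -/
noncomputable def rho (i : El (ZZ M)) : M := (DZ M).mkName (repE (A := om M) (fun n => (DZ M).chk n.v))
  (fun q f τ _ => ∃ n : El (om M), τ = (DZ M).chk n.v ∧ olt n (pm q) ∧ smem n (ps q (ia (av f) i)))

@[fun_prop]
theorem rho_def {i : α → El (ZZ M)} (hi : DefF M i) : DefF M (fun a => rho (i a)) := by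
  unfold rho; fun_prop

theorem Elt_rho {i : El (ZZ M)} {q : (DZ M).PP} {τ : M} {d f : (DZ M).AA} : (DZ M).Elt q τ d (rho i) f ↔
    ∃ n : El (om M), τ = (DZ M).chk n.v ∧ olt n (pm q) ∧ smem n (ps q (ia (av f) i)) := by
  unfold rho
  rw [(DZ M).Elt_mkName (by fun_prop)]
  · rw [mem_repE (by fun_prop)]
    constructor
    · rintro ⟨_, h⟩; exact h
    · rintro ⟨n, h1, h2⟩; exact ⟨⟨n, h1⟩, n, h1, h2⟩
  · rintro p q f g τ c hq ⟨n, h1, h2, h3⟩
    obtain ⟨e1, e2, e3⟩ := hq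
    refine ⟨n, h1, e2 n h2, ?_⟩
    rw [av_mul, ia_icomp, e3 n h2]
    exact h3

/-- name of a group element -/
noncomputable def lmb (g : El (SZ M)) : M := (DZ M).mkName (repE (A := ZZ M) rho)
  (fun q f τ c => ∃ j, τ = rho j ∧ pa q (ia (av c) j) = push (au f) g)

@[fun_prop]
theorem lmb_def {i : α → El (SZ M)} (hi : DefF M i) : DefF M (fun a => lmb (i a)) := by
  unfold lmb; fun_prop

theorem Elt_lmb {g : El (SZ M)} {q : (DZ M).PP} {τ : M} {d f : (DZ M).AA} : (DZ M).Elt q τ d (lmb g) f ↔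
    ∃ j, τ = rho j ∧ pa q (ia (av d) j) = push (au f) g := by
  unfold lmb
  rw [(DZ M).Elt_mkName (by fun_prop)]
  · rw [mem_repE (by fun_prop)]
    constructor
    · rintro ⟨_, h⟩; exact h
    · rintro ⟨n, h1, h2⟩; exact ⟨⟨n, h1⟩, n, h1, h2⟩
  · rintro p q f g' τ c hq ⟨n, h1, h2⟩
    obtain ⟨e1, e2, e3⟩ := hq
    refine ⟨n, h1, ?_⟩
    rw [av_mul, ia_icomp, e1, h2, au_mul, push_comp]

theorem NEq_rho (q : (DZ M).PP) (i : El (ZZ M)) (a : (DZ M).AA) :
    NEq (D := DZ M) q (rho i, a) (rho (ia (av a) i), 1) := by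
  apply FEq_of_Elt
  intro r f _ τ d
  rw [Elt_rho, Elt_rho, one_mul, av_mul, ia_icomp]

theorem NEq_lmb (q : (DZ M).PP) (g : El (SZ M)) (a : (DZ M).AA) :
    NEq (D := DZ M) q (lmb g, a) (lmb (push (au a) g), 1) := by
  apply FEq_of_Elt
  intro r f _ τ d
  rw [Elt_lmb, Elt_lmb, one_mul, au_mul, push_comp]

variable (C : GChain (DZ M))

/-- the `i`-th real of stage `n` -/
noncomputable def Rho (n : ℕ) (i : El (ZZ M)) : Ext C := val C n (rho i, 1)

/-- the group element `g` of stage `n` -/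
noncomputable def Lam (n : ℕ) (g : El (SZ M)) : Ext C := val C n (lmb g, 1)

variable {C}

theorem val_rho (n : ℕ) (i : El (ZZ M)) (a : (DZ M).AA) : val C n (rho i, a) = Rho C n (ia (av a) i) :=
  val_eq_of_NEq (NEq_rho _ _ _)

theorem val_lmb (n : ℕ) (g : El (SZ M)) (a : (DZ M).AA) : val C n (lmb g, a) = Lam C n (push (au a) g) :=
  val_eq_of_NEq (NEq_lmb _ _ _)

theorem Rho_shift {n m : ℕ} (h : n ≤ m) (i : El (ZZ M)) : Rho C n i = Rho C m (ia (av (C.F n m)) i) := by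
  rw [← val_rho]
  unfold Rho
  rw [← val_ren h]
  unfold ren
  rw [one_mul]

theorem Lam_shift {n m : ℕ} (h : n ≤ m) (g : El (SZ M)) : Lam C n g = Lam C m (push (au (C.F n m)) g) := by
  rw [← val_lmb]
  unfold Lam
  rw [← val_ren h]
  unfold ren
  rw [one_mul]

theorem mem_Rho {n : ℕ} {i : El (ZZ M)} {z : Ext C} : z ∈ Rho C n i ↔ ∃ m, n ≤ m ∧ ∃ k : El (om M),
    z = jj C k.v ∧ olt k (pm (C.p m)) ∧ smem k (ps (C.p m) (ia (av (C.F n m)) i)) := by
  unfold Rho
  rw [mem_val]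
  constructor
  · rintro ⟨m, hm, ⟨τ, d⟩, h1, rfl⟩
    obtain ⟨k, h1, h2, h3⟩ := Elt_rho.1 h1
    refine ⟨m, hm, k, ?_, h2, ?_⟩
    · simp only at h1; rw [h1, val_chk]
    · rw [ren_snd, one_mul] at h3; exact h3
  · rintro ⟨m, hm, k, rfl, h2, h3⟩
    refine ⟨m, hm, ((DZ M).chk k.v, 1), Elt_rho.2 ⟨k, rfl, h2, ?_⟩, (val_chk _ _ _).symm⟩
    rw [ren_snd, one_mul]; exact h3

theorem jj_mem_Rho {n m : ℕ} (h : n ≤ m) {i : El (ZZ M)} {k : El (om M)} (hk : olt k (pm (C.p m))) :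
    jj C k.v ∈ Rho C n i ↔ smem k (ps (C.p m) (ia (av (C.F n m)) i)) := by
  rw [mem_Rho]
  constructor
  · rintro ⟨l, hl, k', h1, h2, h3⟩
    have := El.ext (jj_inj h1)
    subst this
    have e1 := (C.hV l (max l m) (le_max_left _ _)).2.2 k h2 (ia (av (C.F n l)) i)
    have e2 := (C.hV m (max l m) (le_max_right _ _)).2.2 k hk (ia (av (C.F n m)) i)
    rw [← ia_icomp, ← av_mul, C.hFm _ _ _ hl (le_max_left _ _)] at e1
    rw [← ia_icomp, ← av_mul, C.hFm _ _ _ h (le_max_right _ _)] at e2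
    rw [← e2, e1]
    exact h3
  · intro h3
    exact ⟨m, h, k, rfl, hk, h3⟩

theorem Rho_inj {n : ℕ} {i j : El (ZZ M)} (h : Rho C n i = Rho C n j) : i = j := by
  classical
  by_contra hij
  obtain ⟨m, hm, k, h1, h2, h3⟩ := C.gen n (fun q f => ∃ k, olt k (pm q) ∧ smem k (ps q (ia (av f) i)) ∧
    ¬ smem k (ps q (ia (av f) j))) (by fun_prop) (by
      intro q f _
      let s : El (ZZ M) → El (pow (om M)) := fun x => mkSub (fun k => (olt k (pm q) ∧ smem k (ps q x)) ∨ (k = pm q ∧ x = ia (av f) i)) (by fun_prop)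
      have hs : DefF M s := by simp only [s]; fun_prop
      refine ⟨mkP (pa q) (by fun_prop) (oS (pm q)) s hs, 1, ⟨?_, ?_, ?_⟩, pm q, ?_, ?_, ?_⟩
      · intro x
        rw [pa_mkP, av_oneD, au_oneD, ia_iid, push_iid]
      · intro k hk
        rw [pm_mkP]
        exact mem_suc.2 (Or.inl hk)
      · intro k hk x
        rw [ps_mkP, av_oneD, ia_iid, smem_mkSub]
        constructor
        · rintro (h | ⟨h, _⟩)
          · exact h.2
          · subst h; exact absurd hk (mem_irrefl _)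
        · intro h; exact Or.inl ⟨hk, h⟩
      · rw [pm_mkP]; exact mem_suc.2 (Or.inr rfl)
      · rw [ps_mkP, smem_mkSub, mul_one]; exact Or.inr ⟨rfl, rfl⟩
      · rw [ps_mkP, smem_mkSub, mul_one]
        rintro (h | ⟨_, h⟩)
        · exact mem_irrefl _ h.1
        · exact hij (ia_inj _ h).symm)
  apply h3
  rw [← jj_mem_Rho hm h1, ← h, jj_mem_Rho hm h1]
  exact h2

theorem mem_Lam {n : ℕ} {g : El (SZ M)} {z : Ext C} : z ∈ Lam C n g ↔ ∃ m, n ≤ m ∧ ∃ i : El (ZZ M),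
    z = Rho C m i ∧ pa (C.p m) i = push (au (C.F n m)) g := by
  unfold Lam
  rw [mem_val]
  constructor
  · rintro ⟨m, hm, ⟨τ, d⟩, h1, rfl⟩
    obtain ⟨j, h1, h2⟩ := Elt_lmb.1 h1
    refine ⟨m, hm, ia (av d) j, ?_, ?_⟩
    · simp only at h1; rw [h1, val_rho]
    · rw [ren_snd, one_mul] at h2; exact h2
  · rintro ⟨m, hm, i, rfl, h2⟩
    refine ⟨m, hm, (rho i, 1), Elt_lmb.2 ⟨i, rfl, ?_⟩, rfl⟩
    rw [ren_snd, one_mul, av_oneD, ia_iid]; exact h2

theorem Rho_mem_Lam {n m : ℕ} (h : n ≤ m) {g : El (SZ M)} {i : El (ZZ M)} :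
    Rho C m i ∈ Lam C n g ↔ pa (C.p m) i = push (au (C.F n m)) g := by
  rw [mem_Lam]
  constructor
  · rintro ⟨l, hl, j, h1, h2⟩
    have e1 := (C.hV l (max l m) (le_max_left _ _)).1 j
    have e2 := (C.hV m (max l m) (le_max_right _ _)).1 i
    rw [Rho_shift (le_max_right l m), Rho_shift (le_max_left l m)] at h1
    have h3 := Rho_inj h1
    rw [h3, e1, h2, ← push_comp, ← au_mul, C.hFm _ _ _ hl (le_max_left _ _)] at e2
    rw [← C.hFm _ _ _ h (le_max_right l m), au_mul, push_comp] at e2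
    exact (push_inj e2).symm
  · intro h1
    exact ⟨m, h, i, rfl, h1⟩

theorem Lam_nonempty (n : ℕ) (g : El (SZ M)) : ∃ z, z ∈ Lam C n g := by
  classical
  obtain ⟨m, hm, i, h⟩ := C.gen n (fun q f => ∃ i, pa q i = push (au f) g) (by fun_prop) (by
    intro q f _
    let v : El (IZ M) := mkI (fun x => zp x (bz false)) (by fun_prop) (fun x y h => (zp_inj.1 h).1)
    let a : El (ZZ M) → El (SZ M) := fun x => if h : ∃ y, ia v y = x then pa q h.choose else push (au f) g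
    have ha1 : ∀ y, a (ia v y) = pa q y := by
      intro y
      have h : ∃ y', ia v y' = ia v y := ⟨y, rfl⟩
      simp only [a]
      rw [dif_pos h, ia_inj _ h.choose_spec]
    have ha2 : ∀ x, (∀ y, ia v y ≠ x) → a x = push (au f) g := by
      intro x hx
      simp only [a]
      rw [dif_neg (by push Not; exact hx)]
    have ha : DefF M a := by
      apply DefF_of (R := fun x k => (∃ y, ia v y = x ∧ k = pa q y) ∨ ((∀ y, ia v y ≠ x) ∧ k = push (au f) g)) (by fun_prop)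
      intro x k
      by_cases h5 : ∃ y, ia v y = x
      · obtain ⟨y, rfl⟩ := h5
        rw [ha1]
        constructor
        · rintro rfl; exact Or.inl ⟨y, rfl, rfl⟩
        · rintro (⟨y', h6, rfl⟩ | ⟨h6, _⟩)
          · rw [ia_inj _ h6]
          · exact absurd rfl (h6 y)
      · push Not at h5
        rw [ha2 x h5]
        constructor
        · rintro rfl; exact Or.inr ⟨h5, rfl⟩
        · rintro (⟨y', h6, _⟩ | ⟨_, h6⟩)
          · exact absurd h6 (h5 y')
          · exact h6.symm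
    let s : El (ZZ M) → El (pow (om M)) := fun x => mkSub (fun k => ∃ y, ia v y = x ∧ smem k (ps q y)) (by fun_prop)
    have hs : DefF M s := by simp only [s]; fun_prop
    refine ⟨mkP a ha (pm q) s hs, mkA iid v, ⟨?_, ?_, ?_⟩, zp (oz o0) (bz true), ?_⟩
    · intro x
      rw [pa_mkP, av_mkA, ha1, au_mkA, push_iid]
    · intro k hk
      rw [pm_mkP]; exact hk
    · intro k hk x
      rw [ps_mkP, av_mkA, smem_mkSub]
      constructor
      · rintro ⟨y, h1, h2⟩; rwa [← ia_inj _ h1]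
      · intro h; exact ⟨x, rfl, h⟩
    · rw [pa_mkP, ha2]
      · rw [au_mul, au_mkA, push_comp, push_iid]
      · intro y hy
        simp only [v, ia_mkI, zp_inj, bz_inj] at hy
        simp at hy)
  exact ⟨Rho C m i, (Rho_mem_Lam hm).2 h⟩

theorem Lam_inj {n : ℕ} {g h : El (SZ M)} (e : Lam C n g = Lam C n h) : g = h := by
  obtain ⟨z, hz⟩ := Lam_nonempty (C := C) n g
  obtain ⟨m, hm, i, rfl, h1⟩ := mem_Lam.1 hz
  rw [e, Rho_mem_Lam hm, h1] at hz
  exact push_inj hz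

end Pool.Agent.Helper79.ZF
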