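import Pool.Agent.Helper79.ZF.Amalg

/-!
# Arithmetic of the natural numbers of a model
-/

namespace Pool.Agent.Helper79.ZF

open FirstOrder Set

variable {M : Type} [Membership M M] [ZFModel M]
variable {α β γ : Type} [Ctx M α] [Ctx M β] [Ctx M γ]

/-- induction on the natural numbers of the model -/
theorem oind {R : El (om M) → Prop} (hR : DefP M R) (h0 : R o0) (hS : ∀ n, R n → R (oS n)) (n : El (om M)) : R n := by
  have key : ∀ n : M, n ∈ om M → ∀ h : n ∈ om M, R (El.mk n h) := by
    intro n hn
    have h1 := om_induction (M := M) (R := fun n => ∀ m : El (om M), m.v = n → R m) (by fun_prop)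
      (fun m hm => by
        have : m = o0 := El.ext hm
        rw [this]; exact h0)
      (fun k hk ih m hm => by
        have : m = oS (El.mk k hk) := El.ext hm
        rw [this]; exact hS _ (ih _ rfl)) hn
    exact fun h => h1 _ rfl
  exact key n.v n.mem n.mem

/-- iteration on the model -/
noncomputable def iterV (f x n : M) : M := recF omPr
  (fun n h => theD (fun y => (n = emp ∧ y = x) ∨ ∃ k : M, k ∈ om M ∧ n = suc k ∧ y = app f (app h k))) n

@[fun_prop]
theorem iterV_def {f x n : α → M} (hf : DefF M f) (hx : DefF M x) (hn : DefF M n) :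
    DefF M (fun a => iterV (f a) (x a) (n a)) := by
  unfold iterV; fun_prop

theorem iterV_zero (f x : M) : iterV f x emp = x := by
  unfold iterV
  rw [recF_eq (by fun_prop) (by fun_prop) omPr_ind]
  apply theD_eq
  · exact Or.inl ⟨rfl, rfl⟩
  · rintro y (⟨_, h⟩ | ⟨k, _, h, _⟩)
    · exact h
    · exact absurd h.symm (suc_ne_emp k)

theorem iterV_suc (f x : M) {k : M} (hk : k ∈ om M) : iterV f x (suc k) = app f (iterV f x k) := by
  have hd : DefF M (iterV f x) := by fun_prop
  unfold iterV
  rw [recF_eq (by fun_prop) (by fun_prop) omPr_ind]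
  have e : app (lam (omPr (suc k)) (iterV f x)) k = iterV f x k := app_lam hd (mem_omPr.2 ⟨hk, rfl⟩)
  apply theD_eq
  · right
    refine ⟨k, hk, rfl, ?_⟩
    exact congrArg (app f) e.symm
  · rintro y (⟨h, _⟩ | ⟨k', _, h, h'⟩)
    · exact absurd h (suc_ne_emp k)
    · obtain rfl := suc_inj h
      rw [h']
      exact congrArg (app f) e

theorem iter_exists {A : M} (f : El (Fn A A)) (x : El A) (n : El (om M)) : ∃ y : El A, y.v = iterV f.v x.v n.v := by
  refine oind (R := fun n => ∃ y : El A, y.v = iterV f.v x.v n.v) (by fun_prop) ⟨x, (iterV_zero _ _).symm⟩ ?_ n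
  rintro n ⟨y, hy⟩
  refine ⟨fapp f y, ?_⟩
  show app f.v y.v = iterV f.v x.v (suc n.v)
  rw [iterV_suc _ _ n.mem, hy]

/-- iteration of an internal function -/
noncomputable def iter {A : M} (f : El (Fn A A)) (x : El A) (n : El (om M)) : El A := (iter_exists f x n).choose

theorem iter_v {A : M} (f : El (Fn A A)) (x : El A) (n : El (om M)) : (iter f x n).v = iterV f.v x.v n.v :=
  (iter_exists f x n).choose_spec

@[fun_prop]
theorem iter_def {A : M} {f : α → El (Fn A A)} {x : α → El A} {n : α → El (om M)} (hf : DefF M f) (hx : DefF M x)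
    (hn : DefF M n) : DefF M (fun a => iter (f a) (x a) (n a)) := by
  apply DefF_of_v
  simp only [iter_v]
  fun_prop

@[simp] theorem iter_zero {A : M} (f : El (Fn A A)) (x : El A) : iter f x o0 = x := by
  apply El.ext
  rw [iter_v]
  exact iterV_zero _ _

@[simp] theorem iter_suc {A : M} (f : El (Fn A A)) (x : El A) (n : El (om M)) : iter f x (oS n) = fapp f (iter f x n) := by
  apply El.ext
  rw [iter_v]
  show iterV f.v x.v (suc n.v) = app f.v (iter f x n).v
  rw [iterV_suc _ _ n.mem, iter_v]

/-- addition -/
noncomputable def oadd (m n : El (om M)) : El (om M) := iter (mkFn oS (by fun_prop)) m n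

@[fun_prop]
theorem oadd_def {m n : α → El (om M)} (hm : DefF M m) (hn : DefF M n) : DefF M (fun a => oadd (m a) (n a)) := by
  unfold oadd; fun_prop

@[simp] theorem oadd_zero (m : El (om M)) : oadd m o0 = m := by unfold oadd; rw [iter_zero]
@[simp] theorem oadd_suc (m n : El (om M)) : oadd m (oS n) = oS (oadd m n) := by
  unfold oadd; rw [iter_suc, fapp_mkFn]

@[simp] theorem zero_oadd (m : El (om M)) : oadd o0 m = m :=
  oind (R := fun m => oadd o0 m = m) (by fun_prop) (by simp) (fun n h => by rw [oadd_suc, h]) m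

@[simp] theorem suc_oadd (m n : El (om M)) : oadd (oS m) n = oS (oadd m n) :=
  oind (R := fun n => oadd (oS m) n = oS (oadd m n)) (by fun_prop) (by simp) (fun n h => by rw [oadd_suc, h, oadd_suc]) n

theorem oadd_comm (m n : El (om M)) : oadd m n = oadd n m :=
  oind (R := fun n => oadd m n = oadd n m) (by fun_prop) (by simp) (fun n h => by rw [oadd_suc, h, suc_oadd]) n

theorem oadd_assoc (m n k : El (om M)) : oadd (oadd m n) k = oadd m (oadd n k) :=
  oind (R := fun k => oadd (oadd m n) k = oadd m (oadd n k)) (by fun_prop) (by simp) (fun k h => by simp [h]) k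

/-- multiplication -/
noncomputable def omul (m n : El (om M)) : El (om M) := iter (mkFn (fun x => oadd x m) (by fun_prop)) o0 n

@[fun_prop]
theorem omul_def {m n : α → El (om M)} (hm : DefF M m) (hn : DefF M n) : DefF M (fun a => omul (m a) (n a)) := by
  unfold omul; fun_prop

@[simp] theorem omul_zero (m : El (om M)) : omul m o0 = o0 := by unfold omul; rw [iter_zero]
@[simp] theorem omul_suc (m n : El (om M)) : omul m (oS n) = oadd (omul m n) m := by
  unfold omul; rw [iter_suc, fapp_mkFn]

@[simp] theorem zero_omul (m : El (om M)) : omul o0 m = o0 :=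
  oind (R := fun m => omul o0 m = o0) (by fun_prop) (by simp) (fun n h => by rw [omul_suc, h, oadd_zero]) m

@[simp] theorem suc_omul (m n : El (om M)) : omul (oS m) n = oadd (omul m n) n := by
  refine oind (R := fun n => omul (oS m) n = oadd (omul m n) n) (by fun_prop) (by simp) (fun n h => ?_) n
  rw [omul_suc, h, omul_suc, oadd_suc, oadd_suc, oadd_assoc, oadd_comm n m, oadd_assoc]

theorem omul_comm (m n : El (om M)) : omul m n = omul n m :=
  oind (R := fun n => omul m n = omul n m) (by fun_prop) (by simp) (fun n h => by rw [omul_suc, h, suc_omul]) n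

theorem omul_oadd (m n k : El (om M)) : omul m (oadd n k) = oadd (omul m n) (omul m k) :=
  oind (R := fun k => omul m (oadd n k) = oadd (omul m n) (omul m k)) (by fun_prop) (by simp)
    (fun k h => by rw [oadd_suc, omul_suc, h, omul_suc, oadd_assoc]) k

theorem oadd_omul (m n k : El (om M)) : omul (oadd m n) k = oadd (omul m k) (omul n k) := by
  rw [omul_comm, omul_oadd, omul_comm k m, omul_comm k n]

theorem omul_assoc (m n k : El (om M)) : omul (omul m n) k = omul m (omul n k) :=
  oind (R := fun k => omul (omul m n) k = omul m (omul n k)) (by fun_prop) (by simp)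
    (fun k h => by rw [omul_suc, h, omul_suc, omul_oadd]) k

noncomputable instance semiringOm : CommSemiring (El (om M)) where
  add := oadd
  zero := o0
  mul := omul
  one := oS o0
  add_assoc := oadd_assoc
  zero_add := zero_oadd
  add_zero := oadd_zero
  add_comm := oadd_comm
  nsmul := @nsmulRec _ ⟨o0⟩ ⟨oadd⟩
  left_distrib := omul_oadd
  right_distrib := oadd_omul
  zero_mul := zero_omul
  mul_zero := omul_zero
  mul_assoc := omul_assoc
  one_mul := fun m => by show omul (oS o0) m = m; simp
  mul_one := fun m => by show omul m (oS o0) = m; simp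
  mul_comm := omul_comm

@[fun_prop]
theorem oadd_def' {m n : α → El (om M)} (hm : DefF M m) (hn : DefF M n) : DefF M (fun a => m a + n a) := oadd_def hm hn
@[fun_prop]
theorem omul_def' {m n : α → El (om M)} (hm : DefF M m) (hn : DefF M n) : DefF M (fun a => m a * n a) := omul_def hm hn

theorem oS_eq (n : El (om M)) : oS n = n + 1 := by
  show oS n = oadd n (oS o0)
  simp

theorem o0_eq : (o0 : El (om M)) = 0 := rfl

theorem oind' {R : El (om M) → Prop} (hR : DefP M R) (h0 : R 0) (hS : ∀ n, R n → R (n + 1)) (n : El (om M)) : R n :=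
  oind hR h0 (fun n h => by rw [oS_eq]; exact hS n h) n

/-- a discrete positive semiring -/
class Disc (N : Type) [CommSemiring N] : Prop where
  canc : ∀ a b c : N, a + c = b + c → a = b
  pos : ∀ a b : N, a + b = 0 → a = 0
  tot : ∀ a b : N, ∃ c, a + c = b ∨ b + c = a
  nzd : ∀ a b : N, a * b = 0 → a = 0 ∨ b = 0
  nt : (1 : N) ≠ 0

instance discOm : Disc (El (om M)) where
  canc a b c := by
    refine oind' (R := fun c => a + c = b + c → a = b) (by fun_prop) (by simp) (fun c ih h => ih ?_) c
    rw [← add_assoc, ← add_assoc, ← oS_eq, ← oS_eq, oS_inj] at h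
    exact h
  pos a b h := by
    rcases o_cases b with rfl | ⟨c, rfl⟩
    · rw [o0_eq, add_zero] at h; exact h
    · rw [oS_eq, ← add_assoc, ← oS_eq] at h
      exact absurd h (oS_ne _)
  tot a b := by
    refine oind' (R := fun b => ∃ c, a + c = b ∨ b + c = a) (by fun_prop) ⟨a, Or.inr (zero_add a)⟩ ?_ b
    rintro b ⟨c, h | h⟩
    · exact ⟨c + 1, Or.inl (by rw [← add_assoc, h])⟩
    · rcases o_cases c with rfl | ⟨d, rfl⟩
      · rw [o0_eq, add_zero] at h
        exact ⟨1, Or.inl (by rw [h])⟩
      · refine ⟨d, Or.inr ?_⟩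
        rw [← h, oS_eq]
        ring
  nzd a b h := by
    rcases o_cases a with rfl | ⟨c, rfl⟩
    · exact Or.inl rfl
    · rcases o_cases b with rfl | ⟨d, rfl⟩
      · exact Or.inr rfl
      · exfalso
        have h' : omul (oS c) (oS d) = o0 := h
        simp at h'
  nt := by
    show oS o0 ≠ (o0 : El (om M))
    exact oS_ne _

end Pool.Agent.Helper79.ZF
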