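import Pool.Agent.Helper79.ZF.Final
import Pool.Agent.Helper79.ZF.OrdDef

/-!
# The generic extension is an end extension with the same ordinals
-/

namespace Pool.Agent.Helper79.ZF

open FirstOrder Set

variable {M : Type} [Membership M M] [ZFModel M]
variable {α β γ : Type} [Ctx M α] [Ctx M β] [Ctx M γ]

omit [ZFModel M] in
@[fun_prop]
theorem IsOrd_def {f : α → M} (hf : DefF M f) : DefP M (fun a => IsOrd (f a)) := by
  unfold IsOrd; fun_prop

omit [ZFModel M] in
theorem IsOrd.mem {x y : M} (h : IsOrd x) (hy : y ∈ x) : IsOrd y :=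
  ⟨fun z w hz hw => h.2 y hy z w hz hw, fun z hz u w hu hw => h.2 z (h.1 y z hy hz) u w hu hw⟩

theorem IsOrd.trich (x : M) : ∀ y : M, IsOrd x → IsOrd y → x ∈ y ∨ x = y ∨ y ∈ x := by
  refine mem_induction (R := fun x => ∀ y : M, IsOrd x → IsOrd y → x ∈ y ∨ x = y ∨ y ∈ x) (by fun_prop) ?_ x
  intro x ihx y
  refine mem_induction (R := fun y => IsOrd x → IsOrd y → x ∈ y ∨ x = y ∨ y ∈ x) (by fun_prop) ?_ y
  intro y ihy hx hy
  by_cases h1 : x ∈ y
  · exact Or.inl h1
  by_cases h2 : y ∈ x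
  · exact Or.inr (Or.inr h2)
  right; left
  apply ext'
  intro z
  constructor
  · intro hz
    rcases ihx z hz y (hx.mem hz) hy with h | h | h
    · exact h
    · subst h; exact absurd hz h2
    · exact absurd (hx.1 z y hz h) h2
  · intro hz
    rcases ihy z hz hx (hy.mem hz) with h | h | h
    · exact absurd (hy.1 z x hz h) h1
    · subst h; exact absurd hz h1
    · exact h

namespace FData

variable {D : FData M} {C : GChain D}

theorem FMem_chk_rank (τ : M) : ∀ (p : D.PP) (x : M) (a b : D.AA), D.FMem p (D.chk x) a τ b →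
    x ∈ Pool.Agent.Helper79.ZF.V τ := by
  refine D.dom_induction (R := fun τ => ∀ (p : D.PP) (x : M) (a b : D.AA), D.FMem p (D.chk x) a τ b →
    x ∈ Pool.Agent.Helper79.ZF.V τ) (by fun_prop) ?_ τ
  intro τ ih p x a b h
  obtain ⟨s, l, _, σ, e, h1, h2⟩ := h p 1 (D.V_one p)
  apply V_rank τ σ x (D.dom_sub_V h1.dom)
  intro y hy
  apply ih σ h1.dom s y 1 e
  have h3 : D.FMem s (D.chk y) 1 (D.chk x) (a * 1 * l) := (Elt_chk.2 ⟨y, hy, rfl⟩ : D.Elt s (D.chk y) 1 (D.chk x) _).fmem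
  exact h3.congr_right h2

theorem jj_mem_rank {n : ℕ} {X : D.VN} {x : M} (h : jj C x ∈ val C n X) : x ∈ Pool.Agent.Helper79.ZF.V X.1 := by
  rw [← val_chk n x 1, val_mem] at h
  obtain ⟨m, _, h⟩ := h
  exact FMem_chk_rank _ _ _ _ _ h

theorem IsOrd_jj {x : M} (h : IsOrd x) : IsOrd (jj C x) := by
  constructor
  · intro y z hy hz
    obtain ⟨y, hy', rfl⟩ := mem_jj.1 hy
    obtain ⟨z, hz', rfl⟩ := mem_jj.1 hz
    exact mem_jj.2 ⟨z, h.1 y z hy' hz', rfl⟩
  · intro y hy z w hz hw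
    obtain ⟨y, hy', rfl⟩ := mem_jj.1 hy
    obtain ⟨z, hz', rfl⟩ := mem_jj.1 hz
    obtain ⟨w, hw', rfl⟩ := mem_jj.1 hw
    exact mem_jj.2 ⟨w, h.2 y hy' z w hz' hw', rfl⟩

/-- every ordinal of the extension is an ordinal of the ground model -/
theorem ord_mem_range (z : Ext C) (hz : IsOrd z) : ∃ y : M, jj C y = z := by
  obtain ⟨n, X, rfl⟩ := exists_val z
  let O : M := sepS (Pool.Agent.Helper79.ZF.V X.1) IsOrd
  have hO : ∀ y : M, y ∈ O ↔ (y ∈ Pool.Agent.Helper79.ZF.V X.1 ∧ IsOrd y) := fun y => mem_sepS (by fun_prop)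
  have h1 : IsOrd O := by
    constructor
    · intro y w hy hw
      rw [hO] at hy ⊢
      exact ⟨V_trans _ _ _ hy.1 hw, hy.2.mem hw⟩
    · intro y hy u w hu hw
      rw [hO] at hy
      exact hy.2.1 u w hu hw
  have h2 : ¬ jj C O ∈ val C n X := by
    intro h
    exact mem_irrefl O ((hO O).2 ⟨jj_mem_rank h, h1⟩)
  rcases IsOrd.trich (jj C O) (val C n X) (IsOrd_jj h1) hz with h | h | h
  · exact absurd h h2
  · exact ⟨O, h⟩
  · obtain ⟨y, _, h⟩ := mem_jj.1 h
    exact ⟨y, h.symm⟩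

/-- the generic extension is an end extension of the ground model with the same ordinals -/
theorem ordEndExt_jj (C : GChain D) : OrdEndExt (jj C) where
  inj := fun _ _ h => jj_inj h
  mem_iff := fun x y => by
    rw [mem_jj]
    constructor
    · rintro ⟨z, hz, h⟩; rwa [jj_inj h]
    · intro h; exact ⟨x, h, rfl⟩
  trans := fun x z hz => by
    obtain ⟨y, _, h⟩ := mem_jj.1 hz
    exact ⟨y, h.symm⟩
  ords := ord_mem_range

end FData

open FData

theorem main_ext [Countable M] : ∃ (N : Type) (_ : Membership N N), ZFModel N ∧ ¬ StatementS N ∧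
    ∃ ι : M → N, OrdEndExt ι := by
  have p0 : (DZ M).PP := mkP (fun _ => 1) (DefF_const _) o0 (fun _ => mkSub (fun _ => True) (DefP.const _)) (DefF_const _)
  obtain ⟨C, _⟩ := exists_GChain (DZ M) p0
  refine ⟨Ext C, inferInstance, inferInstance, fun h => ?_, jj C, ordEndExt_jj C⟩
  exact not_amenable_H (mReals (Ext C)) (h (mReals (Ext C)) (mG C) (mH C) subgroup_HG (amenable_G _))

end Pool.Agent.Helper79.ZF
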