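import Pool.Agent.Helper79.ZF.NatStar

/-!
# The ordered field of fractions of differences of a discrete positive semiring
-/

namespace Pool.Agent.Helper79.ZF

section
variable (N : Type) [CommSemiring N] [Disc N]

/-- equality of differences -/
def zSet : Setoid (N × N) where
  r p q := p.1 + q.2 = q.1 + p.2
  iseqv := by
    refine ⟨fun p => rfl, fun h => h.symm, ?_⟩
    rintro ⟨a, b⟩ ⟨c, d⟩ ⟨e, f⟩ h1 h2
    simp only at h1 h2 ⊢
    apply Disc.canc _ _ d
    calc a + f + d = (a + d) + f := by ring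
      _ = (c + f) + b := by rw [h1]; ring
      _ = e + b + d := by rw [h2]; ring

/-- differences -/
def Zs : Type := Quotient (zSet N)

variable {N}

/-- the difference `a - b` -/
def zmk (a b : N) : Zs N := Quotient.mk (zSet N) (a, b)

theorem zmk_eq {a b c d : N} : zmk a b = zmk c d ↔ a + d = c + b :=
  ⟨fun h => Quotient.exact (s := zSet N) h, fun h => Quotient.sound (s := zSet N) h⟩

theorem zs_rep (x : Zs N) : ∃ a b, x = zmk a b := by
  obtain ⟨⟨a, b⟩, rfl⟩ := Quotient.exists_rep x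
  exact ⟨a, b, rfl⟩

/-- addition of differences -/
def zadd : Zs N → Zs N → Zs N := Quotient.map₂ (fun p q => (p.1 + q.1, p.2 + q.2)) (by
  rintro ⟨a, b⟩ ⟨a', b'⟩ h ⟨c, d⟩ ⟨c', d'⟩ h'
  have h : a + b' = a' + b := h
  have h' : c + d' = c' + d := h'
  show (a + c) + (b' + d') = (a' + c') + (b + d)
  calc (a + c) + (b' + d') = (a + b') + (c + d') := by ring
    _ = (a' + c') + (b + d) := by rw [h, h']; ring)

/-- multiplication of differences -/
def zmul : Zs N → Zs N → Zs N := Quotient.map₂ (fun p q => (p.1 * q.1 + p.2 * q.2, p.1 * q.2 + p.2 * q.1)) (by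
  rintro ⟨a, b⟩ ⟨a', b'⟩ h ⟨c, d⟩ ⟨c', d'⟩ h'
  have h : a + b' = a' + b := h
  have h' : c + d' = c' + d := h'
  show (a * c + b * d) + (a' * d' + b' * c') = (a' * c' + b' * d') + (a * d + b * c)
  apply Disc.canc _ _ (b' * c + a' * d)
  calc (a * c + b * d) + (a' * d' + b' * c') + (b' * c + a' * d)
      = (a + b') * c + (a' + b) * d + (a' * d' + b' * c') := by ring
    _ = (a' + b) * c + (a + b') * d + (a' * d' + b' * c') := by rw [h]
    _ = a' * (c + d') + b' * (c' + d) + (a * d + b * c) := by ring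
    _ = a' * (c' + d) + b' * (c + d') + (a * d + b * c) := by rw [h']
    _ = (a' * c' + b' * d') + (a * d + b * c) + (b' * c + a' * d) := by ring)

/-- negation of differences -/
def zneg : Zs N → Zs N := Quotient.map (fun p => (p.2, p.1)) (by
  rintro ⟨a, b⟩ ⟨a', b'⟩ h
  have h : a + b' = a' + b := h
  show b + a' = b' + a
  rw [add_comm b a', ← h, add_comm])

noncomputable instance ringZs : CommRing (Zs N) where
  add := zadd
  zero := zmk 0 0
  mul := zmul
  one := zmk 1 0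
  neg := zneg
  nsmul := @nsmulRec _ ⟨zmk 0 0⟩ ⟨zadd⟩
  zsmul := @zsmulRec _ ⟨zmk 0 0⟩ ⟨zadd⟩ ⟨zneg⟩ (@nsmulRec _ ⟨zmk 0 0⟩ ⟨zadd⟩)
  add_assoc x y z := by
    obtain ⟨a, b, rfl⟩ := zs_rep x; obtain ⟨c, d, rfl⟩ := zs_rep y; obtain ⟨e, f, rfl⟩ := zs_rep z
    refine zmk_eq.2 ?_; ring
  zero_add x := by
    obtain ⟨a, b, rfl⟩ := zs_rep x
    refine zmk_eq.2 ?_; ring
  add_zero x := by
    obtain ⟨a, b, rfl⟩ := zs_rep x
    refine zmk_eq.2 ?_; ring
  add_comm x y := by
    obtain ⟨a, b, rfl⟩ := zs_rep x; obtain ⟨c, d, rfl⟩ := zs_rep y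
    refine zmk_eq.2 ?_; ring
  left_distrib x y z := by
    obtain ⟨a, b, rfl⟩ := zs_rep x; obtain ⟨c, d, rfl⟩ := zs_rep y; obtain ⟨e, f, rfl⟩ := zs_rep z
    refine zmk_eq.2 ?_; ring
  right_distrib x y z := by
    obtain ⟨a, b, rfl⟩ := zs_rep x; obtain ⟨c, d, rfl⟩ := zs_rep y; obtain ⟨e, f, rfl⟩ := zs_rep z
    refine zmk_eq.2 ?_; ring
  zero_mul x := by
    obtain ⟨a, b, rfl⟩ := zs_rep x
    refine zmk_eq.2 ?_; ring
  mul_zero x := by
    obtain ⟨a, b, rfl⟩ := zs_rep x
    refine zmk_eq.2 ?_; ring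
  mul_assoc x y z := by
    obtain ⟨a, b, rfl⟩ := zs_rep x; obtain ⟨c, d, rfl⟩ := zs_rep y; obtain ⟨e, f, rfl⟩ := zs_rep z
    refine zmk_eq.2 ?_; ring
  one_mul x := by
    obtain ⟨a, b, rfl⟩ := zs_rep x
    refine zmk_eq.2 ?_; ring
  mul_one x := by
    obtain ⟨a, b, rfl⟩ := zs_rep x
    refine zmk_eq.2 ?_; ring
  neg_add_cancel x := by
    obtain ⟨a, b, rfl⟩ := zs_rep x
    refine zmk_eq.2 ?_; ring
  mul_comm x y := by
    obtain ⟨a, b, rfl⟩ := zs_rep x; obtain ⟨c, d, rfl⟩ := zs_rep y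
    refine zmk_eq.2 ?_; ring

variable (N) in
/-- inclusion in differences -/
def zof : N →+* Zs N where
  toFun a := zmk a 0
  map_one' := rfl
  map_zero' := rfl
  map_add' a b := zmk_eq.2 (by ring)
  map_mul' a b := zmk_eq.2 (by ring)

theorem zof_inj : Function.Injective (zof N) := by
  intro a b h
  have := zmk_eq.1 h
  simpa using this

theorem zmk_sub (a b : N) : zmk a b = zof N a - zof N b := by
  rw [eq_sub_iff_add_eq]
  refine zmk_eq.2 ?_; ring

theorem zs_total (x : Zs N) : ∃ c, x = zof N c ∨ x = -zof N c := by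
  obtain ⟨a, b, rfl⟩ := zs_rep x
  obtain ⟨c, h | h⟩ := Disc.tot a b
  · refine ⟨c, Or.inr ?_⟩
    rw [← h, zmk_sub, map_add]; ring
  · refine ⟨c, Or.inl ?_⟩
    rw [← h, zmk_sub, map_add]; ring

instance zs_nontrivial : Nontrivial (Zs N) := ⟨⟨zof N 1, zof N 0, fun h => Disc.nt (zof_inj h)⟩⟩

instance zs_domain : NoZeroDivisors (Zs N) where
  eq_zero_or_eq_zero_of_mul_eq_zero := by
    intro x y h
    have key : ∀ a b, zof N a * zof N b = 0 → zof N a = 0 ∨ zof N b = 0 := by
      intro a b h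
      rw [← map_mul, ← map_zero (zof N)] at h
      rcases Disc.nzd a b (zof_inj h) with h | h
      · left; rw [h, map_zero]
      · right; rw [h, map_zero]
    obtain ⟨a, ha | ha⟩ := zs_total x <;> obtain ⟨b, hb | hb⟩ := zs_total y <;> subst ha hb
    · exact key a b h
    · simp only [mul_neg, neg_eq_zero] at h ⊢; exact key a b h
    · simp only [neg_mul, neg_eq_zero] at h ⊢; exact key a b h
    · simp only [neg_mul, mul_neg, neg_neg, neg_eq_zero] at h ⊢; exact key a b h

instance zs_isDomain : IsDomain (Zs N) := NoZeroDivisors.to_isDomain _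

variable (N) in
/-- the field of fractions -/
abbrev Kf : Type := FractionRing (Zs N)

variable (N) in
/-- inclusion in the field of fractions -/
noncomputable def kof : N →+* Kf N := (algebraMap (Zs N) (Kf N)).comp (zof N)

theorem kof_inj : Function.Injective (kof N) := (IsFractionRing.injective (Zs N) (Kf N)).comp zof_inj

theorem kof_ne {a : N} (h : a ≠ 0) : kof N a ≠ 0 := by
  intro h'
  rw [← map_zero (kof N)] at h'
  exact h (kof_inj h')

theorem kof_rep (x : Kf N) : ∃ a b c, c ≠ 0 ∧ x = (kof N a - kof N b) / kof N c := by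
  obtain ⟨y, z, hz, rfl⟩ := IsFractionRing.div_surjective (A := Zs N) x
  have hz0 : z ≠ 0 := nonZeroDivisors.ne_zero hz
  obtain ⟨a, b, rfl⟩ : ∃ a b, y = zof N a - zof N b := by
    obtain ⟨a, b, rfl⟩ := zs_rep y
    exact ⟨a, b, zmk_sub a b⟩
  obtain ⟨c, hc | hc⟩ := zs_total z
  · refine ⟨a, b, c, ?_, ?_⟩
    · rintro rfl; rw [map_zero] at hc; exact hz0 hc
    · rw [hc, map_sub]; rfl
  · refine ⟨b, a, c, ?_, ?_⟩
    · rintro rfl; rw [map_zero, neg_zero] at hc; exact hz0 hc
    · rw [hc, map_sub, map_neg, div_neg, ← neg_div, neg_sub]; rfl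

theorem ne_iff_succ {c : N} (h : c ≠ 0) (hs : ∀ c : N, c ≠ 0 → ∃ d, c = d + 1) : ∃ d, c = d + 1 := hs c h

/-- nonnegative elements of the field of fractions -/
def kpos (x : Kf N) : Prop := ∃ a c, c ≠ 0 ∧ x = kof N a / kof N c

theorem kpos_add {x y : Kf N} (hx : kpos x) (hy : kpos y) : kpos (x + y) := by
  obtain ⟨a, c, hc, rfl⟩ := hx
  obtain ⟨b, d, hd, rfl⟩ := hy
  refine ⟨a * d + b * c, c * d, fun h => ?_, ?_⟩
  · rcases Disc.nzd _ _ h with h | h
    · exact hc h
    · exact hd h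
  · have := kof_ne hc
    have := kof_ne hd
    rw [map_add, map_mul, map_mul, map_mul]
    field_simp

theorem kpos_mul {x y : Kf N} (hx : kpos x) (hy : kpos y) : kpos (x * y) := by
  obtain ⟨a, c, hc, rfl⟩ := hx
  obtain ⟨b, d, hd, rfl⟩ := hy
  refine ⟨a * b, c * d, fun h => ?_, ?_⟩
  · rcases Disc.nzd _ _ h with h | h
    · exact hc h
    · exact hd h
  · rw [map_mul, map_mul, div_mul_div_comm]

theorem kpos_kof (a : N) : kpos (kof N a) := ⟨a, 1, Disc.nt, by rw [map_one, div_one]⟩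

theorem kpos_total (x : Kf N) : kpos x ∨ kpos (-x) := by
  obtain ⟨a, b, c, hc, rfl⟩ := kof_rep x
  obtain ⟨d, h | h⟩ := Disc.tot a b
  · right
    refine ⟨d, c, hc, ?_⟩
    rw [← h, map_add]; ring
  · left
    refine ⟨d, c, hc, ?_⟩
    rw [← h, map_add]; ring

theorem kpos_anti {x : Kf N} (h1 : kpos x) (h2 : kpos (-x)) : x = 0 := by
  obtain ⟨a, c, hc, h3⟩ := h1
  obtain ⟨b, d, hd, h4⟩ := h2
  have e1 := kof_ne hc
  have e2 := kof_ne hd
  have h5 : kof N (a * d + b * c) = 0 := by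
    rw [map_add, map_mul, map_mul]
    have h6 : kof N a / kof N c + kof N b / kof N d = 0 := by rw [← h3, ← h4]; ring
    field_simp at h6
    linear_combination h6
  rw [← map_zero (kof N)] at h5
  have h6 := Disc.pos _ _ (kof_inj h5)
  rcases Disc.nzd _ _ h6 with h6 | h6
  · rw [h3, h6, map_zero, zero_div]
  · exact absurd h6 hd

variable (N) in
/-- the cone of nonnegative elements -/
noncomputable def kcone : RingCone (Kf N) where
  carrier := {x | kpos x}
  mul_mem' := kpos_mul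
  one_mem' := by rw [← map_one (kof N)]; exact kpos_kof 1
  add_mem' := kpos_add
  zero_mem' := by rw [← map_zero (kof N)]; exact kpos_kof 0
  eq_zero_of_mem_of_neg_mem' := fun h1 h2 => kpos_anti h1 h2

instance : HasMemOrNegMem (kcone N) where
  mem_or_neg_mem := kpos_total

open Classical in
noncomputable instance kfOrder : LinearOrder (Kf N) := LinearOrder.mkOfAddGroupCone (kcone N)

theorem kf_le {x y : Kf N} : x ≤ y ↔ kpos (y - x) := Iff.rfl

theorem kof_nonneg (a : N) : 0 ≤ kof N a := by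
  rw [kf_le, sub_zero]; exact kpos_kof a

instance kfOrdered : IsOrderedRing (Kf N) := IsOrderedRing.mkOfCone (kcone N)

instance kfStrict : IsStrictOrderedRing (Kf N) := IsOrderedRing.toIsStrictOrderedRing _

end

end Pool.Agent.Helper79.ZF
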