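import Pool.Agent.Helper79.ZF.Generic

/-!
# Definability for finite tuples
-/

namespace Pool.Agent.Helper79.ZF

open FirstOrder Set

section
variable {M : Type} [Membership M M]
variable {α β γ : Type} [Ctx M α] [Ctx M β] [Ctx M γ]

instance ctxPi (κ : Type) [Finite κ] (β : Type) [Ctx M β] : Ctx M (κ → β) where
  ι := κ × Ctx.ι M β
  fin := inferInstance
  co := fun v p => Ctx.co (v p.1) p.2
  inj := by
    intro v w h
    funext k
    apply Ctx.inj (M := M)
    funext j
    exact congrFun h (k, j)
  ran := by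
    have : Set.range (fun (v : κ → β) (p : κ × Ctx.ι M β) => Ctx.co (M := M) (v p.1) p.2) =
        ⋂ k : κ, {w | w ∘ (fun j => (k, j)) ∈ Set.range (Ctx.co (M := M) (α := β))} := by
      ext w
      simp only [Set.mem_range, Set.mem_iInter, Set.mem_ofPred_eq]
      constructor
      · rintro ⟨v, rfl⟩ k
        exact ⟨v k, rfl⟩
      · intro h
        choose v hv using h
        refine ⟨v, ?_⟩
        ext p
        rw [hv]
        rfl
    rw [this]
    exact definable_iInter_of_finite (fun k => Ctx.ran.preimage_comp (fun j => (k, j)))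

variable {κ : Type} [Finite κ]

@[fun_prop]
theorem DefF_apply (k : κ) : DefF M (fun v : κ → β => v k) :=
  DefP_reindex (α := (κ → β) × β) (DefP_eq0 (α := β)) (fun p => (p.1 k, p.2))
    (Sum.elim (fun j => Sum.inl (k, j)) Sum.inr) (fun a => by ext i; rcases i with i | i <;> rfl)

theorem DefP_forall_fin {R : κ → α → Prop} (h : ∀ k, DefP M (R k)) : DefP M (fun a => ∀ k, R k a) := by
  have hS : DS M (⋂ k : κ, {v | ∃ a, Ctx.co (M := M) a = v ∧ R k a}) := definable_iInter_of_finite h
  refine DefP_of hS (fun a => ?_)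
  simp only [Set.mem_iInter]
  exact ⟨fun h' k => ((h k).spec a).1 (h' k), fun h' k => ((h k).spec a).2 (h' k)⟩

@[fun_prop]
theorem DefF_pi {f : α → κ → β} (h : ∀ k, DefF M (fun a => f a k)) : DefF M (fun a k => f a k) := by
  have h1 : DefP M (fun p : α × (κ → β) => ∀ k, f p.1 k = p.2 k) := by
    apply DefP_forall_fin
    intro k
    have := h k
    fun_prop
  exact h1.congr (fun p => ⟨fun h => funext h, fun h k => congrFun h k⟩)

example : DefF M (fun v : (Fin 2 → M) × (κ → M) => (fun k => (v.2 k, v.1 0) : κ → M × M)) := by fun_prop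
example : DefP M (fun v : (Fin 2 → M) => ∀ x : M, x ∈ v 0 → x ∈ v 1) := by fun_prop

end

end Pool.Agent.Helper79.ZF
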