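import Pool.Agent.Helper79.ZF.Sets

/-!
# ∈-induction, ∈-recursion, the cumulative hierarchy and collection inside a model of ZF
-/

namespace Pool.Agent.Helper79.ZF

open FirstOrder Set

variable {M : Type} [Membership M M] [ZFModel M]
variable {α β γ : Type} [Ctx M α] [Ctx M β] [Ctx M γ]

/-- transitive closure of `{x}` -/
noncomputable def tc (x : M) : M := sU (repS (om M) (tcL x))

@[fun_prop]
theorem DefF.tc {f : α → M} (hf : DefF M f) : DefF M (fun a => tc (f a)) := by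
  unfold Pool.Agent.Helper79.ZF.tc; fun_prop

theorem mem_tc {x z : M} : z ∈ tc x ↔ ∃ n : M, n ∈ om M ∧ z ∈ tcL x n := by
  unfold tc
  rw [mem_sU]
  constructor
  · rintro ⟨w, h1, h2⟩
    obtain ⟨n, hn, rfl⟩ := (mem_repS (by fun_prop)).1 h1
    exact ⟨n, hn, h2⟩
  · rintro ⟨n, hn, h2⟩
    exact ⟨_, (mem_repS (by fun_prop)).2 ⟨n, hn, rfl⟩, h2⟩

theorem self_mem_tc (x : M) : x ∈ tc x := by
  rw [mem_tc]
  refine ⟨emp, zero_mem_om, ?_⟩
  rw [tcL_eq, mem_cup]
  left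
  rw [mem_sepS (by fun_prop)]
  simp

theorem tc_trans {x y z : M} (hz : z ∈ tc x) (hy : y ∈ z) : y ∈ tc x := by
  rw [mem_tc] at hz ⊢
  obtain ⟨n, hn, h⟩ := hz
  refine ⟨suc n, suc_mem_om hn, ?_⟩
  rw [tcL_eq, mem_cup]
  right
  rw [mem_sU]
  refine ⟨z, ?_, hy⟩
  rw [mem_sU]
  exact ⟨tcL x n, (mem_repS (by fun_prop)).2 ⟨n, mem_omPr.2 ⟨hn, rfl⟩, rfl⟩, h⟩

/-- ∈-induction for definable predicates -/
theorem mem_induction {R : M → Prop} (hR : DefP M R) (h : ∀ x : M, (∀ y : M, y ∈ x → R y) → R x) (x : M) : R x := by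
  by_contra hx
  have hmem : ∀ z : M, z ∈ sepS (tc x) (fun z => ¬ R z) ↔ (z ∈ tc x ∧ ¬ R z) := fun z => mem_sepS (by fun_prop)
  obtain ⟨y, hy1, hy2⟩ := ZFModel.found (sepS (tc x) (fun z => ¬ R z)) ⟨x, (hmem x).2 ⟨self_mem_tc x, hx⟩⟩
  rw [hmem] at hy1
  apply hy1.2
  apply h
  intro z hz
  by_contra hRz
  exact hy2 z hz ((hmem z).2 ⟨tc_trans hy1.1 hz, hRz⟩)

/-- ∈-recursion -/
noncomputable def memRec (G : M → M → M) (x : M) : M := recF (fun x => x) G x

@[fun_prop]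
theorem DefF.memRec {G : α → M → M → M} {f : α → M}
    (hG : DefF M (fun p : α × (M × M) => G p.1 p.2.1 p.2.2)) (hf : DefF M f) :
    DefF M (fun a => memRec (G a) (f a)) := by
  unfold Pool.Agent.Helper79.ZF.memRec
  fun_prop

theorem memRec_eq {G : M → M → M} (hG : DefF M (fun p : M × M => G p.1 p.2)) (x : M) :
    memRec G x = G x (lam x (memRec G)) :=
  recF_eq (pr := fun x => x) (by fun_prop) hG (fun _ hQ h x => mem_induction hQ h x) x

/-! ### the cumulative hierarchy -/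

/-- `V x` is the union of the power sets of `V y` over `y ∈ x` -/
noncomputable def V (x : M) : M := memRec (fun x f => sU (repS x (fun y => pow (app f y)))) x

@[fun_prop]
theorem DefF.V {f : α → M} (hf : DefF M f) : DefF M (fun a => V (f a)) := by
  unfold Pool.Agent.Helper79.ZF.V; fun_prop

theorem mem_V {x z : M} : z ∈ V x ↔ ∃ y : M, y ∈ x ∧ ∀ w : M, w ∈ z → w ∈ V y := by
  have hV : DefF M (V (M := M)) := by fun_prop
  have e : V x = sU (repS x (fun y => pow (app (lam x V) y))) := by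
    conv_lhs => unfold V
    rw [memRec_eq (by fun_prop)]
    rfl
  rw [e, mem_sU]
  constructor
  · rintro ⟨w, h1, h2⟩
    obtain ⟨y, hy, rfl⟩ := (mem_repS (by fun_prop)).1 h1
    rw [app_lam hV hy, mem_pow] at h2
    exact ⟨y, hy, h2⟩
  · rintro ⟨y, hy, h2⟩
    refine ⟨_, (mem_repS (by fun_prop)).2 ⟨y, hy, rfl⟩, ?_⟩
    rw [app_lam hV hy, mem_pow]
    exact h2

theorem V_sub (x : M) : ∀ z : M, z ∈ x → z ∈ V x := by
  refine mem_induction (R := fun x => ∀ z : M, z ∈ x → z ∈ V x) (by fun_prop) ?_ x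
  intro x ih z hz
  rw [mem_V]
  exact ⟨z, hz, fun w hw => ih z hz w hw⟩

theorem V_trans (x : M) : ∀ z w : M, z ∈ V x → w ∈ z → w ∈ V x := by
  refine mem_induction (R := fun x => ∀ z w : M, z ∈ V x → w ∈ z → w ∈ V x) (by fun_prop) ?_ x
  intro x ih z w hz hw
  rw [mem_V] at hz ⊢
  obtain ⟨y, hy, h⟩ := hz
  exact ⟨y, hy, fun w' hw' => ih y hy w w' (h w hw) hw'⟩

theorem V_comp (x : M) : ∀ y : M, (∀ z : M, z ∈ V x → z ∈ V y) ∨ (∀ z : M, (∀ w : M, w ∈ z → w ∈ V y) → z ∈ V x) := by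
  refine mem_induction (R := fun x => ∀ y : M, (∀ z : M, z ∈ V x → z ∈ V y) ∨
    (∀ z : M, (∀ w : M, w ∈ z → w ∈ V y) → z ∈ V x)) (by fun_prop) ?_ x
  intro x ih y
  by_cases h : ∀ z : M, z ∈ V x → z ∈ V y
  · exact Or.inl h
  right
  -- some x' ∈ x with pow (V x') not inside V y
  push Not at h
  obtain ⟨z0, hz0, hz0'⟩ := h
  obtain ⟨x', hx', hz0''⟩ := mem_V.1 hz0
  have key : ∀ w : M, w ∈ V y → w ∈ V x' := by
    intro w hw
    obtain ⟨y', hy', hw'⟩ := mem_V.1 hw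
    rcases ih x' hx' y' with h1 | h1
    · exfalso
      apply hz0'
      rw [mem_V]
      exact ⟨y', hy', fun u hu => h1 u (hz0'' u hu)⟩
    · exact h1 w hw'
  intro z hz
  rw [mem_V]
  exact ⟨x', hx', fun w hw => key w (hz w hw)⟩

/-- Collection -/
theorem collection {R : M → M → Prop} (hR : DefP M (fun p : M × M => R p.1 p.2)) (a : M) :
    ∃ b : M, ∀ x : M, x ∈ a → (∃ y : M, R x y) → ∃ y : M, y ∈ b ∧ R x y := by
  -- minimal witnesses
  let Mn : M → M → Prop := fun x y => R x y ∧ ∀ y' : M, R x y' → ∀ z : M, z ∈ V y → z ∈ V y'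
  have hMn : DefP M (fun p : M × M => Mn p.1 p.2) := by
    simp only [Mn]; fun_prop
  let F : M → M := fun x => theD (fun s => ∀ y : M, y ∈ s ↔ Mn x y)
  have hF : DefF M F := by
    simp only [F]; fun_prop
  have ex : ∀ x y : M, R x y → ∃ y0 : M, Mn x y0 := by
    intro x y hxy
    have h1 : ∀ v : M, ∀ y : M, v = V y → R x y → ∃ y0 : M, Mn x y0 := by
      refine mem_induction (R := fun v => ∀ y : M, v = V y → R x y → ∃ y0 : M, Mn x y0) ?_ ?_
      · have : DefP M (Mn x) := hMn.fix x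
        have : DefP M (R x) := hR.fix x
        fun_prop
      · intro v ih y hv hy
        by_cases hm : ∀ y' : M, R x y' → ∀ z : M, z ∈ V y → z ∈ V y'
        · exact ⟨y, hy, hm⟩
        · push Not at hm
          obtain ⟨y', hy', z, hz, hz'⟩ := hm
          rcases V_comp y y' with h2 | h2
          · exact absurd (h2 z hz) hz'
          · refine ih (V y') ?_ y' rfl hy'
            rw [hv]
            exact h2 (V y') (fun w hw => hw)
    exact h1 (V y) y rfl hxy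
  have memF : ∀ x y0 : M, Mn x y0 → ∀ y : M, y ∈ F x ↔ Mn x y := by
    intro x y0 h0
    apply theD_spec (R := fun s => ∀ y : M, y ∈ s ↔ Mn x y)
    have hMnx : DefP M (Mn x) := hMn.fix x
    refine ⟨sepS (pow (V y0)) (Mn x), ?_, ?_⟩
    · intro y
      rw [mem_sepS hMnx, mem_pow]
      exact ⟨fun h => h.2, fun h => ⟨fun w hw => h.2 y0 h0.1 w (V_sub y w hw), h⟩⟩
    · intro s hs
      apply ext'
      intro y
      rw [hs, mem_sepS hMnx, mem_pow]
      exact ⟨fun h => ⟨fun w hw => h.2 y0 h0.1 w (V_sub y w hw), h⟩, fun h => h.2⟩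
  refine ⟨sU (repS a F), fun x hx hex => ?_⟩
  obtain ⟨y, hy⟩ := hex
  obtain ⟨y0, hy0⟩ := ex x y hy
  refine ⟨y0, ?_, hy0.1⟩
  rw [mem_sU]
  exact ⟨F x, (mem_repS hF).2 ⟨x, hx, rfl⟩, (memF x y0 hy0 y0).2 hy0⟩

/-- `V ω` is closed under unordered pairs. -/
theorem Vom_upair {x y : M} (hx : x ∈ V (om M)) (hy : y ∈ V (om M)) : upair x y ∈ V (om M) := by
  rw [mem_V] at hx hy ⊢
  obtain ⟨n, hn, hx⟩ := hx
  obtain ⟨m, hm, hy⟩ := hy
  have key : ∀ k : M, k ∈ om M → (∀ w : M, w ∈ x → w ∈ V k) → (∀ w : M, w ∈ y → w ∈ V k) →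
      ∃ k' : M, k' ∈ om M ∧ ∀ w : M, w ∈ upair x y → w ∈ V k' := by
    intro k hk h1 h2
    refine ⟨suc k, suc_mem_om hk, fun w hw => ?_⟩
    rw [mem_V]
    refine ⟨k, by simp, ?_⟩
    rcases mem_upair.1 hw with rfl | rfl
    · exact h1
    · exact h2
  rcases V_comp n m with h | h
  · exact key m hm (fun w hw => h w (hx w hw)) hy
  · refine key n hn hx (fun w hw => ?_)
    exact h w (fun u hu => V_trans m w u (hy w hw) hu)

theorem Vom_opair {x y : M} (hx : x ∈ V (om M)) (hy : y ∈ V (om M)) : opair x y ∈ V (om M) :=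
  Vom_upair (Vom_upair hx hx) (Vom_upair hx hy)

theorem om_sub_Vom {n : M} (h : n ∈ om M) : n ∈ V (om M) := V_sub _ n h

end Pool.Agent.Helper79.ZF
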