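import Pool.Agent.Helper79.ZF.Def

/-!
# Models of ZF: basic set theory inside a model
-/

namespace Pool.Agent.Helper79.ZF

open FirstOrder Set

variable {M : Type} [Membership M M] [ZFModel M]

theorem ext' {x y : M} (h : ∀ z : M, z ∈ x ↔ z ∈ y) : x = y := ZFModel.ext x y h

theorem sep_ax {R : M → Prop} (hR : DefP M R) (x : M) : ∃ y : M, ∀ z : M, z ∈ y ↔ (z ∈ x ∧ R z) := by
  apply ZFModel.separation {z | R z}
  have h := Set.Definable.preimage_comp (fun _ : Unit => (0 : Fin 1)) hR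
  rw [Set.Definable₁]
  convert h using 1
  ext g
  constructor
  · intro h
    exact ⟨g 0, rfl, h⟩
  · rintro ⟨a, h1, h2⟩
    have : a = g 0 := congrFun h1 ()
    subst this; exact h2

theorem rep_ax {R : M → M → Prop} (hR : DefP M (fun p : M × M => R p.1 p.2)) (x : M)
    (h : ∀ y : M, y ∈ x → ∃! z : M, R y z) : ∃ w : M, ∀ z : M, z ∈ w ↔ ∃ y : M, y ∈ x ∧ R y z := by
  apply ZFModel.replacement {p | R p.1 p.2} _ x h
  have h := Set.Definable.preimage_comp (Sum.elim (fun _ : Unit => (0 : Fin 2)) (fun _ : Unit => (1 : Fin 2))) hR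
  rw [Set.Definable₂]
  convert h using 1
  ext g
  constructor
  · intro h
    refine ⟨(g 0, g 1), ?_, h⟩
    ext i; rcases i with i | i <;> rfl
  · rintro ⟨⟨a, b⟩, h1, h2⟩
    have e1 : a = g 0 := congrFun h1 (Sum.inl ())
    have e2 : b = g 1 := congrFun h1 (Sum.inr ())
    subst e1 e2; exact h2

theorem exists_empty : ∃ e : M, ∀ z : M, ¬ z ∈ e := by
  obtain ⟨x, ⟨e, _, he⟩, _⟩ := ZFModel.infinity (M := M)
  exact ⟨e, he⟩

/-- the empty set of the model -/
noncomputable def emp : M := (exists_empty (M := M)).choose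

@[simp] theorem not_mem_emp (z : M) : ¬ z ∈ (emp : M) := (exists_empty (M := M)).choose_spec z

variable {α β γ : Type} [Ctx M α] [Ctx M β] [Ctx M γ]

open Classical in
/-- definite description: the unique element satisfying `R`, or the empty set -/
noncomputable def theD (R : M → Prop) : M := if h : ∃ y : M, R y ∧ ∀ y' : M, R y' → y' = y then h.choose else emp

theorem theD_eq {R : M → Prop} {y : M} (h : R y) (u : ∀ y' : M, R y' → y' = y) : theD R = y := by
  have hex : ∃ y : M, R y ∧ ∀ y' : M, R y' → y' = y := ⟨y, h, u⟩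
  rw [theD, dif_pos hex]
  exact u _ hex.choose_spec.1

theorem theD_spec {R : M → Prop} (h : ∃ y : M, R y ∧ ∀ y' : M, R y' → y' = y) : R (theD R) := by
  obtain ⟨y, hy, hu⟩ := h
  rw [theD_eq hy hu]; exact hy

@[fun_prop]
theorem DefF.theD {R : α → M → Prop} (hR : DefP M (fun p : α × M => R p.1 p.2)) :
    DefF M (fun a => theD (R a)) := by
  apply DefF_of (R := fun a b => (R a b ∧ ∀ y' : M, R a y' → y' = b) ∨
    ((¬ ∃ y : M, R a y ∧ ∀ y' : M, R a y' → y' = y) ∧ b = emp)) (by fun_prop)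
  intro a b
  by_cases h : ∃ y : M, R a y ∧ ∀ y' : M, R a y' → y' = y
  · obtain ⟨y, hy, hu⟩ := h
    rw [theD_eq hy hu]
    constructor
    · rintro rfl; exact Or.inl ⟨hy, hu⟩
    · rintro (⟨h1, _⟩ | ⟨h1, _⟩)
      · exact (hu b h1).symm
      · exact absurd ⟨y, hy, hu⟩ h1
  · rw [Pool.Agent.Helper79.ZF.theD, dif_neg h]
    constructor
    · rintro rfl; exact Or.inr ⟨h, rfl⟩
    · rintro (⟨h1, h2⟩ | ⟨_, h2⟩)
      · exact absurd ⟨b, h1, h2⟩ h
      · exact h2.symm

/-- unordered pair -/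
noncomputable def upair (x y : M) : M := theD (fun z => ∀ w : M, w ∈ z ↔ (w = x ∨ w = y))

@[simp] theorem mem_upair {x y z : M} : z ∈ upair x y ↔ (z = x ∨ z = y) := by
  obtain ⟨p, hp⟩ := ZFModel.pair x y
  rw [upair, theD_eq hp (fun p' hp' => ext' (fun w => by rw [hp, hp']))]
  exact hp z

@[fun_prop]
theorem DefF.upair {f g : α → M} (hf : DefF M f) (hg : DefF M g) : DefF M (fun a => upair (f a) (g a)) := by
  unfold Pool.Agent.Helper79.ZF.upair; fun_prop

/-- union -/
noncomputable def sU (x : M) : M := theD (fun y => ∀ z : M, z ∈ y ↔ ∃ w : M, w ∈ x ∧ z ∈ w)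

@[simp] theorem mem_sU {x z : M} : z ∈ sU x ↔ ∃ w : M, w ∈ x ∧ z ∈ w := by
  obtain ⟨p, hp⟩ := ZFModel.union x
  rw [sU, theD_eq hp (fun p' hp' => ext' (fun w => by rw [hp, hp']))]
  exact hp z

@[fun_prop]
theorem DefF.sU {f : α → M} (hf : DefF M f) : DefF M (fun a => sU (f a)) := by
  unfold Pool.Agent.Helper79.ZF.sU; fun_prop

/-- power set -/
noncomputable def pow (x : M) : M := theD (fun y => ∀ z : M, z ∈ y ↔ ∀ w : M, w ∈ z → w ∈ x)

@[simp] theorem mem_pow {x z : M} : z ∈ pow x ↔ ∀ w : M, w ∈ z → w ∈ x := by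
  obtain ⟨p, hp⟩ := ZFModel.power x
  rw [pow, theD_eq hp (fun p' hp' => ext' (fun w => by rw [hp, hp']))]
  exact hp z

@[fun_prop]
theorem DefF.pow {f : α → M} (hf : DefF M f) : DefF M (fun a => pow (f a)) := by
  unfold Pool.Agent.Helper79.ZF.pow; fun_prop

/-- separation -/
noncomputable def sepS (x : M) (R : M → Prop) : M := theD (fun y => ∀ z : M, z ∈ y ↔ (z ∈ x ∧ R z))

theorem mem_sepS {x : M} {R : M → Prop} (hR : DefP M R) {z : M} : z ∈ sepS x R ↔ (z ∈ x ∧ R z) := by
  obtain ⟨p, hp⟩ := sep_ax hR x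
  rw [sepS, theD_eq hp (fun p' hp' => ext' (fun w => by rw [hp, hp']))]
  exact hp z

@[fun_prop]
theorem DefF.sepS {f : α → M} {R : α → M → Prop} (hf : DefF M f) (hR : DefP M (fun p : α × M => R p.1 p.2)) :
    DefF M (fun a => sepS (f a) (R a)) := by
  unfold Pool.Agent.Helper79.ZF.sepS; fun_prop

/-- replacement -/
noncomputable def repS (x : M) (F : M → M) : M := theD (fun y => ∀ z : M, z ∈ y ↔ ∃ w : M, w ∈ x ∧ z = F w)

theorem mem_repS {x : M} {F : M → M} (hF : DefF M F) {z : M} : z ∈ repS x F ↔ ∃ w : M, w ∈ x ∧ z = F w := by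
  obtain ⟨p, hp⟩ := rep_ax (R := fun w z => z = F w) (by fun_prop) x (fun y _ => ⟨F y, rfl, fun _ h => h⟩)
  rw [repS, theD_eq hp (fun p' hp' => ext' (fun w => by rw [hp, hp']))]
  exact hp z

@[fun_prop]
theorem DefF.repS {f : α → M} {F : α → M → M} (hf : DefF M f) (hF : DefF M (fun p : α × M => F p.1 p.2)) :
    DefF M (fun a => repS (f a) (F a)) := by
  unfold Pool.Agent.Helper79.ZF.repS; fun_prop

/-- binary union -/
noncomputable def cup (x y : M) : M := sU (upair x y)

@[simp] theorem mem_cup {x y z : M} : z ∈ cup x y ↔ (z ∈ x ∨ z ∈ y) := by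
  unfold cup
  rw [mem_sU]
  constructor
  · rintro ⟨w, h1, h2⟩
    rcases mem_upair.1 h1 with rfl | rfl
    · exact Or.inl h2
    · exact Or.inr h2
  · rintro (h | h)
    · exact ⟨x, by simp, h⟩
    · exact ⟨y, by simp, h⟩

@[fun_prop]
theorem DefF.cup {f g : α → M} (hf : DefF M f) (hg : DefF M g) : DefF M (fun a => cup (f a) (g a)) := by
  unfold Pool.Agent.Helper79.ZF.cup; fun_prop

/-- singleton -/
noncomputable def sing (x : M) : M := upair x x

@[simp] theorem mem_sing {x z : M} : z ∈ sing x ↔ z = x := by simp [sing]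

@[fun_prop]
theorem DefF.sing {f : α → M} (hf : DefF M f) : DefF M (fun a => sing (f a)) := by
  unfold Pool.Agent.Helper79.ZF.sing; fun_prop

/-- ordered pair -/
noncomputable def opair (x y : M) : M := upair (sing x) (upair x y)

@[fun_prop]
theorem DefF.opair {f g : α → M} (hf : DefF M f) (hg : DefF M g) : DefF M (fun a => opair (f a) (g a)) := by
  unfold Pool.Agent.Helper79.ZF.opair; fun_prop

theorem sing_inj {x y : M} (h : sing x = sing y) : x = y := by
  have : x ∈ sing y := by rw [← h]; simp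
  simpa using this

theorem upair_eq {x y z : M} (h : upair x y = sing z) : x = z ∧ y = z := by
  have h1 : x ∈ sing z := by rw [← h]; simp
  have h2 : y ∈ sing z := by rw [← h]; simp
  exact ⟨by simpa using h1, by simpa using h2⟩

theorem upair_right_inj {x y z : M} (h : upair x y = upair x z) : y = z := by
  have h1 : y ∈ upair x z := by rw [← h]; simp
  have h2 : z ∈ upair x y := by rw [h]; simp
  rcases mem_upair.1 h1 with rfl | h3
  · rcases mem_upair.1 h2 with rfl | h4
    · rfl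
    · exact h4.symm
  · exact h3

@[simp] theorem opair_inj {x y x' y' : M} : opair x y = opair x' y' ↔ (x = x' ∧ y = y') := by
  constructor
  · intro h
    have h1 : sing x ∈ opair x' y' := by rw [← h]; simp [opair]
    have hx : x = x' := by
      rcases mem_upair.1 h1 with h2 | h2
      · exact sing_inj h2
      · exact (upair_eq h2.symm).1.symm
    subst hx
    refine ⟨rfl, ?_⟩
    have h2 : upair x y ∈ opair x y' := by rw [← h]; simp [opair]
    have h3 : upair x y' ∈ opair x y := by rw [h]; simp [opair]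
    rcases mem_upair.1 h2 with h4 | h4
    · rcases mem_upair.1 h3 with h5 | h5
      · rw [(upair_eq h4).2, (upair_eq h5).2]
      · exact (upair_right_inj h5).symm
    · exact upair_right_inj h4
  · rintro ⟨rfl, rfl⟩; rfl

theorem mem_irrefl (x : M) : ¬ x ∈ x := by
  intro h
  obtain ⟨y, h1, h2⟩ := ZFModel.found (sing x) ⟨x, by simp⟩
  rw [mem_sing] at h1; subst h1
  exact h2 y h (by simp)

theorem mem_asymm {x y : M} (h : x ∈ y) : ¬ y ∈ x := by
  intro h'
  obtain ⟨z, h1, h2⟩ := ZFModel.found (upair x y) ⟨x, by simp⟩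
  rcases mem_upair.1 h1 with rfl | rfl
  · exact h2 y h' (by simp)
  · exact h2 x h (by simp)

/-- successor -/
noncomputable def suc (x : M) : M := cup x (sing x)

@[simp] theorem mem_suc {x z : M} : z ∈ suc x ↔ (z ∈ x ∨ z = x) := by simp [suc]

@[fun_prop]
theorem DefF.suc {f : α → M} (hf : DefF M f) : DefF M (fun a => suc (f a)) := by
  unfold Pool.Agent.Helper79.ZF.suc; fun_prop

theorem suc_inj {x y : M} (h : suc x = suc y) : x = y := by
  have h1 : x ∈ suc y := by rw [← h]; simp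
  have h2 : y ∈ suc x := by rw [h]; simp
  rw [mem_suc] at h1 h2
  rcases h1 with h1 | h1
  · rcases h2 with h2 | h2
    · exact absurd h2 (mem_asymm h1)
    · exact h2.symm
  · exact h1

theorem suc_ne_emp (x : M) : suc x ≠ emp := by
  intro h
  have : x ∈ (emp : M) := by rw [← h]; simp
  exact not_mem_emp x this

/-- inductive sets -/
def Ind (I : M) : Prop := (emp : M) ∈ I ∧ ∀ y : M, y ∈ I → suc y ∈ I

@[fun_prop]
theorem DefP.Ind {f : α → M} (hf : DefF M f) : DefP M (fun a => Ind (f a)) := by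
  unfold Pool.Agent.Helper79.ZF.Ind; fun_prop

variable (M)

theorem exists_Ind : ∃ I : M, Ind I := by
  obtain ⟨x, ⟨e, he, he'⟩, h⟩ := ZFModel.infinity (M := M)
  refine ⟨x, ?_, ?_⟩
  · have : (emp : M) = e := ext' (fun z => by simp [he'])
    rw [this]; exact he
  · intro y hy
    obtain ⟨z, hz, hz'⟩ := h y hy
    have : suc y = z := ext' (fun w => by simp [hz'])
    rw [this]; exact hz

/-- the set of natural numbers of the model -/
noncomputable def om : M := sepS (exists_Ind M).choose (fun n => ∀ I : M, Ind I → n ∈ I)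

variable {M}

theorem mem_om {n : M} : n ∈ om M ↔ ∀ I : M, Ind I → n ∈ I := by
  rw [om, mem_sepS (by fun_prop)]
  exact ⟨fun h => h.2, fun h => ⟨h _ (exists_Ind M).choose_spec, h⟩⟩

theorem zero_mem_om : (emp : M) ∈ om M := mem_om.2 (fun _ h => h.1)

theorem suc_mem_om {n : M} (h : n ∈ om M) : suc n ∈ om M :=
  mem_om.2 (fun I hI => hI.2 n (mem_om.1 h I hI))

theorem om_induction {R : M → Prop} (hR : DefP M R) (h0 : R emp) (hs : ∀ n : M, n ∈ om M → R n → R (suc n))
    {n : M} (hn : n ∈ om M) : R n := by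
  have hI : Ind (sepS (om M) R) := by
    refine ⟨(mem_sepS hR).2 ⟨zero_mem_om, h0⟩, fun y hy => ?_⟩
    rw [mem_sepS hR] at hy ⊢
    exact ⟨suc_mem_om hy.1, hs y hy.1 hy.2⟩
  exact ((mem_sepS hR).1 (mem_om.1 hn _ hI)).2

theorem om_cases {n : M} (hn : n ∈ om M) : n = emp ∨ ∃ m : M, m ∈ om M ∧ n = suc m := by
  refine om_induction (R := fun n => n = emp ∨ ∃ m : M, m ∈ om M ∧ n = suc m) (by fun_prop) (Or.inl rfl) ?_ hn
  intro n hn _
  exact Or.inr ⟨n, hn, rfl⟩

/-- function application -/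
noncomputable def app (f x : M) : M := theD (fun y => opair x y ∈ f)

@[fun_prop]
theorem DefF.app {f g : α → M} (hf : DefF M f) (hg : DefF M g) : DefF M (fun a => app (f a) (g a)) := by
  unfold Pool.Agent.Helper79.ZF.app; fun_prop

theorem app_eq {f x y : M} (h : opair x y ∈ f) (u : ∀ y' : M, opair x y' ∈ f → y' = y) : app f x = y :=
  theD_eq (R := fun y => opair x y ∈ f) h u

/-- lambda abstraction -/
noncomputable def lam (x : M) (F : M → M) : M := repS x (fun z => opair z (F z))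

@[fun_prop]
theorem DefF.lam {f : α → M} {F : α → M → M} (hf : DefF M f) (hF : DefF M (fun p : α × M => F p.1 p.2)) :
    DefF M (fun a => lam (f a) (F a)) := by
  unfold Pool.Agent.Helper79.ZF.lam; fun_prop

theorem mem_lam {x : M} {F : M → M} (hF : DefF M F) {z : M} : z ∈ lam x F ↔ ∃ w : M, w ∈ x ∧ z = opair w (F w) := by
  rw [lam, mem_repS (by fun_prop)]

theorem app_lam {x z : M} {F : M → M} (hF : DefF M F) (hz : z ∈ x) : app (lam x F) z = F z := by
  apply theD_eq
  · rw [mem_lam hF]; exact ⟨z, hz, rfl⟩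
  · intro y' h
    rw [mem_lam hF] at h
    obtain ⟨w, _, h⟩ := h
    rw [opair_inj] at h
    rw [h.2, h.1]

theorem lam_congr {x : M} {F G : M → M} (hF : DefF M F) (hG : DefF M G) (h : ∀ z : M, z ∈ x → F z = G z) :
    lam x F = lam x G := by
  apply ext'
  intro w
  rw [mem_lam hF, mem_lam hG]
  constructor
  · rintro ⟨z, hz, rfl⟩; exact ⟨z, hz, by rw [h z hz]⟩
  · rintro ⟨z, hz, rfl⟩; exact ⟨z, hz, by rw [h z hz]⟩

/-! ### well-founded recursion for definable functions -/

section Rec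

/-- approximations to a function defined by recursion -/
def Att (pr : M → M) (G : M → M → M) (h : M) : Prop :=
  (∀ p : M, p ∈ h → ∃ x y : M, p = opair x y) ∧
  (∀ x y y' : M, opair x y ∈ h → opair x y' ∈ h → y = y') ∧
  ∀ x y : M, opair x y ∈ h → (∀ z : M, z ∈ pr x → ∃ w : M, opair z w ∈ h) ∧ y = G x (lam (pr x) (app h))

/-- the function defined by recursion -/
noncomputable def recF (pr : M → M) (G : M → M → M) (x : M) : M :=
  theD (fun y => ∃ h : M, Att pr G h ∧ opair x y ∈ h)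

variable {pr : M → M} {G : M → M → M} (hpr : DefF M pr) (hG : DefF M (fun p : M × M => G p.1 p.2))

include hpr hG in
theorem DefP_Att : DefP M (Att pr G) := by
  unfold Att; fun_prop

include hpr hG in
theorem DefF_recF : DefF M (recF pr G) := by
  have := DefP_Att hpr hG
  unfold recF; fun_prop

theorem Att.app_eq' {h : M} (hh : Att pr G h) {x y : M} (hxy : opair x y ∈ h) : app h x = y :=
  app_eq hxy (fun y' hy' => hh.2.1 x y' y hy' hxy)

variable (hind : ∀ Q : M → Prop, DefP M Q → (∀ x : M, (∀ y : M, y ∈ pr x → Q y) → Q x) → ∀ x, Q x)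

include hpr hG hind in
theorem Att.agree (x : M) : ∀ h h' y y' : M, Att pr G h → Att pr G h' → opair x y ∈ h → opair x y' ∈ h' → y = y' := by
  have hA := DefP_Att hpr hG
  refine hind (fun x => ∀ h h' y y' : M, Att pr G h → Att pr G h' → opair x y ∈ h → opair x y' ∈ h' → y = y')
    (by fun_prop) ?_ x
  intro x ih h h' y y' hh hh' hxy hxy'
  obtain ⟨h1, h2⟩ := hh.2.2 x y hxy
  obtain ⟨h1', h2'⟩ := hh'.2.2 x y' hxy'
  rw [h2, h2']
  congr 1
  apply lam_congr (by fun_prop) (by fun_prop)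
  intro z hz
  obtain ⟨w, hw⟩ := h1 z hz
  obtain ⟨w', hw'⟩ := h1' z hz
  rw [hh.app_eq' hw, hh'.app_eq' hw']
  exact ih z hz h h' w w' hh hh' hw hw'

/-- minimal attempt -/
noncomputable def minAtt (pr : M → M) (G : M → M → M) (z : M) : M :=
  theD (fun m => ∀ p : M, p ∈ m ↔ ∀ h : M, Att pr G h → (∃ w : M, opair z w ∈ h) → p ∈ h)

include hpr hG hind in
theorem minAtt_spec {z : M} (hz : ∃ h : M, Att pr G h ∧ ∃ w : M, opair z w ∈ h) :
    Att pr G (minAtt pr G z) ∧ ∃ w : M, opair z w ∈ minAtt pr G z := by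
  have hA := DefP_Att hpr hG
  have hag := Att.agree hpr hG hind
  obtain ⟨h0, hh0, w0, hw0⟩ := hz
  have hmem : ∀ p : M, p ∈ minAtt pr G z ↔ ∀ h : M, Att pr G h → (∃ w : M, opair z w ∈ h) → p ∈ h := by
    apply theD_spec (R := fun m => ∀ p : M, p ∈ m ↔ ∀ h : M, Att pr G h → (∃ w : M, opair z w ∈ h) → p ∈ h)
    refine ⟨sepS h0 (fun p => ∀ h : M, Att pr G h → (∃ w : M, opair z w ∈ h) → p ∈ h), ?_, ?_⟩
    · intro p
      rw [mem_sepS (by fun_prop)]
      exact ⟨fun h => h.2, fun h => ⟨h h0 hh0 ⟨w0, hw0⟩, h⟩⟩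
    · intro y' hy'
      apply ext'
      intro p
      rw [hy', mem_sepS (by fun_prop)]
      exact ⟨fun h => ⟨h h0 hh0 ⟨w0, hw0⟩, h⟩, fun h => h.2⟩
  have hsub : ∀ p : M, p ∈ minAtt pr G z → p ∈ h0 := fun p hp => (hmem p).1 hp h0 hh0 ⟨w0, hw0⟩
  refine ⟨⟨fun p hp => hh0.1 p (hsub p hp), fun x y y' h1 h2 => hh0.2.1 x y y' (hsub _ h1) (hsub _ h2), ?_⟩, w0, ?_⟩
  · intro x y hxy
    have hcl : ∀ z' : M, z' ∈ pr x → ∃ w : M, opair z' w ∈ minAtt pr G z ∧ opair z' w ∈ h0 := by
      intro z' hz'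
      obtain ⟨w, hw⟩ := (hh0.2.2 x y (hsub _ hxy)).1 z' hz'
      refine ⟨w, (hmem _).2 (fun h hh hzh => ?_), hw⟩
      obtain ⟨w', hw'⟩ := (hh.2.2 x y ((hmem _).1 hxy h hh hzh)).1 z' hz'
      rw [hag z' h0 h w w' hh0 hh hw hw']; exact hw'
    refine ⟨fun z' hz' => ?_, ?_⟩
    · obtain ⟨w, hw, _⟩ := hcl z' hz'; exact ⟨w, hw⟩
    · rw [(hh0.2.2 x y (hsub _ hxy)).2]
      congr 1
      apply lam_congr (by fun_prop) (by fun_prop)
      intro z' hz'
      obtain ⟨w, hw, hw'⟩ := hcl z' hz'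
      rw [hh0.app_eq' hw']
      exact (app_eq hw (fun y' hy' => hh0.2.1 z' y' w (hsub _ hy') hw')).symm
  · refine (hmem _).2 (fun h hh hzh => ?_)
    obtain ⟨w', hw'⟩ := hzh
    rw [hag z h0 h w0 w' hh0 hh hw0 hw']; exact hw'

include hpr hG hind in
theorem exists_att (x : M) : ∃ h : M, Att pr G h ∧ ∃ w : M, opair x w ∈ h := by
  have hA := DefP_Att hpr hG
  have hag := Att.agree hpr hG hind
  have hmin : DefF M (minAtt pr G) := by unfold minAtt; fun_prop
  refine hind (fun x => ∃ h : M, Att pr G h ∧ ∃ w : M, opair x w ∈ h) (by fun_prop) ?_ x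
  intro x ih
  set H : M := sU (repS (pr x) (minAtt pr G)) with hH
  have memH : ∀ p : M, p ∈ H ↔ ∃ z : M, z ∈ pr x ∧ p ∈ minAtt pr G z := by
    intro p
    rw [hH, mem_sU]
    constructor
    · rintro ⟨w, h1, h2⟩
      obtain ⟨z, hz, rfl⟩ := (mem_repS hmin).1 h1
      exact ⟨z, hz, h2⟩
    · rintro ⟨z, hz, h2⟩
      exact ⟨_, (mem_repS hmin).2 ⟨z, hz, rfl⟩, h2⟩
  have hm : ∀ z : M, z ∈ pr x → Att pr G (minAtt pr G z) ∧ ∃ w : M, opair z w ∈ minAtt pr G z :=
    fun z hz => minAtt_spec hpr hG hind (ih z hz)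
  have hfun : ∀ x y y' : M, opair x y ∈ H → opair x y' ∈ H → y = y' := by
    intro x' y y' h1 h2
    obtain ⟨z, hz, h1⟩ := (memH _).1 h1
    obtain ⟨z', hz', h2⟩ := (memH _).1 h2
    exact hag x' _ _ y y' (hm z hz).1 (hm z' hz').1 h1 h2
  have happ : ∀ x' y : M, opair x' y ∈ H → app H x' = y := fun x' y h => app_eq h (fun y' h' => hfun x' y' y h' h)
  have hatt : Att pr G H := by
    refine ⟨fun p hp => ?_, hfun, fun x' y hxy => ?_⟩
    · obtain ⟨z, hz, hp⟩ := (memH p).1 hp
      exact (hm z hz).1.1 p hp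
    · obtain ⟨z, hz, h1⟩ := (memH _).1 hxy
      obtain ⟨h2, h3⟩ := (hm z hz).1.2.2 x' y h1
      refine ⟨fun z' hz' => ?_, ?_⟩
      · obtain ⟨w, hw⟩ := h2 z' hz'
        exact ⟨w, (memH _).2 ⟨z, hz, hw⟩⟩
      · rw [h3]
        congr 1
        apply lam_congr (by fun_prop) (by fun_prop)
        intro z' hz'
        obtain ⟨w, hw⟩ := h2 z' hz'
        rw [(hm z hz).1.app_eq' hw, happ z' w ((memH _).2 ⟨z, hz, hw⟩)]
  by_cases hx : ∃ w : M, opair x w ∈ H
  · exact ⟨H, hatt, hx⟩
  · set H' : M := cup H (sing (opair x (G x (lam (pr x) (app H))))) with hH'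
    have memH' : ∀ a b : M, opair a b ∈ H' ↔ (opair a b ∈ H ∨ (a = x ∧ b = G x (lam (pr x) (app H)))) := by
      intro a b
      rw [hH', mem_cup, mem_sing, opair_inj]
    have hdom : ∀ z : M, z ∈ pr x → ∃ w : M, opair z w ∈ H := by
      intro z hz
      obtain ⟨w, hw⟩ := (hm z hz).2
      exact ⟨w, (memH _).2 ⟨z, hz, hw⟩⟩
    have happ' : ∀ x' y : M, opair x' y ∈ H → app H' x' = app H x' := by
      intro x' y h
      rw [happ x' y h]
      apply app_eq ((memH' _ _).2 (Or.inl h))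
      intro y' h'
      rcases (memH' _ _).1 h' with h' | ⟨rfl, _⟩
      · exact hfun x' y' y h' h
      · exact absurd ⟨y, h⟩ hx
    refine ⟨H', ⟨fun p hp => ?_, ?_, ?_⟩, _, (memH' _ _).2 (Or.inr ⟨rfl, rfl⟩)⟩
    · rw [hH', mem_cup, mem_sing] at hp
      rcases hp with hp | hp
      · exact hatt.1 p hp
      · exact ⟨_, _, hp⟩
    · intro a b b' h1 h2
      rcases (memH' _ _).1 h1 with h1 | ⟨rfl, rfl⟩
      · rcases (memH' _ _).1 h2 with h2 | ⟨rfl, rfl⟩
        · exact hfun a b b' h1 h2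
        · exact absurd ⟨b, h1⟩ hx
      · rcases (memH' _ _).1 h2 with h2 | ⟨_, rfl⟩
        · exact absurd ⟨b', h2⟩ hx
        · rfl
    · intro a b hab
      rcases (memH' _ _).1 hab with h1 | ⟨rfl, rfl⟩
      · obtain ⟨h2, h3⟩ := hatt.2.2 a b h1
        refine ⟨fun z hz => ?_, ?_⟩
        · obtain ⟨w, hw⟩ := h2 z hz
          exact ⟨w, (memH' _ _).2 (Or.inl hw)⟩
        · rw [h3]
          congr 1
          apply lam_congr (by fun_prop) (by fun_prop)
          intro z hz
          obtain ⟨w, hw⟩ := h2 z hz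
          exact (happ' z w hw).symm
      · refine ⟨fun z hz => ?_, ?_⟩
        · obtain ⟨w, hw⟩ := hdom z hz
          exact ⟨w, (memH' _ _).2 (Or.inl hw)⟩
        · congr 1
          apply lam_congr (by fun_prop) (by fun_prop)
          intro z hz
          obtain ⟨w, hw⟩ := hdom z hz
          exact (happ' z w hw).symm

include hpr hG hind in
/-- the recursion equation -/
theorem recF_eq (x : M) : recF pr G x = G x (lam (pr x) (recF pr G)) := by
  have hF := DefF_recF hpr hG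
  have hag := Att.agree hpr hG hind
  have key : ∀ x h y : M, Att pr G h → opair x y ∈ h → recF pr G x = y := by
    intro x h y hh hxy
    apply theD_eq ⟨h, hh, hxy⟩
    rintro y' ⟨h', hh', hxy'⟩
    exact hag x h' h y' y hh' hh hxy' hxy
  obtain ⟨h, hh, y, hxy⟩ := exists_att hpr hG hind x
  rw [key x h y hh hxy]
  obtain ⟨h1, h2⟩ := hh.2.2 x y hxy
  rw [h2]
  congr 1
  apply lam_congr (by fun_prop) (by fun_prop)
  intro z hz
  obtain ⟨w, hw⟩ := h1 z hz
  rw [hh.app_eq' hw, key z h w hh hw]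

end Rec

/-! ### transitive closure and ∈-induction -/

/-- predecessors for recursion on natural numbers -/
noncomputable def omPr (n : M) : M := sepS (om M) (fun k => n = suc k)

theorem mem_omPr {n k : M} : k ∈ omPr n ↔ (k ∈ om M ∧ n = suc k) := by
  rw [omPr, mem_sepS (by fun_prop)]

@[fun_prop]
theorem DefF.omPr : DefF M (omPr (M := M)) := by unfold Pool.Agent.Helper79.ZF.omPr; fun_prop

theorem omPr_ind (Q : M → Prop) (hQ : DefP M Q) (h : ∀ x : M, (∀ y : M, y ∈ omPr x → Q y) → Q x) (x : M) : Q x := by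
  by_cases hx : x ∈ om M
  · refine om_induction hQ ?_ ?_ hx
    · apply h; intro y hy; rw [mem_omPr] at hy
      exact absurd hy.2.symm (suc_ne_emp y)
    · intro n hn hQn
      apply h; intro y hy; rw [mem_omPr] at hy
      rw [← suc_inj hy.2]; exact hQn
  · apply h; intro y hy; rw [mem_omPr] at hy
    exact absurd (hy.2 ▸ suc_mem_om hy.1) hx

/-- the `n`-th layer of the transitive closure -/
noncomputable def tcL (x n : M) : M :=
  recF omPr (fun n f => cup (sepS (sing x) (fun _ => n = emp)) (sU (sU (repS (omPr n) (fun k => app f k))))) n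

theorem tcL_eq (x n : M) : tcL x n = cup (sepS (sing x) (fun _ => n = emp))
    (sU (sU (repS (omPr n) (fun k => tcL x k)))) := by
  unfold tcL
  rw [recF_eq (by fun_prop) (by fun_prop) omPr_ind]
  have hd : DefF M (recF omPr (fun n f => cup (sepS (sing x) (fun _ => n = emp)) (sU (sU (repS (omPr n) (fun k => app f k)))))) :=
    DefF_recF (by fun_prop) (by fun_prop)
  congr 3
  apply ext'
  intro z
  rw [mem_repS (by fun_prop), mem_repS (by fun_prop)]
  constructor
  · rintro ⟨w, hw, rfl⟩; exact ⟨w, hw, by rw [app_lam hd hw]⟩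
  · rintro ⟨w, hw, rfl⟩; exact ⟨w, hw, by rw [app_lam hd hw]⟩

@[fun_prop]
theorem DefF.recF {pr : α → M → M} {G : α → M → M → M} {f : α → M} (hpr : DefF M (fun p : α × M => pr p.1 p.2))
    (hG : DefF M (fun p : α × (M × M) => G p.1 p.2.1 p.2.2)) (hf : DefF M f) :
    DefF M (fun a => recF (pr a) (G a) (f a)) := by
  unfold Pool.Agent.Helper79.ZF.recF Att
  fun_prop

@[fun_prop]
theorem DefF.tcL {f g : α → M} (hf : DefF M f) (hg : DefF M g) : DefF M (fun a => tcL (f a) (g a)) := by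
  unfold Pool.Agent.Helper79.ZF.tcL
  fun_prop

end Pool.Agent.Helper79.ZF
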