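import Pool.Agent.Helper79.ZF.Fun

/-!
# The system of conditions
-/

namespace Pool.Agent.Helper79.ZF

open FirstOrder Set

variable {M : Type} [Membership M M] [ZFModel M]
variable {α β γ : Type} [Ctx M α] [Ctx M β] [Ctx M γ]

variable (M) in
/-- the base set, closed under pairs -/
noncomputable def ZZ : M := V (om M)

/-- pairing on the base set -/
noncomputable def zp (x y : El (ZZ M)) : El (ZZ M) := El.mk (opair x.v y.v) (Vom_opair x.mem y.mem)

@[fun_prop]
theorem zp_def {f g : α → El (ZZ M)} (hf : DefF M f) (hg : DefF M g) : DefF M (fun a => zp (f a) (g a)) := by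
  apply DefF_of_v
  show DefF M (fun a => opair (f a).v (g a).v)
  fun_prop

@[simp] theorem zp_inj {x y x' y' : El (ZZ M)} : zp x y = zp x' y' ↔ (x = x' ∧ y = y') := by
  constructor
  · intro h
    have h := congrArg El.v h
    simp only [zp, El.mk_v, opair_inj] at h
    exact ⟨El.ext h.1, El.ext h.2⟩
  · rintro ⟨rfl, rfl⟩; rfl

/-- numbers as elements of the base set -/
noncomputable def oz (n : El (om M)) : El (ZZ M) := El.mk n.v (om_sub_Vom n.mem)

@[fun_prop]
theorem oz_def {f : α → El (om M)} (hf : DefF M f) : DefF M (fun a => oz (f a)) := by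
  apply DefF_of_v
  show DefF M (fun a => (f a).v)
  fun_prop

@[simp] theorem oz_inj {n m : El (om M)} : oz n = oz m ↔ n = m :=
  ⟨fun h => by have h' := congrArg El.v h; exact El.ext h', fun h => by rw [h]⟩

/-- the number zero -/
noncomputable def o0 : El (om M) := El.mk emp zero_mem_om

/-- successor of numbers -/
noncomputable def oS (n : El (om M)) : El (om M) := El.mk (suc n.v) (suc_mem_om n.mem)

@[fun_prop]
theorem oS_def {f : α → El (om M)} (hf : DefF M f) : DefF M (fun a => oS (f a)) := by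
  apply DefF_of_v
  show DefF M (fun a => suc (f a).v)
  fun_prop

@[simp] theorem oS_inj {n m : El (om M)} : oS n = oS m ↔ n = m :=
  ⟨fun h => El.ext (suc_inj (congrArg El.v h)), fun h => by rw [h]⟩

@[simp] theorem oS_ne (n : El (om M)) : oS n ≠ o0 := fun h => suc_ne_emp _ (congrArg El.v h)

@[simp] theorem ne_oS (n : El (om M)) : o0 ≠ oS n := fun h => suc_ne_emp _ (congrArg El.v h).symm

theorem o_cases (n : El (om M)) : n = o0 ∨ ∃ m, n = oS m := by
  rcases om_cases n.mem with h | ⟨m, hm, h⟩
  · exact Or.inl (El.ext h)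
  · exact Or.inr ⟨El.mk m hm, El.ext h⟩

/-- booleans as elements of the base set -/
noncomputable def bz (b : Bool) : El (ZZ M) := if b then oz (oS o0) else oz o0

@[fun_prop]
theorem bz_def {b : α → Bool} (hb : DefF M b) : DefF M (fun a => (bz (b a) : El (ZZ M))) :=
  DefF.bool hb (DefF_const _) (DefF_const _)

@[simp] theorem bz_inj {b c : Bool} : (bz b : El (ZZ M)) = bz c ↔ b = c := by
  constructor
  · intro h
    cases b <;> cases c <;> simp [bz] at h ⊢
  · intro h; rw [h]

/-! ### injections -/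

variable (M) in
/-- the set of internal injections -/
noncomputable def IZ : M := sepS (Fn (ZZ M) (ZZ M)) (fun f => ∀ g : El (Fn (ZZ M) (ZZ M)), g.v = f →
  ∀ x y, fapp g x = fapp g y → x = y)

theorem mem_IZ {f : M} : f ∈ IZ M ↔ (f ∈ Fn (ZZ M) (ZZ M) ∧ ∀ g : El (Fn (ZZ M) (ZZ M)), g.v = f →
  ∀ x y, fapp g x = fapp g y → x = y) := by
  unfold IZ; rw [mem_sepS (by fun_prop)]

/-- the underlying function of an injection -/
noncomputable def ifn (u : El (IZ M)) : El (Fn (ZZ M) (ZZ M)) := El.mk u.v (mem_IZ.1 u.mem).1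

@[fun_prop]
theorem ifn_def {u : α → El (IZ M)} (hu : DefF M u) : DefF M (fun a => ifn (u a)) := by
  apply DefF_of_v
  show DefF M (fun a => (u a).v)
  fun_prop

/-- application of an injection -/
noncomputable def ia (u : El (IZ M)) (x : El (ZZ M)) : El (ZZ M) := fapp (ifn u) x

@[fun_prop]
theorem ia_def {u : α → El (IZ M)} {x : α → El (ZZ M)} (hu : DefF M u) (hx : DefF M x) : DefF M (fun a => ia (u a) (x a)) := by
  unfold ia; fun_prop

theorem ia_inj (u : El (IZ M)) : Function.Injective (ia u) := fun x y h => (mem_IZ.1 u.mem).2 (ifn u) rfl x y h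

@[simp] theorem ia_inj' {u : El (IZ M)} {x y} : ia u x = ia u y ↔ x = y := (ia_inj u).eq_iff

theorem I_ext {u v : El (IZ M)} (h : ∀ x, ia u x = ia v x) : u = v :=
  by have h' := congrArg El.v (fn_ext (f := ifn u) (g := ifn v) h); exact El.ext h'

/-- make an injection -/
noncomputable def mkI (F : El (ZZ M) → El (ZZ M)) (hF : DefF M F) (hi : Function.Injective F) : El (IZ M) :=
  El.mk (mkFn F hF).v (by
    rw [mem_IZ]
    refine ⟨(mkFn F hF).mem, ?_⟩
    intro g hg x y h
    have : g = mkFn F hF := El.ext hg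
    subst this
    rw [fapp_mkFn, fapp_mkFn] at h
    exact hi h)

@[simp] theorem ia_mkI {F : El (ZZ M) → El (ZZ M)} {hF : DefF M F} {hi : Function.Injective F} (x : El (ZZ M)) :
    ia (mkI F hF hi) x = F x := fapp_mkFn F hF x

@[fun_prop]
theorem mkI_def {F : α → El (ZZ M) → El (ZZ M)} {h : ∀ a, DefF M (F a)} {hi : ∀ a, Function.Injective (F a)}
    (hF : DefF M (fun p : α × El (ZZ M) => F p.1 p.2)) : DefF M (fun a => mkI (F a) (h a) (hi a)) := by
  apply DefF_of (R := fun a g => ∀ x, ia g x = F a x) (by fun_prop)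
  intro a g
  constructor
  · rintro rfl x; rw [ia_mkI]
  · intro h'; exact I_ext (fun x => by rw [ia_mkI, h'])

/-- composition of injections -/
noncomputable def icomp (u v : El (IZ M)) : El (IZ M) := mkI (fun x => ia u (ia v x)) (by fun_prop)
  (fun x y h => by simpa using h)

@[simp] theorem ia_icomp (u v : El (IZ M)) (x : El (ZZ M)) : ia (icomp u v) x = ia u (ia v x) := by
  unfold icomp; rw [ia_mkI]

@[fun_prop]
theorem icomp_def {u v : α → El (IZ M)} (hu : DefF M u) (hv : DefF M v) : DefF M (fun a => icomp (u a) (v a)) := by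
  unfold icomp; fun_prop

/-- identity injection -/
noncomputable def iid : El (IZ M) := mkI (fun x => x) (by fun_prop) (fun x y h => h)

@[simp] theorem ia_iid (x : El (ZZ M)) : ia iid x = x := by unfold iid; rw [ia_mkI]

/-! ### permutations -/

variable (M) in
/-- the set of internal permutations -/
noncomputable def SZ : M := sepS (Fn (ZZ M) (ZZ M)) (fun f => ∀ g : El (Fn (ZZ M) (ZZ M)), g.v = f →
  (∀ x y, fapp g x = fapp g y → x = y) ∧ ∀ y, ∃ x, fapp g x = y)

theorem mem_SZ {f : M} : f ∈ SZ M ↔ (f ∈ Fn (ZZ M) (ZZ M) ∧ ∀ g : El (Fn (ZZ M) (ZZ M)), g.v = f →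
  (∀ x y, fapp g x = fapp g y → x = y) ∧ ∀ y, ∃ x, fapp g x = y) := by
  unfold SZ; rw [mem_sepS (by fun_prop)]

/-- the underlying function of a permutation -/
noncomputable def sfn (u : El (SZ M)) : El (Fn (ZZ M) (ZZ M)) := El.mk u.v (mem_SZ.1 u.mem).1

@[fun_prop]
theorem sfn_def {u : α → El (SZ M)} (hu : DefF M u) : DefF M (fun a => sfn (u a)) := by
  apply DefF_of_v
  show DefF M (fun a => (u a).v)
  fun_prop

/-- application of a permutation -/
noncomputable def sa (u : El (SZ M)) (x : El (ZZ M)) : El (ZZ M) := fapp (sfn u) x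

@[fun_prop]
theorem sa_def {u : α → El (SZ M)} {x : α → El (ZZ M)} (hu : DefF M u) (hx : DefF M x) : DefF M (fun a => sa (u a) (x a)) := by
  unfold sa; fun_prop

theorem sa_inj (u : El (SZ M)) : Function.Injective (sa u) := fun x y h => ((mem_SZ.1 u.mem).2 (sfn u) rfl).1 x y h

theorem sa_surj (u : El (SZ M)) : Function.Surjective (sa u) := fun y => ((mem_SZ.1 u.mem).2 (sfn u) rfl).2 y

@[simp] theorem sa_inj' {u : El (SZ M)} {x y} : sa u x = sa u y ↔ x = y := (sa_inj u).eq_iff

theorem S_ext {u v : El (SZ M)} (h : ∀ x, sa u x = sa v x) : u = v :=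
  by have h' := congrArg El.v (fn_ext (f := sfn u) (g := sfn v) h); exact El.ext h'

/-- make a permutation -/
noncomputable def mkS (F : El (ZZ M) → El (ZZ M)) (hF : DefF M F) (hi : Function.Bijective F) : El (SZ M) :=
  El.mk (mkFn F hF).v (by
    rw [mem_SZ]
    refine ⟨(mkFn F hF).mem, ?_⟩
    intro g hg
    have : g = mkFn F hF := El.ext hg
    subst this
    simp only [fapp_mkFn]
    exact ⟨fun x y h => hi.1 h, fun y => hi.2 y⟩)

@[simp] theorem sa_mkS {F : El (ZZ M) → El (ZZ M)} {hF : DefF M F} {hi : Function.Bijective F} (x : El (ZZ M)) :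
    sa (mkS F hF hi) x = F x := fapp_mkFn F hF x

@[fun_prop]
theorem mkS_def {F : α → El (ZZ M) → El (ZZ M)} {h : ∀ a, DefF M (F a)} {hi : ∀ a, Function.Bijective (F a)}
    (hF : DefF M (fun p : α × El (ZZ M) => F p.1 p.2)) : DefF M (fun a => mkS (F a) (h a) (hi a)) := by
  apply DefF_of (R := fun a g => ∀ x, sa g x = F a x) (by fun_prop)
  intro a g
  constructor
  · rintro rfl x; rw [sa_mkS]
  · intro h'; exact S_ext (fun x => by rw [sa_mkS, h'])

/-- the inverse function of a permutation -/
noncomputable def sinvF (u : El (SZ M)) (y : El (ZZ M)) : El (ZZ M) := (sa_surj u y).choose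

theorem sa_sinvF (u : El (SZ M)) (y : El (ZZ M)) : sa u (sinvF u y) = y := (sa_surj u y).choose_spec

theorem sinvF_sa (u : El (SZ M)) (y : El (ZZ M)) : sinvF u (sa u y) = y := sa_inj u (sa_sinvF u _)

@[fun_prop]
theorem sinvF_def {u : α → El (SZ M)} {y : α → El (ZZ M)} (hu : DefF M u) (hy : DefF M y) :
    DefF M (fun a => sinvF (u a) (y a)) := by
  apply DefF_of (R := fun a x => sa (u a) x = y a) (by fun_prop)
  intro a x
  constructor
  · rintro rfl; exact sa_sinvF _ _
  · intro h; rw [← h]; exact sinvF_sa _ _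

noncomputable instance groupSZ : Group (El (SZ M)) where
  mul g h := mkS (fun x => sa g (sa h x)) (by fun_prop) ⟨fun x y h => by simpa using h, fun y => by
    obtain ⟨x, rfl⟩ := sa_surj g y
    obtain ⟨z, rfl⟩ := sa_surj h x
    exact ⟨z, rfl⟩⟩
  one := mkS (fun x => x) (by fun_prop) ⟨fun x y h => h, fun y => ⟨y, rfl⟩⟩
  inv g := mkS (fun x => sinvF g x) (by fun_prop) ⟨fun x y h => by
    rw [← sa_sinvF g x, ← sa_sinvF g y]; exact congrArg (sa g) h, fun y => ⟨sa g y, sinvF_sa g y⟩⟩
  mul_assoc a b c := S_ext (fun x => by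
    show sa (mkS _ _ _) x = sa (mkS _ _ _) x
    simp only [sa_mkS]
    show sa (mkS _ _ _) (sa c x) = sa a (sa (mkS _ _ _) x)
    simp only [sa_mkS])
  one_mul a := S_ext (fun x => by
    show sa (mkS _ _ _) x = _
    simp only [sa_mkS]
    show sa (mkS _ _ _) _ = _
    simp only [sa_mkS])
  mul_one a := S_ext (fun x => by
    show sa (mkS _ _ _) x = _
    simp only [sa_mkS]
    show sa _ (sa (mkS _ _ _) _) = _
    simp only [sa_mkS])
  inv_mul_cancel a := S_ext (fun x => by
    show sa (mkS _ _ _) x = sa (mkS _ _ _) x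
    simp only [sa_mkS, sinvF_sa])

@[simp] theorem sa_mul (g h : El (SZ M)) (x : El (ZZ M)) : sa (g * h) x = sa g (sa h x) := sa_mkS x

@[simp] theorem sa_one (x : El (ZZ M)) : sa (1 : El (SZ M)) x = x := sa_mkS x

@[simp] theorem sa_inv (g : El (SZ M)) (x : El (ZZ M)) : sa g (sa g⁻¹ x) = x := by
  rw [← sa_mul, mul_inv_cancel, sa_one]

@[simp] theorem sa_inv' (g : El (SZ M)) (x : El (ZZ M)) : sa g⁻¹ (sa g x) = x := by
  rw [← sa_mul, inv_mul_cancel, sa_one]

@[fun_prop]
theorem smul_def' {g h : α → El (SZ M)} (hg : DefF M g) (hh : DefF M h) : DefF M (fun a => g a * h a) := by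
  apply DefF_of (R := fun a k => ∀ x, sa k x = sa (g a) (sa (h a) x)) (by fun_prop)
  intro a k
  constructor
  · rintro rfl x; rw [sa_mul]
  · intro h'; exact S_ext (fun x => by rw [sa_mul, h'])

@[fun_prop]
theorem sinv_def' {g : α → El (SZ M)} (hg : DefF M g) : DefF M (fun a => (g a)⁻¹) := by
  apply DefF_of (R := fun a k => ∀ x, sa (g a) (sa k x) = x) (by fun_prop)
  intro a k
  constructor
  · rintro rfl x; rw [sa_inv]
  · intro h'; exact S_ext (fun x => sa_inj (g a) (by rw [sa_inv, h']))

/-! ### pushing forward permutations along injections -/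

open Classical in
/-- values of the pushed forward permutation -/
noncomputable def pushF (u : El (IZ M)) (g : El (SZ M)) (x : El (ZZ M)) : El (ZZ M) :=
  if h : ∃ z, ia u z = x then ia u (sa g h.choose) else x

theorem pushF_im (u : El (IZ M)) (g : El (SZ M)) (z : El (ZZ M)) : pushF u g (ia u z) = ia u (sa g z) := by
  have h : ∃ z', ia u z' = ia u z := ⟨z, rfl⟩
  unfold pushF
  rw [dif_pos h, ia_inj u h.choose_spec]

theorem pushF_off {u : El (IZ M)} {g : El (SZ M)} {x : El (ZZ M)} (h : ∀ z, ia u z ≠ x) : pushF u g x = x := by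
  unfold pushF
  rw [dif_neg (by push Not; exact h)]

@[fun_prop]
theorem pushF_def {u : α → El (IZ M)} {g : α → El (SZ M)} {x : α → El (ZZ M)} (hu : DefF M u) (hg : DefF M g)
    (hx : DefF M x) : DefF M (fun a => pushF (u a) (g a) (x a)) := by
  apply DefF_of (R := fun a y => (∃ z, ia (u a) z = x a ∧ y = ia (u a) (sa (g a) z)) ∨
    ((∀ z, ia (u a) z ≠ x a) ∧ y = x a)) (by fun_prop)
  intro a y
  by_cases h : ∃ z, ia (u a) z = x a
  · obtain ⟨z, hz⟩ := h
    rw [← hz, pushF_im]
    constructor
    · rintro rfl; exact Or.inl ⟨z, rfl, rfl⟩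
    · rintro (⟨z', h1, h2⟩ | ⟨h1, _⟩)
      · rw [ia_inj _ h1] at h2; exact h2.symm
      · exact absurd rfl (h1 z)
  · push Not at h
    rw [pushF_off h]
    constructor
    · rintro rfl; exact Or.inr ⟨h, rfl⟩
    · rintro (⟨z', h1, _⟩ | ⟨_, h1⟩)
      · exact absurd h1 (h z')
      · exact h1.symm

/-- the pushed forward permutation -/
noncomputable def push (u : El (IZ M)) (g : El (SZ M)) : El (SZ M) := mkS (pushF u g) (by fun_prop) (by
  constructor
  · intro x y h
    by_cases hx : ∃ z, ia u z = x <;> by_cases hy : ∃ z, ia u z = y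
    · obtain ⟨z, rfl⟩ := hx
      obtain ⟨w, rfl⟩ := hy
      rw [pushF_im, pushF_im, ia_inj', sa_inj'] at h
      rw [h]
    · obtain ⟨z, rfl⟩ := hx
      push Not at hy
      rw [pushF_im, pushF_off hy] at h
      exact absurd h (hy _)
    · obtain ⟨z, rfl⟩ := hy
      push Not at hx
      rw [pushF_im, pushF_off hx] at h
      exact absurd h.symm (hx _)
    · push Not at hx hy
      rwa [pushF_off hx, pushF_off hy] at h
  · intro y
    by_cases hy : ∃ z, ia u z = y
    · obtain ⟨z, rfl⟩ := hy
      obtain ⟨w, rfl⟩ := sa_surj g z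
      exact ⟨ia u w, pushF_im u g w⟩
    · push Not at hy
      exact ⟨y, pushF_off hy⟩)

@[fun_prop]
theorem push_def {u : α → El (IZ M)} {g : α → El (SZ M)} (hu : DefF M u) (hg : DefF M g) :
    DefF M (fun a => push (u a) (g a)) := by
  unfold push; fun_prop

@[simp] theorem push_im (u : El (IZ M)) (g : El (SZ M)) (z : El (ZZ M)) : sa (push u g) (ia u z) = ia u (sa g z) := by
  unfold push; rw [sa_mkS, pushF_im]

theorem push_off {u : El (IZ M)} {g : El (SZ M)} {x : El (ZZ M)} (h : ∀ z, ia u z ≠ x) : sa (push u g) x = x := by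
  unfold push; rw [sa_mkS, pushF_off h]

theorem push_mul (u : El (IZ M)) (g h : El (SZ M)) : push u (g * h) = push u g * push u h := by
  apply S_ext
  intro x
  rw [sa_mul]
  by_cases hx : ∃ z, ia u z = x
  · obtain ⟨z, rfl⟩ := hx
    simp
  · push Not at hx
    rw [push_off hx, push_off hx, push_off hx]

theorem push_one (u : El (IZ M)) : push u (1 : El (SZ M)) = 1 := by
  have h := push_mul u (1 : El (SZ M)) 1
  rw [mul_one] at h
  exact (mul_eq_left.1 h.symm)

theorem push_inv (u : El (IZ M)) (g : El (SZ M)) : push u g⁻¹ = (push u g)⁻¹ := by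
  apply eq_inv_of_mul_eq_one_left
  rw [← push_mul, inv_mul_cancel, push_one]

theorem push_comp (u v : El (IZ M)) (g : El (SZ M)) : push (icomp u v) g = push u (push v g) := by
  apply S_ext
  intro x
  by_cases hx : ∃ z, ia u z = x
  · obtain ⟨z, rfl⟩ := hx
    rw [push_im]
    by_cases hz : ∃ w, ia v w = z
    · obtain ⟨w, rfl⟩ := hz
      rw [push_im, ← ia_icomp, push_im, ia_icomp]
    · push Not at hz
      rw [push_off hz]
      apply push_off
      intro w hw
      rw [ia_icomp, ia_inj'] at hw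
      exact hz w hw
  · push Not at hx
    rw [push_off hx]
    apply push_off
    intro w hw
    rw [ia_icomp] at hw
    exact hx _ hw

@[simp] theorem push_iid (g : El (SZ M)) : push iid g = g := by
  apply S_ext
  intro x
  have := push_im iid g x
  simpa using this

theorem push_inj {u : El (IZ M)} {g h : El (SZ M)} (e : push u g = push u h) : g = h := by
  apply S_ext
  intro x
  apply ia_inj u
  rw [← push_im, ← push_im, e]

/-! ### conditions -/

variable (M) in
/-- the set of conditions -/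
noncomputable def PZ : M := prodS (Fn (ZZ M) (SZ M)) (prodS (om M) (Fn (ZZ M) (pow (om M))))

variable (M) in
/-- the set of renamings -/
noncomputable def AZ : M := prodS (IZ M) (IZ M)

/-- group elements of a condition -/
noncomputable def pa (p : El (PZ M)) (i : El (ZZ M)) : El (SZ M) := fapp (pr1 (B := prodS (om M) (Fn (ZZ M) (pow (om M)))) p) i

/-- height of a condition -/
noncomputable def pm (p : El (PZ M)) : El (om M) :=
  pr1 (B := Fn (ZZ M) (pow (om M))) (pr2 (A := Fn (ZZ M) (SZ M)) p)

/-- real approximations of a condition -/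
noncomputable def ps (p : El (PZ M)) (i : El (ZZ M)) : El (pow (om M)) :=
  fapp (pr2 (A := om M) (B := Fn (ZZ M) (pow (om M))) (pr2 (A := Fn (ZZ M) (SZ M)) p)) i

@[fun_prop]
theorem pa_def {p : α → El (PZ M)} {i : α → El (ZZ M)} (hp : DefF M p) (hi : DefF M i) : DefF M (fun a => pa (p a) (i a)) := by
  unfold pa
  have : DefF M (fun a => pr1 (B := prodS (om M) (Fn (ZZ M) (pow (om M)))) (p a)) := pr1_def hp
  fun_prop

@[fun_prop]
theorem pm_def {p : α → El (PZ M)} (hp : DefF M p) : DefF M (fun a => pm (p a)) := by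
  unfold pm
  have : DefF M (fun a => pr2 (A := Fn (ZZ M) (SZ M)) (p a)) := pr2_def hp
  exact pr1_def this

@[fun_prop]
theorem ps_def {p : α → El (PZ M)} {i : α → El (ZZ M)} (hp : DefF M p) (hi : DefF M i) : DefF M (fun a => ps (p a) (i a)) := by
  unfold ps
  have : DefF M (fun a => pr2 (A := Fn (ZZ M) (SZ M)) (p a)) := pr2_def hp
  have : DefF M (fun a => pr2 (A := om M) (B := Fn (ZZ M) (pow (om M))) (pr2 (A := Fn (ZZ M) (SZ M)) (p a))) := pr2_def this
  fun_prop

/-- make a condition -/
noncomputable def mkP (a : El (ZZ M) → El (SZ M)) (ha : DefF M a) (m : El (om M)) (s : El (ZZ M) → El (pow (om M)))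
    (hs : DefF M s) : El (PZ M) := mkp (mkFn a ha) (mkp m (mkFn s hs))

@[simp] theorem pa_mkP {a : El (ZZ M) → El (SZ M)} {ha : DefF M a} {m : El (om M)} {s : El (ZZ M) → El (pow (om M))}
    {hs : DefF M s} (i : El (ZZ M)) : pa (mkP a ha m s hs) i = a i := by
  unfold pa mkP
  rw [pr1_mkp, fapp_mkFn]

@[simp] theorem pm_mkP {a : El (ZZ M) → El (SZ M)} {ha : DefF M a} {m : El (om M)} {s : El (ZZ M) → El (pow (om M))}
    {hs : DefF M s} : pm (mkP a ha m s hs) = m := by
  unfold pm mkP
  rw [pr2_mkp, pr1_mkp]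

@[simp] theorem ps_mkP {a : El (ZZ M) → El (SZ M)} {ha : DefF M a} {m : El (om M)} {s : El (ZZ M) → El (pow (om M))}
    {hs : DefF M s} (i : El (ZZ M)) : ps (mkP a ha m s hs) i = s i := by
  unfold ps mkP
  rw [pr2_mkp, pr2_mkp, fapp_mkFn]

/-- order of numbers -/
def olt (n m : El (om M)) : Prop := n.v ∈ m.v

@[fun_prop]
theorem olt_def {n m : α → El (om M)} (hn : DefF M n) (hm : DefF M m) : DefP M (fun a => olt (n a) (m a)) := by
  unfold olt; fun_prop

/-- the `u` part of a renaming -/
noncomputable def au (f : El (AZ M)) : El (IZ M) := pr1 (B := IZ M) f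

/-- the `v` part of a renaming -/
noncomputable def av (f : El (AZ M)) : El (IZ M) := pr2 (A := IZ M) f

/-- make a renaming -/
noncomputable def mkA (u v : El (IZ M)) : El (AZ M) := mkp u v

@[simp] theorem au_mkA (u v : El (IZ M)) : au (mkA u v) = u := pr1_mkp u v
@[simp] theorem av_mkA (u v : El (IZ M)) : av (mkA u v) = v := pr2_mkp u v
theorem A_ext {f g : El (AZ M)} (h1 : au f = au g) (h2 : av f = av g) : f = g := prod_ext h1 h2

@[fun_prop]
theorem au_def {f : α → El (AZ M)} (hf : DefF M f) : DefF M (fun a => au (f a)) := pr1_def hf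
@[fun_prop]
theorem av_def {f : α → El (AZ M)} (hf : DefF M f) : DefF M (fun a => av (f a)) := pr2_def hf
@[fun_prop]
theorem mkA_def {f g : α → El (IZ M)} (hf : DefF M f) (hg : DefF M g) : DefF M (fun a => mkA (f a) (g a)) := mkp_def hf hg

noncomputable instance monoidAZ : Monoid (El (AZ M)) where
  mul f g := mkA (icomp (au g) (au f)) (icomp (av g) (av f))
  one := mkA iid iid
  mul_assoc f g h := by
    show mkA _ _ = mkA _ _
    congr 1
    · apply I_ext; intro x
      show ia (icomp _ (au (mkA _ _))) x = ia (icomp (au (mkA _ _)) _) x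
      simp
    · apply I_ext; intro x
      show ia (icomp _ (av (mkA _ _))) x = ia (icomp (av (mkA _ _)) _) x
      simp
  one_mul f := by
    apply A_ext
    · apply I_ext; intro x
      show ia (au (mkA (icomp _ (au (mkA _ _))) _)) x = _
      simp
    · apply I_ext; intro x
      show ia (av (mkA _ (icomp _ (av (mkA _ _))))) x = _
      simp
  mul_one f := by
    apply A_ext
    · apply I_ext; intro x
      show ia (au (mkA (icomp (au (mkA _ _)) _) _)) x = _
      simp
    · apply I_ext; intro x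
      show ia (av (mkA _ (icomp (av (mkA _ _)) _))) x = _
      simp

@[simp] theorem au_mul (f g : El (AZ M)) : au (f * g) = icomp (au g) (au f) := au_mkA _ _
@[simp] theorem av_mul (f g : El (AZ M)) : av (f * g) = icomp (av g) (av f) := av_mkA _ _
@[simp] theorem au_one : au (1 : El (AZ M)) = iid := au_mkA _ _
@[simp] theorem av_one : av (1 : El (AZ M)) = iid := av_mkA _ _

@[fun_prop]
theorem amul_def {f g : α → El (AZ M)} (hf : DefF M f) (hg : DefF M g) : DefF M (fun a => f a * g a) := by
  have : (fun a => f a * g a) = fun a => mkA (icomp (au (g a)) (au (f a))) (icomp (av (g a)) (av (f a))) := by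
    funext a; apply A_ext <;> simp
  rw [this]
  fun_prop

/-- morphisms of conditions -/
def VZ (q : El (PZ M)) (f : El (AZ M)) (p : El (PZ M)) : Prop :=
  (∀ i, pa q (ia (av f) i) = push (au f) (pa p i)) ∧ (∀ n, olt n (pm p) → olt n (pm q)) ∧
    ∀ n, olt n (pm p) → ∀ i, (smem n (ps q (ia (av f) i)) ↔ smem n (ps p i))

@[fun_prop]
theorem VZ_def {q : α → El (PZ M)} {f : α → El (AZ M)} {p : α → El (PZ M)} (hq : DefF M q) (hf : DefF M f) (hp : DefF M p) :
    DefP M (fun a => VZ (q a) (f a) (p a)) := by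
  unfold VZ; fun_prop

variable (M) in
/-- the forcing data -/
noncomputable abbrev DZ : FData M where
  P := PZ M
  A := AZ M
  mon := monoidAZ
  mul_def := by fun_prop
  V := VZ
  V_def := by fun_prop
  V_one := by
    intro p
    refine ⟨fun i => ?_, fun n h => h, fun n _ i => ?_⟩ <;> simp
  V_mul := by
    rintro r g q f p ⟨h1, h2, h3⟩ ⟨h4, h5, h6⟩
    refine ⟨fun i => ?_, fun n h => h2 n (h5 n h), fun n h i => ?_⟩
    · rw [av_mul, ia_icomp, h1, h4, au_mul, push_comp]
    · rw [av_mul, ia_icomp, h3 n (h5 n h), h6 n h]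

end Pool.Agent.Helper79.ZF
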