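import Pool.Agent.Helper79.ZF.Ext

/-!
# The forcing theorem
-/

namespace Pool.Agent.Helper79.ZF

open FirstOrder Set

variable {M : Type} [Membership M M] [ZFModel M]
variable {α β γ : Type} [Ctx M α] [Ctx M β] [Ctx M γ]

namespace FData

variable {D : FData M} (C : GChain D) {κ : Type} [Finite κ]

/-- renaming of tuples -/
def renV (v : κ → D.VN) (g : D.AA) : κ → D.VN := fun i => ren (v i) g

/-- value of tuples -/
def valV (n : ℕ) (v : κ → D.VN) : κ → Ext C := fun i => val C n (v i)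

omit [Finite κ] in
@[simp] theorem renV_apply (v : κ → D.VN) (g : D.AA) (i : κ) : renV v g i = ren (v i) g := rfl

omit [Finite κ] in
@[simp] theorem valV_apply (n : ℕ) (v : κ → D.VN) (i : κ) : valV C n v i = val C n (v i) := rfl

@[fun_prop]
theorem renV_def {v : α → κ → D.VN} {g : α → D.AA} (hv : DefF M v) (hg : DefF M g) :
    DefF M (fun a => renV (v a) (g a)) := by
  unfold renV
  apply DefF_pi
  intro k
  have : DefF M (fun a => v a k) := DefF_comp (g := fun v : κ → D.VN => v k) (DefF_apply k) hv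
  fun_prop

omit [Finite κ] in
@[simp] theorem renV_one (v : κ → D.VN) : renV v 1 = v := by
  funext i; simp

omit [Finite κ] in
theorem renV_renV (v : κ → D.VN) (f g : D.AA) : renV (renV v f) g = renV v (f * g) := by
  funext i; simp [ren_ren]

omit [Finite κ] in
theorem GChain.F_compV {n m l : ℕ} (h1 : n ≤ m) (h2 : m ≤ l) (X : κ → D.VN) :
    renV (renV X (C.F n m)) (C.F m l) = renV X (C.F n l) := by
  rw [renV_renV, C.hFm n m l h1 h2]

omit [Finite κ] in
variable {C} in
theorem valV_ren {n m : ℕ} (h : n ≤ m) (X : κ → D.VN) : valV C m (renV X (C.F n m)) = valV C n X := by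
  funext i
  exact val_ren h (X i)

/-- Predicates on the extension whose truth is decided by a definable forcing relation,
with parameters living at stage `n0`. -/
def Fr (n0 : ℕ) (R : (κ → Ext C) → Prop) : Prop :=
  ∃ Fo : D.PP → D.AA → (κ → D.VN) → Prop,
    DefP M (fun t : D.PP × (D.AA × (κ → D.VN)) => Fo t.1 t.2.1 t.2.2) ∧
    (∀ p q f g v, D.V q g p → Fo p f v → Fo q (f * g) (renV v g)) ∧
    (∀ p f v, (∀ q g, D.V q g p → ∃ r k, D.V r k q ∧ Fo r (f * g * k) (renV (renV v g) k)) → Fo p f v) ∧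
    (∀ n, n0 ≤ n → ∀ v, R (valV C n v) ↔ ∃ m, n ≤ m ∧ Fo (C.p m) (C.F n0 m) (renV v (C.F n m)))

/-- Terms on the extension given by a definable operation on names. -/
def FrT (n0 : ℕ) (t : (κ → Ext C) → Ext C) : Prop :=
  ∃ T : D.AA → (κ → D.VN) → D.VN,
    DefF M (fun u : D.AA × (κ → D.VN) => T u.1 u.2) ∧
    (∀ f g v, T (f * g) (renV v g) = ren (T f v) g) ∧
    (∀ n, n0 ≤ n → ∀ v, t (valV C n v) = val C n (T (C.F n0 n) v))

variable {C}

theorem Fr.shift {n0 n1 : ℕ} (h : n0 ≤ n1) {R : (κ → Ext C) → Prop} (hR : Fr C n0 R) : Fr C n1 R := by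
  obtain ⟨Fo, h1, h2, h3, h4⟩ := hR
  refine ⟨fun p f v => Fo p (C.F n0 n1 * f) v, ?_, ?_, ?_, ?_⟩
  · fun_prop
  · intro p q f g v hq h5
    have := h2 p q _ g v hq h5
    rwa [mul_assoc] at this
  · intro p f v h5
    apply h3
    intro q g hq
    obtain ⟨r, k, hr, h6⟩ := h5 q g hq
    refine ⟨r, k, hr, ?_⟩
    simpa only [mul_assoc] using h6
  · intro n hn v
    rw [h4 n (h.trans hn) v]
    constructor
    · rintro ⟨m, hm, h5⟩; exact ⟨m, hm, by beta_reduce; rw [C.hFm _ _ _ h (hn.trans hm)]; exact h5⟩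
    · rintro ⟨m, hm, h5⟩; exact ⟨m, hm, by rw [C.hFm _ _ _ h (hn.trans hm)] at h5; exact h5⟩

theorem FrT.shift {n0 n1 : ℕ} (h : n0 ≤ n1) {t : (κ → Ext C) → Ext C} (hR : FrT C n0 t) : FrT C n1 t := by
  obtain ⟨T, h1, h2, h3⟩ := hR
  refine ⟨fun f v => T (C.F n0 n1 * f) v, ?_, ?_, ?_⟩
  · fun_prop
  · intro f g v
    show T (C.F n0 n1 * (f * g)) (renV v g) = _
    rw [← mul_assoc]
    exact h2 _ g v
  · intro n hn v
    show _ = val C n (T (C.F n0 n1 * C.F n1 n) v)
    rw [h3 n (h.trans hn) v, C.hFm _ _ _ h hn]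

theorem FrT.var (n0 : ℕ) (i : κ) : FrT C n0 (fun v => v i) :=
  ⟨fun _ v => v i, by fun_prop, fun _ _ _ => rfl, fun _ _ _ => rfl⟩

theorem FrT.const (c : Ext C) : ∃ n0, FrT C n0 (fun _ : κ → Ext C => c) := by
  obtain ⟨n, X, rfl⟩ := exists_val c
  exact ⟨n, fun f _ => ren X f, by fun_prop, fun f g _ => (ren_ren X f g).symm,
    fun m hm _ => (val_ren hm X).symm⟩

theorem Fr.eq {n0 : ℕ} {t t' : (κ → Ext C) → Ext C} (ht : FrT C n0 t) (ht' : FrT C n0 t') :
    Fr C n0 (fun v => t v = t' v) := by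
  obtain ⟨T, h1, h2, h3⟩ := ht
  obtain ⟨T', h1', h2', h3'⟩ := ht'
  refine ⟨fun p f v => NEq p (T f v) (T' f v), by fun_prop, ?_, ?_, ?_⟩
  · intro p q f g v hq h
    rw [h2, h2']
    exact h.mono hq
  · intro p f v h
    apply NEq.dense
    intro q g hq
    obtain ⟨r, k, hr, h4⟩ := h q g hq
    refine ⟨r, k, hr, ?_⟩
    rw [← h2, ← h2, ← h2', ← h2']
    exact h4
  · intro n hn v
    beta_reduce
    rw [h3 n hn v, h3' n hn v, val_eq]
    constructor
    · rintro ⟨m, hm, h⟩
      refine ⟨m, hm, ?_⟩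
      rw [← C.hFm _ _ _ hn hm, h2, h2']
      exact h
    · rintro ⟨m, hm, h⟩
      rw [← C.hFm _ _ _ hn hm, h2, h2'] at h
      exact ⟨m, hm, h⟩

theorem Fr.mem {n0 : ℕ} {t t' : (κ → Ext C) → Ext C} (ht : FrT C n0 t) (ht' : FrT C n0 t') :
    Fr C n0 (fun v => t v ∈ t' v) := by
  obtain ⟨T, h1, h2, h3⟩ := ht
  obtain ⟨T', h1', h2', h3'⟩ := ht'
  refine ⟨fun p f v => NMem p (T f v) (T' f v), by fun_prop, ?_, ?_, ?_⟩
  · intro p q f g v hq h
    rw [h2, h2']
    exact h.mono hq
  · intro p f v h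
    apply NMem.dense
    intro q g hq
    obtain ⟨r, k, hr, h4⟩ := h q g hq
    refine ⟨r, k, hr, ?_⟩
    rw [← h2, ← h2, ← h2', ← h2']
    exact h4
  · intro n hn v
    beta_reduce
    rw [h3 n hn v, h3' n hn v, val_mem]
    constructor
    · rintro ⟨m, hm, h⟩
      refine ⟨m, hm, ?_⟩
      rw [← C.hFm _ _ _ hn hm, h2, h2']
      exact h
    · rintro ⟨m, hm, h⟩
      rw [← C.hFm _ _ _ hn hm, h2, h2'] at h
      exact ⟨m, hm, h⟩

theorem Fr.fls (n0 : ℕ) : Fr C n0 (fun _ : κ → Ext C => False) := by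
  refine ⟨fun _ _ _ => False, DefP.const _, fun _ _ _ _ _ _ h => h, ?_, ?_⟩
  · intro p f v h
    obtain ⟨r, k, _, h⟩ := h p 1 (D.V_one p)
    exact h
  · intro n _ v
    simp

theorem Fr.imp {n0 : ℕ} {R S : (κ → Ext C) → Prop} (hR : Fr C n0 R) (hS : Fr C n0 S) :
    Fr C n0 (fun v => R v → S v) := by
  obtain ⟨F1, h1, h2, h3, h4⟩ := hR
  obtain ⟨F2, h1', h2', h3', h4'⟩ := hS
  refine ⟨fun p f v => ∀ q g, D.V q g p → F1 q (f * g) (renV v g) → F2 q (f * g) (renV v g), by fun_prop, ?_, ?_, ?_⟩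
  · intro p q f g v hq h r k hr h5
    simp only [mul_assoc, renV_renV] at h5 ⊢
    exact h r (g * k) (D.V_mul hr hq) h5
  · intro p f v h q g hq h5
    apply h3'
    intro r k hr
    obtain ⟨s, l, hs, h6⟩ := h r (g * k) (D.V_mul hr hq)
    refine ⟨s, l, hs, ?_⟩
    have h7 := h6 s 1 (D.V_one s)
    simp only [mul_assoc, renV_renV, mul_one] at h7 ⊢
    apply h7
    have h8 := h2 _ _ _ (k * l) _ (D.V_mul hs hr) h5
    simpa only [mul_assoc, renV_renV] using h8
  · intro n hn v
    simp only [h4 n hn v, h4' n hn v]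
    constructor
    · intro h
      obtain ⟨m, hm, h5⟩ := C.gen n (fun q g =>
        (∀ r k, D.V r k q → F1 r (C.F n0 n * g * k) (renV (renV v g) k) → F2 r (C.F n0 n * g * k) (renV (renV v g) k)) ∨
        (F1 q (C.F n0 n * g) (renV v g) ∧ ∀ r k, D.V r k q → ¬ F2 r (C.F n0 n * g * k) (renV (renV v g) k)))
        (by fun_prop) (by
          intro q g hq
          by_cases h6 : ∀ r k, D.V r k q → F1 r (C.F n0 n * g * k) (renV (renV v g) k) → F2 r (C.F n0 n * g * k) (renV (renV v g) k)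
          · exact ⟨q, 1, D.V_one q, Or.inl (by rw [mul_one]; exact h6)⟩
          · push Not at h6
            obtain ⟨r, k, hr, h7, h8⟩ := h6
            by_contra h9
            apply h8
            apply h3'
            intro s l hs
            by_contra h10
            push Not at h10
            apply h9
            refine ⟨s, k * l, D.V_mul hs hr, Or.inr ⟨?_, ?_⟩⟩
            · have := h2 _ _ _ _ _ hs h7
              simpa only [mul_assoc, renV_renV] using this
            · intro t m ht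
              have := h10 t m ht
              simpa only [mul_assoc, renV_renV] using this)
      rcases h5 with h5 | ⟨h5, h6⟩
      · refine ⟨m, hm, ?_⟩
        rw [C.hFm _ _ _ hn hm] at h5
        exact h5
      · rw [C.hFm _ _ _ hn hm] at h5 h6
        obtain ⟨m', hm', h7⟩ := h ⟨m, hm, h5⟩
        exfalso
        have h8 := h2' _ _ _ _ _ (C.hV m' (max m m') (le_max_right _ _)) h7
        rw [C.hFm _ _ _ (hn.trans hm') (le_max_right _ _)] at h8
        rw [C.F_compV hm' (le_max_right m m')] at h8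
        have h9 := h6 _ _ (C.hV m (max m m') (le_max_left _ _))
        rw [C.hFm _ _ _ (hn.trans hm) (le_max_left _ _)] at h9
        rw [C.F_compV hm (le_max_left m m')] at h9
        exact h9 h8
    · rintro ⟨m, hm, h5⟩ ⟨m', hm', h6⟩
      refine ⟨max m m', hm.trans (le_max_left _ _), ?_⟩
      have h7 := h2 _ _ _ _ _ (C.hV m' (max m m') (le_max_right _ _)) h6
      rw [C.hFm _ _ _ (hn.trans hm') (le_max_right _ _)] at h7
      rw [C.F_compV hm' (le_max_right m m')] at h7
      have h8 := h5 _ _ (C.hV m (max m m') (le_max_left _ _))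
      rw [C.hFm _ _ _ (hn.trans hm) (le_max_left _ _)] at h8
      rw [C.F_compV hm (le_max_left m m')] at h8
      exact h8 h7

/-- extend a tuple by a last coordinate -/
def snocV {δ : Type} {ξ : Type} {n : ℕ} (v : (ξ ⊕ Fin n) → δ) (x : δ) : (ξ ⊕ Fin (n + 1)) → δ :=
  Sum.elim (fun i => v (Sum.inl i)) (Fin.snoc (fun i => v (Sum.inr i)) x)

@[fun_prop]
theorem snocV_def {ξ : Type} [Finite ξ] {n : ℕ} {v : α → (ξ ⊕ Fin n) → β} {x : α → β} (hv : DefF M v) (hx : DefF M x) :
    DefF M (fun a => snocV (v a) (x a)) := by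
  apply DefF_pi
  intro k
  have hk : ∀ k, DefF M (fun a => v a k) := fun k => DefF_comp (g := fun v : (ξ ⊕ Fin n) → β => v k) (DefF_apply k) hv
  rcases k with i | i
  · exact hk _
  · unfold snocV
    simp only [Sum.elim_inr]
    refine Fin.lastCases ?_ (fun i => ?_) i
    · simpa using hx
    · simpa using hk _

theorem renV_snocV {ξ : Type} {n : ℕ} (v : (ξ ⊕ Fin n) → D.VN) (x : D.VN) (g : D.AA) :
    renV (snocV v x) g = snocV (renV v g) (ren x g) := by
  funext i
  rcases i with i | i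
  · rfl
  · refine Fin.lastCases ?_ (fun i => ?_) i
    · simp [snocV]
    · simp [snocV]

theorem valV_snocV {ξ : Type} {n : ℕ} (v : (ξ ⊕ Fin n) → D.VN) (x : D.VN) (m : ℕ) :
    valV C m (snocV v x) = snocV (valV C m v) (val C m x) := by
  funext i
  rcases i with i | i
  · rfl
  · refine Fin.lastCases ?_ (fun i => ?_) i
    · simp [snocV]
    · simp [snocV]

theorem Fr.all {ξ : Type} [Finite ξ] {k0 n0 : ℕ} {R : ((ξ ⊕ Fin (k0+1)) → Ext C) → Prop} (hR : Fr C n0 R) :
    Fr C n0 (fun v : (ξ ⊕ Fin k0) → Ext C => ∀ x, R (snocV v x)) := by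
  obtain ⟨F1, h1, h2, h3, h4⟩ := hR
  refine ⟨fun p f v => ∀ q g, D.V q g p → ∀ X : D.VN, F1 q (f * g) (snocV (renV v g) X), by fun_prop, ?_, ?_, ?_⟩
  · intro p q f g v hq h r k hr X
    simp only [mul_assoc, renV_renV]
    exact h r (g * k) (D.V_mul hr hq) X
  · intro p f v h q g hq X
    apply h3
    intro r k hr
    obtain ⟨s, l, hs, h6⟩ := h r (g * k) (D.V_mul hr hq)
    refine ⟨s, l, hs, ?_⟩
    have h7 := h6 s 1 (D.V_one s) (ren (ren X k) l)
    simp only [mul_assoc, renV_renV, mul_one, renV_snocV, ren_ren] at h7 ⊢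
    exact h7
  · intro n hn v
    beta_reduce
    constructor
    · intro h
      obtain ⟨m, hm, h5⟩ := C.gen n (fun q g =>
        (∀ r k, D.V r k q → ∀ X : D.VN, F1 r (C.F n0 n * g * k) (snocV (renV (renV v g) k) X)) ∨
        (∃ X : D.VN, ∀ r k, D.V r k q → ¬ F1 r (C.F n0 n * g * k) (renV (snocV (renV v g) X) k)))
        (by fun_prop) (by
          intro q g hq
          by_cases h6 : ∀ r k, D.V r k q → ∀ X : D.VN, F1 r (C.F n0 n * g * k) (snocV (renV (renV v g) k) X)
          · exact ⟨q, 1, D.V_one q, Or.inl (by rw [mul_one]; exact h6)⟩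
          · push Not at h6
            obtain ⟨r, k, hr, X, h8⟩ := h6
            by_contra h9
            apply h8
            apply h3
            intro s l hs
            by_contra h10
            push Not at h10
            apply h9
            refine ⟨s, k * l, D.V_mul hs hr, Or.inr ⟨ren X l, ?_⟩⟩
            intro t m ht
            have := h10 t m ht
            simpa only [mul_assoc, renV_renV, renV_snocV, ren_ren] using this)
      rcases h5 with h5 | ⟨X, h5⟩
      · refine ⟨m, hm, ?_⟩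
        rw [C.hFm _ _ _ hn hm] at h5
        exact h5
      · exfalso
        rw [C.hFm _ _ _ hn hm] at h5
        have h6 := h (val C m X)
        rw [← valV_ren hm v, ← valV_snocV, h4 m (hn.trans hm)] at h6
        obtain ⟨l, hl, h7⟩ := h6
        have h8 := h5 _ _ (C.hV m l hl)
        rw [C.hFm _ _ _ (hn.trans hm) hl] at h8
        exact h8 h7
    · rintro ⟨m, hm, h5⟩ x
      obtain ⟨l, X, hl, rfl⟩ := exists_val_ge x m
      rw [← valV_ren (hm.trans hl) v, ← valV_snocV, h4 l (hn.trans (hm.trans hl))]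
      refine ⟨l, le_refl _, ?_⟩
      have h6 := h5 _ _ (C.hV m l hl) X
      rw [C.hFm _ _ _ (hn.trans hm) hl, C.F_compV hm hl] at h6
      rw [C.hF0, renV_one]
      exact h6

/-- the language with constants for all elements of the extension -/
abbrev LN (C : GChain D) : Language := LSet[[(Set.univ : Set (Ext C))]]

theorem FrT.term {ξ : Type} [Finite ξ] {k0 : ℕ} (t : (LN C).Term (ξ ⊕ Fin k0)) :
    ∃ n0, FrT C n0 (fun w : (ξ ⊕ Fin k0) → Ext C => t.realize w) := by
  cases t with
  | var i => exact ⟨0, FrT.var 0 i⟩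
  | @func l f ts =>
    rcases f with f | f
    · exact f.elim
    · match l, f with
      | 0, f => exact FrT.const (f : (Set.univ : Set (Ext C))).1

theorem Fr.formula {ξ : Type} [Finite ξ] {k0 : ℕ} (φ : (LN C).BoundedFormula ξ k0) :
    ∃ n0, Fr C n0 (fun w : (ξ ⊕ Fin k0) → Ext C => φ.Realize (fun i => w (Sum.inl i)) (fun i => w (Sum.inr i))) := by
  induction φ with
  | falsum => exact ⟨0, Fr.fls 0⟩
  | equal t1 t2 =>
    obtain ⟨n1, h1⟩ := FrT.term t1
    obtain ⟨n2, h2⟩ := FrT.term t2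
    refine ⟨max n1 n2, ?_⟩
    have := Fr.eq (h1.shift (le_max_left n1 n2)) (h2.shift (le_max_right n1 n2))
    convert this using 2 with w
    simp only [Language.BoundedFormula.Realize]
    have e : Sum.elim (fun i => w (Sum.inl i)) (fun i => w (Sum.inr i)) = w := Sum.elim_comp_inl_inr w
    rw [e]
  | rel R ts =>
    rcases R with R | R
    · cases R
      obtain ⟨n1, h1⟩ := FrT.term (ts 0)
      obtain ⟨n2, h2⟩ := FrT.term (ts 1)
      refine ⟨max n1 n2, ?_⟩
      have := Fr.mem (h1.shift (le_max_left n1 n2)) (h2.shift (le_max_right n1 n2))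
      convert this using 2 with w
      have e : Sum.elim (fun i => w (Sum.inl i)) (fun i => w (Sum.inr i)) = w := Sum.elim_comp_inl_inr w
      rw [← e]
      rfl
    · exact R.elim
  | imp φ ψ ih1 ih2 =>
    obtain ⟨n1, h1⟩ := ih1
    obtain ⟨n2, h2⟩ := ih2
    exact ⟨max n1 n2, Fr.imp (h1.shift (le_max_left n1 n2)) (h2.shift (le_max_right n1 n2))⟩
  | all φ ih =>
    obtain ⟨n1, h1⟩ := ih
    refine ⟨n1, ?_⟩
    have := Fr.all h1
    convert this using 2 with w
    simp only [Language.BoundedFormula.Realize]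
    constructor
    · intro h x; exact h x
    · intro h x; exact h x

/-- definable predicates on the extension are forceable -/
theorem Fr.of_DS {ξ : Type} [Finite ξ] {S : Set (ξ → Ext C)} (hS : DS (Ext C) S) : ∃ n0, Fr C n0 (fun w => w ∈ S) := by
  obtain ⟨φ, hφ⟩ := hS
  obtain ⟨n0, Fo, h1, h2, h3, h4⟩ := Fr.formula (C := C) φ
  have hF : DefF M (fun v : ξ → D.VN => (Sum.elim v Fin.elim0 : ξ ⊕ Fin 0 → D.VN)) := by
    apply DefF_pi
    intro k
    rcases k with i | i
    · exact DefF_apply i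
    · exact i.elim0
  have e1 : ∀ (v : ξ → D.VN) g, renV (Sum.elim v Fin.elim0 : ξ ⊕ Fin 0 → D.VN) g = Sum.elim (renV v g) Fin.elim0 := by
    intro v g
    funext i
    rcases i with i | i
    · rfl
    · exact i.elim0
  refine ⟨n0, fun p f v => Fo p f (Sum.elim v Fin.elim0), by fun_prop, ?_, ?_, ?_⟩
  · intro p q f g v hq h
    have := h2 p q f g _ hq h
    rwa [e1] at this
  · intro p f v h
    apply h3
    intro q g hq
    obtain ⟨r, k, hr, h5⟩ := h q g hq
    refine ⟨r, k, hr, ?_⟩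
    rwa [e1, e1]
  · intro n hn v
    have := h4 n hn (Sum.elim v Fin.elim0)
    simp only [e1] at this
    rw [← this, hφ]
    simp only [Set.mem_ofPred_eq, Language.Formula.Realize]
    have e2 : (fun i : Fin 0 => valV C n (Sum.elim v Fin.elim0 : ξ ⊕ Fin 0 → D.VN) (Sum.inr i)) = default :=
      Subsingleton.elim _ _
    rw [e2]
    rfl

end FData

end Pool.Agent.Helper79.ZF
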