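import Pool.Agent.Helper79.Kurepa.Elem

/-!
# Countable models of ZFC exist (in Lean): an elementary submodel of the universe `ZFSet`
-/

namespace Pool.Agent.Helper79.ZF

open FirstOrder Set Cardinal

/-- A type with a membership relation is a structure for the language of set theory. -/
instance instStr1 (M : Type 1) [Membership M M] : LSet.Structure M where
  funMap := fun f => f.elim
  RelMap := fun {_} r => memRel.rec (motive := fun n _ => (Fin n → M) → Prop) (fun x => x 0 ∈ x 1) r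

/-- second-order ZF -/
structure ZFStrong (M : Type 1) [Membership M M] : Prop where
  ext : ∀ x y : M, (∀ z : M, z ∈ x ↔ z ∈ y) → x = y
  found : ∀ x : M, (∃ y : M, y ∈ x) → ∃ y : M, y ∈ x ∧ ∀ z : M, z ∈ y → ¬ z ∈ x
  pair : ∀ x y : M, ∃ z : M, ∀ w : M, w ∈ z ↔ (w = x ∨ w = y)
  union : ∀ x : M, ∃ y : M, ∀ z : M, z ∈ y ↔ ∃ w : M, w ∈ x ∧ z ∈ w
  power : ∀ x : M, ∃ y : M, ∀ z : M, z ∈ y ↔ ∀ w : M, w ∈ z → w ∈ x
  infinity : ∃ x : M, (∃ e : M, e ∈ x ∧ ∀ z : M, ¬ z ∈ e) ∧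
    ∀ y : M, y ∈ x → ∃ z : M, z ∈ x ∧ ∀ w : M, w ∈ z ↔ (w ∈ y ∨ w = y)
  separation : ∀ S : Set M, ∀ x : M, ∃ y : M, ∀ z : M, z ∈ y ↔ (z ∈ x ∧ z ∈ S)
  replacement : ∀ R : M → M → Prop, ∀ x : M,
    (∀ y : M, y ∈ x → ∃ z : M, R y z ∧ ∀ z' : M, R y z' → z' = z) → ∃ w : M, ∀ z : M, z ∈ w ↔ ∃ y : M, y ∈ x ∧ R y z

section
variable {S : Type} {M : Type 1} [Membership S S] [Membership M M]

/-- a pair of relations given by the same formula -/
def UD1 {α : Type} (RS : (α → S) → Prop) (RM : (α → M) → Prop) : Prop :=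
  ∃ φ : LSet.Formula α, (∀ v, RS v ↔ φ.Realize v) ∧ (∀ v, RM v ↔ φ.Realize v)

variable {α : Type}

theorem UD1.mem (i j : α) : UD1 (fun v : α → S => v i ∈ v j) (fun v : α → M => v i ∈ v j) := by
  refine ⟨Language.Relations.formula₂ (show LSet.Relations 2 from .mem) (Language.Term.var i) (Language.Term.var j), ?_, ?_⟩ <;>
  · intro v
    rw [Language.Formula.realize_rel₂]
    simp [Language.Structure.RelMap]

theorem UD1.eq (i j : α) : UD1 (fun v : α → S => v i = v j) (fun v : α → M => v i = v j) := by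
  refine ⟨(Language.Term.var i).equal (Language.Term.var j), ?_, ?_⟩ <;>
  · intro v
    simp

theorem UD1.not {A : (α → S) → Prop} {B : (α → M) → Prop} (h : UD1 A B) : UD1 (fun v => ¬ A v) (fun v => ¬ B v) := by
  obtain ⟨φ, h1, h2⟩ := h
  exact ⟨∼φ, fun v => by beta_reduce; rw [h1, Language.Formula.realize_not], fun v => by beta_reduce; rw [h2, Language.Formula.realize_not]⟩

theorem UD1.and {A A' : (α → S) → Prop} {B B' : (α → M) → Prop} (h : UD1 A B) (h' : UD1 A' B') :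
    UD1 (fun v => A v ∧ A' v) (fun v => B v ∧ B' v) := by
  obtain ⟨φ, h1, h2⟩ := h
  obtain ⟨ψ, h3, h4⟩ := h'
  exact ⟨φ ⊓ ψ, fun v => by beta_reduce; rw [h1, h3, Language.Formula.realize_inf], fun v => by beta_reduce; rw [h2, h4, Language.Formula.realize_inf]⟩

theorem UD1.or {A A' : (α → S) → Prop} {B B' : (α → M) → Prop} (h : UD1 A B) (h' : UD1 A' B') :
    UD1 (fun v => A v ∨ A' v) (fun v => B v ∨ B' v) := by
  obtain ⟨φ, h1, h2⟩ := h
  obtain ⟨ψ, h3, h4⟩ := h'
  exact ⟨φ ⊔ ψ, fun v => by beta_reduce; rw [h1, h3, Language.Formula.realize_sup], fun v => by beta_reduce; rw [h2, h4, Language.Formula.realize_sup]⟩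

theorem UD1.imp {A A' : (α → S) → Prop} {B B' : (α → M) → Prop} (h : UD1 A B) (h' : UD1 A' B') :
    UD1 (fun v => A v → A' v) (fun v => B v → B' v) := by
  obtain ⟨φ, h1, h2⟩ := h
  obtain ⟨ψ, h3, h4⟩ := h'
  exact ⟨φ.imp ψ, fun v => by beta_reduce; rw [h1, h3, Language.Formula.realize_imp], fun v => by beta_reduce; rw [h2, h4, Language.Formula.realize_imp]⟩

theorem UD1.iff {A A' : (α → S) → Prop} {B B' : (α → M) → Prop} (h : UD1 A B) (h' : UD1 A' B') :
    UD1 (fun v => A v ↔ A' v) (fun v => B v ↔ B' v) := by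
  obtain ⟨φ, h1, h2⟩ := h
  obtain ⟨ψ, h3, h4⟩ := h'
  exact ⟨φ.iff ψ, fun v => by beta_reduce; rw [h1, h3, Language.Formula.realize_iff], fun v => by beta_reduce; rw [h2, h4, Language.Formula.realize_iff]⟩

theorem UD1.all {A : (α → S) → S → Prop} {B : (α → M) → M → Prop}
    (h : UD1 (fun v : (α ⊕ Unit) → S => A (fun i => v (Sum.inl i)) (v (Sum.inr ())))
      (fun v : (α ⊕ Unit) → M => B (fun i => v (Sum.inl i)) (v (Sum.inr ())))) :
    UD1 (fun v => ∀ x, A v x) (fun v => ∀ x, B v x) := by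
  obtain ⟨φ, h1, h2⟩ := h
  refine ⟨φ.iAlls Unit, fun v => ?_, fun v => ?_⟩
  · rw [Language.Formula.realize_iAlls]
    constructor
    · intro h i
      rw [← h1]
      exact h _
    · intro h x
      have := h (fun _ => x)
      rw [← h1] at this
      exact this
  · rw [Language.Formula.realize_iAlls]
    constructor
    · intro h i
      rw [← h2]
      exact h _
    · intro h x
      have := h (fun _ => x)
      rw [← h2] at this
      exact this

theorem UD1.ex {A : (α → S) → S → Prop} {B : (α → M) → M → Prop}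
    (h : UD1 (fun v : (α ⊕ Unit) → S => A (fun i => v (Sum.inl i)) (v (Sum.inr ())))
      (fun v : (α ⊕ Unit) → M => B (fun i => v (Sum.inl i)) (v (Sum.inr ())))) :
    UD1 (fun v => ∃ x, A v x) (fun v => ∃ x, B v x) := by
  have h' := (UD1.all (A := fun v x => ¬ A v x) (B := fun v x => ¬ B v x) h.not).not
  simpa only [not_forall, not_not] using h'

theorem UD1.comp {β : Type} {A : (β → S) → Prop} {B : (β → M) → Prop} (h : UD1 A B) (r : β → α) :
    UD1 (fun v : α → S => A (fun i => v (r i))) (fun v : α → M => B (fun i => v (r i))) := by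
  obtain ⟨φ, h1, h2⟩ := h
  exact ⟨φ.relabel r, fun v => by beta_reduce; rw [h1, Language.Formula.realize_relabel]; rfl,
    fun v => by beta_reduce; rw [h2, Language.Formula.realize_relabel]; rfl⟩

/-- an elementary embedding, for the language of set theory -/
def Elem1 (j : S → M) : Prop := ∀ (α : Type) (φ : LSet.Formula α) (v : α → S), φ.Realize (fun i => j (v i)) ↔ φ.Realize v

theorem UD1.transfer {j : S → M} (hj : Elem1 j) {A : (α → S) → Prop} {B : (α → M) → Prop} (h : UD1 A B) (v : α → S) :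
    A v ↔ B (fun i => j (v i)) := by
  obtain ⟨φ, h1, h2⟩ := h
  rw [h1, h2, hj]

theorem Elem1.inj {j : S → M} (hj : Elem1 j) {x y : S} (h : j x = j y) : x = y :=
  (UD1.transfer hj (UD1.eq (α := Bool) true false) (fun b => if b then x else y)).2 (by simpa using h)

theorem Elem1.mem {j : S → M} (hj : Elem1 j) {x y : S} : x ∈ y ↔ j x ∈ j y := by
  have := UD1.transfer hj (UD1.mem (α := Bool) true false) (fun b => if b then x else y)
  simpa using this

theorem Elem1.zf {j : S → M} (hj : Elem1 j) (hM : ZFStrong M) : ZFModel S where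
  ext := by
    have := UD1.transfer hj (UD1.all (α := Empty) (A := fun _ x => ∀ y : S, (∀ z : S, z ∈ x ↔ z ∈ y) → x = y)
      (B := fun _ x => ∀ y : M, (∀ z : M, z ∈ x ↔ z ∈ y) → x = y)
      (UD1.all (A := fun v y => (∀ z : S, z ∈ v (Sum.inr ()) ↔ z ∈ y) → v (Sum.inr ()) = y)
        (B := fun v y => (∀ z : M, z ∈ v (Sum.inr ()) ↔ z ∈ y) → v (Sum.inr ()) = y)
        (UD1.imp (UD1.all (UD1.iff (UD1.mem (Sum.inr ()) (Sum.inl (Sum.inl (Sum.inr ())))) (UD1.mem (Sum.inr ()) (Sum.inl (Sum.inr ()))))) (UD1.eq _ _)))) Empty.elim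
    exact this.2 (fun x y h => hM.ext x y h)
  found := by
    have := UD1.transfer hj (UD1.all (α := Empty) (A := fun _ x => (∃ y : S, y ∈ x) → ∃ y : S, y ∈ x ∧ ∀ z : S, z ∈ y → ¬ z ∈ x)
      (B := fun _ x => (∃ y : M, y ∈ x) → ∃ y : M, y ∈ x ∧ ∀ z : M, z ∈ y → ¬ z ∈ x)
      (UD1.imp (UD1.ex (UD1.mem _ _)) (UD1.ex (UD1.and (UD1.mem _ _) (UD1.all (UD1.imp (UD1.mem _ _) (UD1.not (UD1.mem _ _)))))))) Empty.elim
    exact this.2 (fun x h => hM.found x h)
  pair := by
    have := UD1.transfer hj (UD1.all (α := Empty) (A := fun _ x => ∀ y : S, ∃ z : S, ∀ w : S, w ∈ z ↔ (w = x ∨ w = y))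
      (B := fun _ x => ∀ y : M, ∃ z : M, ∀ w : M, w ∈ z ↔ (w = x ∨ w = y))
      (UD1.all (A := fun v y => ∃ z : S, ∀ w : S, w ∈ z ↔ (w = v (Sum.inr ()) ∨ w = y))
        (B := fun v y => ∃ z : M, ∀ w : M, w ∈ z ↔ (w = v (Sum.inr ()) ∨ w = y))
        (UD1.ex (UD1.all (UD1.iff (UD1.mem _ _) (UD1.or (UD1.eq _ _) (UD1.eq _ _))))))) Empty.elim
    exact this.2 (fun x y => hM.pair x y)
  union := by
    have := UD1.transfer hj (UD1.all (α := Empty) (A := fun _ x => ∃ y : S, ∀ z : S, z ∈ y ↔ ∃ w : S, w ∈ x ∧ z ∈ w)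
      (B := fun _ x => ∃ y : M, ∀ z : M, z ∈ y ↔ ∃ w : M, w ∈ x ∧ z ∈ w)
      (UD1.ex (UD1.all (UD1.iff (UD1.mem _ _) (UD1.ex (UD1.and (UD1.mem _ _) (UD1.mem _ _))))))) Empty.elim
    exact this.2 (fun x => hM.union x)
  power := by
    have := UD1.transfer hj (UD1.all (α := Empty) (A := fun _ x => ∃ y : S, ∀ z : S, z ∈ y ↔ ∀ w : S, w ∈ z → w ∈ x)
      (B := fun _ x => ∃ y : M, ∀ z : M, z ∈ y ↔ ∀ w : M, w ∈ z → w ∈ x)
      (UD1.ex (UD1.all (UD1.iff (UD1.mem _ _) (UD1.all (UD1.imp (UD1.mem _ _) (UD1.mem _ _))))))) Empty.elim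
    exact this.2 (fun x => hM.power x)
  infinity := by
    have := UD1.transfer hj (UD1.ex (α := Empty) (A := fun _ x => (∃ e : S, e ∈ x ∧ ∀ z : S, ¬ z ∈ e) ∧
        ∀ y : S, y ∈ x → ∃ z : S, z ∈ x ∧ ∀ w : S, w ∈ z ↔ (w ∈ y ∨ w = y))
      (B := fun _ x => (∃ e : M, e ∈ x ∧ ∀ z : M, ¬ z ∈ e) ∧
        ∀ y : M, y ∈ x → ∃ z : M, z ∈ x ∧ ∀ w : M, w ∈ z ↔ (w ∈ y ∨ w = y))
      (UD1.and (UD1.ex (UD1.and (UD1.mem _ _) (UD1.all (UD1.not (UD1.mem _ _)))))
        (UD1.all (UD1.imp (UD1.mem _ _) (UD1.ex (UD1.and (UD1.mem _ _) (UD1.all (UD1.iff (UD1.mem _ _) (UD1.or (UD1.mem _ _) (UD1.eq _ _)))))))))) Empty.elim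
    exact this.2 hM.infinity
  separation := by
    intro X hX x
    rw [Set.Definable₁, Set.definable_iff_exists_formula_sum] at hX
    obtain ⟨φ, hφ⟩ := hX
    -- the set defined by the same formula in the big model
    have h1 : UD1 (fun v : (((Set.univ : Set S) ⊕ Fin 1) → S) => φ.Realize v) (fun v : (((Set.univ : Set S) ⊕ Fin 1) → M) => φ.Realize v) :=
      ⟨φ, fun _ => Iff.rfl, fun _ => Iff.rfl⟩
    have h2 : UD1 (fun v : (((Set.univ : Set S) ⊕ Fin 1) → S) => ∃ y : S, ∀ z : S, z ∈ y ↔ (z ∈ v (Sum.inr 0) ∧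
        φ.Realize (Sum.elim (fun i => v (Sum.inl i)) (fun _ => z))))
      (fun v : (((Set.univ : Set S) ⊕ Fin 1) → M) => ∃ y : M, ∀ z : M, z ∈ y ↔ (z ∈ v (Sum.inr 0) ∧
        φ.Realize (Sum.elim (fun i => v (Sum.inl i)) (fun _ => z)))) := by
      refine UD1.ex (UD1.all (UD1.iff (UD1.mem _ _) (UD1.and (UD1.mem _ _) ?_)))
      have h3 := h1.comp (α := ((((Set.univ : Set S) ⊕ Fin 1) ⊕ Unit) ⊕ Unit))
        (Sum.elim (fun i => Sum.inl (Sum.inl (Sum.inl i))) (fun _ => Sum.inr ()))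
      convert h3 using 2 with v
      · congr! 1
        funext i; rcases i with i | i <;> rfl
      · congr! 1
        funext i; rcases i with i | i <;> rfl
    obtain ⟨y, hy⟩ := (h2.transfer hj (Sum.elim (fun i => i.1) (fun _ => x))).2 (by
      exact hM.separation {z : M | φ.Realize (Sum.elim (fun i : (Set.univ : Set S) => j i.1) (fun _ : Fin 1 => z))} (j x) |>.imp
        (fun y hy z => by
          rw [hy]
          refine and_congr Iff.rfl ?_
          exact Iff.rfl))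
    refine ⟨y, fun z => ?_⟩
    rw [hy]
    refine and_congr Iff.rfl ?_
    have : (z ∈ X) ↔ (fun _ : Fin 1 => z) ∈ {x : Fin 1 → S | X (x 0)} := Iff.rfl
    rw [this]
    have h5 := Set.ext_iff.1 hφ (fun _ => z)
    exact h5.symm
  replacement := by
    intro X hX x hx
    rw [Set.Definable₂, Set.definable_iff_exists_formula_sum] at hX
    obtain ⟨φ, hφ⟩ := hX
    have h1 : UD1 (fun v : (((Set.univ : Set S) ⊕ Fin 2) → S) => φ.Realize v) (fun v : (((Set.univ : Set S) ⊕ Fin 2) → M) => φ.Realize v) :=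
      ⟨φ, fun _ => Iff.rfl, fun _ => Iff.rfl⟩
    let pS : (↥(Set.univ : Set S) → S) → S → S → Prop := fun p a b =>
      φ.Realize (Sum.elim p (fun i : Fin 2 => if i = 0 then a else b))
    let pM : (↥(Set.univ : Set S) → M) → M → M → Prop := fun p a b =>
      φ.Realize (Sum.elim p (fun i : Fin 2 => if i = 0 then a else b))
    have base : ∀ {β : Type} (r : ↥(Set.univ : Set S) → β) (a b : β), UD1 (fun v : β → S => pS (fun i => v (r i)) (v a) (v b))
        (fun v : β → M => pM (fun i => v (r i)) (v a) (v b)) := by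
      intro β r a b
      have h3 := h1.comp (α := β) (Sum.elim r (fun i : Fin 2 => if i = 0 then a else b))
      convert h3 using 2 with v
      · simp only [pS]
        congr! 1
        funext i; rcases i with i | i
        · rfl
        · by_cases hi : i = 0 <;> simp [hi]
      · simp only [pM]
        congr! 1
        funext i; rcases i with i | i
        · rfl
        · by_cases hi : i = 0 <;> simp [hi]
    have h2 : UD1 (fun v : (((Set.univ : Set S) ⊕ Unit) → S) =>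
        (∀ y : S, y ∈ v (Sum.inr ()) → ∃ z : S, pS (fun i => v (Sum.inl i)) y z ∧ ∀ z' : S, pS (fun i => v (Sum.inl i)) y z' → z' = z) →
        ∃ w : S, ∀ z : S, z ∈ w ↔ ∃ y : S, y ∈ v (Sum.inr ()) ∧ pS (fun i => v (Sum.inl i)) y z)
      (fun v : (((Set.univ : Set S) ⊕ Unit) → M) =>
        (∀ y : M, y ∈ v (Sum.inr ()) → ∃ z : M, pM (fun i => v (Sum.inl i)) y z ∧ ∀ z' : M, pM (fun i => v (Sum.inl i)) y z' → z' = z) →
        ∃ w : M, ∀ z : M, z ∈ w ↔ ∃ y : M, y ∈ v (Sum.inr ()) ∧ pM (fun i => v (Sum.inl i)) y z) := by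
      refine UD1.imp (UD1.all (UD1.imp (UD1.mem _ _) (UD1.ex (UD1.and ?_ (UD1.all (UD1.imp ?_ (UD1.eq _ _)))))))
        (UD1.ex (UD1.all (UD1.iff (UD1.mem _ _) (UD1.ex (UD1.and (UD1.mem _ _) ?_)))))
      · exact base _ _ _
      · exact base _ _ _
      · exact base _ _ _
    have hX' : ∀ a b, pS (fun i => i.1) a b ↔ (a, b) ∈ X := by
      intro a b
      have h5 := Set.ext_iff.1 hφ (fun i : Fin 2 => if i = 0 then a else b)
      exact h5.symm
    obtain ⟨y, hy⟩ := (h2.transfer hj (Sum.elim (fun i => i.1) (fun _ => x))).2 (by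
      intro h6
      have h7 := hM.replacement (fun a b => pM (fun i => j i.1) a b) (j x) (by
        intro y hy
        obtain ⟨z, hz1, hz2⟩ := h6 y hy
        exact ⟨z, hz1, hz2⟩)
      exact h7) (by
      intro y hy
      obtain ⟨z, hz1, hz2⟩ := hx y hy
      exact ⟨z, (hX' _ _).2 hz1, fun z' hz' => hz2 z' ((hX' _ _).1 hz')⟩)
    refine ⟨y, fun z => ?_⟩
    rw [hy]
    constructor
    · rintro ⟨y', h5, h6⟩; exact ⟨y', h5, (hX' _ _).1 h6⟩
    · rintro ⟨y', h5, h6⟩; exact ⟨y', h5, (hX' _ _).2 h6⟩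

end


theorem zfset_strong : ZFStrong ZFSet.{0} where
  ext := fun x y h => ZFSet.ext h
  found := fun x h => by
    obtain ⟨y, hy⟩ := h
    obtain ⟨z, hz, h1⟩ := ZFSet.regularity x (by rintro rfl; exact ZFSet.notMem_empty _ hy)
    refine ⟨z, hz, fun w hw hx => ?_⟩
    have : w ∈ x ∩ z := ZFSet.mem_inter.2 ⟨hx, hw⟩
    rw [h1] at this
    exact ZFSet.notMem_empty _ this
  pair := fun x y => ⟨{x, y}, fun w => ZFSet.mem_pair⟩
  union := fun x => ⟨ZFSet.sUnion x, fun z => by rw [ZFSet.mem_sUnion]⟩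
  power := fun x => ⟨ZFSet.powerset x, fun z => by rw [ZFSet.mem_powerset, ZFSet.subset_def]⟩
  infinity := ⟨ZFSet.omega, ⟨∅, ZFSet.omega_zero, fun z => ZFSet.notMem_empty z⟩, fun y hy =>
    ⟨insert y y, ZFSet.omega_succ hy, fun w => by rw [ZFSet.mem_insert_iff, or_comm]⟩⟩
  separation := fun S x => ⟨ZFSet.sep (fun z => z ∈ S) x, fun z => ZFSet.mem_sep⟩
  replacement := fun R x h => by
    choose f hf hf' using h
    refine ⟨ZFSet.range (fun y : x => f y.1 y.2), fun z => ?_⟩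
    rw [ZFSet.mem_range]
    constructor
    · rintro ⟨y, rfl⟩; exact ⟨y.1, y.2, hf _ _⟩
    · rintro ⟨y, hy, hR⟩; exact ⟨⟨y, hy⟩, (hf' y hy z hR).symm⟩

end Pool.Agent.Helper79.ZF

namespace Pool.Agent.Helper79.Kurepa

open Pool.Agent.Helper79.ZF FirstOrder Set Cardinal

section
variable {S : Type} {M : Type 1} [Membership S S] [Membership M M] {α : Type}

/-- Kuratowski pairs, at level one -/
def IsPair1 (p x y : M) : Prop :=
  ∀ z : M, z ∈ p ↔ ((∀ w : M, w ∈ z ↔ w = x) ∨ ∀ w : M, w ∈ z ↔ (w = x ∨ w = y))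

theorem UD1.isPair (i j k : α) : UD1 (fun v : α → S => IsPair (v i) (v j) (v k)) (fun v : α → M => IsPair1 (v i) (v j) (v k)) :=
  UD1.all (UD1.iff (UD1.mem _ _) (UD1.or (UD1.all (UD1.iff (UD1.mem _ _) (UD1.eq _ _))) (UD1.all (UD1.iff (UD1.mem _ _) (UD1.or (UD1.eq _ _) (UD1.eq _ _))))))

/-- the axiom of choice, at level one -/
def AC1 (M : Type 1) [Membership M M] : Prop := ∀ X : M, (∀ y : M, y ∈ X → ∃ z : M, z ∈ y) →
  ∃ f : M, ∀ y : M, y ∈ X → ∃ z : M, z ∈ y ∧ ∀ w p : M, IsPair1 p y w → (p ∈ f ↔ w = z)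

theorem UD1.ac : UD1 (fun _ : Empty → S => AC S) (fun _ : Empty → M => AC1 M) := by
  refine UD1.all (UD1.imp ?_ (UD1.ex ?_))
  · exact UD1.all (UD1.imp (UD1.mem _ _) (UD1.ex (UD1.mem _ _)))
  · refine UD1.all (UD1.imp (UD1.mem _ _) (UD1.ex (UD1.and (UD1.mem _ _) ?_)))
    exact UD1.all (UD1.all (UD1.imp (UD1.isPair _ _ _) (UD1.iff (UD1.mem _ _) (UD1.eq _ _))))

end

theorem zfset_pair {p x y : ZFSet.{0}} (h : IsPair1 p x y) : p = ZFSet.pair x y := by
  apply ZFSet.ext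
  intro z
  rw [h z]
  unfold ZFSet.pair
  rw [ZFSet.mem_pair]
  refine or_congr ?_ ?_
  · constructor
    · intro h1; apply ZFSet.ext; intro w; rw [h1 w, ZFSet.mem_singleton]
    · rintro rfl; intro w; rw [ZFSet.mem_singleton]
  · constructor
    · intro h1; apply ZFSet.ext; intro w; rw [h1 w, ZFSet.mem_pair]
    · rintro rfl; intro w; rw [ZFSet.mem_pair]

theorem zfset_ac : AC1 ZFSet.{0} := by
  intro X hX
  choose f hf using hX
  refine ⟨ZFSet.range (fun y : X => ZFSet.pair y.1 (f y.1 y.2)), fun y hy => ⟨f y hy, hf y hy, fun w p hp => ?_⟩⟩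
  rw [zfset_pair hp, ZFSet.mem_range]
  constructor
  · rintro ⟨z, hz⟩
    rw [ZFSet.pair_inj] at hz
    obtain ⟨z, hz'⟩ := z
    obtain ⟨h1, h2⟩ := hz
    simp only at h1 h2
    subst h1
    exact h2.symm
  · rintro rfl; exact ⟨⟨y, hy⟩, rfl⟩

/-- there is a countable model of ZFC -/
theorem exists_zfc : ∃ (S : Type) (_ : Membership S S), Countable S ∧ ZFCModel S := by
  have hinf : ℵ₀ ≤ #ZFSet.{0} := by
    have : Infinite ZFSet.{0} := by
      by_contra h
      rw [not_infinite_iff_finite] at h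
      have hc : Countable ZFSet.{0} := h.to_countable
      exact ZFSet.mem_irrefl (ZFSet.range (fun x : ZFSet.{0} => x)) (ZFSet.mem_range.2 ⟨_, rfl⟩)
    exact Cardinal.aleph0_le_mk _
  have hL : LSet.card ≤ ℵ₀ := by
    rw [Language.card, Cardinal.mk_le_aleph0_iff]
    unfold Language.Symbols LSet
    have : Countable (Σ l, memRel l) := by
      apply Function.Injective.countable (f := fun (_ : Σ l, memRel l) => ())
      rintro ⟨l, a⟩ ⟨l', b⟩ _
      cases a; cases b; rfl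
    infer_instance
  obtain ⟨S, _, hS⟩ := Language.exists_elementarySubstructure_card_eq LSet (∅ : Set ZFSet.{0}) (ℵ₀ : Cardinal.{1}) le_rfl (by simp)
    (by simpa using hL) (by simpa using hinf)
  have hSc : Countable S := by
    have : #S = ℵ₀ := by simpa using hS
    exact Cardinal.mk_le_aleph0_iff.1 this.le
  let e : Shrink.{0} S ≃ S := (equivShrink.{0} S).symm
  let mS : Membership (Shrink.{0} S) (Shrink.{0} S) := ⟨fun y x => (e x).1 ∈ (e y).1⟩
  have helem : ∀ (α : Type) (φ : LSet.Formula α) (v : α → S), φ.Realize (fun i => (v i).1) ↔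
      @Language.Formula.Realize LSet S S.inducedStructure α φ v := fun α φ v => S.subtype.map_formula φ v
  let E : @Language.Equiv LSet (Shrink.{0} S) S (instStr _) S.inducedStructure :=
    @Language.Equiv.mk LSet (Shrink.{0} S) S (instStr _) S.inducedStructure e (fun f => f.elim) (fun {n} r x => by
      cases r; exact Iff.rfl)
  have hE : Elem1 (fun x : Shrink.{0} S => (e x).1) := by
    intro α φ v
    rw [helem α φ (fun i => e (v i))]
    exact Language.StrongHomClass.realize_formula E φ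
  refine ⟨Shrink.{0} S, mS, e.injective.countable, hE.zf zfset_strong, (UD1.transfer hE UD1.ac Empty.elim).2 zfset_ac⟩

end Pool.Agent.Helper79.Kurepa
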